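import Pool.Agent.Lib.MP_781e3b_co.CN.Defs

/-!
Counting subsets, thresholds, and the behaviour of D under maps.
-/

namespace Pool.Agent.Lib.MP_781e3b_co.CN

open Set Function SimpleGraph

variable {Ω Ω' : Type} [Finite Ω] [Finite Ω'] {L : Lv} {G G₁ : SimpleGraph Ω}
  {G' : SimpleGraph Ω'} {Q Q₁ : Set Ω → Prop} {Q' : Set Ω' → Prop} {Z Z' T : Set Ω} {f : Ω → Ω'}
  {i j j' : ℕ}

theorem cnt_mono (hZ : Z ⊆ Z') (hQ : ∀ T ⊆ Z, Q T → Q₁ T) : cnt Q Z ≤ cnt Q₁ Z' := by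
  unfold cnt
  exact Set.ncard_le_ncard (fun T hT => ⟨hT.1.trans hZ, hQ T hT.1 hT.2⟩) (Set.toFinite _)

theorem cnt_congr (hQ : ∀ T ⊆ Z, Q T ↔ Q₁ T) : cnt Q Z = cnt Q₁ Z :=
  le_antisymm (cnt_mono subset_rfl fun T hT => (hQ T hT).1)
    (cnt_mono subset_rfl fun T hT => (hQ T hT).2)

theorem cnt_eq_zero : cnt Q Z = 0 ↔ ∀ T ⊆ Z, ¬ Q T := by
  unfold cnt
  rw [Set.ncard_eq_zero (Set.toFinite _), Set.eq_empty_iff_forall_notMem]
  exact ⟨fun h T hT hq => h T ⟨hT, hq⟩, fun h T hT => h T hT.1 hT.2⟩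

theorem one_le_cnt : 1 ≤ cnt Q Z ↔ ∃ T ⊆ Z, Q T := by
  rw [Nat.one_le_iff_ne_zero, Ne, cnt_eq_zero]
  push Not
  rfl

theorem cnt_super : cnt Q Z + cnt Q Z' ≤ cnt Q (Z ∪ Z') + cnt Q (Z ∩ Z') := by
  unfold cnt
  rw [← Set.ncard_union_add_ncard_inter _ _ (Set.toFinite _) (Set.toFinite _)]
  refine add_le_add (Set.ncard_le_ncard ?_ (Set.toFinite _))
    (Set.ncard_le_ncard ?_ (Set.toFinite _))
  · rintro T (hT | hT)
    · exact ⟨hT.1.trans Set.subset_union_left, hT.2⟩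
    · exact ⟨hT.1.trans Set.subset_union_right, hT.2⟩
  · rintro T ⟨h1, h2⟩
    exact ⟨Set.subset_inter h1.1 h2.1, h1.2⟩

namespace Basic0Aux

omit [Finite Ω] [Finite Ω'] in
theorem img_inj (hf : InjOn f Z) {T T' : Set Ω} (hT : T ⊆ Z) (hT' : T' ⊆ Z)
    (h : f '' T = f '' T') : T = T' :=
  (hf.image_eq_image_iff hT hT').1 h

end Basic0Aux

theorem cnt_image_le (hf : InjOn f Z) (hQ : ∀ T ⊆ Z, Q T → Q' (f '' T)) :
    cnt Q Z ≤ cnt Q' (f '' Z) := by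
  unfold cnt
  refine Set.ncard_le_ncard_of_injOn (fun T => f '' T) ?_ ?_ (Set.toFinite _)
  · intro T hT
    exact ⟨Set.image_mono hT.1, hQ T hT.1 hT.2⟩
  · intro T hT T' hT' h
    exact Basic0Aux.img_inj hf hT.1 hT'.1 h

theorem cnt_image (hf : InjOn f Z) (hQ : ∀ T ⊆ Z, Q T ↔ Q' (f '' T)) :
    cnt Q' (f '' Z) = cnt Q Z := by
  refine le_antisymm ?_ (cnt_image_le hf fun T hT => (hQ T hT).1)
  unfold cnt
  have hsub : {T | T ⊆ f '' Z ∧ Q' T} ⊆ (fun T => f '' T) '' {T | T ⊆ Z ∧ Q T} := by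
    intro T' hT'
    obtain ⟨T, hT, rfl⟩ := Set.subset_image_iff.1 hT'.1
    exact ⟨T, ⟨hT, (hQ T hT).2 hT'.2⟩, rfl⟩
  exact (Set.ncard_le_ncard hsub (Set.toFinite _)).trans (Set.ncard_image_le (Set.toFinite _))

namespace Basic0Aux

open Classical in
theorem cnt_eq_sum (Q : Set Ω → Prop) (Z : Set Ω) [Fintype (Set Ω)] :
    (cnt Q Z : ℝ) = ∑ T : Set Ω, if T ⊆ Z ∧ Q T then (1 : ℝ) else 0 := by
  unfold cnt
  rw [Finset.sum_boole, Set.ncard_eq_toFinset_card']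
  congr 2
  ext T
  simp

end Basic0Aux

/-- Split the sets into those inside Cn and, for each i, those inside P i and not inside
Cn. -/
theorem cnt_flower {I : Type} [Fintype I] (Cn : Set Ω) (P : I → Set Ω)
    (hP : ∀ i i', i ≠ i' → Z ∩ P i ∩ P i' ⊆ Cn) (hQ : ∀ T ⊆ Z, Q T → T ⊆ Cn ∨ ∃ i, T ⊆ P i) :
    (cnt Q Z : ℝ) = cnt Q (Z ∩ Cn) + ∑ i, ((cnt Q (Z ∩ P i) : ℝ) - cnt Q (Z ∩ P i ∩ Cn)) := by
  classical
  have : Fintype (Set Ω) := Fintype.ofFinite _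
  simp only [Basic0Aux.cnt_eq_sum, ← Finset.sum_sub_distrib]
  rw [Finset.sum_comm, ← Finset.sum_add_distrib]
  refine Finset.sum_congr rfl fun T _ => ?_
  by_cases h1 : T ⊆ Z ∧ Q T
  · by_cases h2 : T ⊆ Cn
    · rw [if_pos h1, if_pos ⟨Set.subset_inter h1.1 h2, h1.2⟩, Finset.sum_eq_zero, add_zero]
      intro i _
      by_cases h3 : T ⊆ P i
      · rw [if_pos ⟨Set.subset_inter h1.1 h3, h1.2⟩,
          if_pos ⟨Set.subset_inter (Set.subset_inter h1.1 h3) h2, h1.2⟩, sub_self]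
      · rw [if_neg fun h => h3 (h.1.trans Set.inter_subset_right),
          if_neg fun h => h3 ((h.1.trans Set.inter_subset_left).trans Set.inter_subset_right),
          sub_self]
    · obtain ⟨i, hi⟩ := (hQ T h1.1 h1.2).resolve_left h2
      rw [if_pos h1, if_neg fun h => h2 (h.1.trans Set.inter_subset_right), zero_add,
        Finset.sum_eq_single i]
      · rw [if_pos ⟨Set.subset_inter h1.1 hi, h1.2⟩,
          if_neg fun h => h2 (h.1.trans Set.inter_subset_right), sub_zero]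
      · intro i' _ hne
        have h3 : ¬ T ⊆ P i' := fun h =>
          h2 ((Set.subset_inter (Set.subset_inter h1.1 h) hi).trans (hP i' i hne))
        rw [if_neg fun h => h3 (h.1.trans Set.inter_subset_right),
          if_neg fun h => h2 (h.1.trans Set.inter_subset_right), sub_self]
      · intro h
        exact absurd (Finset.mem_univ i) h
  · rw [if_neg h1, if_neg fun h => h1 ⟨h.1.trans Set.inter_subset_left, h.2⟩,
      Finset.sum_eq_zero, add_zero]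
    intro i _
    rw [if_neg fun h => h1 ⟨h.1.trans Set.inter_subset_left, h.2⟩,
      if_neg fun h => h1 ⟨(h.1.trans Set.inter_subset_left).trans Set.inter_subset_left, h.2⟩,
      sub_self]

theorem Lv.P.mono (h : L.P j') (hj : j ≤ j') : L.P j := fun i hi => h i (hi.trans_le hj)

theorem Lv.OK.P (h : L.OK) (hj : j ≤ L.l) : L.P j := fun i hi => (h.pos i (hi.trans_le hj)).le

theorem Lv.θ_anti (h : L.P j') (hj : j ≤ j') : L.θ j' ≤ L.θ j := by
  induction j', hj using Nat.le_induction with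
  | base => exact le_rfl
  | succ k hk ih =>
    have h1 := ih (h.mono (Nat.le_succ k))
    have h2 := h k (Nat.lt_succ_self k)
    have h3 : L.θ (k + 1) = L.θ k - L.ρ k := rfl
    linarith

theorem Lv.OK.m_lt (h : L.OK) (hj : j < L.l) : L.m < L.θ j := by
  have h1 : L.θ L.l ≤ L.θ (j + 1) := Lv.θ_anti (h.P le_rfl) hj
  have h2 := h.pos j hj
  have h3 : L.θ (j + 1) = L.θ j - L.ρ j := rfl
  have h4 := h.last
  linarith

theorem Lv.OK.m_le (h : L.OK) (hj : j ≤ L.l) : L.m ≤ L.θ j := by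
  have h1 : L.θ L.l ≤ L.θ j := Lv.θ_anti (h.P le_rfl) hj
  rwa [h.last] at h1

theorem Lv.OK.θ_le (h : L.OK) (hj : j ≤ L.l) : L.θ j ≤ 2 * L.m - 1 :=
  Lv.θ_anti (j := 0) (h.P hj) (Nat.zero_le j)

theorem ec_hom (hf : InjOn f Z) (h : ∀ a ∈ Z, ∀ b ∈ Z, G.Adj a b → G'.Adj (f a) (f b)) :
    ec G Z ≤ ec G' (f '' Z) := by
  unfold ec
  refine cnt_image_le hf ?_
  rintro T hT ⟨a, b, hab, rfl⟩
  exact ⟨f a, f b, h a (hT (by simp)) b (hT (by simp)) hab, Set.image_pair f a b⟩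

theorem ec_iso (hf : InjOn f Z) (h : ∀ a ∈ Z, ∀ b ∈ Z, G.Adj a b ↔ G'.Adj (f a) (f b)) :
    ec G' (f '' Z) = ec G Z := by
  unfold ec
  refine cnt_image hf fun T hT => ⟨?_, ?_⟩
  · rintro ⟨a, b, hab, rfl⟩
    exact ⟨f a, f b, (h a (hT (by simp)) b (hT (by simp))).1 hab, Set.image_pair f a b⟩
  · rintro ⟨a', b', hab, he⟩
    obtain ⟨a, ha, rfl⟩ : a' ∈ f '' T := by rw [he]; simp
    obtain ⟨b, hb, rfl⟩ : b' ∈ f '' T := by rw [he]; simp
    refine ⟨a, b, (h a (hT ha) b (hT hb)).2 hab, ?_⟩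
    refine Basic0Aux.img_inj hf hT ?_ (by rw [he, Set.image_pair])
    rintro x (rfl | rfl)
    · exact hT ha
    · exact hT hb

namespace Basic0Aux

omit [Finite Ω] in
theorem adj_of_pair {H : SimpleGraph Ω} {a b c d : Ω} (hab : a ≠ b) (hcd : H.Adj c d)
    (h : ({a, b} : Set Ω) = {c, d}) : H.Adj a b := by
  rcases Set.pair_eq_pair_iff.1 h with ⟨rfl, rfl⟩ | ⟨rfl, rfl⟩
  · exact hcd
  · exact hcd.symm

end Basic0Aux

/-- Removing a subgraph removes its edges. -/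
theorem ec_sdiff (h : G₁ ≤ G) : ec (G \ G₁) Z + ec G₁ Z = ec G Z := by
  unfold ec cnt
  rw [← Set.ncard_union_eq ?_ (Set.toFinite _) (Set.toFinite _)]
  · congr 1
    ext T
    constructor
    · rintro (⟨hT, a, b, hab, rfl⟩ | ⟨hT, a, b, hab, rfl⟩)
      · exact ⟨hT, a, b, ((SimpleGraph.sdiff_adj _ _ _ _).1 hab).1, rfl⟩
      · exact ⟨hT, a, b, h hab, rfl⟩
    · rintro ⟨hT, a, b, hab, rfl⟩
      by_cases h1 : G₁.Adj a b
      · exact Or.inr ⟨hT, a, b, h1, rfl⟩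
      · exact Or.inl ⟨hT, a, b, (SimpleGraph.sdiff_adj _ _ _ _).2 ⟨hab, h1⟩, rfl⟩
  · rw [Set.disjoint_left]
    rintro T ⟨-, a, b, hab, rfl⟩ ⟨-, c, d, hcd, he⟩
    have h2 := (SimpleGraph.sdiff_adj _ _ _ _).1 hab
    exact h2.2 (Basic0Aux.adj_of_pair h2.1.ne hcd he)

end Pool.Agent.Lib.MP_781e3b_co.CN
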