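import Pool.Agent.Lib.MP_781e3b_co.CN.Basic0

/-!
Counting subsets, thresholds, and the behaviour of D under maps.
-/

namespace Pool.Agent.Lib.MP_781e3b_co.CN

open Set Function SimpleGraph

variable {Ω Ω' : Type} [Finite Ω] [Finite Ω'] {L : Lv} {G G₁ : SimpleGraph Ω}
  {G' : SimpleGraph Ω'} {Q Q₁ : Set Ω → Prop} {Q' : Set Ω' → Prop} {Z Z' T : Set Ω} {f : Ω → Ω'}
  {i j j' : ℕ}

theorem Mark.mono (h : Mark L G Z) (hZ : Z ⊆ Z') : Mark L G Z' :=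
  let ⟨K, h1, h2⟩ := h
  ⟨K, h1.trans hZ, h2⟩

theorem Mark.hom (h : Mark L G Z) (hf : InjOn f Z)
    (hh : ∀ a ∈ Z, ∀ b ∈ Z, G.Adj a b → G'.Adj (f a) (f b)) : Mark L G' (f '' Z) := by
  obtain ⟨K, h1, h2, h3⟩ := h
  have e := (hf.mono h1).ncard_image
  have : (ec G K : ℝ) ≤ ec G' (f '' K) := by
    exact_mod_cast ec_hom (hf.mono h1) fun a ha b hb => hh a (h1 ha) b (h1 hb)
  exact ⟨f '' K, image_mono h1, e.trans h2, by rw [e]; linarith⟩

theorem Mark.iso (hf : InjOn f Z) (hh : ∀ a ∈ Z, ∀ b ∈ Z, G.Adj a b ↔ G'.Adj (f a) (f b)) :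
    Mark L G' (f '' Z) ↔ Mark L G Z := by
  refine ⟨fun ⟨K', h1, h2⟩ => ?_, fun h => h.hom hf fun a ha b hb => (hh a ha b hb).1⟩
  obtain ⟨K, hK, rfl⟩ := subset_image_iff.1 h1
  refine ⟨K, hK, ?_⟩
  rwa [Mk, (hf.mono hK).ncard_image,
    ec_iso (G := G) (hf.mono hK) fun a ha b hb => hh a (hK ha) b (hK hb)] at h2

/-- Induction on j, for all Z. -/
theorem D_hom (hP : L.P j) (hf : InjOn f Z)
    (hh : ∀ a ∈ Z, ∀ b ∈ Z, G.Adj a b → G'.Adj (f a) (f b)) : D L G' j (f '' Z) ≤ D L G j Z := by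
  induction j generalizing Z with
  | zero =>
    have : (ec G Z : ℝ) ≤ ec G' (f '' Z) := by exact_mod_cast ec_hom hf hh
    rw [D_zero, D_zero, hf.ncard_image]
    linarith
  | succ j ih =>
    have hP' := hP.mono j.le_succ
    have : (cnt (Top L G j) Z : ℝ) ≤ cnt (Top L G' j) (f '' Z) :=
      Nat.cast_le.2 <| cnt_image_le hf fun T hT h =>
        ⟨(hf.mono hT).ncard_image.trans h.1,
          (ih hP' (hf.mono hT) fun a ha b hb => hh a (hT ha) b (hT hb)).trans h.2.1,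
          h.2.2.hom (hf.mono hT) fun a ha b hb => hh a (hT ha) b (hT hb)⟩
    rw [D_succ, D_succ]
    exact sub_le_sub (ih hP' hf hh) (mul_le_mul_of_nonneg_left this (hP j j.lt_succ_self))

theorem Top.hom (h : Top L G j T) (hP : L.P j) (hf : InjOn f T)
    (hh : ∀ a ∈ T, ∀ b ∈ T, G.Adj a b → G'.Adj (f a) (f b)) : Top L G' j (f '' T) := by
  exact ⟨hf.ncard_image.trans h.1, (D_hom hP hf hh).trans h.2.1, h.2.2.hom hf hh⟩

theorem D_iso (hf : InjOn f Z) (hh : ∀ a ∈ Z, ∀ b ∈ Z, G.Adj a b ↔ G'.Adj (f a) (f b)) :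
    D L G' j (f '' Z) = D L G j Z := by
  induction j generalizing Z with
  | zero => rw [D_zero, D_zero, hf.ncard_image, ec_iso hf hh]
  | succ j ih =>
    rw [D_succ, D_succ, ih hf hh, cnt_image (Q := Top L G j) hf fun T hT => ?_]
    have h := fun a ha b hb => hh a (hT ha) b (hT hb)
    rw [Top, Top, (hf.mono hT).ncard_image, ih (hf.mono hT) h, Mark.iso (hf.mono hT) h]

theorem Top.iso (hf : InjOn f T) (hh : ∀ a ∈ T, ∀ b ∈ T, G.Adj a b ↔ G'.Adj (f a) (f b)) :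
    Top L G' j (f '' T) ↔ Top L G j T := by
  rw [Top, Top, hf.ncard_image, D_iso hf hh, Mark.iso hf hh]

theorem D_mono (hP : L.P j) (hh : ∀ a ∈ Z, ∀ b ∈ Z, G.Adj a b → G₁.Adj a b) :
    D L G₁ j Z ≤ D L G j Z := by
  simpa using D_hom (f := id) (G' := G₁) hP (injOn_id Z) hh

theorem Top.mono (h : Top L G j T) (hP : L.P j)
    (hh : ∀ a ∈ T, ∀ b ∈ T, G.Adj a b → G₁.Adj a b) : Top L G₁ j T := by
  simpa using h.hom (f := id) (G' := G₁) hP (injOn_id T) hh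

theorem Mark.sup (h : Mark L G Z) (hh : ∀ a ∈ Z, ∀ b ∈ Z, G.Adj a b → G₁.Adj a b) :
    Mark L G₁ Z := by
  simpa using h.hom (f := id) (G' := G₁) (injOn_id Z) hh

theorem D_congr (hh : ∀ a ∈ Z, ∀ b ∈ Z, G.Adj a b ↔ G₁.Adj a b) : D L G₁ j Z = D L G j Z := by
  simpa using D_iso (L := L) (j := j) (f := id) (G' := G₁) (injOn_id Z) hh

theorem Top.congr (hh : ∀ a ∈ T, ∀ b ∈ T, G.Adj a b ↔ G₁.Adj a b) :
    Top L G₁ j T ↔ Top L G j T := by
  simpa using Top.iso (L := L) (j := j) (f := id) (G' := G₁) (injOn_id T) hh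

theorem W1.mono {S S' : Set Ω} (h : W1 L G S) (hS : S' ⊆ S) : W1 L G S' :=
  ⟨fun j hj Z hZ => h.ge j hj Z (hZ.trans hS), fun Z hZ => h.small Z (hZ.trans hS)⟩

/-- Pull back along an injective homomorphism. -/
theorem W1.hom {S : Set Ω} (hL : L.OK) (hf : InjOn f S)
    (hh : ∀ a ∈ S, ∀ b ∈ S, G.Adj a b → G'.Adj (f a) (f b)) (h : W1 L G' (f '' S)) :
    W1 L G S := by
  refine ⟨fun j hj Z hZ hn => ?_, fun Z hZ h1 h2 => ?_⟩
  · exact (h.ge j hj _ (image_mono hZ) (hn.image_of_injOn (hf.mono hZ))).trans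
      (D_hom (hL.P hj) (hf.mono hZ) fun a ha b hb => hh a (hZ ha) b (hZ hb))
  · rw [← (hf.mono hZ).ncard_image] at h1 h2
    exact (h.small _ (image_mono hZ) h1 h2).trans_le
      (D_hom (hL.P L.l.zero_le) (hf.mono hZ) fun a ha b hb => hh a (hZ ha) b (hZ hb))

/-- Push forward along an induced embedding. -/
theorem W1.iso {S : Set Ω} (hf : InjOn f S)
    (hh : ∀ a ∈ S, ∀ b ∈ S, G.Adj a b ↔ G'.Adj (f a) (f b)) (h : W1 L G S) :
    W1 L G' (f '' S) := by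
  refine ⟨fun j hj Z' hZ' hn => ?_, fun Z' hZ' h1 h2 => ?_⟩
  · obtain ⟨Z, hZ, rfl⟩ := subset_image_iff.1 hZ'
    rw [D_iso (G := G) (hf.mono hZ) fun a ha b hb => hh a (hZ ha) b (hZ hb)]
    exact h.ge j hj Z hZ (nontrivial_of_image _ _ hn)
  · obtain ⟨Z, hZ, rfl⟩ := subset_image_iff.1 hZ'
    rw [(hf.mono hZ).ncard_image] at h1 h2
    rw [D_iso (G := G) (hf.mono hZ) fun a ha b hb => hh a (hZ ha) b (hZ hb)]
    exact h.small Z hZ h1 h2

theorem Bd.hom (hL : L.OK) (hf : Injective f) (hh : ∀ a b, G.Adj a b → G'.Adj (f a) (f b))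
    (h : Bd L G') : Bd L G := by
  refine ⟨W1.hom hL hf.injOn (fun a _ b _ => hh a b) (h.w1.mono (subset_univ _)),
    fun j hj Z h1 h2 => ?_⟩
  rw [← (hf.injOn (s := Z)).ncard_image]
  exact h.top j hj _ ((D_hom (hL.P hj.le) hf.injOn fun a _ b _ => hh a b).trans h1)
    (h2.hom hf.injOn fun a _ b _ => hh a b)

theorem Bd.sub (hL : L.OK) (h : Bd L G) (hG : G₁ ≤ G) : Bd L G₁ :=
  Bd.hom (f := id) hL injective_id (fun _ _ h => hG h) h

end Pool.Agent.Lib.MP_781e3b_co.CN
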