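import Pool.Agent.Lib.MP_781e3b_co.CN.Basic2a

/-!
Submodularity, costs, small sets and the flower formula.
-/

namespace Pool.Agent.Lib.MP_781e3b_co.CN

open Set Function SimpleGraph

variable {Ω : Type} [Finite Ω] {L : Lv} {G : SimpleGraph Ω} {Z Z' Z₁ Z₂ T S : Set Ω} {i j j' : ℕ}
  {a b : Ω}

namespace Basic2Aux

theorem ec_zero (h : ∀ a ∈ Z, ∀ b ∈ Z, ¬ G.Adj a b) : ec G Z = 0 :=
  cnt_eq_zero.2 fun T hT ⟨a, b, hab, e⟩ =>
    h a (hT (by simp [e])) b (hT (by simp [e])) hab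

theorem nomark (hn : 3 ≤ L.n) (h : Z.ncard ≤ 2) : ¬ Mark L G Z := fun hM => by
  have := hM.three hn
  omega

omit [Finite Ω] in
theorem ec_pair (hab : G.Adj a b) : ec G {a, b} = 1 := by
  have : {T | T ⊆ ({a, b} : Set Ω) ∧ IsEdge G T} = {{a, b}} := by
    ext T
    simp only [mem_ofPred_eq, mem_singleton_iff]
    refine ⟨fun ⟨hT, c, d, hcd, e⟩ => ?_, fun e => ⟨e.subset, a, b, hab, e⟩⟩
    subst e
    have hc : c = a ∨ c = b := hT (by simp)
    have hd : d = a ∨ d = b := hT (by simp)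
    have := hcd.ne
    rcases hc with rfl | rfl <;> rcases hd with rfl | rfl
    · exact absurd rfl this
    · rfl
    · exact pair_comm _ _
    · exact absurd rfl this
  rw [ec, cnt, this, ncard_singleton]

theorem two_le (hZ : Z.Nontrivial) : (2 : ℝ) ≤ Z.ncard := by
  have : 1 < Z.ncard := (one_lt_ncard_iff_nontrivial).2 hZ
  exact_mod_cast this

end Basic2Aux

open Basic2Aux

theorem D_notop (hij : i ≤ j) (h : ∀ i', i ≤ i' → i' < j → ∀ T ⊆ Z, ¬ Top L G i' T) :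
    D L G j Z = D L G i Z := by
  induction j, hij using Nat.le_induction with
  | base => rfl
  | succ j hij ih =>
    rw [D_succ, cnt_eq_zero.2 (h j hij j.lt_succ_self),
      ih fun i' h1 h2 => h i' h1 (h2.trans j.lt_succ_self)]
    simp

theorem D_nomark (h : ¬ Mark L G Z) : D L G j Z = D L G 0 Z := by
  exact D_notop j.zero_le fun _ _ _ T hT ht => h (ht.2.2.mono hT)

theorem D_empty (hn : 3 ≤ L.n) : D L G j ∅ = 0 := by
  rw [D_nomark (nomark hn (by simp)), D_zero, ec_zero (by simp)]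
  simp

theorem D_singleton (hn : 3 ≤ L.n) : D L G j {a} = L.m := by
  rw [D_nomark (nomark hn (by simp)), D_zero, ec_zero (by simp)]
  simp

theorem D_pair (hn : 3 ≤ L.n) (hab : G.Adj a b) : D L G j {a, b} = 2 * L.m - 1 := by
  rw [D_nomark (nomark hn (ncard_pair hab.ne).le), D_zero, ec_pair hab, ncard_pair hab.ne]
  push_cast
  ring

theorem D_noedge (hm : 0 ≤ L.m) (hn : 3 ≤ L.n) (h : ∀ a ∈ Z, ∀ b ∈ Z, ¬ G.Adj a b) :
    D L G j Z = L.m * Z.ncard := by
  rw [D_nomark, D_zero, ec_zero h]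
  · simp
  · rintro ⟨K, hK, h1, h2⟩
    rw [ec_zero fun a ha b hb => h a (hK ha) b (hK hb), h1] at h2
    have h3 : (3 : ℝ) ≤ L.n := by exact_mod_cast hn
    have := mul_le_mul_of_nonneg_left h3 hm
    push_cast at h2
    linarith

theorem exists_edge (hL : L.OK) (hZ : Z.Nontrivial) (h : D L G j Z < 2 * L.m) :
    ∃ a ∈ Z, ∃ b ∈ Z, G.Adj a b := by
  by_contra hc
  push Not at hc
  have hm : 0 ≤ L.m := by linarith [hL.m1]
  rw [D_noedge hm hL.n3 hc] at h
  have := mul_le_mul_of_nonneg_left (two_le hZ) hm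
  linarith

theorem W1.m_le (h : W1 L G S) (hL : L.OK) (hj : j ≤ L.l) (hZ : Z ⊆ S) (hne : Z.Nonempty) :
    L.m ≤ D L G j Z := by
  rcases Z.subsingleton_or_nontrivial with hs | hs
  · obtain ⟨a, ha⟩ := hne
    rw [hs.eq_singleton_of_mem ha, D_singleton hL.n3]
  · exact (hL.m_le hj).trans (h.ge j hj Z hZ hs)

theorem W1.nonneg (h : W1 L G S) (hL : L.OK) (hj : j ≤ L.l) (hZ : Z ⊆ S) : 0 ≤ D L G j Z := by
  rcases Z.eq_empty_or_nonempty with rfl | hne
  · rw [D_empty hL.n3]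
  · linarith [h.m_le hL hj hZ hne, hL.m1]

theorem w1_noedge (hL : L.OK) (h : ∀ a ∈ S, ∀ b ∈ S, ¬ G.Adj a b) : W1 L G S := by
  have hm : 0 ≤ L.m := by linarith [hL.m1]
  have key : ∀ j, ∀ Z ⊆ S, Z.Nontrivial → 2 * L.m ≤ D L G j Z := fun j Z hZ hn => by
    rw [D_noedge hm hL.n3 fun a ha b hb => h a (hZ ha) b (hZ hb)]
    have := mul_le_mul_of_nonneg_left (two_le hn) hm
    linarith
  refine ⟨fun j hj Z hZ hn => ?_, fun Z hZ h3 _ => ?_⟩
  · linarith [key j Z hZ hn, hL.θ_le hj]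
  · linarith [key 0 Z hZ (nontrivial_of_three h3), hL.θ_le L.l.zero_le]

/-- At most two points. -/
theorem w1_pair (hL : L.OK) (h : S.ncard ≤ 2) : W1 L G S := by
  refine ⟨fun j hj Z hZ hn => ?_, fun Z hZ h3 _ => ?_⟩
  · by_contra hc
    have h1 := hL.θ_le hj
    obtain ⟨a, ha, b, hb, hab⟩ := exists_edge (G := G) (j := j) hL hn (by linarith)
    have h2 : ({a, b} : Set Ω) = Z := eq_of_subset_of_ncard_le (pair_subset ha hb)
      (by rw [ncard_pair hab.ne]; exact (ncard_le_ncard hZ).trans h)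
    rw [← h2, D_pair hL.n3 hab] at hc
    exact hc h1
  · have := ncard_le_ncard hZ
    omega

theorem Top.succ_tight (h : Top L G j T) (hρ : 0 ≤ L.ρ j) : D L G (j + 1) T ≤ L.θ (j + 1) := by
  have h1 : (1 : ℝ) ≤ cnt (Top L G j) T := by exact_mod_cast one_le_cnt.2 ⟨T, Subset.rfl, h⟩
  have h2 := mul_le_mul_of_nonneg_left h1 hρ
  have h3 := h.2.1
  rw [D_succ, Lv.θ]
  linarith

theorem exists_top (hL : L.OK) (h : W1 L G S) (hj : j < L.l) (hZ : Z ⊆ S) (hn : Z.Nontrivial)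
    (ht : D L G (j + 1) Z ≤ L.θ (j + 1)) : ∃ T ⊆ Z, Top L G j T := by
  by_contra hc
  push Not at hc
  rw [D_succ, cnt_eq_zero.2 hc, Lv.θ] at ht
  have h1 := h.ge j hj.le Z hZ hn
  have h2 := hL.pos j hj
  push_cast at ht
  linarith

end Pool.Agent.Lib.MP_781e3b_co.CN
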