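import Pool.Agent.Lib.MP_781e3b_co.CN.Basic1

/-!
Submodularity, costs, small sets and the flower formula.
-/

namespace Pool.Agent.Lib.MP_781e3b_co.CN

open Set Function SimpleGraph

variable {Ω : Type} [Finite Ω] {L : Lv} {G : SimpleGraph Ω} {Z Z' Z₁ Z₂ T S : Set Ω} {i j j' : ℕ}
  {a b : Ω}

namespace Basic2aAux

theorem cnt_le {Q : Set Ω → Prop} (h : Z' ⊆ Z) : (cnt Q Z' : ℝ) ≤ cnt Q Z := by
  exact_mod_cast cnt_mono h fun _ _ hq => hq

theorem cnt_lt {Q : Set Ω → Prop} (h : Z' ⊆ Z) (hT : T ⊆ Z) (hQ : Q T) (hn : ¬ T ⊆ Z') :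
    cnt Q Z' + 1 ≤ cnt Q Z := by
  unfold cnt
  refine Set.ncard_lt_ncard ⟨fun X hX => ⟨hX.1.trans h, hX.2⟩, fun hs => hn (hs ⟨hT, hQ⟩).1⟩
    (Set.toFinite _)

theorem cnt_union_eq {Q : Set Ω → Prop} (hd : Disjoint Z₁ Z₂) (hQ : ∀ T, Q T → T.Nonempty) :
    ({T | T ⊆ Z₁ ∧ Q T} ∪ {T | T ⊆ Z₂ ∧ Q T} : Set (Set Ω)).ncard = cnt Q Z₁ + cnt Q Z₂ := by
  unfold cnt
  refine Set.ncard_union_eq ?_ (Set.toFinite _) (Set.toFinite _)
  rw [Set.disjoint_left]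
  intro X h1 h2
  obtain ⟨x, hx⟩ := hQ X h1.2
  exact Set.disjoint_left.1 hd (h1.1 hx) (h2.1 hx)

theorem cnt_disj {Q : Set Ω → Prop} (h₁ : Z₁ ⊆ Z) (h₂ : Z₂ ⊆ Z) (hd : Disjoint Z₁ Z₂)
    (hQ : ∀ T, Q T → T.Nonempty) : cnt Q Z₁ + cnt Q Z₂ ≤ cnt Q Z := by
  rw [← cnt_union_eq hd hQ]
  unfold cnt
  refine Set.ncard_le_ncard ?_ (Set.toFinite _)
  rintro X (hX | hX)
  · exact ⟨hX.1.trans h₁, hX.2⟩
  · exact ⟨hX.1.trans h₂, hX.2⟩

theorem cnt_disj_lt {Q : Set Ω → Prop} (h₁ : Z₁ ⊆ Z) (h₂ : Z₂ ⊆ Z) (hd : Disjoint Z₁ Z₂)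
    (hQ : ∀ T, Q T → T.Nonempty) (hT : T ⊆ Z) (hq : Q T) (n₁ : ¬ T ⊆ Z₁) (n₂ : ¬ T ⊆ Z₂) :
    cnt Q Z₁ + cnt Q Z₂ + 1 ≤ cnt Q Z := by
  rw [← cnt_union_eq hd hQ]
  unfold cnt
  refine Set.ncard_lt_ncard ⟨?_, fun hs => ?_⟩ (Set.toFinite _)
  · rintro X (hX | hX)
    · exact ⟨hX.1.trans h₁, hX.2⟩
    · exact ⟨hX.1.trans h₂, hX.2⟩
  · rcases hs (show T ∈ {T | T ⊆ Z ∧ Q T} from ⟨hT, hq⟩) with hX | hX
    · exact n₁ hX.1
    · exact n₂ hX.1

omit [Finite Ω] in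
theorem ncard_eq_cnt (Z : Set Ω) : Z.ncard = cnt (fun T => ∃ x, T = {x}) Z := by
  unfold cnt
  rw [← Set.ncard_image_of_injective Z (f := fun x => ({x} : Set Ω)) Set.singleton_injective]
  congr 1
  ext X
  constructor
  · rintro ⟨x, hx, rfl⟩
    exact ⟨Set.singleton_subset_iff.2 hx, x, rfl⟩
  · rintro ⟨hX, x, rfl⟩
    exact ⟨x, Set.singleton_subset_iff.1 hX, rfl⟩

omit [Finite Ω] in
theorem edge_ne (T : Set Ω) (h : IsEdge G T) : T.Nonempty := by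
  obtain ⟨a, b, -, rfl⟩ := h
  exact ⟨a, by simp⟩

theorem card_split (h : Z' ⊆ Z) : (Z.ncard : ℝ) = Z'.ncard + (Z \ Z').ncard := by
  have := Set.ncard_sdiff_add_ncard_of_subset h (Set.toFinite Z)
  rw [← this]
  push_cast
  ring

end Basic2aAux

open Basic2aAux

theorem Mark.three (hn : 3 ≤ L.n) (h : Mark L G Z) : 3 ≤ Z.ncard := by
  obtain ⟨K, hK, h1, -⟩ := h
  exact (hn.trans h1.ge).trans (Set.ncard_le_ncard hK (Set.toFinite _))

theorem Top.three (hn : 3 ≤ L.n) (h : Top L G j T) : 3 ≤ T.ncard := h.2.2.three hn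

theorem nontrivial_of_three (h : 3 ≤ Z.ncard) : Z.Nontrivial := by
  exact (Set.one_lt_ncard_iff_nontrivial).1 (by omega)

theorem D_sub (hP : L.P j) : D L G j (Z ∪ Z') + D L G j (Z ∩ Z') ≤ D L G j Z + D L G j Z' := by
  induction j with
  | zero =>
    have h1 : (Z ∪ Z').ncard + (Z ∩ Z').ncard = Z.ncard + Z'.ncard :=
      Set.ncard_union_add_ncard_inter Z Z' (Set.toFinite _) (Set.toFinite _)
    have h2 : ((Z ∪ Z').ncard : ℝ) = Z.ncard + Z'.ncard - (Z ∩ Z').ncard := by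
      rw [eq_sub_iff_add_eq]
      exact_mod_cast h1
    have h3 : (ec G Z : ℝ) + ec G Z' ≤ ec G (Z ∪ Z') + ec G (Z ∩ Z') := by
      exact_mod_cast cnt_super (Q := IsEdge G)
    simp only [D_zero]
    rw [h2]
    linarith
  | succ j ih =>
    have h1 := ih (hP.mono (Nat.le_succ j))
    have h2 : (cnt (Top L G j) Z : ℝ) + cnt (Top L G j) Z' ≤
        cnt (Top L G j) (Z ∪ Z') + cnt (Top L G j) (Z ∩ Z') := by
      exact_mod_cast cnt_super (Q := Top L G j)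
    have h3 := mul_le_mul_of_nonneg_left h2 (hP j (Nat.lt_succ_self j))
    simp only [D_succ]
    linarith

theorem D_level (hP : L.P j') (hj : j ≤ j') : D L G j' Z ≤ D L G j Z := by
  induction j', hj using Nat.le_induction with
  | base => exact le_rfl
  | succ k hk ih =>
    have h1 := ih (hP.mono (Nat.le_succ k))
    have h2 : 0 ≤ L.ρ k * cnt (Top L G k) Z :=
      mul_nonneg (hP k (Nat.lt_succ_self k)) (Nat.cast_nonneg _)
    rw [D_succ]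
    linarith

theorem D_cost (hP : L.P j') (hj : j ≤ j') (h : Z' ⊆ Z) :
    D L G j' Z - D L G j' Z' ≤ D L G j Z - D L G j Z' := by
  induction j', hj using Nat.le_induction with
  | base => exact le_rfl
  | succ k hk ih =>
    have h1 := ih (hP.mono (Nat.le_succ k))
    have h2 := mul_le_mul_of_nonneg_left (cnt_le (Q := Top L G k) h) (hP k (Nat.lt_succ_self k))
    simp only [D_succ]
    linarith

/-- Tops are not empty, so the tops in Z₁ and in Z₂ are different tops in Z. -/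
theorem D_cost2 (hn : 3 ≤ L.n) (hP : L.P j') (hj : j ≤ j') (h₁ : Z₁ ⊆ Z) (h₂ : Z₂ ⊆ Z)
    (hd : Disjoint Z₁ Z₂) :
    D L G j' Z - D L G j' Z₁ - D L G j' Z₂ ≤ D L G j Z - D L G j Z₁ - D L G j Z₂ := by
  induction j', hj using Nat.le_induction with
  | base => exact le_rfl
  | succ k hk ih =>
    have h1 := ih (hP.mono (Nat.le_succ k))
    have h0 : (cnt (Top L G k) Z₁ : ℝ) + cnt (Top L G k) Z₂ ≤ cnt (Top L G k) Z := by
      exact_mod_cast cnt_disj h₁ h₂ hd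
        fun T hT => (nontrivial_of_three (Top.three hn hT)).nonempty
    have h2 := mul_le_mul_of_nonneg_left h0 (hP k (Nat.lt_succ_self k))
    simp only [D_succ]
    linarith

theorem D_le_add (hP : L.P j) (h : Z' ⊆ Z) : D L G j Z ≤ D L G j Z' + L.m * (Z \ Z').ncard := by
  have h1 := D_cost (G := G) hP (Nat.zero_le j) h
  have h2 : (ec G Z' : ℝ) ≤ ec G Z := cnt_le h
  simp only [D_zero] at h1
  rw [card_split h] at h1
  linarith

theorem D_le_add_edge (hP : L.P j) (h : Z' ⊆ Z) (ha : a ∈ Z) (hb : b ∈ Z) (hab : G.Adj a b)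
    (ha' : a ∉ Z') : D L G j Z + 1 ≤ D L G j Z' + L.m * (Z \ Z').ncard := by
  have h1 := D_cost (G := G) hP (Nat.zero_le j) h
  have h2 : (ec G Z' : ℝ) + 1 ≤ ec G Z := by
    exact_mod_cast cnt_lt (Q := IsEdge G) (T := {a, b}) h (Set.pair_subset ha hb) ⟨a, b, hab, rfl⟩
      fun hs => ha' (hs (by simp))
  simp only [D_zero] at h1
  rw [card_split h] at h1
  linarith

theorem D_union_edge (hn : 3 ≤ L.n) (hP : L.P j) (hd : Disjoint Z₁ Z₂) (ha : a ∈ Z₁) (hb : b ∈ Z₂)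
    (hab : G.Adj a b) : D L G j (Z₁ ∪ Z₂) + 1 ≤ D L G j Z₁ + D L G j Z₂ := by
  have h1 := D_cost2 (G := G) hn hP (Nat.zero_le j) (Set.subset_union_left (s := Z₁) (t := Z₂))
    Set.subset_union_right hd
  have h2 : (ec G Z₁ : ℝ) + ec G Z₂ + 1 ≤ ec G (Z₁ ∪ Z₂) := by
    exact_mod_cast cnt_disj_lt (Q := IsEdge G) (T := {a, b}) Set.subset_union_left
      Set.subset_union_right hd edge_ne (Set.pair_subset (Or.inl ha) (Or.inr hb)) ⟨a, b, hab, rfl⟩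
      (fun hs => Set.disjoint_left.1 hd (hs (by simp)) hb)
      (fun hs => Set.disjoint_left.1 hd ha (hs (by simp)))
  have h3 : ((Z₁ ∪ Z₂).ncard : ℝ) = Z₁.ncard + Z₂.ncard := by
    exact_mod_cast Set.ncard_union_eq hd (Set.toFinite _) (Set.toFinite _)
  simp only [D_zero] at h1
  rw [h3] at h1
  linarith

theorem D_le_card (hP : L.P j) : D L G j Z ≤ L.m * Z.ncard := by
  have h1 := D_level (G := G) (Z := Z) hP (Nat.zero_le j)
  have h2 : (0 : ℝ) ≤ ec G Z := Nat.cast_nonneg _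
  rw [D_zero] at h1
  linarith

/-- cnt_flower for single points, edges and tops. -/
theorem D_flower {I : Type} [Fintype I] (Cn : Set Ω) (P : I → Set Ω) (hc : Z ⊆ Cn ∪ ⋃ i, P i)
    (hP : ∀ i i', i ≠ i' → Z ∩ P i ∩ P i' ⊆ Cn)
    (he : ∀ a ∈ Z, ∀ b ∈ Z, G.Adj a b → (a ∈ Cn ∧ b ∈ Cn) ∨ ∃ i, a ∈ P i ∧ b ∈ P i)
    (ht : ∀ i < j, ∀ T ⊆ Z, Top L G i T → T ⊆ Cn ∨ ∃ i, T ⊆ P i) :
    D L G j Z = D L G j (Z ∩ Cn) + ∑ i, (D L G j (Z ∩ P i) - D L G j (Z ∩ P i ∩ Cn)) := by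
  induction j with
  | zero =>
    have h1 := cnt_flower (Q := fun T => ∃ x, T = {x}) Cn P hP (by
      rintro T hT ⟨x, rfl⟩
      rcases hc (Set.singleton_subset_iff.1 hT) with hx | hx
      · exact Or.inl (Set.singleton_subset_iff.2 hx)
      · obtain ⟨i, hi⟩ := Set.mem_iUnion.1 hx
        exact Or.inr ⟨i, Set.singleton_subset_iff.2 hi⟩)
    have h2 := cnt_flower (Q := IsEdge G) Cn P hP (by
      rintro T hT ⟨x, y, hxy, rfl⟩
      rcases he x (hT (by simp)) y (hT (by simp)) hxy with hx | ⟨i, hx⟩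
      · exact Or.inl (Set.pair_subset hx.1 hx.2)
      · exact Or.inr ⟨i, Set.pair_subset hx.1 hx.2⟩)
    simp only [← ncard_eq_cnt] at h1
    simp only [D_zero, ec]
    rw [h1, h2, mul_add, Finset.mul_sum]
    have h3 : ∀ i, L.m * ((Z ∩ P i).ncard : ℝ) - cnt (IsEdge G) (Z ∩ P i) -
        (L.m * ((Z ∩ P i ∩ Cn).ncard : ℝ) - cnt (IsEdge G) (Z ∩ P i ∩ Cn)) =
        L.m * (((Z ∩ P i).ncard : ℝ) - (Z ∩ P i ∩ Cn).ncard) -
          ((cnt (IsEdge G) (Z ∩ P i) : ℝ) - cnt (IsEdge G) (Z ∩ P i ∩ Cn)) := fun i => by ring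
    simp only [h3]
    rw [Finset.sum_sub_distrib (f := fun i => L.m * (((Z ∩ P i).ncard : ℝ) - (Z ∩ P i ∩ Cn).ncard))]
    ring
  | succ k ih =>
    have h1 := ih fun i hi => ht i (hi.trans (Nat.lt_succ_self k))
    have h2 := cnt_flower (Q := Top L G k) Cn P hP (ht k (Nat.lt_succ_self k))
    simp only [D_succ]
    rw [h1, h2, mul_add, Finset.mul_sum]
    have h3 : ∀ i, D L G k (Z ∩ P i) - L.ρ k * cnt (Top L G k) (Z ∩ P i) -
        (D L G k (Z ∩ P i ∩ Cn) - L.ρ k * cnt (Top L G k) (Z ∩ P i ∩ Cn)) =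
        (D L G k (Z ∩ P i) - D L G k (Z ∩ P i ∩ Cn)) -
          L.ρ k * ((cnt (Top L G k) (Z ∩ P i) : ℝ) - cnt (Top L G k) (Z ∩ P i ∩ Cn)) :=
      fun i => by ring
    simp only [h3]
    rw [Finset.sum_sub_distrib (f := fun i => D L G k (Z ∩ P i) - D L G k (Z ∩ P i ∩ Cn))]
    ring

theorem D_gap (L : Lv) (G : SimpleGraph Ω) :
    ∃ δ : ℝ, 0 < δ ∧ ∀ Z, L.m < D L G L.l Z → L.m + δ ≤ D L G L.l Z := by
  by_cases hne : {Z | L.m < D L G L.l Z}.Nonempty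
  · obtain ⟨Z₀, h0, hmin⟩ := Set.exists_min_image _ (D L G L.l) (Set.toFinite _) hne
    refine ⟨D L G L.l Z₀ - L.m, sub_pos.2 h0, fun Z hZ => ?_⟩
    have := hmin Z hZ
    linarith
  · exact ⟨1, one_pos, fun Z hZ => absurd ⟨Z, hZ⟩ hne⟩

end Pool.Agent.Lib.MP_781e3b_co.CN
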