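import Pool.Agent.Lib.MP_781e3b_co.CN.Beta2

/-!
The beta atom: conclusions.
-/

namespace Pool.Agent.Lib.MP_781e3b_co.CN

open Set Function SimpleGraph

namespace BetaAux
open BData
variable {V Φ U E : Type} [Finite V] [Finite Φ] [Finite U] [Finite E] {b : BData V Φ U E}
  {L : Lv} {F : Fib Φ} {G : SimpleGraph (V × Φ)} {A : Set V} {u u' : U} {Z : Set (V × Φ)} {j : ℕ}

omit [Finite V] [Finite Φ] in
theorem sub_up (Z : Set (V × Φ)) : Z ⊆ up (Prod.fst '' Z) := fun p hp => ⟨p, hp, rfl⟩

omit [Finite V] [Finite Φ] [Finite U] [Finite E] in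
theorem ι_inj (h : b.OK L F G A) : Injective b.ι := fun _ _ e => h.inj (congrArg Prod.fst e)

omit [Finite V] [Finite Φ] [Finite U] [Finite E] in
theorem mem_cp (hu : b.ι u ∈ Z) : u ∈ b.Cp Z := ⟨b.ι u, hu, rfl⟩

omit [Finite V] [Finite Φ] [Finite U] [Finite E] in
theorem i_empty (hu : u ∉ b.Cp Z) : b.I Z u = ∅ := not_nonempty_iff_eq_empty.1 hu

omit [Finite U] [Finite E] in
theorem m_le_i (h : b.OK L F G A) (hj : j ≤ L.l) (hu : u ∈ b.Cp Z) :
    L.m ≤ D L G j (b.I Z u) :=
  (good_fibre h.ctx (subsingleton_singleton (a := b.υ u))).num.w1.m_le h.ctx.hL hj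
    inter_subset_right hu

omit [Finite V] [Finite Φ] [Finite U] [Finite E] in
theorem card_ca (h : b.OK L F G A) (hZ : Z ⊆ range b.ι) : (b.Ca Z).ncard = Z.ncard := by
  rw [← ncard_image_of_injective (b.Ca Z) (ι_inj h), Ca, image_preimage_eq_of_subset hZ]

theorem act' (h : b.OK L F G A) (hZ : Z ⊆ up A) (hj : j ≤ L.l) (hr : Z ⊆ range b.ι) :
    D L b.Γ j (b.Ca Z) ≤ D L G j Z := by
  have := Fintype.ofFinite U
  have := Fintype.ofFinite E
  have := h.act hZ hj
  rwa [inter_eq_left.2 hr] at this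

theorem m_lt (h : b.OK L F G A) (hZ : Z ⊆ up A) (hn : (b.Cp Z).Nontrivial) :
    L.m < D L G L.l Z := by
  have := Fintype.ofFinite U
  have := Fintype.ofFinite E
  obtain ⟨u, hu, u', hu', hne⟩ := hn
  have h1 := h.lower_a hZ hne hu hu'
  have h2 := m_le_i h le_rfl hu
  have h3 := m_le_i h le_rfl hu'
  have h4 := h.k2
  linarith

theorem w1_all (h : b.OK L F G A) : W1 L G (up A) := by
  have := Fintype.ofFinite U
  have := Fintype.ofFinite E
  refine ⟨fun j hj Z hZ hn => ?_, fun Z hZ h3 hn => ?_⟩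
  · rcases (b.Cp Z).subsingleton_or_nontrivial with hs | hs
    · exact (h.sun hZ hs).1.num.w1.ge j hj Z (sub_up Z) hn
    · rcases hj.lt_or_eq with hj' | rfl
      · by_contra hc
        have hr := (h.tight hZ hj' hs (not_le.1 hc).le).1
        have h1 := act' h hZ hj hr
        have h2 : (b.Ca Z).Nontrivial := by
          rw [← one_lt_ncard_iff_nontrivial, card_ca h hr]
          exact one_lt_ncard_iff_nontrivial.2 hn
        exact hc ((h.w1.ge j hj _ (subset_univ _) h2).trans h1)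
      · rw [h.ctx.hL.last]
        exact (m_lt h hZ hs).le
  · rcases (b.Cp Z).subsingleton_or_nontrivial with hs | hs
    · exact (h.sun hZ hs).1.num.w1.small Z (sub_up Z) h3 hn
    · by_contra hc
      have hr := (h.tight hZ h.ctx.hL.l1 hs (not_lt.1 hc)).1
      have h1 := act' h hZ (Nat.zero_le _) hr
      have h2 := card_ca h hr
      exact hc ((h.w1.small _ (subset_univ _) (h2 ▸ h3) (h2 ▸ hn)).trans_le h1)

end BetaAux

namespace BData
open BetaAux
variable {V Φ U E : Type} [Finite V] [Finite Φ] [Finite U] [Finite E] {b : BData V Φ U E}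
  {L : Lv} {F : Fib Φ} {G : SimpleGraph (V × Φ)} {A : Set V} {u u' : U}

/-- For each Z: if Cp Z has at most one point use sun, else lower_b, tight. e1. -/
theorem OK.root (h : b.OK L F G A) (d : E) : Root L F G A (b.Wd d) := by
  have := Fintype.ofFinite U
  have := Fintype.ofFinite E
  refine ⟨fun Z hZ => ?_, fun j hj Z hZ ht hm hn => ?_, h.e1 fun d' => ?_⟩
  · rcases (b.Cp Z).subsingleton_or_nontrivial with hs | hs
    · exact ((h.sun hZ hs).2 d).str Z (sub_up Z)
    · exact h.lower_b hZ hs d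
  · rcases (b.Cp Z).subsingleton_or_nontrivial with hs | hs
    · exact ((h.sun hZ hs).2 d).sepa j hj Z (sub_up Z) ht hm hn
    · obtain ⟨hr, hd⟩ := h.tight hZ hj hs ht
      obtain ⟨p, hp, q, hq, hne⟩ := hn
      obtain ⟨v, rfl⟩ := hr hp.1
      obtain ⟨w, rfl⟩ := hr hq.1
      have h1 := mem_cp hp.1
      have h2 := mem_cp hq.1
      rcases (h.ends d v).1 hp.2 with rfl | rfl <;> rcases (h.ends d w).1 hq.2 with rfl | rfl
      · exact absurd rfl hne
      · exact absurd ⟨h1, h2⟩ (hd d)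
      · exact absurd ⟨h2, h1⟩ (hd d)
      · exact absurd rfl hne
  · by_cases e : d = d'
    · exact Or.inl (e ▸ subset_rfl)
    · exact Or.inr (h.meet d d' e)

/-- For each Z: sun, or tight, act, lower_a, lower_b. For v strictly inside a world
use root and the world; for other v outside range υ the fibre misses up A. -/
theorem OK.good_all (h : b.OK L F G A) : Good L F G A := by
  have := Fintype.ofFinite U
  have := Fintype.ofFinite E
  have hL := h.ctx.hL
  have w := w1_all h
  refine ⟨⟨w, fun v Z hZ => ?_, fun v j hj Z hZ ht hn => ?_, fun Z hZ ht => ?_⟩, fun v => ?_⟩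
  · rcases (b.Cp Z).subsingleton_or_nontrivial with hs | hs
    · exact (h.sun hZ hs).1.num.str v Z (sub_up Z)
    · rcases (Z ∩ Prod.fst ⁻¹' {v}).eq_empty_or_nonempty with he | ⟨p, hp, hv⟩
      · rw [he, D_empty hL.n3]
        exact w.nonneg hL le_rfl hZ
      · obtain rfl : p.1 = v := hv
        rcases h.cov (hZ hp) with ⟨u, hu⟩ | hd
        · have h0 : u ∈ b.Cp Z := ⟨p, hp, hu.symm⟩
          obtain ⟨u', hu', hne⟩ := hs.exists_ne u
          have h1 := h.lower_a hZ hne.symm h0 hu'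
          have h2 := m_le_i h le_rfl hu'
          have h3 := h.k2
          rw [← hu]
          change D L G L.l (b.I Z u) ≤ _
          linarith
        · obtain ⟨d, hd⟩ := mem_iUnion.1 hd
          have h1 := (h.root d).str Z hZ
          have h2 := (h.good d).num.str p.1 (Z ∩ up (b.Wd d)) fun q hq => ⟨hZ hq.1, hq.2⟩
          have h3 : Z ∩ up (b.Wd d) ∩ Prod.fst ⁻¹' {p.1} = Z ∩ Prod.fst ⁻¹' {p.1} := by
            ext q
            refine ⟨fun hq => ⟨hq.1.1, hq.2⟩, fun hq => ⟨⟨hq.1, ?_⟩, hq.2⟩⟩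
            have e : q.1 = p.1 := hq.2
            change q.1 ∈ b.Wd d
            rwa [e]
          rw [h3] at h2
          exact h2.trans h1
  · rcases (b.Cp Z).subsingleton_or_nontrivial with hs | hs
    · exact (h.sun hZ hs).1.num.fs v j hj Z (sub_up Z) ht hn
    · have hr := (h.tight hZ hj hs ht).1
      obtain ⟨p, hp, q, hq, hne⟩ := hn
      obtain ⟨x, rfl⟩ := hr hp.1
      obtain ⟨y, rfl⟩ := hr hq.1
      have e1 : b.υ x = v := hp.2
      have e2 : b.υ y = v := hq.2
      exact absurd (congrArg b.ι (h.inj (e1.trans e2.symm))) hne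
  · rcases (b.Cp Z).subsingleton_or_nontrivial with hs | hs
    · exact (h.sun hZ hs).1.num.t Z (sub_up Z) ht
    · exact absurd ht (not_le.2 (m_lt h hZ hs))
  · by_cases hv : v ∈ range b.υ
    · exact h.e1 fun d => Or.inr fun x hx => (mem_singleton_iff.1 hx.1) ▸ hv
    · by_cases hd : ∃ d, v ∈ b.Wd d
      · obtain ⟨d, hd⟩ := hd
        exact (h.root d).e.trans ((h.good d).e v) fun x hx => (mem_singleton_iff.1 hx.2) ▸ hd
      · exact h.e1 fun d => Or.inr fun x hx =>
          absurd ⟨d, (mem_singleton_iff.1 hx.1) ▸ hx.2⟩ hd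

/-- lower_a, or Num.str if one of the fibres misses Z. -/
theorem OK.posB (h : b.OK L F G A) (hne : u ≠ u') :
    PosB L G Prod.fst (up A) (b.υ u) (b.υ u') b.κ' := by
  have := Fintype.ofFinite U
  have := Fintype.ofFinite E
  intro Z hZ
  have hL := h.ctx.hL
  have k0 : 0 ≤ b.κ' := h.k0.trans h.k1
  have k2 := h.k2
  have key : D L G L.l (b.I Z u) + D L G L.l (b.I Z u') - b.κ' ≤ D L G L.l Z := by
    have s1 : D L G L.l (b.I Z u) ≤ D L G L.l Z := h.good_all.num.str (b.υ u) Z hZ
    have s2 : D L G L.l (b.I Z u') ≤ D L G L.l Z := h.good_all.num.str (b.υ u') Z hZ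
    by_cases hu : u ∈ b.Cp Z
    · by_cases hu' : u' ∈ b.Cp Z
      · exact h.lower_a hZ hne hu hu'
      · rw [i_empty hu', D_empty hL.n3]
        linarith
    · rw [i_empty hu, D_empty hL.n3]
      linarith
  refine ⟨?_, fun _ => key⟩
  change D L G L.l (b.I Z u) + D L G L.l (b.I Z u') - L.m ≤ _
  linarith

/-- str: both active: lower_a and D_union_edge; else lower_c and D_sub; one fibre only:
Num.str. sepa: by loc a marked tight set lies in a fibre or in a world (a marked set inside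
the active copy gives a marked set of Γ), a world holds at most one of the two points, Num.fs.
e1. -/
theorem OK.root_pair (h : b.OK L F G A) (hm : ∀ T, ¬ Mk L b.Γ T) (hκ : b.κ' = 1)
    (ha : b.Γ.Adj u u') (hG : G.Adj (b.ι u) (b.ι u'))
    (hd : ∀ d, ¬ (b.υ u ∈ b.Wd d ∧ b.υ u' ∈ b.Wd d)) : Root L F G A {b.υ u, b.υ u'} := by
  have := Fintype.ofFinite U
  have := Fintype.ofFinite E
  have hL := h.ctx.hL
  have g := h.good_all
  refine ⟨fun Z hZ => ?_, fun j hj Z hZ ht hk hn => ?_, h.e1 fun d => Or.inr fun x hx => ?_⟩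
  · have e : Z ∩ up {b.υ u, b.υ u'} = b.I Z u ∪ b.I Z u' := by
      ext p
      simp only [I, mem_inter_iff, mem_preimage, mem_insert_iff, mem_singleton_iff, mem_union]
      exact and_or_left
    have hdis : Disjoint (b.I Z u) (b.I Z u') := by
      rw [Set.disjoint_left]
      intro p hp hp'
      have e1 : p.1 = b.υ u := hp.2
      have e2 : p.1 = b.υ u' := hp'.2
      exact ha.ne (h.inj (e1.symm.trans e2))
    have hsub := D_sub (G := G) (Z := b.I Z u) (Z' := b.I Z u') (hL.P le_rfl)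
    rw [hdis.inter_eq, D_empty hL.n3] at hsub
    rw [e]
    by_cases hu : u ∈ b.Cp Z
    · by_cases hu' : u' ∈ b.Cp Z
      · by_cases c1 : u ∈ b.Ca Z
        · by_cases c2 : u' ∈ b.Ca Z
          · have h1 := h.lower_a hZ ha.ne hu hu'
            have h2 := D_union_edge hL.n3 (hL.P le_rfl) hdis (a := b.ι u) (b := b.ι u')
              ⟨c1, rfl⟩ ⟨c2, rfl⟩ hG
            linarith
          · have h1 := h.lower_c hZ ha.symm hu' hu c2
            linarith
        · have h1 := h.lower_c hZ ha hu hu' c1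
          linarith
      · rw [i_empty hu', union_empty]
        exact g.num.str (b.υ u) Z hZ
    · rw [i_empty hu, empty_union]
      exact g.num.str (b.υ u') Z hZ
  · rcases h.loc hj hZ ht hk with hr | ⟨w, hw⟩ | ⟨d, hw⟩
    · obtain ⟨K, hK, k1, k2⟩ := hk
      have h1 := act' h (hK.trans hZ) (Nat.zero_le _) (hK.trans hr)
      have h2 := card_ca h (hK.trans hr)
      rw [D_zero, D_zero] at h1
      exact absurd ⟨h2.trans k1, h1.trans k2⟩ (hm (b.Ca K))
    · obtain ⟨p, hp⟩ := hn.nonempty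
      intro q hq
      have e1 : p.1 = b.υ w := hw hp.1
      have e2 : q.1 = b.υ w := hw hq
      change q.1 ∈ ({b.υ u, b.υ u'} : Set V)
      rw [e2, ← e1]
      exact hp.2
    · obtain ⟨p, hp, q, hq, hne⟩ := hn
      have w1 : p.1 ∈ b.Wd d := hw hp.1
      have w2 : q.1 ∈ b.Wd d := hw hq.1
      have e : q.1 = p.1 := by
        rcases hp.2 with e1 | e1 <;> rcases hq.2 with e2 | e2
        · exact e2.trans e1.symm
        · exact absurd ⟨e1 ▸ w1, (mem_singleton_iff.1 e2) ▸ w2⟩ (hd d)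
        · exact absurd ⟨e2 ▸ w2, (mem_singleton_iff.1 e1) ▸ w1⟩ (hd d)
        · exact (mem_singleton_iff.1 e2).trans (mem_singleton_iff.1 e1).symm
      have hs := g.num.fs p.1 j hj Z hZ ht ⟨p, ⟨hp.1, rfl⟩, q, ⟨hq.1, e⟩, hne⟩
      intro r hr
      have e3 : r.1 = p.1 := hs hr
      change r.1 ∈ ({b.υ u, b.υ u'} : Set V)
      rw [e3]
      exact hp.2
  · rcases hx.1 with rfl | rfl
    · exact ⟨u, rfl⟩
    · exact ⟨u', rfl⟩

end BData

end Pool.Agent.Lib.MP_781e3b_co.CN
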