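import Pool.Agent.Lib.MP_781e3b_co.CN.BetaDefs

/-!
The beta atom: the formula and the easy case.
-/

namespace Pool.Agent.Lib.MP_781e3b_co.CN

open Set Function SimpleGraph

namespace Beta0Aux

/-- The data of a beta atom. -/
structure BetaN {Ω V U I : Type} (L : Lv) (G : SimpleGraph Ω) (gr : Ω → V) (S : Set Ω)
    (ι : U → V) (act : U → Ω) (Γ E : SimpleGraph U) (x y : I → U) (W : I → Set V)
    (κ : ℝ) : Prop where
  hL : L.OK
  inj : Injective ι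
  gact : ∀ u, gr (act u) = ι u
  adj : ∀ d, E.Adj (x d) (y d)
  ends : ∀ d u, ι u ∈ W d ↔ u = x d ∨ u = y d
  meet : ∀ d d', d ≠ d' → W d ∩ W d' ⊆ range ι
  cov : ∀ a ∈ S, gr a ∈ range ι ∨ ∃ d, gr a ∈ W d
  cross : ∀ a ∈ S, ∀ b ∈ S, G.Adj a b → gr a = gr b ∨ (∃ d, gr a ∈ W d ∧ gr b ∈ W d) ∨
    ∃ u v, Γ.Adj u v ∧ a = act u ∧ b = act v
  pos : ∀ d, PosN L G gr (S ∩ gr ⁻¹' W d) (ι (x d)) (ι (y d)) κ

namespace BetaN

variable {Ω V U I : Type} [Finite Ω] [Finite U] [Fintype I] {L : Lv} {G : SimpleGraph Ω}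
  {gr : Ω → V} {S : Set Ω} {ι : U → V} {act : U → Ω} {Γ E : SimpleGraph U} {x y : I → U}
  {W : I → Set V} {κ : ℝ} {j : ℕ} {Z : Set Ω}

/-- The lower tops lie in a world, in a fibre over U or in the active copy. -/
def Low (L : Lv) (G : SimpleGraph Ω) (gr : Ω → V) (S : Set Ω) (ι : U → V) (act : U → Ω)
    (W : I → Set V) (j : ℕ) : Prop :=
  ∀ i < j, ∀ T ⊆ S, Top L G i T →
    (∃ d, T ⊆ gr ⁻¹' W d) ∨ (∃ u, T ⊆ gr ⁻¹' {ι u}) ∨ T ⊆ range act

/-- The cost of the part of Z in the world d. -/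
noncomputable def cost (L : Lv) (G : SimpleGraph Ω) (gr : Ω → V) (ι : U → V) (x y : I → U)
    (W : I → Set V) (j : ℕ) (Z : Set Ω) (d : I) : ℝ :=
  D L G j (Z ∩ gr ⁻¹' W d) - D L G j (Z ∩ gr ⁻¹' {ι (x d)}) - D L G j (Z ∩ gr ⁻¹' {ι (y d)})

omit [Finite Ω] [Finite U] [Fintype I] in
theorem act_inj (h : BetaN L G gr S ι act Γ E x y W κ) : Injective act := fun u v huv =>
  h.inj (by rw [← h.gact, ← h.gact, huv])

omit [Finite Ω] [Finite U] [Fintype I] in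
theorem ne (h : BetaN L G gr S ι act Γ E x y W κ) (d : I) : ι (x d) ≠ ι (y d) := fun e =>
  (h.adj d).ne (h.inj e)

omit [Finite U] [Fintype I] in
/-- No tight set of a level below l meets the two end fibres of a world inside this world. -/
theorem no_edge (h : BetaN L G gr S ι act Γ E x y W κ) (d : I) {a b : Ω} (ha : a ∈ S)
    (hb : b ∈ S) (hab : G.Adj a b) (h1 : gr a = ι (x d)) (h2 : gr b = ι (y d)) : False := by
  refine (h.pos d).nt 0 h.hL.l1 {a, b} ?_ ?_ ⟨a, by simp, h1⟩ ⟨b, by simp, h2⟩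
  · rintro z (rfl | rfl)
    · exact ⟨ha, by rw [mem_preimage, h1]; exact (h.ends d _).2 (Or.inl rfl)⟩
    · exact ⟨hb, by rw [mem_preimage, h2]; exact (h.ends d _).2 (Or.inr rfl)⟩
  · rw [D_pair h.hL.n3 hab]; exact le_rfl

omit [Finite U] [Fintype I] in
/-- An edge between two fibres over U joins active points along Γ. -/
theorem edge_U (h : BetaN L G gr S ι act Γ E x y W κ) {a b : Ω} (ha : a ∈ S) (hb : b ∈ S)
    (hab : G.Adj a b) {u v : U} (h1 : gr a = ι u) (h2 : gr b = ι v) (huv : u ≠ v) :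
    Γ.Adj u v ∧ a = act u ∧ b = act v := by
  rcases h.cross a ha b hb hab with e | ⟨d, h3, h4⟩ | ⟨u', v', h3, rfl, rfl⟩
  · exact absurd (h.inj (h1.symm.trans (e.trans h2))) huv
  · rw [h1, h.ends] at h3
    rw [h2, h.ends] at h4
    rcases h3 with rfl | rfl <;> rcases h4 with rfl | rfl
    · exact absurd rfl huv
    · exact (h.no_edge d ha hb hab h1 h2).elim
    · exact (h.no_edge d hb ha hab.symm h2 h1).elim
    · exact absurd rfl huv
  · rw [h.gact] at h1 h2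
    obtain rfl := h.inj h1
    obtain rfl := h.inj h2
    exact ⟨h3, rfl, rfl⟩

omit [Finite Ω] [Finite U] [Fintype I] in
/-- A top inside a world and over U lies in one fibre. -/
theorem top_ends (h : BetaN L G gr S ι act Γ E x y W κ) {i : ℕ} (hi : i < L.l) {T : Set Ω}
    (hT : T ⊆ S) (ht : Top L G i T) (d : I) (h1 : T ⊆ gr ⁻¹' W d) (h2 : T ⊆ gr ⁻¹' range ι) :
    T ⊆ gr ⁻¹' {ι (x d)} ∨ T ⊆ gr ⁻¹' {ι (y d)} := by
  by_contra hc
  rw [not_or, not_subset, not_subset] at hc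
  obtain ⟨⟨a, ha, ha'⟩, ⟨b, hb, hb'⟩⟩ := hc
  have key : ∀ z ∈ T, gr z = ι (x d) ∨ gr z = ι (y d) := fun z hz => by
    obtain ⟨u, hu⟩ := h2 hz
    have := h1 hz
    rw [mem_preimage, ← hu, h.ends] at this
    rw [← hu]
    exact this.imp (congrArg ι) (congrArg ι)
  exact (h.pos d).nt i hi T (subset_inter hT h1) ht.2.1
    ⟨b, hb, (key b hb).resolve_right hb'⟩ ⟨a, ha, (key a ha).resolve_left ha'⟩

omit [Finite U] [Fintype I] in
theorem two_fib (h : BetaN L G gr S ι act Γ E x y W κ) (hj : j ≤ L.l) (hZ : Z ⊆ S) (d : I) :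
    D L G j (Z ∩ gr ⁻¹' W d ∩ gr ⁻¹' range ι) =
      D L G j (Z ∩ gr ⁻¹' {ι (x d)}) + D L G j (Z ∩ gr ⁻¹' {ι (y d)}) := by
  have key : ∀ z, z ∈ gr ⁻¹' W d ∧ z ∈ gr ⁻¹' range ι ↔ gr z = ι (x d) ∨ gr z = ι (y d) := by
    intro z
    constructor
    · rintro ⟨h1, u, hu⟩
      rw [mem_preimage, ← hu, h.ends] at h1
      rw [← hu]
      exact h1.imp (congrArg ι) (congrArg ι)
    · rintro (e | e)
      · exact ⟨by rw [mem_preimage, e]; exact (h.ends d _).2 (Or.inl rfl), _, e.symm⟩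
      · exact ⟨by rw [mem_preimage, e]; exact (h.ends d _).2 (Or.inr rfl), _, e.symm⟩
  have := D_flower (L := L) (G := G) (j := j) (Z := Z ∩ gr ⁻¹' W d ∩ gr ⁻¹' range ι) (I := Unit)
    (gr ⁻¹' {ι (x d)}) (fun _ => gr ⁻¹' {ι (y d)}) ?_ (fun i i' hi => absurd rfl hi) ?_ ?_
  · rw [this, Finset.univ_unique, Finset.sum_singleton]
    have e1 : Z ∩ gr ⁻¹' W d ∩ gr ⁻¹' range ι ∩ gr ⁻¹' {ι (x d)} = Z ∩ gr ⁻¹' {ι (x d)} := by
      ext z
      exact ⟨fun hz => ⟨hz.1.1.1, hz.2⟩, fun hz =>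
        ⟨⟨⟨hz.1, ((key z).2 (Or.inl hz.2)).1⟩, ((key z).2 (Or.inl hz.2)).2⟩, hz.2⟩⟩
    have e2 : Z ∩ gr ⁻¹' W d ∩ gr ⁻¹' range ι ∩ gr ⁻¹' {ι (y d)} = Z ∩ gr ⁻¹' {ι (y d)} := by
      ext z
      exact ⟨fun hz => ⟨hz.1.1.1, hz.2⟩, fun hz =>
        ⟨⟨⟨hz.1, ((key z).2 (Or.inr hz.2)).1⟩, ((key z).2 (Or.inr hz.2)).2⟩, hz.2⟩⟩
    have e3 : Z ∩ gr ⁻¹' {ι (y d)} ∩ gr ⁻¹' {ι (x d)} = ∅ :=
      eq_empty_of_forall_notMem fun z hz => h.ne d (hz.2.symm.trans hz.1.2)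
    rw [e1, e2, e3, D_empty h.hL.n3, sub_zero]
  · intro z hz
    rcases (key z).1 ⟨hz.1.2, hz.2⟩ with e | e
    · exact Or.inl e
    · exact Or.inr (mem_iUnion.2 ⟨(), e⟩)
  · intro a ha b hb hab
    rcases (key a).1 ⟨ha.1.2, ha.2⟩ with e | e <;> rcases (key b).1 ⟨hb.1.2, hb.2⟩ with e' | e'
    · exact Or.inl ⟨e, e'⟩
    · exact (h.no_edge d (hZ ha.1.1) (hZ hb.1.1) hab e e').elim
    · exact (h.no_edge d (hZ hb.1.1) (hZ ha.1.1) hab.symm e' e).elim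
    · exact Or.inr ⟨(), e, e'⟩
  · intro i hi T hT ht
    exact (h.top_ends (hi.trans_le hj) (fun z hz => hZ (hT hz).1.1) ht d (fun z hz => (hT hz).1.2)
      fun z hz => (hT hz).2).imp_right fun h' => ⟨(), h'⟩

omit [Finite U] in
/-- The formula for D. -/
theorem formula [Fintype U] (h : BetaN L G gr S ι act Γ E x y W κ) (hj : j ≤ L.l)
    (hl : Low L G gr Z ι act W j) (hZ : Z ⊆ S) :
    D L G j Z = D L G j (Z ∩ range act) +
      ∑ u, (D L G j (Z ∩ gr ⁻¹' {ι u}) - D L G j (Z ∩ {act u})) +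
      ∑ d, cost L G gr ι x y W j Z d := by
  have f1 := D_flower (L := L) (G := G) (j := j) (Z := Z) (gr ⁻¹' range ι)
    (fun d => gr ⁻¹' W d) ?_ ?_ ?_ ?_
  · have f2 := D_flower (L := L) (G := G) (j := j) (Z := Z ∩ gr ⁻¹' range ι) (range act)
      (fun u => gr ⁻¹' {ι u}) ?_ ?_ ?_ ?_
    · rw [f1, f2]
      have e1 : Z ∩ gr ⁻¹' range ι ∩ range act = Z ∩ range act := by
        ext z
        refine ⟨fun hz => ⟨hz.1.1, hz.2⟩, fun hz => ⟨⟨hz.1, ?_⟩, hz.2⟩⟩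
        obtain ⟨u, rfl⟩ := hz.2
        exact ⟨u, (h.gact u).symm⟩
      have e2 : ∀ u, Z ∩ gr ⁻¹' range ι ∩ gr ⁻¹' {ι u} = Z ∩ gr ⁻¹' {ι u} := fun u => by
        ext z
        exact ⟨fun hz => ⟨hz.1.1, hz.2⟩, fun hz => ⟨⟨hz.1, u, hz.2.symm⟩, hz.2⟩⟩
      have e3 : ∀ u, Z ∩ gr ⁻¹' {ι u} ∩ range act = Z ∩ {act u} := fun u => by
        ext z
        constructor
        · rintro ⟨⟨h1, h2⟩, v, rfl⟩
          rw [mem_preimage, h.gact] at h2
          exact ⟨h1, congrArg act (h.inj h2)⟩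
        · rintro ⟨h1, rfl⟩
          exact ⟨⟨h1, h.gact u⟩, u, rfl⟩
      simp only [e1, e2, e3, h.two_fib hj hZ, cost, sub_sub]
    · rintro z ⟨-, u, hu⟩
      exact Or.inr (mem_iUnion.2 ⟨u, hu.symm⟩)
    · rintro u v huv z ⟨⟨-, h1⟩, h2⟩
      exact absurd (h.inj (h1.symm.trans h2)) huv
    · rintro a ⟨ha, u, hu⟩ b ⟨hb, v, hv⟩ hab
      by_cases huv : u = v
      · exact Or.inr ⟨u, hu.symm, huv ▸ hv.symm⟩
      · obtain ⟨-, rfl, rfl⟩ := h.edge_U (hZ ha) (hZ hb) hab hu.symm hv.symm huv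
        exact Or.inl ⟨⟨u, rfl⟩, ⟨v, rfl⟩⟩
    · intro i hi T hT ht
      have hTS : T ⊆ S := fun z hz => hZ (hT hz).1
      rcases hl i hi T (fun z hz => (hT hz).1) ht with ⟨d, hd⟩ | hu | ha
      · rcases h.top_ends (hi.trans_le hj) hTS ht d hd fun z hz => (hT hz).2 with e | e
        · exact Or.inr ⟨_, e⟩
        · exact Or.inr ⟨_, e⟩
      · exact Or.inr hu
      · exact Or.inl ha
  · intro z hz
    rcases h.cov z (hZ hz) with e | ⟨d, e⟩
    · exact Or.inl e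
    · exact Or.inr (mem_iUnion.2 ⟨d, e⟩)
  · rintro d d' hd z ⟨⟨-, h1⟩, h2⟩
    exact h.meet d d' hd ⟨h1, h2⟩
  · intro a ha b hb hab
    rcases h.cross a (hZ ha) b (hZ hb) hab with e | ⟨d, e⟩ | ⟨u, v, -, rfl, rfl⟩
    · rcases h.cov a (hZ ha) with e' | ⟨d, e'⟩
      · exact Or.inl ⟨e', by rw [mem_preimage, ← e]; exact e'⟩
      · exact Or.inr ⟨d, e', by rw [mem_preimage, ← e]; exact e'⟩
    · exact Or.inr ⟨d, e⟩
    · exact Or.inl ⟨⟨u, (h.gact u).symm⟩, ⟨v, (h.gact v).symm⟩⟩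
  · intro i hi T hT ht
    rcases hl i hi T hT ht with ⟨d, hd⟩ | ⟨u, hu⟩ | ha
    · exact Or.inr ⟨d, hd⟩
    · exact Or.inl fun z hz => ⟨u, (hu hz).symm⟩
    · refine Or.inl fun z hz => ?_
      obtain ⟨u, rfl⟩ := ha hz
      exact ⟨u, (h.gact u).symm⟩

omit [Fintype I] in
/-- The active part is at least as large as in Γ. -/
theorem act_ge (h : BetaN L G gr S ι act Γ E x y W κ) (hj : j ≤ L.l) (hZ : Z ⊆ S) :
    D L Γ j (act ⁻¹' Z) ≤ D L G j (Z ∩ range act) := by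
  rcases isEmpty_or_nonempty U with hU | hU
  · rw [eq_empty_of_isEmpty (act ⁻¹' Z), range_eq_empty, inter_empty, D_empty h.hL.n3,
      D_empty h.hL.n3]
  have hl := leftInverse_invFun h.act_inj
  have e : invFun act '' (Z ∩ range act) = act ⁻¹' Z := by
    ext u
    constructor
    · rintro ⟨z, ⟨hz, v, rfl⟩, rfl⟩
      rwa [hl]
    · exact fun hu => ⟨act u, ⟨hu, u, rfl⟩, hl u⟩
  rw [← e]
  refine D_hom (h.hL.P hj) ?_ ?_
  · rintro _ ⟨-, u, rfl⟩ _ ⟨-, v, rfl⟩ e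
    rw [hl, hl] at e
    rw [e]
  · rintro _ ⟨ha, u, rfl⟩ _ ⟨hb, v, rfl⟩ hab
    rw [hl, hl]
    exact (h.edge_U (hZ ha) (hZ hb) hab (h.gact u) (h.gact v) fun e => hab.ne (congrArg act e)).1

/-- The points of U whose fibre meets Z. -/
def Cp (gr : Ω → V) (ι : U → V) (Z : Set Ω) : Set U := {u | (Z ∩ gr ⁻¹' {ι u}).Nonempty}

open Classical in
/-- The excess of the fibre over u. -/
noncomputable def exc (L : Lv) (G : SimpleGraph Ω) (gr : Ω → V) (ι : U → V) (j : ℕ) (Z : Set Ω)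
    (u : U) : ℝ :=
  if u ∈ Cp gr ι Z then D L G j (Z ∩ gr ⁻¹' {ι u}) - L.m else 0

omit [Finite Ω] [Finite U] [Fintype I] in
theorem act_sub (h : BetaN L G gr S ι act Γ E x y W κ) : act ⁻¹' Z ⊆ Cp gr ι Z :=
  fun u hu => ⟨act u, hu, h.gact u⟩

omit [Finite U] in
/-- The formula with the inactive points counted apart. -/
theorem formula' [Fintype U] (h : BetaN L G gr S ι act Γ E x y W κ) (hj : j ≤ L.l)
    (hl : Low L G gr Z ι act W j) (hZ : Z ⊆ S) :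
    D L G j Z = D L G j (Z ∩ range act) + L.m * (Cp gr ι Z \ act ⁻¹' Z).ncard +
      ∑ u, exc L G gr ι j Z u + ∑ d, cost L G gr ι x y W j Z d := by
  classical
  rw [h.formula hj hl hZ]
  have e : ∀ u, D L G j (Z ∩ gr ⁻¹' {ι u}) - D L G j (Z ∩ {act u}) =
      exc L G gr ι j Z u + L.m * if u ∈ Cp gr ι Z \ act ⁻¹' Z then 1 else 0 := fun u => by
    unfold exc
    by_cases h1 : act u ∈ Z
    · rw [inter_eq_right.2 (singleton_subset_iff.2 h1), D_singleton h.hL.n3,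
        if_pos (h.act_sub h1), if_neg fun h2 => h2.2 h1]
      ring
    · rw [inter_singleton_eq_empty.2 h1, D_empty h.hL.n3]
      by_cases h2 : u ∈ Cp gr ι Z
      · rw [if_pos h2, if_pos ⟨h2, h1⟩]; ring
      · rw [if_neg h2, if_neg fun h3 => h2 h3.1, not_nonempty_iff_eq_empty.1 h2,
          D_empty h.hL.n3]
        ring
  have e2 : ((Cp gr ι Z \ act ⁻¹' Z).ncard : ℝ) =
      ∑ u, if u ∈ Cp gr ι Z \ act ⁻¹' Z then 1 else 0 := by
    rw [Finset.sum_boole, ← ncard_coe_finset]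
    congr 2
    ext u
    simp
  simp only [e, Finset.sum_add_distrib, ← Finset.mul_sum, e2]
  ring

end BetaN

end Beta0Aux

namespace BData
variable {V Φ U E : Type} [Finite V] [Finite Φ] [Fintype U] [Fintype E] {b : BData V Φ U E}
  {L : Lv} {F : Fib Φ} {G : SimpleGraph (V × Φ)} {A : Set V} {Z : Set (V × Φ)} {j : ℕ}

omit [Finite V] [Finite Φ] [Fintype U] [Fintype E] in
theorem OK.toN (h : b.OK L F G A) :
    Beta0Aux.BetaN L G Prod.fst (up A) b.υ b.ι b.Γ b.Ep b.x b.y b.Wd b.κ where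
  hL := h.ctx.hL
  inj := h.inj
  gact _ := rfl
  adj := h.adj
  ends := h.ends
  meet := h.meet
  cov _ ha := (h.cov ha).imp_right mem_iUnion.1
  cross p hp q hq hpq := by
    by_cases e : p.1 = q.1
    · exact Or.inl e
    · exact Or.inr (h.edge p q hpq hp hq e)
  pos d := (h.pos d).num

/-- At most one fibre over U is met: good_sun over Option E for A' = Prod.fst '' Z, with
N none = range υ (good_fibre) and N (some d) = Wd d. -/
theorem OK.sun (h : b.OK L F G A) (hZ : Z ⊆ up A) (hs : (b.Cp Z).Subsingleton) :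
    Good L F G (Prod.fst '' Z) ∧ ∀ d, Root L F G (Prod.fst '' Z) (b.Wd d) := by
  have hA : Prod.fst '' Z ⊆ A := by
    rintro _ ⟨z, hz, rfl⟩
    exact hZ hz
  have hQ : (Prod.fst '' Z ∩ range b.υ).Subsingleton := by
    rintro _ ⟨⟨z, hz, e⟩, u, rfl⟩ _ ⟨⟨z', hz', e'⟩, u', rfl⟩
    exact congrArg b.υ (hs ⟨z, hz, e⟩ ⟨z', hz', e'⟩)
  have key := good_sun (A := Prod.fst '' Z) h.ctx (W := Option E)
    (N := fun o => o.elim (range b.υ) b.Wd) hQ ?_ ?_ ?_ ?_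
  · exact ⟨key.1, fun d => key.2 (some d)⟩
  · rintro (_ | d) (_ | d') hne v ⟨⟨h1, h2⟩, h3⟩
    · exact absurd rfl hne
    · exact ⟨h1, h2⟩
    · exact ⟨h1, h3⟩
    · exact ⟨h1, h.meet d d' (fun e => hne (congrArg some e)) ⟨h2, h3⟩⟩
  · intro v hv
    rcases h.cov (hA hv) with e | e
    · exact mem_iUnion.2 ⟨none, e⟩
    · obtain ⟨d, e⟩ := mem_iUnion.1 e
      exact mem_iUnion.2 ⟨some d, e⟩
  · intro p q hpq hp hq hne
    rcases h.edge p q hpq (hA hp) (hA hq) hne with ⟨d, e⟩ | ⟨u, v, -, rfl, rfl⟩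
    · exact ⟨some d, e⟩
    · exact ⟨none, ⟨u, rfl⟩, ⟨v, rfl⟩⟩
  · rintro (_ | d)
    · exact good_fibre h.ctx hQ
    · exact (h.good d).mono (inter_subset_inter_left _ hA)

/-- A marked tight set has an edge (exists_edge). A cross edge lies in a world and Root.sepa
applies; for an edge in a fibre use Num.fs. -/
theorem OK.loc_sun (h : b.OK L F G A) (hZ : Z ⊆ up A) (hs : (b.Cp Z).Subsingleton) (hj : j < L.l)
    (ht : D L G j Z ≤ L.θ j) (hm : Mark L G Z) : b.Loc Z := by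
  have hL := h.ctx.hL
  obtain ⟨g, r⟩ := h.sun hZ hs
  have hZ' : Z ⊆ up (Prod.fst '' Z) := fun z hz => ⟨z, hz, rfl⟩
  obtain ⟨p, hp, q, hq, hpq⟩ := exists_edge hL (nontrivial_of_three (hm.three hL.n3))
    (lt_of_le_of_lt (ht.trans (hL.θ_le hj.le)) (by linarith))
  by_cases e : p.1 = q.1
  · have hf := g.num.fs p.1 j hj Z hZ' ht ⟨p, ⟨hp, rfl⟩, q, ⟨hq, e.symm⟩, hpq.ne⟩
    rcases h.cov (hZ hp) with ⟨u, hu⟩ | e'
    · exact Or.inr (Or.inl ⟨u, hu ▸ hf⟩)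
    · obtain ⟨d, e'⟩ := mem_iUnion.1 e'
      refine Or.inr (Or.inr ⟨d, fun z hz => ?_⟩)
      have : z.1 = p.1 := hf hz
      rw [mem_preimage, this]
      exact e'
  · rcases h.edge p q hpq (hZ hp) (hZ hq) e with ⟨d, e'⟩ | ⟨u, v, huv, rfl, rfl⟩
    · exact Or.inr (Or.inr ⟨d, (r d).sepa j hj Z hZ' ht hm
        ⟨p, ⟨hp, e'.1⟩, q, ⟨hq, e'.2⟩, hpq.ne⟩⟩)
    · exact absurd (hs ⟨_, hp, rfl⟩ ⟨_, hq, rfl⟩) huv.ne

/-- An edge between active vertices is an edge of Γ (PosN.noedge); D_hom. -/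
theorem OK.act (h : b.OK L F G A) (hZ : Z ⊆ up A) (hj : j ≤ L.l) :
    D L b.Γ j (b.Ca Z) ≤ D L G j (Z ∩ range b.ι) :=
  h.toN.act_ge hj hZ

/-- Three uses of D_flower: centre up (range υ) with the worlds as petals; centre range ι with
the fibres over U as petals; and D (I x ∪ I y) = D (I x) + D (I y) (PosN.noedge, PosN.nt).
A top inside up (range υ) and inside a world lies in one fibre by PosN.nt. I u ∩ range ι is
the point ι u or empty. -/
theorem OK.formula (h : b.OK L F G A) (hZ : Z ⊆ up A) (hj : j ≤ L.l)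
    (loc : ∀ i < j, ∀ T ⊆ Z, Top L G i T → b.Loc T) :
    ∑ u, b.exc L G j Z u + L.m * (b.Cp Z \ b.Ca Z).ncard + D L b.Γ j (b.Ca Z) +
      ∑ d, b.cost L G j Z d ≤ D L G j Z := by
  have h1 := h.toN.formula' (j := j) (Z := Z) hj (fun i hi T hT ht => ?_) hZ
  · have h2 := h.act hZ hj
    have h3 : D L G j Z = D L G j (Z ∩ range b.ι) + L.m * (b.Cp Z \ b.Ca Z).ncard +
        ∑ u, b.exc L G j Z u + ∑ d, b.cost L G j Z d := h1
    linarith
  · rcases loc i hi T hT ht with e | e | e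
    · exact Or.inr (Or.inr e)
    · exact Or.inr (Or.inl e)
    · exact Or.inl e

end BData

end Pool.Agent.Lib.MP_781e3b_co.CN
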