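import Pool.Agent.Lib.MP_781e3b_co.CN.Beta0

/-!
The beta atom: costs and tight sets.
-/

namespace Pool.Agent.Lib.MP_781e3b_co.CN

open Set Function SimpleGraph

namespace Beta1Aux

open Classical in
theorem sum_ite_eq {E : Type} [Fintype E] (P : E → Prop) (a : ℝ) :
    ∑ d, (if P d then a else 0) = ({d | P d}.ncard : ℝ) * a := by
  rw [← Finset.sum_filter, Finset.sum_const, nsmul_eq_mul, ← Set.ncard_coe_finset]
  simp

theorem sum_ge {E : Type} [Fintype E] (c : E → ℝ) (P : E → Prop) (a : ℝ)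
    (h1 : ∀ d, P d → a ≤ c d) (h2 : ∀ d, ¬ P d → 0 ≤ c d) :
    ({d | P d}.ncard : ℝ) * a ≤ ∑ d, c d := by
  classical
  rw [← sum_ite_eq]
  refine Finset.sum_le_sum fun d _ => ?_
  split_ifs with h
  · exact h1 d h
  · exact h2 d h

theorem sum_gt {E : Type} [Fintype E] (c : E → ℝ) (P : E → Prop) (a : ℝ)
    (h1 : ∀ d, P d → a < c d) (h2 : ∀ d, ¬ P d → 0 ≤ c d) {d₀ : E} (h0 : P d₀) :
    ({d | P d}.ncard : ℝ) * a < ∑ d, c d := by
  classical
  rw [← sum_ite_eq]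
  refine Finset.sum_lt_sum (fun d _ => ?_) ⟨d₀, Finset.mem_univ _, ?_⟩
  · split_ifs with h
    · exact (h1 d h).le
    · exact h2 d h
  · rw [if_pos h0]
    exact h1 d₀ h0

variable {V Φ U E : Type} {b : BData V Φ U E}
  {L : Lv} {F : Fib Φ} {G : SimpleGraph (V × Φ)} {A : Set V} {Z : Set (V × Φ)} {j : ℕ}

theorem memx (h : b.OK L F G A) (d : E) : b.υ (b.x d) ∈ b.Wd d := (h.ends d _).2 (Or.inl rfl)

theorem memy (h : b.OK L F G A) (d : E) : b.υ (b.y d) ∈ b.Wd d := (h.ends d _).2 (Or.inr rfl)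

theorem inter_eq {d : E} {u : U} (hu : b.υ u ∈ b.Wd d) :
    Z ∩ up (b.Wd d) ∩ Prod.fst ⁻¹' {b.υ u} = b.I Z u := by
  ext p
  constructor
  · exact fun hp => ⟨hp.1.1, hp.2⟩
  · intro hp
    have h2 : p.1 = b.υ u := hp.2
    exact ⟨⟨hp.1, show p.1 ∈ b.Wd d from h2 ▸ hu⟩, hp.2⟩

theorem sub_up (hZ : Z ⊆ up A) (d : E) : Z ∩ up (b.Wd d) ⊆ up (A ∩ b.Wd d) :=
  fun _ hp => ⟨hZ hp.1, hp.2⟩

theorem I_empty {u : U} (hu : u ∉ b.Cp Z) : b.I Z u = ∅ := not_nonempty_iff_eq_empty.1 hu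

variable [Finite V] [Finite Φ]

theorem w1_fib (h : b.OK L F G A) (u : U) : W1 L G (up {b.υ u}) :=
  (good_fibre h.ctx subsingleton_singleton).num.w1

theorem D_point (h : b.OK L F G A) {u : U} (hu : u ∈ b.Cp Z) (hs : (b.I Z u).Subsingleton) :
    D L G j (b.I Z u) = L.m := by
  obtain ⟨p, hp⟩ := hu
  rw [hs.eq_singleton_of_mem hp]
  exact D_singleton h.ctx.hL.n3

theorem str_end (h : b.OK L F G A) (hZ : Z ⊆ up A) (hj : j ≤ L.l) {d : E} {u : U}
    (hu : b.υ u ∈ b.Wd d) : D L G j (b.I Z u) ≤ D L G j (Z ∩ up (b.Wd d)) := by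
  have := ((h.good d).num.str (b.υ u)).level h.ctx.hL hj (sub_up hZ d)
  rwa [inter_eq hu] at this

/-- A point strictly inside the world gives more than the part over one end. -/
theorem strict_end (h : b.OK L F G A) (hZ : Z ⊆ up A) (hj : j < L.l) {d : E} {u : U}
    (hu : b.υ u ∈ b.Wd d) (hs : (b.I Z u).Subsingleton) {p : V × Φ} (hp : p ∈ Z)
    (hpd : p.1 ∈ b.Wd d) (hpu : p.1 ∉ range b.υ) :
    D L G j (b.I Z u) < D L G j (Z ∩ up (b.Wd d)) := by
  have hL := h.ctx.hL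
  have w := (h.good d).num.w1
  by_cases hc : u ∈ b.Cp Z
  · rw [D_point h hc hs]
    obtain ⟨q, hq⟩ := hc
    have h2 : q.1 = b.υ u := hq.2
    have hn : (Z ∩ up (b.Wd d)).Nontrivial :=
      ⟨p, ⟨hp, hpd⟩, q, ⟨hq.1, show q.1 ∈ b.Wd d from h2 ▸ hu⟩,
        fun h3 => hpu ⟨u, by rw [h3, h2]⟩⟩
    exact (hL.m_lt hj).trans_le (w.ge j hj.le _ (sub_up hZ d) hn)
  · rw [I_empty hc, D_empty hL.n3]
    have := w.m_le hL hj.le (sub_up hZ d) ⟨p, hp, hpd⟩
    have := hL.m1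
    linarith

end Beta1Aux

open Beta1Aux

namespace BData
variable {V Φ U E : Type} [Finite V] [Finite Φ] [Fintype U] [Fintype E] {b : BData V Φ U E}
  {L : Lv} {F : Fib Φ} {G : SimpleGraph (V × Φ)} {A : Set V} {Z : Set (V × Φ)} {j : ℕ}

omit [Finite V] [Finite Φ] [Fintype U] [Fintype E] in
theorem ca_sub : b.Ca Z ⊆ b.Cp Z := fun u hu => ⟨b.ι u, hu, rfl⟩

/-- good_fibre, W1.m_le. -/
theorem OK.exc_nonneg (h : b.OK L F G A) (hj : j ≤ L.l) (u : U) : 0 ≤ b.exc L G j Z u := by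
  unfold exc
  split_ifs with hu
  · exact sub_nonneg.2 ((w1_fib h u).m_le h.ctx.hL hj inter_subset_right hu)
  · exact le_rfl

/-- D_cost2, PosN.ge. -/
theorem OK.cost_ge (h : b.OK L F G A) (hZ : Z ⊆ up A) (hj : j ≤ L.l) (d : E) :
    -b.κ ≤ b.cost L G j Z d := by
  have hL := h.ctx.hL
  have h1 := (h.pos d).num.ge _ (sub_up hZ d)
  rw [inter_eq (memx h d), inter_eq (memy h d)] at h1
  have hd : Disjoint (b.I Z (b.x d)) (b.I Z (b.y d)) := by
    refine disjoint_left.2 fun p hp hq => ?_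
    have h2 : p.1 = b.υ (b.x d) := hp.2
    have h3 : p.1 = b.υ (b.y d) := hq.2
    exact (h.adj d).ne (h.inj (h2.symm.trans h3))
  have h2 := D_cost2 (G := G) (Z := Z ∩ up (b.Wd d)) hL.n3 (hL.P le_rfl) hj
    (inter_eq (memx h d) ▸ inter_subset_left) (inter_eq (memy h d) ▸ inter_subset_left) hd
  unfold cost
  linarith

/-- Num.str, Str.level, D_empty. -/
theorem OK.cost_nonneg (h : b.OK L F G A) (hZ : Z ⊆ up A) (hj : j ≤ L.l) {d : E}
    (hd : ¬ (b.x d ∈ b.Cp Z ∧ b.y d ∈ b.Cp Z)) : 0 ≤ b.cost L G j Z d := by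
  have hL := h.ctx.hL
  unfold cost
  rcases not_and_or.1 hd with h1 | h1
  · have := str_end h hZ hj (memy h d)
    rw [I_empty h1, D_empty hL.n3]
    linarith
  · have := str_end h hZ hj (memx h d)
    rw [I_empty h1, D_empty hL.n3]
    linarith

/-- The pairs of the pattern inside C are different edges of Ep. -/
theorem OK.count (h : b.OK L F G A) (C : Set U) :
    {d | b.x d ∈ C ∧ b.y d ∈ C}.ncard ≤ ec b.Ep C := by
  refine ncard_le_ncard_of_injOn (fun d => ({b.x d, b.y d} : Set U)) ?_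
    (fun d _ d' _ hd => h.simple d d' hd) (toFinite _)
  intro d hd
  exact ⟨pair_subset hd.1 hd.2, b.x d, b.y d, h.adj d, rfl⟩

/-- One level. Let r be the number of d with both ends in Cp, and use
D Γ j Cp ≤ D Γ j Ca + m * card (Cp \ Ca) (D_le_add). If some I u has two points then
exc u ≥ θ j - m and PH.a with D_level give D j Z ≥ θ j + m - κ'. Else all I u are points or
empty. If r ≥ 1: PH.c, where in the first case cost d > θ j - 2m for these d by PosN.nt.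
If r = 0: all costs vanish, so no point of Z is strictly inside a world, and Ca = Cp, as else
D j Z ≥ 2m. -/
theorem OK.tight_of_loc (h : b.OK L F G A) (hZ : Z ⊆ up A) (hj : j < L.l)
    (loc : ∀ i < j, ∀ T ⊆ Z, Top L G i T → b.Loc T) (hn : (b.Cp Z).Nontrivial)
    (ht : D L G j Z ≤ L.θ j) :
    Z ⊆ range b.ι ∧ ∀ d, ¬ (b.x d ∈ b.Cp Z ∧ b.y d ∈ b.Cp Z) := by
  have hL := h.ctx.hL
  have hf := h.formula hZ hj.le loc
  have hB := D_le_add (L := L) (G := b.Γ) (hL.P hj.le) (ca_sub (b := b) (Z := Z))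
  have hcnt : (({d | b.x d ∈ b.Cp Z ∧ b.y d ∈ b.Cp Z}.ncard : ℕ) : ℝ) ≤ ec b.Ep (b.Cp Z) := by
    exact_mod_cast h.count (b.Cp Z)
  have hcost : -(b.κ * ec b.Ep (b.Cp Z)) ≤ ∑ d, b.cost L G j Z d := by
    have h1 := sum_ge (b.cost L G j Z) (fun d => b.x d ∈ b.Cp Z ∧ b.y d ∈ b.Cp Z) (-b.κ)
      (fun d _ => h.cost_ge hZ hj.le d) fun d hd => h.cost_nonneg hZ hj.le hd
    have h2 := mul_le_mul_of_nonneg_left hcnt h.k0
    linarith
  have hexc : 0 ≤ ∑ u, b.exc L G j Z u := Finset.sum_nonneg fun u _ => h.exc_nonneg hj.le u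
  have hθ := hL.θ_le hj.le
  have hs : ∀ u, (b.I Z u).Subsingleton := by
    intro u
    by_contra hu
    have hu' : (b.I Z u).Nontrivial := not_subsingleton_iff.1 hu
    have h1 : b.exc L G j Z u ≤ ∑ u, b.exc L G j Z u :=
      Finset.single_le_sum (fun u _ => h.exc_nonneg hj.le u) (Finset.mem_univ u)
    have h2 : b.exc L G j Z u = D L G j (b.I Z u) - L.m := if_pos hu'.nonempty
    have h3 := (w1_fib h u).ge j hj.le (b.I Z u) inter_subset_right hu'
    have h4 := h.ph.a _ hn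
    have h5 := D_level (G := b.Γ) (Z := b.Cp Z) (hL.P le_rfl) hj.le
    have h6 := h.k2
    linarith
  have hr : ∀ d, ¬ (b.x d ∈ b.Cp Z ∧ b.y d ∈ b.Cp Z) := by
    intro d₀ hd₀
    have h1 : 1 ≤ ec b.Ep (b.Cp Z) :=
      one_le_cnt.2 ⟨{b.x d₀, b.y d₀}, pair_subset hd₀.1 hd₀.2, _, _, h.adj d₀, rfl⟩
    rcases h.ph.c j hj _ h1 with h2 | h2
    · have h3 := sum_gt (b.cost L G j Z) (fun d => b.x d ∈ b.Cp Z ∧ b.y d ∈ b.Cp Z)
        (L.θ j - 2 * L.m) (fun d hd => ?_) (fun d hd => h.cost_nonneg hZ hj.le hd) hd₀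
      · have h4 := mul_le_mul_of_nonneg_right hcnt (show 0 ≤ 2 * L.m - L.θ j by linarith)
        linarith
      · have h4 : L.θ j < D L G j (Z ∩ up (b.Wd d)) := by
          refine lt_of_not_ge fun h5 => (h.pos d).num.nt j hj _ (sub_up hZ d) h5 ?_ ?_
          · rw [inter_eq (memx h d)]
            exact hd.1
          · rw [inter_eq (memy h d)]
            exact hd.2
        unfold cost
        rw [D_point h hd.1 (hs _), D_point h hd.2 (hs _)]
        linarith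
    · linarith
  refine ⟨?_, hr⟩
  have hc0 : ∀ d, 0 ≤ b.cost L G j Z d := fun d => h.cost_nonneg hZ hj.le (hr d)
  have hc : 0 ≤ ∑ d, b.cost L G j Z d := Finset.sum_nonneg fun d _ => hc0 d
  have hm := hL.m1
  intro p hp
  by_cases hpu : p.1 ∈ range b.υ
  · obtain ⟨u, hu⟩ := hpu
    have hpI : p ∈ b.I Z u := ⟨hp, hu.symm⟩
    by_cases hca : u ∈ b.Ca Z
    · exact ⟨u, hs u ⟨hca, rfl⟩ hpI⟩
    · exfalso
      rcases (b.Ca Z).eq_empty_or_nonempty with h0 | h0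
      · rw [h0, diff_empty, D_empty hL.n3] at hf
        have h1 : (2 : ℝ) ≤ (b.Cp Z).ncard := by
          exact_mod_cast (one_lt_ncard_iff_nontrivial.2 hn)
        nlinarith
      · have h1 := h.w1.m_le hL hj.le (subset_univ _) h0
        have h3 : (b.Cp Z \ b.Ca Z).Nonempty := ⟨u, ⟨p, hpI⟩, hca⟩
        have h2 : (1 : ℝ) ≤ (b.Cp Z \ b.Ca Z).ncard := by
          exact_mod_cast Nat.succ_le_of_lt ((ncard_pos (toFinite _)).2 h3)
        nlinarith
  · exfalso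
    obtain ⟨d, hd⟩ := mem_iUnion.1 ((h.cov (hZ hp)).resolve_left hpu)
    have h1 : 0 < b.cost L G j Z d := by
      unfold cost
      rcases not_and_or.1 (hr d) with h1 | h1
      · have := strict_end h hZ hj (memy h d) (hs _) hp hd hpu
        rw [I_empty h1, D_empty hL.n3]
        linarith
      · have := strict_end h hZ hj (memx h d) (hs _) hp hd hpu
        rw [I_empty h1, D_empty hL.n3]
        linarith
    have h2 : b.cost L G j Z d ≤ ∑ d, b.cost L G j Z d :=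
      Finset.single_le_sum (fun d _ => hc0 d) (Finset.mem_univ d)
    have h3 := h.w1.ge j hj.le _ (subset_univ _) hn
    linarith

/-- Strong induction on j with tight_of_loc and loc_sun. -/
theorem OK.loc (h : b.OK L F G A) (hj : j < L.l) (hZ : Z ⊆ up A) (ht : D L G j Z ≤ L.θ j)
    (hm : Mark L G Z) : b.Loc Z := by
  induction j using Nat.strong_induction_on generalizing Z with
  | _ j ih =>
    rcases (b.Cp Z).subsingleton_or_nontrivial with hs | hn
    · exact h.loc_sun hZ hs hj ht hm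
    · exact Or.inl (h.tight_of_loc hZ hj
        (fun i hi T hT t => ih i hi (hi.trans hj) (hT.trans hZ) t.2.1 t.2.2) hn ht).1

theorem OK.tight (h : b.OK L F G A) (hZ : Z ⊆ up A) (hj : j < L.l) (hn : (b.Cp Z).Nontrivial)
    (ht : D L G j Z ≤ L.θ j) :
    Z ⊆ range b.ι ∧ ∀ d, ¬ (b.x d ∈ b.Cp Z ∧ b.y d ∈ b.Cp Z) :=
  h.tight_of_loc hZ hj (fun _ hi _ hT t => h.loc (hi.trans hj) (hT.trans hZ) t.2.1 t.2.2) hn ht

end BData

end Pool.Agent.Lib.MP_781e3b_co.CN
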