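import Pool.Agent.Lib.MP_781e3b_co.CN.Beta1

/-!
The beta atom: bounds on the last level.
-/

namespace Pool.Agent.Lib.MP_781e3b_co.CN

open Set Function SimpleGraph

namespace Beta2Aux
open BData
variable {V Φ U E : Type} [Finite V] [Finite Φ] [Fintype U] [Fintype E] {b : BData V Φ U E}
  {L : Lv} {F : Fib Φ} {G : SimpleGraph (V × Φ)} {A : Set V} {Z : Set (V × Φ)} {u u' : U}

/-- The formula on the last level. -/
theorem last (h : b.OK L F G A) (hZ : Z ⊆ up A) :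
    ∑ u, b.exc L G L.l Z u + L.m * (b.Cp Z \ b.Ca Z).ncard + D L b.Γ L.l (b.Ca Z) +
      ∑ d, b.cost L G L.l Z d ≤ D L G L.l Z :=
  h.formula hZ le_rfl fun _ hi _ hT t => h.loc hi (hT.trans hZ) t.2.1 t.2.2

theorem exc_pair (h : b.OK L F G A) (hne : u ≠ u') :
    b.exc L G L.l Z u + b.exc L G L.l Z u' ≤ ∑ v, b.exc L G L.l Z v := by
  classical
  rw [← Finset.sum_pair (f := fun v => b.exc L G L.l Z v) hne]
  exact Finset.sum_le_sum_of_subset_of_nonneg (Finset.subset_univ _)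
    fun v _ _ => h.exc_nonneg le_rfl v

omit [Finite V] [Finite Φ] [Fintype U] [Fintype E] in
theorem exc_in (hu : u ∈ b.Cp Z) : b.exc L G L.l Z u = D L G L.l (b.I Z u) - L.m := by
  rw [BData.exc, if_pos hu]

omit [Fintype U] [Fintype E] in
theorem exc_out (hn : 3 ≤ L.n) (hu : u ∉ b.Cp Z) : b.exc L G L.l Z u = D L G L.l (b.I Z u) := by
  have e : b.I Z u = ∅ := not_nonempty_iff_eq_empty.1 hu
  rw [BData.exc, if_neg hu, e, D_empty hn]

theorem sum_cost (h : b.OK L F G A) (hZ : Z ⊆ up A) (s : Finset E) :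
    -b.κ * {d | d ∈ s ∧ b.x d ∈ b.Cp Z ∧ b.y d ∈ b.Cp Z}.ncard ≤
      ∑ d ∈ s, b.cost L G L.l Z d := by
  classical
  have e : {d | d ∈ s ∧ b.x d ∈ b.Cp Z ∧ b.y d ∈ b.Cp Z} =
      ((s.filter fun d => b.x d ∈ b.Cp Z ∧ b.y d ∈ b.Cp Z : Finset E) : Set E) := by
    ext d
    simp
  rw [e, Set.ncard_coe_finset, mul_comm, ← nsmul_eq_mul, ← Finset.sum_const, Finset.sum_filter]
  refine Finset.sum_le_sum fun d _ => ?_
  split_ifs with hd
  · exact h.cost_ge hZ le_rfl d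
  · exact h.cost_nonneg hZ le_rfl hd

theorem cost_sub (h : b.OK L F G A) (hZ : Z ⊆ up A) (s : Finset E) :
    -b.κ * ec b.Ep (b.Cp Z) ≤ ∑ d ∈ s, b.cost L G L.l Z d := by
  have h1 := sum_cost h hZ s
  have h2 : {d | d ∈ s ∧ b.x d ∈ b.Cp Z ∧ b.y d ∈ b.Cp Z}.ncard ≤ ec b.Ep (b.Cp Z) :=
    (Set.ncard_le_ncard (fun _ hd => hd.2) (Set.toFinite _)).trans (h.count (b.Cp Z))
  have h3 : ({d | d ∈ s ∧ b.x d ∈ b.Cp Z ∧ b.y d ∈ b.Cp Z}.ncard : ℝ) ≤ ec b.Ep (b.Cp Z) := by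
    exact_mod_cast h2
  have h4 := mul_le_mul_of_nonneg_left h3 h.k0
  linarith

theorem cost_erase [DecidableEq E] (h : b.OK L F G A) (hZ : Z ⊆ up A) {d : E}
    (hx : b.x d ∈ b.Cp Z) (hy : b.y d ∈ b.Cp Z) :
    1 ≤ ec b.Ep (b.Cp Z) ∧
      -b.κ * (ec b.Ep (b.Cp Z) - 1) ≤ ∑ d' ∈ Finset.univ.erase d, b.cost L G L.l Z d' := by
  have h1 := sum_cost h hZ (Finset.univ.erase d)
  have h2 : {d' | d' ∈ Finset.univ.erase d ∧ b.x d' ∈ b.Cp Z ∧ b.y d' ∈ b.Cp Z}.ncard <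
      {d' | b.x d' ∈ b.Cp Z ∧ b.y d' ∈ b.Cp Z}.ncard :=
    Set.ncard_lt_ncard ⟨fun _ hd => hd.2, fun hs => Finset.notMem_erase d _ (hs ⟨hx, hy⟩).1⟩
      (Set.toFinite _)
  have h3 := h.count (b.Cp Z)
  refine ⟨by omega, ?_⟩
  have h4 : ({d' | d' ∈ Finset.univ.erase d ∧ b.x d' ∈ b.Cp Z ∧ b.y d' ∈ b.Cp Z}.ncard : ℝ) + 1 ≤
      ec b.Ep (b.Cp Z) := by
    exact_mod_cast (Nat.succ_le_of_lt h2).trans h3
  have h5 := mul_le_mul_of_nonneg_left h4 h.k0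
  linarith

/-- No edge between the fibres over two points of U that lie in one world. -/
theorem noedge (h : b.OK L F G A) {d : E} (hne : u ≠ u') (hu : b.υ u ∈ b.Wd d)
    (hu' : b.υ u' ∈ b.Wd d) (hA : b.υ u ∈ A) (hA' : b.υ u' ∈ A) (a w : Φ) :
    ¬ G.Adj (b.υ u, a) (b.υ u', w) := by
  have p : (b.υ u, a) ∈ (up (A ∩ b.Wd d) : Set (V × Φ)) := ⟨hA, hu⟩
  have p' : (b.υ u', w) ∈ (up (A ∩ b.Wd d) : Set (V × Φ)) := ⟨hA', hu'⟩
  rcases (h.ends d u).1 hu with e | e <;> rcases (h.ends d u').1 hu' with e' | e'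
  · exact absurd (e.trans e'.symm) hne
  · exact (h.pos d).num.noedge h.ctx.hL p p' (congrArg b.υ e) (congrArg b.υ e')
  · exact fun hadj =>
      (h.pos d).num.noedge h.ctx.hL p' p (congrArg b.υ e') (congrArg b.υ e) hadj.symm
  · exact absurd (e.trans e'.symm) hne

end Beta2Aux

namespace BData
open Beta2Aux
variable {V Φ U E : Type} [Finite V] [Finite Φ] [Fintype U] [Fintype E] {b : BData V Φ U E}
  {L : Lv} {F : Fib Φ} {G : SimpleGraph (V × Φ)} {A : Set V} {Z : Set (V × Φ)} {u u' : U}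

/-- formula with loc, exc_nonneg, cost_ge, cost_nonneg, count, D_le_add, PH.a. -/
theorem OK.lower_a (h : b.OK L F G A) (hZ : Z ⊆ up A) (hne : u ≠ u') (hu : u ∈ b.Cp Z)
    (hu' : u' ∈ b.Cp Z) :
    D L G L.l (b.I Z u) + D L G L.l (b.I Z u') - b.κ' ≤ D L G L.l Z := by
  have h1 := last h hZ
  have h2 := exc_pair (Z := Z) h hne
  rw [exc_in hu, exc_in hu'] at h2
  have h3 := cost_sub h hZ Finset.univ
  have h4 := D_le_add (G := b.Γ) (h.ctx.hL.P le_rfl) (ca_sub (b := b) (Z := Z))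
  have h5 := h.ph.a (b.Cp Z) ⟨u, hu, u', hu', hne⟩
  linarith

/-- By the number of ends of d in Cp: two, PH.b; one or none, PH.a. -/
theorem OK.lower_b (h : b.OK L F G A) (hZ : Z ⊆ up A) (hn : (b.Cp Z).Nontrivial) (d : E) :
    D L G L.l (Z ∩ up (b.Wd d)) ≤ D L G L.l Z := by
  classical
  have h1 := last h hZ
  have h2 := exc_pair (Z := Z) h (h.adj d).ne
  have h4 := D_le_add (G := b.Γ) (h.ctx.hL.P le_rfl) (ca_sub (b := b) (Z := Z))
  have h5 := h.ph.a (b.Cp Z) hn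
  have h6 := cost_sub h hZ (Finset.univ.erase d)
  have h7 : b.cost L G L.l Z d = D L G L.l (Z ∩ up (b.Wd d)) - D L G L.l (b.I Z (b.x d)) -
      D L G L.l (b.I Z (b.y d)) := rfl
  have hm := h.ctx.hL.m1
  have hk := h.k2
  have n3 := h.ctx.hL.n3
  rw [← Finset.add_sum_erase Finset.univ (fun d => b.cost L G L.l Z d) (Finset.mem_univ d)] at h1
  by_cases hx : b.x d ∈ b.Cp Z <;> by_cases hy : b.y d ∈ b.Cp Z
  · obtain ⟨h8, h9⟩ := cost_erase h hZ hx hy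
    have h10 := h.ph.b (b.Cp Z) h8
    rw [exc_in hx, exc_in hy] at h2
    linarith
  · rw [exc_in hx, exc_out n3 hy] at h2
    linarith
  · rw [exc_out n3 hx, exc_in hy] at h2
    linarith
  · rw [exc_out n3 hx, exc_out n3 hy] at h2
    linarith

/-- As lower_a, with D_le_add_edge. -/
theorem OK.lower_c (h : b.OK L F G A) (hZ : Z ⊆ up A) (ha : b.Γ.Adj u u') (hu : u ∈ b.Cp Z)
    (hu' : u' ∈ b.Cp Z) (hc : u ∉ b.Ca Z) :
    D L G L.l (b.I Z u) + D L G L.l (b.I Z u') - b.κ' + 1 ≤ D L G L.l Z := by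
  have h1 := last h hZ
  have h2 := exc_pair (Z := Z) h ha.ne
  rw [exc_in hu, exc_in hu'] at h2
  have h3 := cost_sub h hZ Finset.univ
  have h4 := D_le_add_edge (G := b.Γ) (h.ctx.hL.P le_rfl) (ca_sub (b := b) (Z := Z)) hu hu' ha hc
  have h5 := h.ph.a (b.Cp Z) ⟨u, hu, u', hu', ha.ne⟩
  linarith

/-- If a member outside B lies strictly inside a world, use PosR.e there. Else take a member
outside B; it lies over some u; take an option that avoids lam u (PosN.noedge,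
Fib.OK.sep). -/
theorem OK.e1 (h : b.OK L F G A) {B : Set V}
    (hB : ∀ d, b.Wd d ⊆ B ∨ B ∩ b.Wd d ⊆ range b.υ) : E1 F G A B := by
  intro 𝒮 q h𝒮 hex
  by_cases hc : ∃ s ∈ 𝒮, s.1 ∉ B ∧ s.1 ∉ range b.υ
  · obtain ⟨s, hs, hsB, hsr⟩ := hc
    obtain ⟨d, hd⟩ : ∃ d, s.1 ∈ b.Wd d := mem_iUnion.1 ((h.cov (h𝒮 s hs).1).resolve_left hsr)
    have hBd : B ∩ b.Wd d ⊆ range b.υ := (hB d).resolve_left fun hw => hsB (hw hd)
    obtain ⟨s₀, hs₀, hn, a, a', ho, hf⟩ := (h.pos d).e {s ∈ 𝒮 | s.1 ∈ b.Wd d} q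
      (fun t ht => ⟨⟨(h𝒮 t ht.1).1, ht.2⟩, (h𝒮 t ht.1).2⟩)
      ⟨s, ⟨hs, hd⟩, fun hm => hsr (hm.elim (fun e => ⟨_, e.symm⟩) fun e => ⟨_, e.symm⟩)⟩
    have hr : s₀.1 ∉ range b.υ := by
      rintro ⟨v, hv⟩
      rcases (h.ends d v).1 (hv ▸ hs₀.2) with e | e
      · exact hn (Or.inl (by rw [← hv, e]))
      · exact hn (Or.inr (by rw [← hv, e]; rfl))
    refine ⟨s₀, hs₀.1, fun hb => hr (hBd ⟨hb, hs₀.2⟩), a, a', ho, fun s' hs' hne w hw => ?_⟩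
    by_cases hd' : s'.1 ∈ b.Wd d
    · exact hf s' ⟨hs', hd'⟩ hne w hw
    · have key : ∀ c, ¬ G.Adj (s₀.1, c) (s'.1, w) := fun c hadj => by
        rcases h.edge _ _ hadj (h𝒮 s₀ hs₀.1).1 (h𝒮 s' hs').1
          (fun e => hd' ((show s₀.1 = s'.1 from e) ▸ hs₀.2)) with ⟨d', p, p'⟩ | ⟨v, _, _, e, _⟩
        · exact hr (h.meet d d' (fun e => hd' (e ▸ p')) ⟨hs₀.2, p⟩)
        · exact hr ⟨v, (congrArg Prod.fst e).symm⟩
      exact ⟨key a, key a'⟩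
  · push Not at hc
    obtain ⟨s, hs, hsB⟩ := hex
    obtain ⟨v, hv⟩ := hc s hs hsB
    obtain ⟨a, a', ho, ha, ha'⟩ := h.ctx.hF.two s.2 (b.lam v)
    have key : ∀ c ∈ F.nd s.2, c ≠ b.lam v → ∀ s' ∈ 𝒮, s' ≠ s → ∀ w ∈ F.nd s'.2,
        ¬ G.Adj (s.1, c) (s'.1, w) := by
      intro c hcm hcv s' hs' hne w hw hadj
      by_cases e : s.1 = s'.1
      · rw [← e] at hadj
        exact h.ctx.hF.sep s.2 s'.2 (fun e' => hne (Prod.ext e.symm e'.symm)) c hcm w hw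
          ((h.ctx.hG _ _ _).1 hadj)
      · rcases h.edge _ _ hadj (h𝒮 s hs).1 (h𝒮 s' hs').1 e with ⟨d, p, p'⟩ | ⟨v', _, _, e', _⟩
        · have hBd : B ∩ b.Wd d ⊆ range b.υ := (hB d).resolve_left fun hw => hsB (hw p)
          obtain ⟨v', hv'⟩ : s'.1 ∈ range b.υ := by
            by_cases hb : s'.1 ∈ B
            · exact hBd ⟨hb, p'⟩
            · exact hc s' hs' hb
          have hA := (h𝒮 s hs).1
          have hA' := (h𝒮 s' hs').1
          change s.1 ∈ b.Wd d at p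
          change s'.1 ∈ b.Wd d at p'
          rw [← hv] at hadj p hA e
          rw [← hv'] at hadj p' hA' e
          exact noedge h (fun e' => e (congrArg b.υ e')) p p' hA hA' c w hadj
        · have e1 : v = v' := h.inj (hv.trans (congrArg Prod.fst e'))
          exact hcv (e1 ▸ congrArg Prod.snd e')
    have hm := h.ctx.hF.sub _ _ _ ho
    exact ⟨s, hs, hsB, a, a', ho, fun s' hs' hne w hw =>
      ⟨key a hm.1 ha s' hs' hne w hw, key a' hm.2 ha' s' hs' hne w hw⟩⟩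

end BData

end Pool.Agent.Lib.MP_781e3b_co.CN
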