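import Pool.Agent.Lib.MP_781e3b_co.CN.Ground2

/-!
The beta atom (2.3): definitions.
-/

namespace Pool.Agent.Lib.MP_781e3b_co.CN

open Set Function SimpleGraph

/-- The data of a beta atom. -/
structure BData (V Φ U E : Type) where
  Γ : SimpleGraph U
  Ep : SimpleGraph U
  υ : U → V
  lam : U → Φ
  x : E → U
  y : E → U
  Wd : E → Set V
  κ : ℝ
  κ' : ℝ

namespace BData
variable {V Φ U E : Type} (b : BData V Φ U E)

/-- The active vertex over u. -/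
def ι (u : U) : V × Φ := (b.υ u, b.lam u)

/-- The part of Z over u. -/
def I (Z : Set (V × Φ)) (u : U) : Set (V × Φ) := Z ∩ Prod.fst ⁻¹' {b.υ u}

def Cp (Z : Set (V × Φ)) : Set U := {u | (b.I Z u).Nonempty}

def Ca (Z : Set (V × Φ)) : Set U := b.ι ⁻¹' Z

open Classical in
noncomputable def exc (L : Lv) (G : SimpleGraph (V × Φ)) (j : ℕ) (Z : Set (V × Φ)) (u : U) : ℝ :=
  if u ∈ b.Cp Z then D L G j (b.I Z u) - L.m else 0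

noncomputable def cost (L : Lv) (G : SimpleGraph (V × Φ)) (j : ℕ) (Z : Set (V × Φ)) (d : E) : ℝ :=
  D L G j (Z ∩ up (b.Wd d)) - D L G j (b.I Z (b.x d)) - D L G j (b.I Z (b.y d))

/-- T lies in the active copy, in a fibre over U, or in a world. -/
def Loc (T : Set (V × Φ)) : Prop :=
  T ⊆ range b.ι ∨ (∃ u, T ⊆ up {b.υ u}) ∨ ∃ d, T ⊆ up (b.Wd d)

structure OK (L : Lv) (F : Fib Φ) (G : SimpleGraph (V × Φ)) (A : Set V) : Prop where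
  ctx : Ctx L F G
  inj : Injective b.υ
  cov : A ⊆ range b.υ ∪ ⋃ d, b.Wd d
  ends : ∀ d u, b.υ u ∈ b.Wd d ↔ u = b.x d ∨ u = b.y d
  meet : ∀ d d', d ≠ d' → b.Wd d ∩ b.Wd d' ⊆ range b.υ
  adj : ∀ d, b.Ep.Adj (b.x d) (b.y d)
  simple : ∀ d d', ({b.x d, b.y d} : Set U) = {b.x d', b.y d'} → d = d'
  edge : ∀ p q, G.Adj p q → p.1 ∈ A → q.1 ∈ A → p.1 ≠ q.1 →
    (∃ d, p.1 ∈ b.Wd d ∧ q.1 ∈ b.Wd d) ∨ ∃ u v, b.Γ.Adj u v ∧ p = b.ι u ∧ q = b.ι v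
  good : ∀ d, Good L F G (A ∩ b.Wd d)
  pos : ∀ d, PosR L F G (A ∩ b.Wd d) (b.υ (b.x d)) (b.υ (b.y d)) b.κ
  w1 : W1 L b.Γ univ
  ph : PH L b.Γ b.Ep b.κ b.κ'
  k0 : 0 ≤ b.κ
  k1 : b.κ ≤ b.κ'
  k2 : b.κ' < L.m

end BData

end Pool.Agent.Lib.MP_781e3b_co.CN
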