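import Pool.Agent.Lib.MP_781e3b_co.CN.Clu2a

/-!
The matching M and the pull-back of eligible edges (3.2, 3.3).
-/

namespace Pool.Agent.Lib.MP_781e3b_co.CN

open Set Function SimpleGraph

variable {Ω Ω' : Type} [Finite Ω] [Finite Ω'] {L : Lv} {Y : SimpleGraph Ω} {Y' : SimpleGraph Ω'}
  {k i : ℕ}

namespace Clu2Aux

omit [Finite Ω] [Finite Ω'] in
theorem hom_del {f : Ω' → Ω} {C : Set Ω'} (hf : InjOn f C) {a b x y : Ω'} (ha : a ∈ C)
    (hb : b ∈ C) (hx : x ∈ C) (hy : y ∈ C) (h : Y.Adj (f x) (f y))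
    (hn : ¬ (edge a b).Adj x y) : (Y \ edge (f a) (f b)).Adj (f x) (f y) := by
  refine ⟨h, fun he => hn ?_⟩
  rw [edge_adj] at he ⊢
  refine ⟨?_, fun e => he.2 (by rw [e])⟩
  rcases he.1 with ⟨h1, h2⟩ | ⟨h1, h2⟩
  · exact Or.inl ⟨hf hx ha h1, hf hy hb h2⟩
  · exact Or.inr ⟨hf hx hb h1, hf hy ha h2⟩

omit [Finite Ω] [Finite Ω'] in
theorem nontrivial_image {f : Ω' → Ω} {Z : Set Ω'} (hf : InjOn f Z) (h : Z.Nontrivial) :
    (f '' Z).Nontrivial := by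
  obtain ⟨x, hx, y, hy, hxy⟩ := h
  exact ⟨f x, mem_image_of_mem f hx, f y, mem_image_of_mem f hy, fun e => hxy (hf hx hy e)⟩

theorem top_surj (hL : L.OK) {j : ℕ} (hj : j ≤ L.l) {f : Ω' → Ω} {C : Set Ω'} {N : Set Ω}
    (hf : InjOn f C) (hh : ∀ a ∈ C, ∀ b ∈ C, Y'.Adj a b → Y.Adj (f a) (f b)) (hs : f '' C ⊆ N)
    (hc : cnt (Top L Y j) N ≤ cnt (Top L Y' j) C) {T : Set Ω} (hT : T ⊆ N) (h : Top L Y j T) :
    ∃ T' ⊆ C, Top L Y' j T' ∧ f '' T' = T := by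
  have hinj : InjOn (fun T' : Set Ω' => f '' T') {T' | T' ⊆ C ∧ Top L Y' j T'} :=
    fun T₁ h₁ T₂ h₂ e => (hf.image_eq_image_iff h₁.1 h₂.1).1 e
  have hsub : (fun T' : Set Ω' => f '' T') '' {T' | T' ⊆ C ∧ Top L Y' j T'} ⊆
      {T | T ⊆ N ∧ Top L Y j T} := by
    rintro _ ⟨T', ⟨h1, h2⟩, rfl⟩
    exact ⟨(image_mono h1).trans hs,
      h2.hom (hL.P hj) (hf.mono h1) fun a ha b hb => hh a (h1 ha) b (h1 hb)⟩
  have heq := eq_of_subset_of_ncard_le hsub (by rw [hinj.ncard_image]; exact hc) (toFinite _)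
  have hm : T ∈ {T | T ⊆ N ∧ Top L Y j T} := ⟨hT, h⟩
  rw [← heq] at hm
  obtain ⟨T', ⟨h1, h2⟩, e⟩ := hm
  exact ⟨T', h1, h2, e⟩

end Clu2Aux

/-- Inside the image of a top all counts agree: if T' is a top of level j of Y' then
D j (f T') = θ j = D j T', so every edge and every lower top of Y inside f T' is an image. -/
theorem pull_top (hL : L.OK) (hb : Bd L Y) {j : ℕ} (hj : j < L.l) {f : Ω' → Ω} {T' : Set Ω'}
    (hf : InjOn f T') (hh : ∀ a ∈ T', ∀ b ∈ T', Y'.Adj a b → Y.Adj (f a) (f b))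
    (hT : Top L Y' j T') : ∀ a ∈ T', ∀ b ∈ T', Y.Adj (f a) (f b) → Y'.Adj a b := by
  intro a ha b hb' hab
  by_contra hn
  have hP : L.P j := hL.P hj.le
  have h1 : D L (Y \ edge (f a) (f b)) j (f '' T') ≤ D L Y' j T' := by
    refine D_hom hP hf fun x hx y hy hxy => Clu2Aux.hom_del hf ha hb' hx hy (hh x hx y hy hxy) ?_
    intro he
    rw [edge_adj] at he
    rcases he.1 with ⟨rfl, rfl⟩ | ⟨rfl, rfl⟩
    · exact hn hxy
    · exact hn hxy.symm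
  have h2 := D_del (L := L) (Z := f '' T') hP hab (mem_image_of_mem f ha) (mem_image_of_mem f hb')
  have h3 := hb.w1.ge j hj.le (f '' T') (subset_univ _)
    (Clu2Aux.nontrivial_image hf (nontrivial_of_three (hT.three hL.n3)))
  have h4 := hT.2.1
  linarith

/-- The tops of Y in N are the images of the tops in C (counting). The top through a, b is
tight and meets the cluster N, so it is f T'; by pull_top, f is an isomorphism on T'
(Top.iso, top_chain). A tight set of Y' - a'b' through a' is tight in Y', lies in C, and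
its image is tight in Y - ab. -/
theorem pull_elig (hL : L.OK) (hb : Bd L Y) (hb' : Bd L Y') {f : Ω' → Ω} {C : Set Ω'} {N : Set Ω}
    (hf : InjOn f C) (hh : ∀ a ∈ C, ∀ b ∈ C, Y'.Adj a b → Y.Adj (f a) (f b))
    (hC : KCl L Y' k C) (hN : IsCl L Y N) (hk : tops L Y N ≤ k) (hs : f '' C ⊆ N) {a b : Ω}
    (ha : a ∈ N) (he : Elig L Y a b) :
    ∃ a' ∈ C, ∃ b' ∈ C, f a' = a ∧ f b' = b ∧ Elig L Y' a' b' := by
  have hl : L.l - 1 < L.l := Nat.sub_lt hL.l1 one_pos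
  obtain ⟨⟨hab, hnest⟩, hcold⟩ := he
  obtain ⟨T, hT, haT, hbT⟩ := hnest _ hl
  have hTN : T ⊆ N := hN.2 T (hT.tt hL) ⟨a, haT, ha⟩
  obtain ⟨T', hT'C, hT', rfl⟩ := Clu2Aux.top_surj hL hl.le hf hh hs (hk.trans hC.2) hTN hT
  obtain ⟨a', ha', rfl⟩ := haT
  obtain ⟨b', hb'', rfl⟩ := hbT
  have hfT : InjOn f T' := hf.mono hT'C
  have hhT : ∀ x ∈ T', ∀ y ∈ T', Y'.Adj x y → Y.Adj (f x) (f y) :=
    fun x hx y hy => hh x (hT'C hx) y (hT'C hy)
  have hpull := pull_top hL hb hl hfT hhT hT'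
  have hN' : Nest L Y' L.l a' b' := by
    refine ⟨hpull a' ha' b' hb'' hab, fun j hj => ?_⟩
    obtain ⟨S, hS, haS, hbS⟩ := hnest j hj
    have hST : S ⊆ f '' T' := top_chain hL hb (Nat.le_sub_one_of_lt hj) hl hS hT
      ⟨f a', ⟨haS, mem_image_of_mem f ha'⟩, f b', ⟨hbS, mem_image_of_mem f hb''⟩, hab.ne⟩
    have e : f '' (T' ∩ f ⁻¹' S) = S := by
      rw [image_inter_preimage]
      exact inter_eq_self_of_subset_right hST
    refine ⟨T' ∩ f ⁻¹' S, ?_, ⟨ha', haS⟩, ⟨hb'', hbS⟩⟩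
    refine (Top.iso (G' := Y) (hfT.mono inter_subset_left)
      fun x hx y hy => ⟨hhT x hx.1 y hy.1, hpull x hx.1 y hy.1⟩).1 ?_
    rw [e]
    exact hS
  refine ⟨a', hT'C ha', b', hT'C hb'', rfl, rfl, hN', fun Z hZ hD => ?_⟩
  have hnb : ¬ (a' ∈ Z ∧ b' ∈ Z) := by
    rintro ⟨h1, h2⟩
    have := lemN hL hb' le_rfl hN' le_rfl h1 h2
    have := hL.m1
    linarith
  have hTt : Tt L Y' Z := ⟨hZ.nonempty, by rw [← D_del_out hnb]; exact hD⟩
  have key : (Z ∩ C).Nonempty → a' ∉ Z ∧ b' ∉ Z := by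
    intro hne
    have hZC : Z ⊆ C := hC.1.2 Z hTt hne
    have h1 : D L (Y \ edge (f a') (f b')) L.l (f '' Z) ≤ D L (Y' \ edge a' b') L.l Z :=
      D_hom (hL.P le_rfl) (hf.mono hZC) fun x hx y hy hxy =>
        Clu2Aux.hom_del hf (hT'C ha') (hT'C hb'') (hZC hx) (hZC hy)
          (hh x (hZC hx) y (hZC hy) hxy.1) hxy.2
    obtain ⟨h2, h3⟩ := hcold (f '' Z) (Clu2Aux.nontrivial_image (hf.mono hZC) hZ) (h1.trans hD)
    exact ⟨fun h => h2 (mem_image_of_mem f h), fun h => h3 (mem_image_of_mem f h)⟩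
  exact ⟨fun h => (key ⟨a', h, hT'C ha'⟩).1 h, fun h => (key ⟨b', h, hT'C hb''⟩).2 h⟩

end Pool.Agent.Lib.MP_781e3b_co.CN
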