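import Pool.Agent.Lib.MP_781e3b_co.CN.RR2
import Pool.Agent.Lib.MP_781e3b_co.CN.Clu2

/-!
Blue copies.
-/

namespace Pool.Agent.Lib.MP_781e3b_co.CN

open Set Function SimpleGraph

variable {K : Kit} {W : World K} {U' : Type} [Finite U'] {Y' : SimpleGraph U'} {C : Set U'}
  {φ : U' → W.V × K.Φ} {κb κr : ℝ}

namespace BlueFinAux

theorem card_range (hN : Nat.card U' ≤ K.N) (φ : U' → W.V × K.Φ) :
    (range fun u => (φ u).1).ncard ≤ K.N := by
  rw [← image_univ]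
  exact (ncard_image_le (toFinite _)).trans ((ncard_univ U').trans_le hN)

theorem psi_adj {x y : K.Φ} (h : K.fib.Ψ.Adj x y) :
    ∃ u v, K.ΨU.Adj u v ∧ x = Sum.inr u ∧ y = Sum.inr v := by
  obtain ⟨-, u, v, huv, rfl, rfl⟩ := h
  exact ⟨u, v, huv, rfl, rfl⟩

/-- The part of a label. -/
def part (K : Kit) : K.Φ → K.U ⊕ Set K.U := Sum.map id (cl K.L K.τ)

theorem tops_le {f : U' → K.U} (hL : K.L.OK) (hf : InjOn f C)
    (hh : ∀ a ∈ C, ∀ b ∈ C, Y'.Adj a b → K.τ.Adj (f a) (f b)) :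
    tops K.L Y' C ≤ tops K.L K.τ (f '' C) :=
  cnt_image_le hf fun _ hT t => t.hom (hL.P (Nat.sub_le _ _)) (hf.mono hT)
    fun a ha b hb => hh a (hT ha) b (hT hb)

omit [Finite U'] in
theorem injOn {v : W.V} {f : U' → K.U} (hφ : Injective φ)
    (h : ∀ u ∈ C, φ u = (v, Sum.inr (f u))) : InjOn f C := fun a ha b hb e =>
  hφ (by rw [h a ha, h b hb, e])

end BlueFinAux

open BlueFinAux

/-- φ '' C is tight (D_hom), so it lies in one fibre (Num.t). The labels form a tight set of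
Ψ with three points; by disjoint_add (parts: each left label, and the clusters of τ) and
exists_edge it lies in one cluster N. cnt_image_le, Top.hom. -/
theorem blue_node (hK : K.OK) (hW : W.BOK κb κr) (hN : Nat.card U' ≤ K.N) (hφ : Injective φ)
    (he : ∀ u v, Y'.Adj u v → W.B.Adj (φ u) (φ v)) (hC : KCl K.L Y' K.k C) :
    ∃ (v : W.V) (N : Set K.U) (f : U' → K.U), KCl K.L K.τ K.k N ∧ f '' C ⊆ N ∧
      (∀ u ∈ C, φ u = (v, Sum.inr (f u))) ∧
      ∀ a ∈ C, ∀ b ∈ C, Y'.Adj a b → K.τ.Adj (f a) (f b) := by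
  classical
  have hL := hK.hL
  have hm : K.L.m < 2 * K.L.m := by have := hL.m1; linarith
  obtain ⟨T, hTC, hT⟩ := one_le_cnt.1 (hK.k1.trans hC.2)
  have hnt : C.Nontrivial := (nontrivial_of_three (hT.three hL.n3)).mono hTC
  have hD : D K.L W.B K.L.l (φ '' C) ≤ K.L.m :=
    (D_hom (hL.P le_rfl) hφ.injOn fun a _ b _ => he a b).trans hC.1.1.2
  have hsub : φ '' C ⊆ up (range fun u => (φ u).1) := by
    rintro _ ⟨u, -, rfl⟩
    exact ⟨u, rfl⟩
  have hone := (hW.good _ (card_range hN φ)).num.t _ hsub hD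
  obtain ⟨u₀, hu₀⟩ := hnt.nonempty
  have hv : ∀ u ∈ C, φ u = ((φ u₀).1, (φ u).2) := fun u hu =>
    Prod.ext (hone (φ u) ⟨u, hu, rfl⟩ (φ u₀) ⟨u₀, hu₀, rfl⟩) rfl
  have hg : InjOn (fun u => (φ u).2) C := fun a ha b hb e =>
    hφ (by rw [hv a ha, hv b hb]; exact Prod.ext rfl e)
  have hadj : ∀ a ∈ C, ∀ b ∈ C, Y'.Adj a b → K.fib.Ψ.Adj (φ a).2 (φ b).2 := fun a ha b hb h => by
    have h' := he a b h
    rw [hv a ha, hv b hb] at h'
    exact (hW.fib _ _ _).1 h'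
  have hD' : D K.L K.fib.Ψ K.L.l ((fun u => (φ u).2) '' C) < 2 * K.L.m :=
    ((D_hom (hL.P le_rfl) hg hadj).trans hC.1.1.2).trans_lt hm
  have hpart := (disjoint_add (G := K.fib.Ψ) (S := univ) hL (part K)
    (fun x _ y _ h => by
      obtain ⟨u, v, huv, rfl, rfl⟩ := psi_adj h
      exact congrArg Sum.inr huv.2)
    fun _ => hK.fib.w1.mono (subset_univ _)).2.2 _ le_rfl _ (subset_univ _) hD'
  obtain ⟨x, hx, y, -, hxy⟩ := exists_edge hL (Clu2Aux.nontrivial_image hg hnt) hD'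
  obtain ⟨w, -, -, rfl, -⟩ := psi_adj hxy
  have wτ : W1 K.L K.τ univ := (hK.bd.sub hL sdiff_le).w1
  have hlab : ∀ u ∈ C, (φ u).2 = Sum.inr (K.un (φ u).2) ∧ K.un (φ u).2 ∈ cl K.L K.τ w := by
    intro u hu
    have h := hpart _ hx _ ⟨u, hu, rfl⟩
    rcases e : (φ u).2 with z | z
    · simp only [e] at h
      cases h
    · simp only [e] at h
      exact ⟨rfl, (cl_eq_iff hL wτ).1 (Sum.inr.inj h)⟩
  have hφ' : ∀ u ∈ C, φ u = ((φ u₀).1, Sum.inr (K.un (φ u).2)) := fun u hu => by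
    rw [← (hlab u hu).1]
    exact hv u hu
  have hτ : ∀ a ∈ C, ∀ b ∈ C, Y'.Adj a b → K.τ.Adj (K.un (φ a).2) (K.un (φ b).2) := by
    intro a ha b hb h
    obtain ⟨p, q, hpq, e1, e2⟩ := psi_adj (hadj a ha b hb h)
    rw [e1, e2]
    exact hpq.1
  have hs : (fun u => K.un (φ u).2) '' C ⊆ cl K.L K.τ w := by
    rintro _ ⟨u, hu, rfl⟩
    exact (hlab u hu).2
  refine ⟨(φ u₀).1, cl K.L K.τ w, fun u => K.un (φ u).2, ⟨isCl_cl hL wτ w, ?_⟩, hs, hφ', hτ⟩
  exact hC.2.trans ((tops_le hL (injOn hφ hφ') hτ).trans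
    (cnt_mono hs fun _ _ t => t))

/-- Choose (v C, N C, f C). Different k-clusters are disjoint, so they give different members
(else N has 2k tops, kmax, k1). Class of C: K.c (N C). For a family with root R: if all
members lie over one point take any C ≠ R (free_of_fibre); else, if R is a member use Good.e
with the root v R, and if not, any root. pull_elig. -/
theorem blue_final (hK : K.OK) (hW : W.BOK κb κr) (hN : Nat.card U' ≤ K.N) (hb : Bd K.L Y')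
    (hφ : Injective φ) (he : ∀ u v, Y'.Adj u v → W.B.Adj (φ u) (φ v)) : Cls K.L Y' K.k K.i := by
  classical
  have hL := hK.hL
  choose v N f hcl hs hφ' hτ using
    fun C : {C : Set U' // KCl K.L Y' K.k C} => blue_node hK hW hN hφ he C.2
  let mem : {C : Set U' // KCl K.L Y' K.k C} → W.V × K.fib.Mem := fun C => (v C, ⟨N C, hcl C⟩)
  have hinj : Injective mem := by
    intro C C' e
    have e1 : v C = v C' := congrArg Prod.fst e
    have e2 : N C = N C' := congrArg (fun s : W.V × K.fib.Mem => s.2.1) e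
    by_contra hne
    have hd : Disjoint (f C '' C.1) (f C' '' C'.1) := by
      rw [Set.disjoint_left]
      rintro _ ⟨a, ha, rfl⟩ ⟨b, hb, eb⟩
      have hab : a = b := hφ (by rw [hφ' C a ha, hφ' C' b hb, e1, eb])
      exact hne (Subtype.ext (C.2.1.eq C'.2.1 ⟨a, ha, hab ▸ hb⟩))
    have h1 := Basic2aAux.cnt_disj (Q := Top K.L K.τ (K.L.l - 1)) (hs C) (e2 ▸ hs C') hd
      fun T t => (nontrivial_of_three (t.three hL.n3)).nonempty
    have h2 := C.2.2.trans (tops_le hL (injOn hφ (hφ' C)) (hτ C))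
    have h3 := C'.2.2.trans (tops_le hL (injOn hφ (hφ' C')) (hτ C'))
    have h4 := hK.kmax _ (hcl C).1.1
    have h5 := hK.k1
    unfold tops at h2 h3 h4
    omega
  refine ⟨fun C => if h : KCl K.L Y' K.k C then K.c (N ⟨C, h⟩) else 0, fun C h => ?_, ?_⟩
  · simp only [dif_pos h]
    exact hK.clt _ (hcl _)
  rintro 𝒮 R q h𝒮 ⟨C₀, hC₀, hR⟩
  let 𝒯 : Set (W.V × K.fib.Mem) := mem '' {C | C.1 ∈ 𝒮}
  have hfree : ∃ C : {C : Set U' // KCl K.L Y' K.k C}, C.1 ∈ 𝒮 ∧ C.1 ≠ R ∧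
      Free K.fib W.B 𝒯 (mem C) := by
    obtain ⟨r, hr⟩ : ∃ r : W.V, ∀ C : {C : Set U' // KCl K.L Y' K.k C}, C.1 = R → v C = r := by
      by_cases h : KCl K.L Y' K.k R
      · exact ⟨v ⟨R, h⟩, fun C e => congrArg v (Subtype.ext e)⟩
      · exact ⟨v ⟨C₀, (h𝒮 _ hC₀).1⟩, fun C e => absurd (e ▸ C.2) h⟩
    by_cases hex : ∃ s ∈ 𝒯, s.1 ∉ ({r} : Set W.V)
    · obtain ⟨_, ⟨C, hC, rfl⟩, hr', hf⟩ := (hW.good _ (card_range hN φ)).e r 𝒯 q (by
        rintro _ ⟨C, hC, rfl⟩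
        obtain ⟨u, hu⟩ := C.2.1.1.1
        refine ⟨⟨u, congrArg Prod.fst (hφ' C u hu)⟩, ?_⟩
        have h := (h𝒮 _ hC).2
        simp only [dif_pos C.2] at h
        exact h) hex
      exact ⟨C, hC, fun e => hr' (hr C e), hf⟩
    · have hall : ∀ s ∈ 𝒯, s.1 = r := fun s hs => by
        by_contra h
        exact hex ⟨s, hs, h⟩
      exact ⟨⟨C₀, (h𝒮 _ hC₀).1⟩, hC₀, hR, free_of_fibre (hW.ctx hK) fun s hs =>
        (hall s hs).trans (hall _ ⟨_, hC₀, rfl⟩).symm⟩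
  obtain ⟨C, hC, hCR, _, _, ⟨a, ha, b, -, hab, rfl, rfl⟩, hf⟩ := hfree
  obtain ⟨a', ha', b', hb', rfl, rfl, hel⟩ := pull_elig hL (hK.bd.sub hL sdiff_le) hb
    (injOn hφ (hφ' C)) (hτ C) C.2 (hcl C).1 (hK.kmax _ (hcl C).1.1) (hs C) ha hab
  refine ⟨C.1, hC, hCR, a', ha', b', hb', hel, fun C' hC' hne w hw => ?_⟩
  let D' : {C : Set U' // KCl K.L Y' K.k C} := ⟨C', (h𝒮 _ hC').1⟩
  have h := hf (mem D') ⟨D', hC', rfl⟩ (fun e => hne (congrArg Subtype.val (hinj e)))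
    (Sum.inr (f D' w)) ⟨_, hs D' ⟨w, hw, rfl⟩, rfl⟩
  refine ⟨fun h' => h.1 ?_, fun h' => h.2 ?_⟩
  · have h2 := he _ _ h'
    rwa [hφ' C a' ha', hφ' D' w hw] at h2
  · have h2 := he _ _ h'
    rwa [hφ' C b' hb', hφ' D' w hw] at h2

end Pool.Agent.Lib.MP_781e3b_co.CN
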