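import Pool.Agent.Lib.MP_781e3b_co.CN.Bridge0

/-!
Links to the earlier files: density, the hitting forest, 2-connected subgraphs.
-/

namespace Pool.Agent.Lib.MP_781e3b_co.CN

open Set Function SimpleGraph

variable {a b : ℕ}

namespace BridgeAux

theorem rtg_symm {α : Type} {r : α → α → Prop} (hr : ∀ x y, r x y → r y x) {x y : α}
    (h : Relation.ReflTransGen r x y) : Relation.ReflTransGen r y x := by
  induction h with
  | refl => exact .refl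
  | tail _ h2 ih => exact .head (hr _ _ h2) ih

theorem third {Ω : Type} {B : Set Ω} (h : 3 ≤ B.ncard) (x y : Ω) : ∃ w ∈ B, x ≠ w ∧ y ≠ w := by
  by_contra hc
  have h1 : B ⊆ {x, y} := fun w hw => by
    by_contra h2
    simp only [mem_insert_iff, mem_singleton_iff, not_or] at h2
    exact hc ⟨w, hw, Ne.symm h2.1, Ne.symm h2.2⟩
  have h2 := ncard_le_ncard h1 (toFinite _)
  have h3 := ncard_insert_le x ({y} : Set Ω)
  rw [ncard_singleton] at h3
  omega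

theorem conn {Ω : Type} {G : SimpleGraph Ω} {B : Set Ω} (hB : TwoC G B) (v : B) :
    ((G.induce B).induce {v}ᶜ).Connected := by
  obtain ⟨w, hw, h1, -⟩ := third hB.1 v.1 v.1
  have : Nonempty ({v}ᶜ : Set B) := ⟨⟨⟨w, hw⟩, fun e => h1 (congrArg Subtype.val e).symm⟩⟩
  refine ⟨fun x y => ?_⟩
  have hx : x.1.1 ≠ v.1 := fun e => x.2 (Subtype.ext e)
  have key : ∀ z, Relation.ReflTransGen
      (fun p q => G.Adj p q ∧ p ∈ B ∧ q ∈ B ∧ p ≠ v.1 ∧ q ≠ v.1) x.1.1 z →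
      ∀ y : ({v}ᶜ : Set B), y.1.1 = z → ((G.induce B).induce {v}ᶜ).Reachable x y := by
    intro z hz
    induction hz with
    | refl =>
      intro y hy
      rw [show y = x from Subtype.ext (Subtype.ext hy)]
    | @tail p q _ h2 ih =>
      intro y hy
      refine (ih ⟨⟨p, h2.2.1⟩, fun e => h2.2.2.2.1 (congrArg Subtype.val e)⟩ rfl).trans
        (Adj.reachable ?_)
      change G.Adj p y.1.1
      rw [hy]
      exact h2.1
  exact key _ (hB.2 v.1 _ x.1.2 _ y.1.2 hx fun e => y.2 (Subtype.ext e)) y rfl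

theorem ec_sum {V W : Type} [Finite V] [Finite W] (G : SimpleGraph V) (H : SimpleGraph W)
    (Z : Set (V ⊕ W)) : ec (G ⊕g H) Z ≤ ec G (Sum.inl ⁻¹' Z) + ec H (Sum.inr ⁻¹' Z) := by
  have h1 : {T | T ⊆ Z ∧ IsEdge (G ⊕g H) T} ⊆
      image Sum.inl '' {T | T ⊆ Sum.inl ⁻¹' Z ∧ IsEdge G T} ∪
        image Sum.inr '' {T | T ⊆ Sum.inr ⁻¹' Z ∧ IsEdge H T} := by
    rintro T ⟨hT, x, y, hxy, rfl⟩
    rcases x with x | x <;> rcases y with y | y
    · refine Or.inl ⟨{x, y}, ⟨?_, x, y, sum_adj_inl.1 hxy, rfl⟩, image_pair _ _ _⟩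
      rw [← image_subset_iff, image_pair]
      exact hT
    · simp at hxy
    · simp at hxy
    · refine Or.inr ⟨{x, y}, ⟨?_, x, y, sum_adj_inr.1 hxy, rfl⟩, image_pair _ _ _⟩
      rw [← image_subset_iff, image_pair]
      exact hT
  exact (ncard_le_ncard h1 (toFinite _)).trans ((ncard_union_le _ _).trans
    (add_le_add (ncard_image_le (toFinite _)) (ncard_image_le (toFinite _))))

theorem ncard_sum {V W : Type} [Finite V] [Finite W] (Z : Set (V ⊕ W)) :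
    Z.ncard = (Sum.inl ⁻¹' Z).ncard + (Sum.inr ⁻¹' Z).ncard := by
  rw [← ncard_image_of_injective (Sum.inl ⁻¹' Z) (Sum.inl_injective (β := W)),
    ← ncard_image_of_injective (Sum.inr ⁻¹' Z) (Sum.inr_injective (α := V)), ← ncard_union_eq]
  · congr 1
    ext x
    rcases x with x | x <;> simp
  · rw [Set.disjoint_left]
    rintro _ ⟨x, -, rfl⟩ ⟨y, -, h⟩
    cases h

theorem ec_sub {V : Type} (G : SimpleGraph V) {Z : Set V} (h : Z.Subsingleton) : ec G Z = 0 := by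
  have : {T | T ⊆ Z ∧ IsEdge G T} = ∅ := by
    rw [eq_empty_iff_forall_notMem]
    rintro T ⟨hT, x, y, hxy, rfl⟩
    exact hxy.ne (h (hT (by simp)) (hT (by simp)))
  simp only [ec, cnt, this, ncard_empty]

theorem part_ge {V : Type} {G : SimpleGraph V} {m : ℝ}
    (h : ∀ Z : Set V, Z.Nontrivial → 2 * m - 1 ≤ m * Z.ncard - ec G Z) (Z : Set V) :
    (Z.ncard = 0 ∧ m * Z.ncard - ec G Z = 0) ∨ (Z.ncard = 1 ∧ m * Z.ncard - ec G Z = m) ∨
      2 * m - 1 ≤ m * Z.ncard - ec G Z := by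
  rcases Z.subsingleton_or_nontrivial with h1 | h1
  · rw [ec_sub G h1]
    rcases h1.eq_empty_or_singleton with rfl | ⟨x, rfl⟩ <;> simp
  · exact Or.inr (Or.inr (h Z h1))

theorem sum_ge {V W : Type} [Finite V] [Finite W] {G : SimpleGraph V} {H : SimpleGraph W} {m : ℝ}
    (hm : 1 < m) (h₁ : ∀ Z : Set V, Z.Nontrivial → 2 * m - 1 ≤ m * Z.ncard - ec G Z)
    (h₂ : ∀ Z : Set W, Z.Nontrivial → 2 * m - 1 ≤ m * Z.ncard - ec H Z) (Z : Set (V ⊕ W))
    (hZ : Z.Nontrivial) : 2 * m - 1 ≤ m * Z.ncard - ec (G ⊕g H) Z := by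
  have e1 : (ec (G ⊕g H) Z : ℝ) ≤ ec G (Sum.inl ⁻¹' Z) + ec H (Sum.inr ⁻¹' Z) := by
    exact_mod_cast ec_sum G H Z
  have e2 := ncard_sum Z
  have e3 : 1 < Z.ncard := (one_lt_ncard_iff_nontrivial).2 hZ
  rw [e2, Nat.cast_add, mul_add]
  rcases part_ge h₁ (Sum.inl ⁻¹' Z) with ⟨p, p'⟩ | ⟨p, p'⟩ | p <;>
    rcases part_ge h₂ (Sum.inr ⁻¹' Z) with ⟨q, q'⟩ | ⟨q, q'⟩ | q <;>
    first | omega | linarith

theorem side {V W : Type} {G : SimpleGraph V} {H : SimpleGraph W} {T : Set (V ⊕ W)}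
    (h : TwoC (G ⊕g H) T) : (∃ T₁, T = Sum.inl '' T₁) ∨ ∃ T₂, T = Sum.inr '' T₂ := by
  have key : ∀ x ∈ T, ∀ y ∈ T, x.isLeft = y.isLeft := by
    intro x hx y hy
    obtain ⟨w, -, h1, h2⟩ := third h.1 x y
    have h3 := h.2 w x hx y hy h1 h2
    clear hy h2
    induction h3 with
    | refl => rfl
    | @tail p q _ h4 ih =>
      rw [ih]
      have h5 := h4.1
      rcases p with p | p <;> rcases q with q | q <;> simp at h5 ⊢
  by_cases hc : ∃ x, Sum.inl x ∈ T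
  · obtain ⟨x, hx⟩ := hc
    refine Or.inl ⟨Sum.inl ⁻¹' T, ?_⟩
    ext y
    rcases y with y | y
    · simp
    · simpa using fun hy => by simpa using key _ hx _ hy
  · refine Or.inr ⟨Sum.inr ⁻¹' T, ?_⟩
    ext y
    rcases y with y | y
    · simpa using fun hy => hc ⟨y, hy⟩
    · simp

end BridgeAux

/-- RR.block_emb for the graph induced on B. -/
theorem twoC_transfer {H₁ : SimpleGraph (Fin a)} {H₂ : SimpleGraph (Fin b)}
    (h : RamseyEquiv H₁ H₂ 2) {B : Set (Fin a)} (hB : TwoC H₁ B) :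
    ∃ f : Fin a → Fin b, InjOn f B ∧ ∀ u ∈ B, ∀ v ∈ B, H₁.Adj u v → H₂.Adj (f u) (f v) := by
  classical
  have hc : 3 ≤ Fintype.card B := by
    rw [← Nat.card_eq_fintype_card]
    exact hB.1
  obtain ⟨f, f1, f2⟩ := RR.block_emb H₁ H₂ (H₁.induce B) hc (BridgeAux.conn hB)
    ⟨Subtype.val, Subtype.val_injective, fun _ _ huv => huv⟩ h
  obtain ⟨w⟩ : Nonempty B := Fintype.card_pos_iff.1 (by omega)
  refine ⟨fun x => if hx : x ∈ B then f ⟨x, hx⟩ else f w, fun u hu v hv huv => ?_,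
    fun u hu v hv huv => ?_⟩
  · simp only [dif_pos hu, dif_pos hv] at huv
    exact congrArg Subtype.val (f1 huv)
  · simp only [dif_pos hu, dif_pos hv]
    exact f2 ⟨u, hu⟩ ⟨v, hv⟩ huv

/-- exists_levels for the disjoint union H₁ ⊕g H₂; Bd.hom; a top is 2-connected
(tight_twoC), so it lies in one summand (Top.iso), and twoC_transfer, Top.hom move it to the
other. -/
theorem levels_pair {H₁ : SimpleGraph (Fin a)} {H₂ : SimpleGraph (Fin b)} (h : RamseyEquiv H₁ H₂ 2)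
    {B : Set (Fin a)} (hB : TwoC H₁ B) :
    ∃ L : Lv, L.OK ∧ Bd L H₁ ∧ Bd L H₂ ∧ (∃ T, Top L H₁ (L.l - 1) T) ∧
      ∃ T, Top L H₂ (L.l - 1) T := by
  obtain ⟨m, hm, d1, d2, Z, z1, z2⟩ := density h hB
  have hZ : ∃ Z : Set (Fin a ⊕ Fin b), 3 ≤ Z.ncard ∧
      m * Z.ncard - ec (H₁ ⊕g H₂) Z ≤ 2 * m - 1 := by
    refine ⟨Sum.inl '' Z, ?_⟩
    rw [ncard_image_of_injective _ Sum.inl_injective]
    have e1 : (ec H₁ Z : ℝ) ≤ ec (H₁ ⊕g H₂) (Sum.inl '' Z) := by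
      exact Nat.cast_le.2 (ec_hom Sum.inl_injective.injOn fun _ _ _ _ huv => sum_adj_inl.2 huv)
    exact ⟨z1, by linarith⟩
  obtain ⟨L, hL, hb, T, hT⟩ := exists_levels (H₁ ⊕g H₂) hm (BridgeAux.sum_ge hm d1 d2) hZ
  have b1 : Bd L H₁ := Bd.hom hL Sum.inl_injective (fun _ _ huv => sum_adj_inl.2 huv) hb
  have b2 : Bd L H₂ := Bd.hom hL Sum.inr_injective (fun _ _ huv => sum_adj_inr.2 huv) hb
  have hl : L.l - 1 < L.l := Nat.sub_lt hL.l1 Nat.one_pos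
  refine ⟨L, hL, b1, b2, ?_⟩
  rcases BridgeAux.side (tight_twoC hL hb.w1 hl (subset_univ T) hT.2.1 (hT.three hL.n3)) with
    ⟨T₁, rfl⟩ | ⟨T₂, rfl⟩
  · have t1 : Top L H₁ (L.l - 1) T₁ :=
      (Top.iso Sum.inl_injective.injOn fun _ _ _ _ => sum_adj_inl.symm).1 hT
    obtain ⟨f, f1, f2⟩ := twoC_transfer h
      (tight_twoC hL b1.w1 hl (subset_univ T₁) t1.2.1 (t1.three hL.n3))
    exact ⟨⟨T₁, t1⟩, _, t1.hom (hL.P hl.le) f1 f2⟩
  · have t2 : Top L H₂ (L.l - 1) T₂ :=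
      (Top.iso Sum.inr_injective.injOn fun _ _ _ _ => sum_adj_inr.symm).1 hT
    obtain ⟨f, f1, f2⟩ := twoC_transfer h.symm
      (tight_twoC hL b2.w1 hl (subset_univ T₂) t2.2.1 (t2.three hL.n3))
    exact ⟨⟨_, t2.hom (hL.P hl.le) f1 f2⟩, T₂, t2⟩

/-- The support of a cycle. -/
theorem twoC_of_cycle {Ω : Type} [Finite Ω] {H : SimpleGraph Ω} (h : ¬ H.IsAcyclic) :
    ∃ B, TwoC H B := by
  simp only [IsAcyclic, not_forall, not_not] at h
  obtain ⟨u, c, hc⟩ := h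
  have h3 := hc.three_le_length
  have hi := hc.getVert_injOn
  have h0 : c.getVert 0 = c.getVert c.length := by simp
  refine ⟨c.getVert '' {i | 1 ≤ i ∧ i ≤ c.length}, ?_, fun v => ?_⟩
  · rw [hi.ncard_image]
    have e : {i | 1 ≤ i ∧ i ≤ c.length} = ↑(Finset.Icc 1 c.length) := by
      ext i
      simp
    rw [e, ncard_coe_finset, Nat.card_Icc]
    omega
  set B := c.getVert '' {i | 1 ≤ i ∧ i ≤ c.length} with hB
  have mem : ∀ i ≤ c.length, c.getVert i ∈ B := by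
    intro i hi'
    rcases Nat.eq_zero_or_pos i with rfl | h1
    · exact ⟨c.length, ⟨by omega, le_rfl⟩, h0.symm⟩
    · exact ⟨i, ⟨h1, hi'⟩, rfl⟩
  have seg : ∀ i j, i ≤ j → j ≤ c.length → (∀ t, i ≤ t → t ≤ j → c.getVert t ≠ v) →
      Relation.ReflTransGen (fun x y => H.Adj x y ∧ x ∈ B ∧ y ∈ B ∧ x ≠ v ∧ y ≠ v)
        (c.getVert i) (c.getVert j) := by
    intro i j hij
    induction j, hij using Nat.le_induction with
    | base => exact fun _ _ => .refl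
    | succ j hij ih =>
      intro hj ht
      exact (ih (by omega) fun t h1 h2 => ht t h1 (by omega)).tail
        ⟨c.adj_getVert_succ hj, mem j (by omega), mem _ hj, ht j hij (by omega),
          ht _ (by omega) le_rfl⟩
  have sy := fun x y => BridgeAux.rtg_symm (x := x) (y := y)
    (r := fun x y => H.Adj x y ∧ x ∈ B ∧ y ∈ B ∧ x ≠ v ∧ y ≠ v)
    fun _ _ h => ⟨h.1.symm, h.2.2.1, h.2.1, h.2.2.2.2, h.2.2.2.1⟩
  have key : ∀ i j, 1 ≤ i → i ≤ j → j ≤ c.length → c.getVert j ≠ v → c.getVert i ≠ v →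
      Relation.ReflTransGen (fun x y => H.Adj x y ∧ x ∈ B ∧ y ∈ B ∧ x ≠ v ∧ y ≠ v)
        (c.getVert i) (c.getVert j) := by
    intro i j h1 hij hj hjv hiv
    by_cases hn : ∀ t, i ≤ t → t ≤ j → c.getVert t ≠ v
    · exact seg i j hij hj hn
    simp only [not_forall, not_not] at hn
    obtain ⟨t, t1, t2, ht⟩ := hn
    have t3 : t ≠ i := fun e => hiv (e ▸ ht)
    have t4 : t ≠ j := fun e => hjv (e ▸ ht)
    have ne : ∀ s, 1 ≤ s → s ≤ c.length → s ≠ t → c.getVert s ≠ v := fun s s1 s2 s3 e =>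
      s3 (hi ⟨s1, s2⟩ ⟨by omega, by omega⟩ (e.trans ht.symm))
    refine sy _ _ ((seg j c.length hj le_rfl fun s s1 s2 => ne s (by omega) s2 (by omega)).trans ?_)
    rw [← h0]
    refine seg 0 i (Nat.zero_le _) (by omega) fun s _ s2 => ?_
    rcases Nat.eq_zero_or_pos s with rfl | s1
    · rw [h0]
      exact ne _ (by omega) le_rfl (by omega)
    · exact ne s s1 (by omega) (by omega)
  rintro _ ⟨i, ⟨i1, i2⟩, rfl⟩ _ ⟨j, ⟨j1, j2⟩, rfl⟩ hiv hjv
  rcases le_total i j with hij | hij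
  · exact key i j i1 hij j2 hjv hiv
  · exact sy _ _ (key j i j1 hij i2 hiv hjv)

theorem TwoC.hom {Ω Ω' : Type} [Finite Ω] [Finite Ω'] {G : SimpleGraph Ω} {G' : SimpleGraph Ω'}
    {B : Set Ω} {f : Ω → Ω'} (h : TwoC G B) (hf : InjOn f B)
    (hh : ∀ u ∈ B, ∀ v ∈ B, G.Adj u v → G'.Adj (f u) (f v)) : TwoC G' (f '' B) := by
  refine ⟨hf.ncard_image ▸ h.1, ?_⟩
  rintro v _ ⟨x, hx, rfl⟩ _ ⟨y, hy, rfl⟩ hxv hyv
  obtain ⟨w, w1, w2, w3⟩ : ∃ w, x ≠ w ∧ y ≠ w ∧ ∀ z ∈ B, z ≠ w → f z ≠ v := by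
    by_cases hv : v ∈ f '' B
    · obtain ⟨w, hw, rfl⟩ := hv
      exact ⟨w, fun e => hxv (e ▸ rfl), fun e => hyv (e ▸ rfl), fun z hz e e' => e (hf hz hw e')⟩
    · obtain ⟨w, -, w1, w2⟩ := BridgeAux.third h.1 x y
      exact ⟨w, w1, w2, fun z hz _ e => hv ⟨z, hz, e⟩⟩
  have h3 := h.2 w x hx y hy w1 w2
  clear hy hyv w2
  induction h3 with
  | refl => exact .refl
  | @tail p q _ r ih =>
    exact ih.tail ⟨hh p r.2.1 q r.2.2.1 r.1, mem_image_of_mem f r.2.1, mem_image_of_mem f r.2.2.1,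
      w3 p r.2.1 r.2.2.2.1, w3 q r.2.2.1 r.2.2.2.2⟩

end Pool.Agent.Lib.MP_781e3b_co.CN
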