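import Pool.Agent.Lib.MP_781e3b_co.CN.Glue0

/-!
Gluing along a strong and separated part (2.1).
-/

namespace Pool.Agent.Lib.MP_781e3b_co.CN

open Set Function SimpleGraph

variable {Ω : Type} [Finite Ω] {L : Lv} {G : SimpleGraph Ω} {Z T S S₁ S₂ R : Set Ω} {j : ℕ}

/-- Induction on j with D_flower for Cn = ∅: a set that meets two parts has D ≥ 2m. -/
theorem disjoint_add {I : Type} [Fintype I] (hL : L.OK) (part : Ω → I)
    (he : ∀ x ∈ S, ∀ y ∈ S, G.Adj x y → part x = part y) (w : ∀ i, W1 L G (S ∩ part ⁻¹' {i})) :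
    W1 L G S ∧ (∀ j ≤ L.l, ∀ Z ⊆ S, D L G j Z = ∑ i, D L G j (Z ∩ part ⁻¹' {i})) ∧
      ∀ j ≤ L.l, ∀ Z ⊆ S, D L G j Z < 2 * L.m → ∀ a ∈ Z, ∀ b ∈ Z, part a = part b := by
  classical
  have hA : ∀ j, (∀ i < j, ∀ T ⊆ S, Top L G i T → ∃ p, T ⊆ part ⁻¹' {p}) →
      ∀ Z ⊆ S, D L G j Z = ∑ i, D L G j (Z ∩ part ⁻¹' {i}) := by
    intro j ht Z hZ
    have h := D_flower (L := L) (G := G) (j := j) (Z := Z) ∅ (fun i => part ⁻¹' {i})
      (fun x _ => Or.inr (mem_iUnion.2 ⟨part x, rfl⟩))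
      (fun i i' hi x hx => absurd (hx.1.2.symm.trans hx.2) hi)
      (fun a ha b hb hab => Or.inr ⟨part a, rfl, (he a (hZ ha) b (hZ hb) hab).symm⟩)
      (fun i hi T hT hTop => Or.inr (ht i hi T (hT.trans hZ) hTop))
    simpa [D_empty hL.n3] using h
  have hB : ∀ j ≤ L.l, ∀ Z ⊆ S, D L G j Z = ∑ i, D L G j (Z ∩ part ⁻¹' {i}) →
      D L G j Z < 2 * L.m → ∀ a ∈ Z, ∀ b ∈ Z, part a = part b := by
    intro j hj Z hZ e hlt a ha b hb
    by_contra hne
    have k := Finset.add_le_sum (s := Finset.univ) (f := fun i => D L G j (Z ∩ part ⁻¹' {i}))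
      (fun i _ => (w i).nonneg hL hj (inter_subset_inter_left _ hZ))
      (Finset.mem_univ (part a)) (Finset.mem_univ (part b)) hne
    have k1 := (w (part a)).m_le hL hj (inter_subset_inter_left _ hZ) ⟨a, ha, rfl⟩
    have k2 := (w (part b)).m_le hL hj (inter_subset_inter_left _ hZ) ⟨b, hb, rfl⟩
    linarith
  have hC : ∀ j ≤ L.l, ∀ i < j, ∀ T ⊆ S, Top L G i T → ∃ p, T ⊆ part ⁻¹' {p} := by
    intro j
    induction j with
    | zero => exact fun _ i hi => absurd hi (Nat.not_lt_zero i)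
    | succ j ih =>
      intro hj i hi T hT hTop
      rcases (Nat.lt_succ_iff.1 hi).eq_or_lt with rfl | h
      · have hi' : i ≤ L.l := by omega
        obtain ⟨a, ha⟩ := (nontrivial_of_three (hTop.three hL.n3)).nonempty
        have k := hL.θ_le hi'
        have k2 := hTop.2.1
        exact ⟨part a, fun b hb => hB i hi' T hT (hA i (ih hi') T hT) (by linarith) b hb a ha⟩
      · exact ih (by omega) i h T hT hTop
  have h2 := fun j hj => hA j (hC j hj)
  have h3 := fun j hj Z hZ => hB j hj Z hZ (h2 j hj Z hZ)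
  refine ⟨⟨fun j hj Z hZ hn => ?_, fun Z hZ k1 k2 => ?_⟩, h2, h3⟩
  · by_cases h : D L G j Z < 2 * L.m
    · obtain ⟨a, ha⟩ := hn.nonempty
      exact (w (part a)).ge j hj Z (fun b hb => ⟨hZ hb, h3 j hj Z hZ h b hb a ha⟩) hn
    · have := hL.θ_le hj
      linarith
  · by_cases h : D L G 0 Z < 2 * L.m
    · obtain ⟨a, ha⟩ := (nontrivial_of_three k1).nonempty
      exact (w (part a)).small Z
        (fun b hb => ⟨hZ hb, h3 0 (Nat.zero_le _) Z hZ h b hb a ha⟩) k1 k2
    · have := hL.θ_le (Nat.zero_le _)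
      linarith

/-- If a and b are not joined in T - v, cut T into the points reached from a together
with v, and the points not reached; glue_one and Glued.cross. -/
theorem tight_twoC (hL : L.OK) (w : W1 L G S) (hj : j < L.l) (hT : T ⊆ S)
    (ht : D L G j T ≤ L.θ j) (h3 : 3 ≤ T.ncard) : TwoC G T := by
  refine ⟨h3, fun v a ha b hb hav hbv => ?_⟩
  by_contra hn
  let r : Ω → Prop := Relation.ReflTransGen
    (fun x y => G.Adj x y ∧ x ∈ T ∧ y ∈ T ∧ x ≠ v ∧ y ≠ v) a
  have hv : ∀ x, r x → x ≠ v := by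
    intro x hx
    induction hx with
    | refl => exact hav
    | tail _ h _ => exact h.2.2.2.2
  have hc : Cut G T ({x | r x} ∪ {v}) {x | ¬ r x} := by
    refine ⟨fun x _ => ?_, fun x hx y hy hxy => ?_⟩
    · by_cases h : r x
      · exact Or.inl (Or.inl h)
      · exact Or.inr h
    · by_cases h1 : r x
      · by_cases h2 : y = v
        · exact Or.inl ⟨Or.inl h1, Or.inr h2⟩
        · exact Or.inl ⟨Or.inl h1, Or.inl (h1.tail ⟨hxy, hx, hy, hv x h1, h2⟩)⟩
      · by_cases h2 : r y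
        · by_cases h4 : x = v
          · exact Or.inl ⟨Or.inr h4, Or.inl h2⟩
          · exact absurd (h2.tail ⟨hxy.symm, hy, hx, hv y h2, h4⟩) h1
        · exact Or.inr ⟨h1, h2⟩
  have hs : (T ∩ ({x | r x} ∪ {v}) ∩ {x | ¬ r x}).Subsingleton :=
    (subsingleton_singleton (a := v)).anti fun x hx => hx.1.2.resolve_left hx.2
  have g := glue_one hL hc hs (w.mono (inter_subset_left.trans hT))
    (w.mono (inter_subset_left.trans hT))
  exact (g.cross j hj T subset_rfl ht (fun h => (h hb).elim hn hbv)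
    (fun h => h ha Relation.ReflTransGen.refl)).not_subsingleton hs

end Pool.Agent.Lib.MP_781e3b_co.CN
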