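import Pool.Agent.Lib.MP_781e3b_co.CN.Basic2

/-!
Existence of the levels (1.1).
-/

namespace Pool.Agent.Lib.MP_781e3b_co.CN

open Set Function SimpleGraph

variable {Ω : Type} [Finite Ω]

namespace LevelsAux

omit [Finite Ω] in
lemma mark_eq (G : SimpleGraph Ω) {L L' : Lv} (hm : L'.m = L.m) (hn : L'.n = L.n) :
    Mark L' G = Mark L G := by
  funext Z
  simp only [Mark, Mk, hm, hn]

omit [Finite Ω] in
lemma agree (G : SimpleGraph Ω) {L L' : Lv} (hm : L'.m = L.m) (hn : L'.n = L.n) (j : ℕ)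
    (h : ∀ i < j, L'.t i = L.t i ∧ L'.ρ i = L.ρ i) :
    L'.θ j = L.θ j ∧ D L' G j = D L G j := by
  induction j with
  | zero =>
    refine ⟨by simp only [Lv.θ, hm], ?_⟩
    funext Z
    rw [D_zero, D_zero, hm]
  | succ j ih =>
    obtain ⟨h1, h2⟩ := ih fun i hi => h i (hi.trans (Nat.lt_succ_self j))
    obtain ⟨h3, h4⟩ := h j (Nat.lt_succ_self j)
    refine ⟨by simp only [Lv.θ, h1, h4], ?_⟩
    funext Z
    have e : Top L' G j = Top L G j := by
      funext T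
      simp only [Top, h1, h2, h3, mark_eq G hm hn]
    rw [D_succ, D_succ, h2, h4, e]

/-- The state of the recursion. -/
structure St0 (G : SimpleGraph Ω) (L : Lv) (j s : ℕ) : Prop where
  m1 : 1 < L.m
  n3 : 3 ≤ L.n
  small : ∀ Z : Set Ω, 3 ≤ Z.ncard → Z.ncard < L.n → L.θ 0 < D L G 0 Z
  pos : ∀ i < j, 0 < L.ρ i
  ge : ∀ i ≤ j, ∀ Z : Set Ω, Z.Nontrivial → L.θ i ≤ D L G i Z
  top : ∀ i < j, ∀ Z, D L G i Z ≤ L.θ i → Mark L G Z → Z.ncard ≤ L.t i
  lt : L.m < L.θ j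
  ex : ∃ Z, D L G j Z ≤ L.θ j ∧ Mark L G Z ∧ s ≤ Z.ncard

lemma two_le_cnt {Q : Set Ω → Prop} {Z : Set Ω} (h : 2 ≤ cnt Q Z) :
    ∃ T T', T ⊆ Z ∧ Q T ∧ T' ⊆ Z ∧ Q T' ∧ T ≠ T' := by
  obtain ⟨T, T', h1, h2, h3⟩ := (Set.one_lt_ncard_iff (Set.toFinite _)).1 h
  exact ⟨T, T', h1.1, h1.2, h2.1, h2.2, h3⟩

lemma step {G : SimpleGraph Ω} {L : Lv} {j s : ℕ} (h : St0 G L j s) :
    (∃ L : Lv, L.OK ∧ Bd L G ∧ ∃ T, Top L G (L.l - 1) T) ∨ ∃ L', St0 G L' (j + 1) (s + 1) := by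
  classical
  obtain ⟨Z1, hZ1, hZ1', hs⟩ := h.ex
  obtain ⟨T0, ⟨hT1, hT2⟩, hT⟩ := Set.exists_max_image
    {Z : Set Ω | D L G j Z ≤ L.θ j ∧ Mark L G Z} Set.ncard (Set.toFinite _) ⟨Z1, hZ1, hZ1'⟩
  set Q : Set Ω → Prop := fun T => T.ncard = T0.ncard ∧ D L G j T ≤ L.θ j ∧ Mark L G T with hQ
  have big : ∀ Z, 2 ≤ cnt Q Z → T0.ncard < Z.ncard ∧ Mark L G Z := by
    intro Z hZ
    obtain ⟨T, T', a1, a2, b1, b2, hne⟩ := two_le_cnt hZ
    refine ⟨?_, a2.2.2.mono a1⟩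
    by_contra hc
    push Not at hc
    have e1 : T = Z := Set.eq_of_subset_of_ncard_le a1 (a2.1 ▸ hc) (Set.toFinite _)
    have e2 : T' = Z := Set.eq_of_subset_of_ncard_le b1 (b2.1 ▸ hc) (Set.toFinite _)
    exact hne (e1.trans e2.symm)
  set r : Set Ω → ℝ := fun Z =>
    if 2 ≤ cnt Q Z then (D L G j Z - L.θ j) / ((cnt Q Z : ℝ) - 1) else L.θ j - L.m with hr
  have cpos : ∀ Z, 2 ≤ cnt Q Z → (0 : ℝ) < (cnt Q Z : ℝ) - 1 := by
    intro Z hZ
    have : (2 : ℝ) ≤ cnt Q Z := by exact_mod_cast hZ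
    linarith
  have rpos : ∀ Z, 0 < r Z := by
    intro Z
    simp only [hr]
    split_ifs with hZ
    · refine div_pos ?_ (cpos Z hZ)
      by_contra hc
      have := hT Z ⟨by linarith, (big Z hZ).2⟩
      exact absurd (big Z hZ).1 (not_lt.2 this)
    · linarith [h.lt]
  obtain ⟨Zs, hZs⟩ := Finite.exists_min r
  have hle : r Zs ≤ L.θ j - L.m := by
    have h2 : ¬ 2 ≤ cnt Q ∅ := fun hc => by simpa using (big ∅ hc).1
    have := hZs ∅
    simp only [hr, h2, if_false] at this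
    exact this
  set L2 : Lv := ⟨L.m, L.n, j + 1, update L.t j T0.ncard, update L.ρ j (r Zs)⟩ with hL2
  have ag : ∀ i ≤ j, L2.θ i = L.θ i ∧ D L2 G i = D L G i := fun i hi =>
    agree G (L := L) (L' := L2) rfl rfl i fun i' hi' =>
      ⟨update_of_ne (by omega) _ _, update_of_ne (by omega) _ _⟩
  have mk : Mark L2 G = Mark L G := mark_eq G (L := L) (L' := L2) rfl rfl
  have tj : L2.t j = T0.ncard := update_self _ _ _
  have ρj : L2.ρ j = r Zs := update_self _ _ _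
  have topj : Top L2 G j = Q := by
    funext T
    simp only [Top, hQ, tj, (ag j le_rfl).1, (ag j le_rfl).2, mk]
  have θs : L2.θ (j + 1) = L.θ j - r Zs := by
    rw [Lv.θ, (ag j le_rfl).1, ρj]
  have Ds : ∀ Z, D L2 G (j + 1) Z = D L G j Z - r Zs * cnt Q Z := by
    intro Z
    rw [D_succ, (ag j le_rfl).2, ρj, topj]
  have small : ∀ Z : Set Ω, 3 ≤ Z.ncard → Z.ncard < L2.n → L2.θ 0 < D L2 G 0 Z := by
    intro Z h1 h2
    rw [(ag 0 (Nat.zero_le _)).1, (ag 0 (Nat.zero_le _)).2]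
    exact h.small Z h1 h2
  have pos : ∀ i < j + 1, 0 < L2.ρ i := by
    intro i hi
    rcases Nat.lt_succ_iff_lt_or_eq.1 hi with h1 | rfl
    · rw [show L2.ρ i = L.ρ i from update_of_ne (by omega) _ _]
      exact h.pos i h1
    · rw [ρj]; exact rpos Zs
  have ge : ∀ i ≤ j + 1, ∀ Z : Set Ω, Z.Nontrivial → L2.θ i ≤ D L2 G i Z := by
    intro i hi Z hZ
    rcases Nat.le_succ_iff.1 hi with h1 | rfl
    · rw [(ag i h1).1, (ag i h1).2]
      exact h.ge i h1 Z hZ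
    · rw [θs, Ds]
      have h0 := h.ge j le_rfl Z hZ
      by_cases hc : 2 ≤ cnt Q Z
      · have h3 := hZs Z
        have h4 : r Z = (D L G j Z - L.θ j) / ((cnt Q Z : ℝ) - 1) := by simp only [hr, hc, if_true]
        rw [h4, le_div_iff₀ (cpos Z hc)] at h3
        linarith
      · have h3 : (cnt Q Z : ℝ) ≤ 1 := by exact_mod_cast (by omega : cnt Q Z ≤ 1)
        nlinarith [rpos Zs]
  have top : ∀ i < j + 1, ∀ Z, D L2 G i Z ≤ L2.θ i → Mark L2 G Z → Z.ncard ≤ L2.t i := by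
    intro i hi Z h1 h2
    rw [(ag i (by omega)).1, (ag i (by omega)).2] at h1
    rw [mk] at h2
    rcases Nat.lt_succ_iff_lt_or_eq.1 hi with h3 | rfl
    · rw [show L2.t i = L.t i from update_of_ne (by omega) _ _]
      exact h.top i h3 Z h1 h2
    · rw [tj]; exact hT Z ⟨h1, h2⟩
  rcases hle.eq_or_lt with he | hlt
  · refine Or.inl ⟨L2, ⟨h.m1, h.n3, Nat.le_add_left _ _, pos, ?_⟩,
      ⟨⟨fun i hi Z _ hZ => ge i hi Z hZ, fun Z _ => small Z⟩, top⟩, T0, ?_⟩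
    · change L2.θ (j + 1) = L.m
      rw [θs, he]; ring
    · change Top L2 G j T0
      rw [topj]
      exact ⟨rfl, hT1, hT2⟩
  · have hc : 2 ≤ cnt Q Zs := by
      by_contra hc
      have h4 : r Zs = L.θ j - L.m := by simp only [hr, hc, if_false]
      linarith
    refine Or.inr ⟨L2, h.m1, h.n3, small, pos, ge, top, ?_, Zs, ?_, ?_, ?_⟩
    · change L.m < L2.θ (j + 1)
      rw [θs]; linarith
    · have h4 : r Zs = (D L G j Zs - L.θ j) / ((cnt Q Zs : ℝ) - 1) := by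
        simp only [hr, hc, if_true]
      rw [eq_div_iff (cpos Zs hc).ne'] at h4
      rw [θs, Ds]
      linarith
    · rw [mk]; exact (big Zs hc).2
    · have := hT Z1 ⟨hZ1, hZ1'⟩
      have := (big Zs hc).1
      omega

lemma run (G : SimpleGraph Ω) (k : ℕ) : ∀ (L : Lv) (j s : ℕ), Nat.card Ω < s + k → St0 G L j s →
    ∃ L : Lv, L.OK ∧ Bd L G ∧ ∃ T, Top L G (L.l - 1) T := by
  induction k with
  | zero =>
    intro L j s hk h
    obtain ⟨Z, -, -, hs⟩ := h.ex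
    have := Set.ncard_le_card Z
    omega
  | succ k ih =>
    intro L j s hk h
    rcases step h with h1 | ⟨L', h1⟩
    · exact h1
    · exact ih L' (j + 1) (s + 1) (by omega) h1

end LevelsAux

/-- n is the least size ≥ 3 of a tight set. D j, θ j depend only on m, n and on t i,
ρ i for i < j. State of the recursion: the bounds hold up to level j, m < θ j, and there is
a marked j-tight set with at least s points; induct on card Ω - s. Step: t j is the largest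
size of a marked j-tight set; ρ j is the minimum of θ j - m and the numbers
(D j Z - θ j) / (c Z - 1) over Z with c Z ≥ 2 tops (such Z is marked and larger than t j,
so the number is positive). Stop with l = j + 1 if ρ j = θ j - m; else a minimiser is marked,
(j + 1)-tight and larger than t j. -/
theorem exists_levels (G : SimpleGraph Ω) {m : ℝ} (hm : 1 < m)
    (h : ∀ Z : Set Ω, Z.Nontrivial → 2 * m - 1 ≤ m * Z.ncard - ec G Z)
    (h0 : ∃ Z : Set Ω, 3 ≤ Z.ncard ∧ m * Z.ncard - ec G Z ≤ 2 * m - 1) :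
    ∃ L : Lv, L.OK ∧ Bd L G ∧ ∃ T, Top L G (L.l - 1) T := by
  obtain ⟨K, ⟨hK1, hK2⟩, hK⟩ := Set.exists_min_image
    {Z : Set Ω | 3 ≤ Z.ncard ∧ m * Z.ncard - ec G Z ≤ 2 * m - 1} Set.ncard (Set.toFinite _) h0
  refine LevelsAux.run G (Nat.card Ω + 1) ⟨m, K.ncard, 0, fun _ => 0, fun _ => 0⟩ 0 0 (by omega)
    ⟨hm, hK1, ?_, fun i hi => absurd hi (Nat.not_lt_zero _), ?_,
      fun i hi => absurd hi (Nat.not_lt_zero _), ?_, K, hK2, ⟨K, subset_rfl, rfl, hK2⟩,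
      Nat.zero_le _⟩
  · intro Z h1 h2
    by_contra hc
    exact absurd (hK Z ⟨h1, not_lt.1 hc⟩) (not_le.2 h2)
  · intro i hi Z hZ
    obtain rfl : i = 0 := by omega
    exact h Z hZ
  · change m < 2 * m - 1
    linarith

end Pool.Agent.Lib.MP_781e3b_co.CN
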