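import Pool.Agent.Lib.MP_781e3b_co.RR.Final
import Pool.Agent.Lib.MP_781e3b_co.CN.Levels
import Pool.Agent.Lib.MP_781e3b_co.CN.Glue

/-!
Links to the earlier files: density, the hitting forest, 2-connected subgraphs.
-/

namespace Pool.Agent.Lib.MP_781e3b_co.CN

open Set Function SimpleGraph

variable {a b : ℕ}

/-- ec counts the edges oriented upwards. -/
theorem ec_eq_DE (Y : SimpleGraph (Fin a)) (K : Finset (Fin a)) :
    ec Y ↑K = {d : RR.DE Y | d.x ∈ K ∧ d.y ∈ K}.ncard := by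
  have hinj : Injective fun d : RR.DE Y => ({d.x, d.y} : Set (Fin a)) := by
    intro d d' h
    have h1 := d.2.1
    have h2 := d'.2.1
    rcases pair_eq_pair_iff.1 h with ⟨p, q⟩ | ⟨p, q⟩
    · exact Subtype.ext (Prod.ext p q)
    · exfalso
      simp only [RR.DE.x, RR.DE.y] at p q
      rw [p, q] at h1
      exact lt_asymm h1 h2
  rw [← ncard_image_of_injective _ hinj, ec, cnt]
  congr 1
  ext T
  constructor
  · rintro ⟨hT, u, v, huv, rfl⟩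
    have hu : u ∈ K := hT (Or.inl rfl)
    have hv : v ∈ K := hT (Or.inr rfl)
    obtain ⟨d, ⟨rfl, rfl⟩ | ⟨rfl, rfl⟩⟩ := RR.DE.of_adj huv
    · exact ⟨d, ⟨hu, hv⟩, rfl⟩
    · exact ⟨d, ⟨hv, hu⟩, pair_comm _ _⟩
  · rintro ⟨d, ⟨hx, hy⟩, rfl⟩
    refine ⟨?_, d.x, d.y, d.2.2, rfl⟩
    rintro u (rfl | rfl)
    · exact hx
    · exact hy

namespace Bridge0Aux

theorem card_le_ec {Y : SimpleGraph (Fin a)} {K : Finset (Fin a)} {D : Finset (RR.DE Y)}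
    (h : RR.Ins RR.DE.x RR.DE.y K D) : (D.card : ℝ) ≤ ec Y ↑K := by
  rw [ec_eq_DE, Nat.cast_le, ← ncard_coe_finset]
  exact ncard_le_ncard (fun d hd => h d hd) (toFinite _)

theorem wk_of {Y : SimpleGraph (Fin a)} {m : ℝ}
    (h : ∀ Z : Set (Fin a), Z.Nontrivial → 2 * m - 1 ≤ m * Z.ncard - ec Y Z) :
    RR.Wk (RR.DE.x (H := Y)) RR.DE.y m univ := by
  intro K D hK _ hD
  have h1 := h ↑K (Finset.nontrivial_coe.2 (Finset.one_lt_card_iff_nontrivial.1 hK))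
  rw [ncard_coe_finset] at h1
  have h2 := card_le_ec hD
  linarith

theorem of_wk {Y : SimpleGraph (Fin a)} {m : ℝ} (h : RR.Wk (RR.DE.x (H := Y)) RR.DE.y m univ)
    (Z : Set (Fin a)) (hZ : Z.Nontrivial) : 2 * m - 1 ≤ m * Z.ncard - ec Y Z := by
  obtain ⟨K, rfl⟩ := (toFinite Z).exists_finset_coe
  obtain ⟨D, hD⟩ := (toFinite {d : RR.DE Y | d.x ∈ K ∧ d.y ∈ K}).exists_finset_coe
  have h1 := h K D (Finset.one_lt_card_iff_nontrivial.2 (Finset.nontrivial_coe.1 hZ))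
    (subset_univ _) fun d hd => hD.le hd
  rw [ec_eq_DE, ← hD, ncard_coe_finset, ncard_coe_finset]
  linarith

/-- The graph of a set of oriented edges. -/
def gr {Y : SimpleGraph (Fin a)} (F : Set (RR.DE Y)) : SimpleGraph (Fin a) where
  Adj u v := ∃ d ∈ F, (d.x = u ∧ d.y = v) ∨ (d.x = v ∧ d.y = u)
  symm := ⟨fun _ _ ⟨d, h1, h2⟩ => ⟨d, h1, h2.symm⟩⟩
  loopless := ⟨fun _ ⟨d, _, h2⟩ => d.ne (h2.elim (fun h => h.1.trans h.2.symm)
    fun h => h.1.trans h.2.symm)⟩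

theorem gr_indF {Y : SimpleGraph (Fin a)} {F : Set (RR.DE Y)}
    (hF : RR.Acy RR.DE.x RR.DE.y F) : IndF Y (gr F) := by
  have key : ∀ d : RR.DE Y, ¬ (gr F \ edge d.x d.y).Reachable d.x d.y := by
    intro d hr
    rw [reachable_iff_reflTransGen] at hr
    refine hF d (Relation.ReflTransGen.mono ?_ _ _ hr)
    rintro u v ⟨⟨d', h1, h2⟩, h3⟩
    refine ⟨d', h1, ?_, h2⟩
    rintro rfl
    refine h3 ((edge_adj _ _ _ _).2 ?_)
    rcases h2 with ⟨rfl, rfl⟩ | ⟨rfl, rfl⟩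
    · exact ⟨Or.inl ⟨rfl, rfl⟩, d'.ne⟩
    · exact ⟨Or.inr ⟨rfl, rfl⟩, d'.ne.symm⟩
  refine ⟨?_, fun u v huv => ?_⟩
  · rintro u v ⟨d, -, ⟨rfl, rfl⟩ | ⟨rfl, rfl⟩⟩
    · exact d.2.2
    · exact d.2.2.symm
  · obtain ⟨d, ⟨rfl, rfl⟩ | ⟨rfl, rfl⟩⟩ := RR.DE.of_adj huv
    · exact key d
    · rw [edge_comm]
      exact fun hr => key d hr.symm

theorem connected_of_twoC {H : SimpleGraph (Fin a)} {B : Set (Fin a)} (hB : TwoC H B) (v : B) :
    ((H.induce B).induce {v}ᶜ).Connected := by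
  have hne : Nonempty ({v}ᶜ : Set B) := by
    obtain ⟨x, hx, hxv⟩ := (nontrivial_of_three hB.1).exists_ne v.1
    exact ⟨⟨⟨x, hx⟩, fun e => hxv (congrArg Subtype.val e)⟩⟩
  refine ⟨fun p q => ?_⟩
  have h1 := hB.2 v.1 p.1.1 p.1.2 q.1.1 q.1.2 (fun e => p.2 (Subtype.ext e))
    fun e => q.2 (Subtype.ext e)
  have key : ∀ y, Relation.ReflTransGen
      (fun x y => H.Adj x y ∧ x ∈ B ∧ y ∈ B ∧ x ≠ v.1 ∧ y ≠ v.1) p.1.1 y →
      ∀ q : ({v}ᶜ : Set B), q.1.1 = y → ((H.induce B).induce {v}ᶜ).Reachable p q := by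
    intro y hy
    induction hy with
    | refl =>
      intro q hq
      rw [show q = p from Subtype.ext (Subtype.ext hq)]
    | @tail c e _ hce ih =>
      intro q hq
      subst hq
      exact (ih ⟨⟨c, hce.2.1⟩, fun e => hce.2.2.2.1 (congrArg Subtype.val e)⟩ rfl).trans
        (Adj.reachable hce.1)
  exact key _ h1 q rfl

end Bridge0Aux

/-- RR.hit with Wk from W1.ge on level 0; F₀ is the graph of the edges in the forest.
A marked set T of Y \ F₀ with its edges in Y \ F₀ is an MT pair (W1.ge, W1.small). -/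
theorem exists_F0 {L : Lv} (hL : L.OK) {Y : SimpleGraph (Fin a)} (w : W1 L Y univ) :
    ∃ F₀, IndF Y F₀ ∧ ∀ T, ¬ Mk L (Y \ F₀) T := by
  have hW : RR.Wk (RR.DE.x (H := Y)) RR.DE.y L.m univ :=
    Bridge0Aux.wk_of fun Z hZ => w.ge 0 (Nat.zero_le _) Z (subset_univ _) hZ
  obtain ⟨F, hF, hno⟩ := RR.hit hW RR.DE.ne hL.m1 hL.n3
  refine ⟨Bridge0Aux.gr F, Bridge0Aux.gr_indF hF, fun T hT => ?_⟩
  obtain ⟨K, rfl⟩ := (toFinite T).exists_finset_coe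
  obtain ⟨D, hD⟩ := (toFinite {d : RR.DE Y | d ∉ F ∧ d.x ∈ K ∧ d.y ∈ K}).exists_finset_coe
  obtain ⟨h1, h2⟩ := hT
  rw [ncard_coe_finset] at h1 h2
  have hins : RR.Ins RR.DE.x RR.DE.y K D := fun d hd => (hD.le hd).2
  have h3 : ec (Y \ Bridge0Aux.gr F) ↑K ≤ D.card := by
    rw [ec_eq_DE, ← ncard_coe_finset, hD]
    refine ncard_le_ncard_of_injOn (fun d => (⟨d.1, d.2.1, d.2.2.1⟩ : RR.DE Y))
      (fun d hd => ⟨fun hF => d.2.2.2 ⟨_, hF, Or.inl ⟨rfl, rfl⟩⟩, hd⟩)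
      (fun d _ d' _ e => Subtype.ext (congrArg (fun z : RR.DE Y => z.1) e)) (toFinite _)
  have h4 : (ec (Y \ Bridge0Aux.gr F) ↑K : ℝ) ≤ D.card := by exact_mod_cast h3
  have h5 := hW K D (by have := hL.n3; omega) (subset_univ _) hins
  refine hno K D (fun d hd => (hD.le hd).1) ⟨h1, hins, by linarith, fun K' hK' h6 D' _ hD' => ?_⟩
  have h7 := w.small ↑K' (subset_univ _) (by rwa [ncard_coe_finset])
    (by rw [ncard_coe_finset, ← h1]; exact Finset.card_lt_card hK')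
  have h8 := Bridge0Aux.card_le_ec hD'
  rw [D_zero, ncard_coe_finset] at h7
  have h9 : L.θ 0 = 2 * L.m - 1 := rfl
  linarith

/-- As in RR.block_emb: le_card_DE, exists_density, host_dense. -/
theorem density {H₁ : SimpleGraph (Fin a)} {H₂ : SimpleGraph (Fin b)} (h : RamseyEquiv H₁ H₂ 2)
    {B : Set (Fin a)} (hB : TwoC H₁ B) :
    ∃ m : ℝ, 1 < m ∧ (∀ Z : Set (Fin a), Z.Nontrivial → 2 * m - 1 ≤ m * Z.ncard - ec H₁ Z) ∧
      (∀ Z : Set (Fin b), Z.Nontrivial → 2 * m - 1 ≤ m * Z.ncard - ec H₂ Z) ∧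
      ∃ Z : Set (Fin a), 3 ≤ Z.ncard ∧ m * Z.ncard - ec H₁ Z ≤ 2 * m - 1 := by
  classical
  have := Fintype.ofFinite B
  have ha : 3 ≤ Fintype.card B := by
    rw [← Nat.card_eq_fintype_card, Nat.card_coe_set_eq]
    exact hB.1
  obtain ⟨K₀, D₀, k1, k2, k3⟩ := RR.FinAAux.le_card_DE H₁ (H₁.induce B) ha
    (Bridge0Aux.connected_of_twoC hB) ⟨Subtype.val, Subtype.val_injective, fun _ _ h => h⟩
  obtain ⟨m, n, hm, hn, hW, K, D, hK⟩ := RR.exists_density H₁ k1 k2 k3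
  obtain ⟨U, _, G, h3, h4⟩ := RR.host_dense H₁ H₂ hm hW
  obtain ⟨_, f, f1, f2⟩ := h.imp h3 (fun _ _ => 0) fun _ _ => rfl
  have hW2 := h4 ⟨f, f1, fun u v huv => (f2 u v huv).1⟩
  refine ⟨m, hm, Bridge0Aux.of_wk hW, Bridge0Aux.of_wk hW2, ↑K, ?_, ?_⟩
  · rw [ncard_coe_finset, hK.1]
    exact hn
  · have h5 := Bridge0Aux.card_le_ec hK.2.1
    have h6 := hK.2.2.1
    rw [ncard_coe_finset]
    linarith

end Pool.Agent.Lib.MP_781e3b_co.CN
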