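import Pool.Agent.Lib.MP_781e3b_co.CN.Nest

/-!
Clusters and the two options (3.1).
-/

namespace Pool.Agent.Lib.MP_781e3b_co.CN

open Set Function SimpleGraph

variable {Ω : Type} [Finite Ω] {L : Lv} {G : SimpleGraph Ω} {Z Z' T C C' : Set Ω} {a b : Ω}

theorem Tt.union (hL : L.OK) (w : W1 L G univ) (h : Tt L G Z) (h' : Tt L G Z')
    (hn : (Z ∩ Z').Nonempty) : Tt L G (Z ∪ Z') := by
  refine ⟨h.1.mono subset_union_left, ?_⟩
  have h1 := D_sub (G := G) (Z := Z) (Z' := Z') (hL.P le_rfl)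
  have h2 := w.m_le hL le_rfl (subset_univ (Z ∩ Z')) hn
  have h3 := h.2
  have h4 := h'.2
  linarith

theorem tt_singleton (hL : L.OK) (a : Ω) : Tt L G {a} :=
  ⟨singleton_nonempty a, (D_singleton hL.n3).le⟩

theorem mem_cl (hL : L.OK) (a : Ω) : a ∈ cl L G a := ⟨{a}, tt_singleton hL a, rfl, rfl⟩

/-- A largest tight set through a is cl a. -/
theorem isCl_cl (hL : L.OK) (w : W1 L G univ) (a : Ω) : IsCl L G (cl L G a) := by
  obtain ⟨M, hM, hmax⟩ := exists_max_image {Z : Set Ω | Tt L G Z ∧ a ∈ Z} Set.ncard (toFinite _)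
    ⟨{a}, tt_singleton hL a, rfl⟩
  have key : ∀ Z, Tt L G Z → (Z ∩ M).Nonempty → Z ⊆ M := by
    intro Z hZ hn
    have hu : Tt L G (Z ∪ M) := hZ.union hL w hM.1 hn
    have hle := hmax (Z ∪ M) ⟨hu, Or.inr hM.2⟩
    have he : M = Z ∪ M := eq_of_subset_of_ncard_le subset_union_right hle (toFinite _)
    rw [he]
    exact subset_union_left
  have hc : cl L G a = M := by
    apply Subset.antisymm
    · rintro b ⟨Z, hZ, ha, hb⟩
      exact key Z hZ ⟨a, ha, hM.2⟩ hb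
    · intro b hb
      exact ⟨M, hM.1, hM.2, hb⟩
  rw [hc]
  exact ⟨hM.1, key⟩

theorem IsCl.eq_cl (hL : L.OK) (w : W1 L G univ) (h : IsCl L G C) (ha : a ∈ C) : C = cl L G a := by
  have h' := isCl_cl hL w a
  exact (h'.2 C h.1 ⟨a, ha, mem_cl hL a⟩).antisymm (h.2 _ h'.1 ⟨a, mem_cl hL a, ha⟩)

theorem IsCl.eq (h : IsCl L G C) (h' : IsCl L G C') (hn : (C ∩ C').Nonempty) : C = C' :=
  (h'.2 C h.1 hn).antisymm (h.2 C' h'.1 (inter_comm C C' ▸ hn))

theorem cl_eq_iff (hL : L.OK) (w : W1 L G univ) : cl L G a = cl L G b ↔ b ∈ cl L G a := by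
  constructor
  · intro h
    rw [h]
    exact mem_cl hL b
  · intro h
    exact (isCl_cl hL w a).eq_cl hL w h

/-- Top.succ_tight. -/
theorem Top.tt (hL : L.OK) (h : Top L G (L.l - 1) T) : Tt L G T := by
  have hl := hL.l1
  have h1 := h.succ_tight (hL.pos _ (by omega)).le
  rw [Nat.sub_add_cancel hl, hL.last] at h1
  exact ⟨(nontrivial_of_three (h.three hL.n3)).nonempty, h1⟩

/-- exists_top. -/
theorem Tt.top (hL : L.OK) (w : W1 L G univ) (h : Tt L G Z) (hn : Z.Nontrivial) :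
    ∃ T ⊆ Z, Top L G (L.l - 1) T := by
  have hl := hL.l1
  refine exists_top hL w (by omega) (subset_univ Z) hn ?_
  rw [Nat.sub_add_cancel hl, hL.last]
  exact h.2

/-- D_sub makes Z ∩ T tight, so it holds a top, which is T by its size. -/
theorem Tt.top_sub (hL : L.OK) (w : W1 L G univ) (h : Tt L G Z) (hT : Top L G (L.l - 1) T)
    (hn : (Z ∩ T).Nontrivial) : T ⊆ Z := by
  have h1 := D_sub (G := G) (Z := Z) (Z' := T) (hL.P le_rfl)
  have h2 := w.m_le hL le_rfl (subset_univ (Z ∪ T)) (h.1.mono subset_union_left)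
  have h3 := h.2
  have h4 := (hT.tt hL).2
  have h5 : Tt L G (Z ∩ T) := ⟨hn.nonempty, by linarith⟩
  obtain ⟨T', hT', h6⟩ := h5.top hL w hn
  have he : T' = T := eq_of_subset_of_ncard_le (hT'.trans inter_subset_right)
    (by rw [hT.1, h6.1]) (toFinite _)
  rw [← he]
  exact hT'.trans inter_subset_left

end Pool.Agent.Lib.MP_781e3b_co.CN
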