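import Pool.Agent.Lib.MP_781e3b_co.CN.Clu0

/-!
Clusters and the two options (3.1).
-/

namespace Pool.Agent.Lib.MP_781e3b_co.CN

open Set Function SimpleGraph

variable {Ω : Type} [Finite Ω] {L : Lv} {G : SimpleGraph Ω} {Z Z' T C C' : Set Ω} {a b : Ω}

namespace Clu1Aux

/-- Z blocks the point a of T. -/
def Blk (L : Lv) (G : SimpleGraph Ω) (T : Set Ω) (a : Ω) (Z : Set Ω) : Prop :=
  Tt L G Z ∧ Z.Nontrivial ∧ Z ∩ T = {a}

/-- The largest blocking set. -/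
def MaxB (L : Lv) (G : SimpleGraph Ω) (T : Set Ω) (a : Ω) (Z : Set Ω) : Prop :=
  Blk L G T a Z ∧ ∀ Z', Blk L G T a Z' → Z' ⊆ Z

omit [Finite Ω] in
theorem Blk.mem (h : Blk L G T a Z) : a ∈ Z ∧ a ∈ T := by
  have : a ∈ Z ∩ T := by rw [h.2.2]; rfl
  exact this

omit [Finite Ω] in
theorem Blk.eq (h : Blk L G T a Z) {x : Ω} (hx : x ∈ Z) (hT : x ∈ T) : x = a := by
  have : x ∈ Z ∩ T := ⟨hx, hT⟩
  rw [h.2.2] at this
  exact this

theorem exists_max (hL : L.OK) (w : W1 L G univ) (h : ∃ Z, Blk L G T a Z) :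
    ∃ Z, MaxB L G T a Z := by
  obtain ⟨Z, hZ, hmax⟩ := Set.exists_max_image {Z | Blk L G T a Z} Set.ncard (toFinite _) h
  refine ⟨Z, hZ, fun Z' hZ' => ?_⟩
  have hU : Blk L G T a (Z ∪ Z') := by
    refine ⟨Tt.union hL w hZ.1 hZ'.1 ⟨a, hZ.mem.1, hZ'.mem.1⟩, hZ.2.1.mono subset_union_left, ?_⟩
    rw [union_inter_distrib_right, hZ.2.2, hZ'.2.2, union_self]
  have hE : Z = Z ∪ Z' :=
    Set.eq_of_subset_of_ncard_le subset_union_left (hmax _ hU) (toFinite _)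
  rw [hE]
  exact subset_union_right

theorem disj (hL : L.OK) (w : W1 L G univ) (hT : Top L G (L.l - 1) T) (h : Blk L G T a Z)
    (h' : Blk L G T b Z') (hab : a ≠ b) {x : Ω} (hx : x ∈ Z) (hx' : x ∈ Z') : False := by
  have hU : Tt L G (Z ∪ Z') := Tt.union hL w h.1 h'.1 ⟨x, hx, hx'⟩
  have hs : T ⊆ Z ∪ Z' := hU.top_sub hL w hT
    ⟨a, ⟨Or.inl h.mem.1, h.mem.2⟩, b, ⟨Or.inr h'.mem.1, h'.mem.2⟩, hab⟩
  have h2 : T ⊆ {a, b} := fun y hy => (hs hy).elim (fun hy' => Or.inl (h.eq hy' hy))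
    (fun hy' => Or.inr (h'.eq hy' hy))
  have h3 := hT.three hL.n3
  have h4 := Set.ncard_le_ncard h2 (toFinite _)
  have h5 : ({a, b} : Set Ω).ncard ≤ 2 := by rw [Set.ncard_pair hab]
  omega

/-- A tight set that meets Z(T, a) and misses a lies inside Z(T, a). -/
theorem sub_max (hL : L.OK) (w : W1 L G univ) (hT : Top L G (L.l - 1) T) (h : MaxB L G T a Z)
    (h' : Tt L G Z') (hn : (Z ∩ Z').Nonempty) (ha : a ∉ Z') : Z' ⊆ Z := by
  have hU : Tt L G (Z ∪ Z') := Tt.union hL w h.1.1 h' hn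
  have hB : Blk L G T a (Z ∪ Z') := by
    refine ⟨hU, h.1.2.1.mono subset_union_left, ?_⟩
    apply Set.eq_singleton_iff_unique_mem.2
    refine ⟨⟨Or.inl h.1.mem.1, h.1.mem.2⟩, fun x hx => ?_⟩
    by_contra hxa
    have hs : T ⊆ Z ∪ Z' := hU.top_sub hL w hT
      ⟨x, hx, a, ⟨Or.inl h.1.mem.1, h.1.mem.2⟩, hxa⟩
    have hd : T \ {a} ⊆ Z' ∩ T := fun y hy =>
      ⟨(hs hy.1).resolve_left fun hy' => hy.2 (h.1.eq hy' hy.1), hy.1⟩
    have h3 := hT.three hL.n3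
    have h4 : (T \ {a}).ncard + 1 = T.ncard :=
      Set.ncard_sdiff_singleton_add_one h.1.mem.2 (toFinite _)
    have h5 : (T \ {a}).Nontrivial := by
      rw [← Set.one_lt_ncard_iff_nontrivial]
      omega
    exact ha (h'.top_sub hL w hT (h5.mono hd) h.1.mem.2)
  exact subset_union_right.trans (h.2 _ hB)

theorem good_top (hL : L.OK) (w1 : W1 L G univ) (hC : IsCl L G C) (ht : 1 ≤ tops L G C) (w : Ω) :
    ∃ T ⊆ C, Top L G (L.l - 1) T ∧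
      ∃ p, ∀ a ∈ T, ((∃ Z, Blk L G T a Z) ∨ a = w) → a = p := by
  by_contra hcon
  have two : ∀ T ⊆ C, Top L G (L.l - 1) T → ∃ a ∈ T, ∃ b ∈ T, a ≠ b ∧
      ((∃ Z, Blk L G T a Z) ∨ a = w) ∧ ((∃ Z, Blk L G T b Z) ∨ b = w) := by
    intro T hT hTop
    by_contra h2
    apply hcon
    refine ⟨T, hT, hTop, ?_⟩
    by_cases h0 : ∃ a ∈ T, (∃ Z, Blk L G T a Z) ∨ a = w
    · obtain ⟨p, hp, hp'⟩ := h0
      refine ⟨p, fun a ha ha' => ?_⟩
      by_contra hne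
      exact h2 ⟨a, ha, p, hp, hne, ha', hp'⟩
    · exact ⟨w, fun a ha ha' => absurd ⟨a, ha, ha'⟩ h0⟩
  have pick : ∀ T ⊆ C, Top L G (L.l - 1) T → ∀ a b, a ≠ b → (∃ Z, Blk L G T a Z) →
      (∃ Z, Blk L G T b Z) → ∀ x, ∃ c Z, MaxB L G T c Z ∧ x ∉ Z := by
    intro T _ hTop a b hab ha hb x
    obtain ⟨Z₁, h₁⟩ := exists_max hL w1 ha
    obtain ⟨Z₂, h₂⟩ := exists_max hL w1 hb
    by_cases hx : x ∈ Z₁
    · exact ⟨b, Z₂, h₂, fun hx' => disj hL w1 hTop h₁.1 h₂.1 hab hx hx'⟩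
    · exact ⟨a, Z₁, h₁, hx⟩
  have step : ∀ n : ℕ, ∀ T ⊆ C, Top L G (L.l - 1) T → ∀ a Z, MaxB L G T a Z → w ∉ Z →
      Z.ncard = n → False := by
    intro n
    induction n using Nat.strong_induction_on with
    | _ n ih =>
      intro T hT hTop a Z hZ hw hn
      have hZC : Z ⊆ C := hC.2 Z hZ.1.1 ⟨a, hZ.1.mem.1, hT hZ.1.mem.2⟩
      obtain ⟨T', hT', hTop'⟩ := hZ.1.1.top hL w1 hZ.1.2.1
      obtain ⟨a₁, ha₁, a₂, ha₂, hne, hb₁, hb₂⟩ := two T' (hT'.trans hZC) hTop'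
      obtain ⟨c, Z', hZ', haZ'⟩ := pick T' (hT'.trans hZC) hTop' a₁ a₂ hne
        (hb₁.resolve_right fun h => hw (h ▸ hT' ha₁))
        (hb₂.resolve_right fun h => hw (h ▸ hT' ha₂)) a
      have hsub : Z' ⊆ Z := sub_max hL w1 hTop hZ hZ'.1.1 ⟨c, hT' hZ'.1.mem.2, hZ'.1.mem.1⟩ haZ'
      have hlt : Z'.ncard < Z.ncard :=
        Set.ncard_lt_ncard ⟨hsub, fun h => haZ' (h hZ.1.mem.1)⟩ (toFinite _)
      exact ih _ (hn ▸ hlt) T' (hT'.trans hZC) hTop' c Z' hZ' (fun h => hw (hsub h)) rfl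
  obtain ⟨T, hT, hTop⟩ := one_le_cnt.1 ht
  obtain ⟨a, ha, b, hb, hab, h₁, h₂⟩ := two T hT hTop
  rcases h₁ with h₁ | h₁
  · rcases h₂ with h₂ | h₂
    · obtain ⟨c, Z, hZ, hw⟩ := pick T hT hTop a b hab h₁ h₂ w
      exact step _ T hT hTop c Z hZ hw rfl
    · obtain ⟨Z, hZ⟩ := exists_max hL w1 h₁
      exact step _ T hT hTop a Z hZ (fun h => hab (hZ.1.eq (h₂ ▸ h) hb).symm) rfl
  · obtain ⟨Z, hZ⟩ := exists_max hL w1 (h₂.resolve_right fun h => hab (h₁.trans h.symm))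
    exact step _ T hT hTop b Z hZ (fun h => hab (hZ.1.eq (h₁ ▸ h) ha)) rfl

end Clu1Aux

/-- A point a of a top T is blocked if a tight Z with two points has Z ∩ T = {a}; let
Z(T, a) be a largest one (it holds all others, Tt.union). For a ≠ a' these sets are disjoint
(Tt.top_sub, 3 ≤ card T). Claim: some top in C has at most one point that is blocked or w.
Else take a top T ⊆ C and a blocked a with w ∉ Z(T, a) and Z(T, a) smallest; it lies in C.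
A top T' inside it has two blocked points, so one a' with a ∉ Z(T', a'); then
Z(T', a') ⊆ Z(T, a) - a. Now exists_nest gives a nested edge of the good top off its bad point;
a tight set of G - ab does not hold both ends (lemN), so it is tight in G (D_del_out) and
meets T in one point if it holds an end. -/
theorem two_options (hL : L.OK) (hb : Bd L G) (hC : IsCl L G C) (ht : 1 ≤ tops L G C) (w : Ω) :
    ∃ a ∈ C, ∃ b ∈ C, Elig L G a b ∧ a ≠ w ∧ b ≠ w := by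
  obtain ⟨T, hT, hTop, p, hp⟩ := Clu1Aux.good_top hL hb.w1 hC ht w
  have hl := hL.l1
  obtain ⟨a, ha, b, hb', hn, hap, hbp⟩ := exists_nest hL hb (by omega : L.l - 1 < L.l) hTop p
  rw [Nat.sub_add_cancel hl] at hn
  refine ⟨a, hT ha, b, hT hb', ⟨hn, fun Z hZ hD => ?_⟩, fun h => hap (hp a ha (Or.inr h)),
    fun h => hbp (hp b hb' (Or.inr h))⟩
  have hm := hL.m1
  have hnot : ¬ (a ∈ Z ∧ b ∈ Z) := fun h => by
    have := lemN hL hb le_rfl hn le_rfl h.1 h.2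
    linarith
  rw [D_del_out hnot] at hD
  have hTt : Tt L G Z := ⟨hZ.nonempty, hD⟩
  have key : ∀ x ∈ T, x ∈ Z → x = p := by
    intro x hx hxZ
    refine hp x hx (Or.inl ⟨Z, hTt, hZ, ?_⟩)
    apply Set.eq_singleton_iff_unique_mem.2
    refine ⟨⟨hxZ, hx⟩, fun y hy => ?_⟩
    by_contra hyx
    have hs : T ⊆ Z := hTt.top_sub hL hb.w1 hTop ⟨y, hy, x, ⟨hxZ, hx⟩, hyx⟩
    exact hnot ⟨hs ha, hs hb'⟩
  exact ⟨fun h => hap (key a ha h), fun h => hbp (key b hb' h)⟩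

end Pool.Agent.Lib.MP_781e3b_co.CN
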