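import Pool.Agent.Lib.MP_781e3b_co.CN.Clu1

/-!
The matching M and the pull-back of eligible edges (3.2, 3.3).
-/

namespace Pool.Agent.Lib.MP_781e3b_co.CN

open Set Function SimpleGraph

variable {Ω Ω' : Type} [Finite Ω] [Finite Ω'] {L : Lv} {Y : SimpleGraph Ω} {Y' : SimpleGraph Ω'}
  {k i : ℕ}

omit [Finite Ω] in
theorem mat_bot (L : Lv) (Y : SimpleGraph Ω) : Mat L Y ⊥ :=
  ⟨bot_le, fun _ _ _ h => h.elim, fun _ _ h => h.elim, fun _ _ h => h.elim⟩

namespace Clu2aAux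

theorem step (hL : L.OK) (N : ℕ) : ∀ Y : SimpleGraph Ω, Y.edgeSet.ncard < N → Bd L Y →
    ∃ M, Mat L Y M ∧ (∀ T, ¬ Top L (Y \ M) (L.l - 1) T) ∧
      ∀ u v, M.Adj u v → ∃ T, Top L Y (L.l - 1) T ∧ u ∈ T := by
  induction N with
  | zero => exact fun _ h => absurd h (Nat.not_lt_zero _)
  | succ N ih =>
    intro Y hN hb
    by_cases h0 : ∃ T, Top L Y (L.l - 1) T
    swap
    · exact ⟨⊥, mat_bot L Y, by simpa using h0, fun _ _ h => h.elim⟩
    obtain ⟨T, hT⟩ := h0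
    have l1 := hL.l1
    obtain ⟨x, hx⟩ := (hT.tt hL).1
    have hC := isCl_cl hL hb.w1 x
    have hTC : T ⊆ cl L Y x := hC.2 T (hT.tt hL) ⟨x, hx, mem_cl hL x⟩
    obtain ⟨a, -, b, -, ⟨hn, he⟩, -⟩ := two_options hL hb hC (one_le_cnt.2 ⟨T, hTC, hT⟩) x
    have hab : Y.Adj a b := hn.1
    have hle : edge a b ≤ Y := (edge_le_iff Y).2 (Or.inr hab)
    have hb1 : Bd L (Y \ edge a b) := hb.sub hL sdiff_le
    have hlt : (Y \ edge a b).edgeSet.ncard < Y.edgeSet.ncard := by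
      refine ncard_lt_ncard ⟨edgeSet_mono sdiff_le, fun h => ?_⟩ (toFinite _)
      have := h (show s(a, b) ∈ Y.edgeSet from hab)
      exact this.2 ((edge_adj ..).2 ⟨Or.inl ⟨rfl, rfl⟩, hab.ne⟩)
    obtain ⟨M, hM, hno, htop⟩ := ih (Y \ edge a b) (by omega) hb1
    have hout : ∀ u v, M.Adj u v → u ≠ a ∧ u ≠ b := by
      intro u v h
      obtain ⟨T', h1, h2⟩ := htop u v h
      have := he T' (nontrivial_of_three (h1.three hL.n3)) (h1.tt hL).2
      exact ⟨fun e => this.1 (e ▸ h2), fun e => this.2 (e ▸ h2)⟩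
    have eq : Y \ (edge a b ⊔ M) = (Y \ edge a b) \ M := sdiff_sdiff_left.symm
    refine ⟨edge a b ⊔ M, ⟨sup_le hle (hM.le.trans sdiff_le), ?_, ?_, ?_⟩, eq ▸ hno, ?_⟩
    · rintro u v v' (h | h) (h' | h')
      · have := hab.ne
        rcases ((edge_adj ..).1 h).1 with ⟨h1, h2⟩ | ⟨h1, h2⟩ <;>
          rcases ((edge_adj ..).1 h').1 with ⟨h3, h4⟩ | ⟨h3, h4⟩ <;> grind
      · have := hout u v' h'
        rcases ((edge_adj ..).1 h).1 with ⟨h1, -⟩ | ⟨h1, -⟩ <;> grind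
      · have := hout u v h
        rcases ((edge_adj ..).1 h').1 with ⟨h1, -⟩ | ⟨h1, -⟩ <;> grind
      · exact hM.uniq u v v' h h'
    · rw [eq]
      rintro u v (h | h) Z hu hv
      · have : a ∈ Z ∧ b ∈ Z := by
          rcases ((edge_adj ..).1 h).1 with ⟨rfl, rfl⟩ | ⟨rfl, rfl⟩
          exacts [⟨hu, hv⟩, ⟨hv, hu⟩]
        exact (lemN hL hb le_rfl hn le_rfl this.1 this.2).trans
          (D_mono (hL.P le_rfl) fun _ _ _ _ h => h.1)
      · exact hM.pair u v h Z hu hv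
    · rw [eq]
      intro u v _ Z hZ hu
      by_contra hc
      obtain ⟨T', -, h⟩ := Tt.top hL (hb1.sub hL sdiff_le).w1 ⟨⟨u, hu⟩, not_lt.1 hc⟩ hZ
      exact hno T' h
    · rintro u v (h | h)
      · obtain ⟨T', h1, h2, h3⟩ := hn.2 (L.l - 1) (by omega)
        refine ⟨T', h1, ?_⟩
        rcases ((edge_adj ..).1 h).1 with ⟨rfl, -⟩ | ⟨rfl, -⟩
        exacts [h2, h3]
      · obtain ⟨T', h1, h2⟩ := htop u v h
        exact ⟨T', h1.mono (hL.P (by omega)) fun _ _ _ _ h => h.1, h2⟩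

end Clu2aAux

/-- Induction on the number of edges, for all Y, with the extra claim that every edge of M lies
in a top of level l - 1 of Y. If Y has such a top, take an eligible edge ab
(two_options in the cluster of the top), get M' for Y - ab and put M = M' ⊔ edge a b.
The ends a, b lie in no top of Y - ab (Top.tt), so M is a matching; lemN, D_mono; no
top means no tight set with two points (Tt.top). -/
theorem exists_M (hL : L.OK) (hb : Bd L Y) :
    ∃ M, Mat L Y M ∧ ∀ T, ¬ Top L (Y \ M) (L.l - 1) T := by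
  obtain ⟨M, h1, h2, -⟩ := Clu2aAux.step hL _ Y (Nat.lt_succ_self _) hb
  exact ⟨M, h1, h2⟩

/-- One class for each set; two_options. -/
theorem cls_exists (hL : L.OK) (hb : Bd L Y) (hk : 1 ≤ k) : ∃ i, Cls L Y k i := by
  refine ⟨Nat.card (Set Ω), fun C => (Finite.equivFin (Set Ω) C).val,
    fun C _ => (Finite.equivFin (Set Ω) C).isLt, ?_⟩
  rintro 𝒮 R q h ⟨C, hC, hR⟩
  obtain ⟨⟨h1, h2⟩, h3⟩ := h C hC
  obtain ⟨w, -⟩ := h1.1.1
  obtain ⟨a, ha, b, hb', he, -⟩ := two_options hL hb h1 (hk.trans h2) w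
  refine ⟨C, hC, hR, a, ha, b, hb', he, fun C' hC' hne => absurd ?_ hne⟩
  exact (Finite.equivFin (Set Ω)).injective (Fin.ext ((h C' hC').2.trans h3.symm))

end Pool.Agent.Lib.MP_781e3b_co.CN
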