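import Pool.Agent.Lib.MP_781e3b_co.CN.Clu2

/-!
The induced matching for the last class (3.3).
-/

namespace Pool.Agent.Lib.MP_781e3b_co.CN

open Set Function SimpleGraph

variable {Ω : Type} [Finite Ω] {L : Lv} {Y : SimpleGraph Ω} {k i : ℕ}

/-- Elimination: for every family 𝒮 of k-clusters of class q there is a choice of an eligible
edge in each member with no edge of Y between the edges chosen in different members (induction on
the size of 𝒮; R = ∅). -/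
theorem elim_choice [Nonempty Ω] {c : Set Ω → ℕ} (h : ERoot L Y k c) (q : ℕ) (𝒮 : Set (Set Ω))
    (h𝒮 : ∀ C ∈ 𝒮, KCl L Y k C ∧ c C = q) :
    ∃ e : Set Ω → Ω × Ω, ∀ C ∈ 𝒮, (e C).1 ∈ C ∧ (e C).2 ∈ C ∧ Elig L Y (e C).1 (e C).2 ∧
      ∀ C' ∈ 𝒮, C' ≠ C → ∀ u ∈ ({(e C).1, (e C).2} : Set Ω), ∀ v ∈ ({(e C').1, (e C').2} : Set Ω),
        ¬ Y.Adj u v := by
  classical
  generalize hn : 𝒮.ncard = n
  induction n using Nat.strong_induction_on generalizing 𝒮 with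
  | _ n ih =>
  rcases 𝒮.eq_empty_or_nonempty with rfl | ⟨C₀, hC₀⟩
  · exact ⟨fun _ => Classical.arbitrary _, fun C hC => hC.elim⟩
  obtain ⟨C, hC, -, a, ha, b, hb, he, hno⟩ :=
    h 𝒮 ∅ q h𝒮 ⟨C₀, hC₀, (h𝒮 C₀ hC₀).1.1.1.1.ne_empty⟩
  have hlt : (𝒮 \ {C}).ncard < n := hn ▸ Set.ncard_sdiff_singleton_lt_of_mem hC
  obtain ⟨e, he'⟩ := ih _ hlt (𝒮 \ {C}) (fun C' h' => h𝒮 C' h'.1) rfl
  have key : ∀ C' ∈ 𝒮, C' ≠ C → ∀ u ∈ ({a, b} : Set Ω),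
      ∀ v ∈ ({(e C').1, (e C').2} : Set Ω), ¬ Y.Adj u v := by
    intro C' hC' hne u hu v hv
    have h1 := he' C' ⟨hC', hne⟩
    have hv' : v ∈ C' := by
      rcases hv with rfl | rfl
      · exact h1.1
      · exact h1.2.1
    rcases hu with rfl | rfl
    · exact (hno C' hC' hne v hv').1
    · exact (hno C' hC' hne v hv').2
  refine ⟨Function.update e C (a, b), fun C₁ hC₁ => ?_⟩
  by_cases h1 : C₁ = C
  · subst h1
    rw [Function.update_self]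
    refine ⟨ha, hb, he, fun C' hC' hne => ?_⟩
    rw [Function.update_of_ne hne]
    exact key C' hC' hne
  · rw [Function.update_of_ne h1]
    have h2 := he' C₁ ⟨hC₁, h1⟩
    refine ⟨h2.1, h2.2.1, h2.2.2.1, fun C' hC' hne => ?_⟩
    by_cases h3 : C' = C
    · subst h3
      rw [Function.update_self]
      exact fun u hu v hv hadj => key C₁ hC₁ h1 v hv u hu hadj.symm
    · rw [Function.update_of_ne h3]
      exact h2.2.2.2 C' ⟨hC', h3⟩ hne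

/-- F is the set of chosen edges for the class i. Clusters are disjoint (IsCl.eq); lemN,
D_mono. A k-cluster N of Y \ F is tight in Y, so it lies in a cluster C of Y, which
has at most k tops, so all tops of Y in C are tops of Y \ F; hence C is not in the class
i, holds no edge of F, is tight in Y \ F, and N = C. Keep c; pull_elig with f = id. -/
theorem cls_step (hL : L.OK) (hb : Bd L Y) (hk : 1 ≤ k) (hm : ∀ Z, Tt L Y Z → tops L Y Z ≤ k)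
    (h : Cls L Y k (i + 1)) : ∃ F, Mat L Y F ∧ Ind Y F ∧ Cls L (Y \ F) k i := by
  classical
  rcases isEmpty_or_nonempty Ω with hΩ | hΩ
  · refine ⟨⊥, mat_bot L Y, fun a => isEmptyElim a, fun _ => 0, fun C hC => ?_, ?_⟩
    · obtain ⟨a, -⟩ := hC.1.1.1
      exact isEmptyElim a
    · rintro 𝒮 R q h𝒮 ⟨C, hC, -⟩
      obtain ⟨a, -⟩ := (h𝒮 C hC).1.1.1.1
      exact isEmptyElim a
  obtain ⟨c, hc, hr⟩ := h
  obtain ⟨e, he⟩ := elim_choice hr i {C | KCl L Y k C ∧ c C = i} (fun _ h => h)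
  have hPl : L.P L.l := hL.P le_rfl
  have hPl' : L.P (L.l - 1) := hL.P (Nat.sub_le _ _)
  have hm1 := hL.m1
  obtain ⟨F, hF⟩ : ∃ F : SimpleGraph Ω, ∀ u v, F.Adj u v ↔ ∃ C, (KCl L Y k C ∧ c C = i) ∧
      ((u = (e C).1 ∧ v = (e C).2) ∨ (u = (e C).2 ∧ v = (e C).1)) := by
    refine ⟨SimpleGraph.fromRel fun u v => ∃ C, (KCl L Y k C ∧ c C = i) ∧
      u = (e C).1 ∧ v = (e C).2, fun u v => ?_⟩
    rw [SimpleGraph.fromRel_adj]
    constructor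
    · rintro ⟨-, ⟨C, hC, h1⟩ | ⟨C, hC, h1, h2⟩⟩
      · exact ⟨C, hC, Or.inl h1⟩
      · exact ⟨C, hC, Or.inr ⟨h2, h1⟩⟩
    · rintro ⟨C, hC, ⟨rfl, rfl⟩ | ⟨rfl, rfl⟩⟩
      · exact ⟨(he C hC).2.2.1.1.1.ne, Or.inl ⟨C, hC, rfl, rfl⟩⟩
      · exact ⟨(he C hC).2.2.1.1.1.ne', Or.inr ⟨C, hC, rfl, rfl⟩⟩
  have hmem : ∀ {C u v}, (KCl L Y k C ∧ c C = i) →
      ((u = (e C).1 ∧ v = (e C).2) ∨ (u = (e C).2 ∧ v = (e C).1)) → u ∈ C := by
    rintro C u v hC (⟨rfl, -⟩ | ⟨rfl, -⟩)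
    · exact (he C hC).1
    · exact (he C hC).2.1
  have hdel : ∀ C, (KCl L Y k C ∧ c C = i) → ∀ Z : Set Ω,
      D L (Y \ edge (e C).1 (e C).2) L.l Z ≤ D L (Y \ F) L.l Z := by
    intro C hC Z
    refine D_mono hPl fun u _ v _ huv => ⟨huv.1, fun h1 => huv.2 ?_⟩
    rw [edge_adj] at h1
    exact (hF u v).2 ⟨C, hC, h1.1⟩
  have hM : Mat L Y F := by
    refine ⟨fun u v huv => ?_, fun a b b' h1 h2 => ?_, fun a b h1 Z ha hb' => ?_,
      fun a b h1 Z hZ ha => ?_⟩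
    · obtain ⟨C, hC, ⟨rfl, rfl⟩ | ⟨rfl, rfl⟩⟩ := (hF u v).1 huv
      · exact (he C hC).2.2.1.1.1
      · exact (he C hC).2.2.1.1.1.symm
    · obtain ⟨C, hC, h3⟩ := (hF _ _).1 h1
      obtain ⟨C', hC', h4⟩ := (hF _ _).1 h2
      obtain rfl : C = C' := hC.1.1.eq hC'.1.1 ⟨a, hmem hC h3, hmem hC' h4⟩
      have hne := (he C hC).2.2.1.1.1.ne
      rcases h3 with ⟨h3, h5⟩ | ⟨h3, h5⟩ <;> rcases h4 with ⟨h4, h6⟩ | ⟨h4, h6⟩
      · rw [h5, h6]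
      · exact absurd (h3.symm.trans h4) hne
      · exact absurd (h4.symm.trans h3) hne
      · rw [h5, h6]
    · obtain ⟨C, hC, h3⟩ := (hF _ _).1 h1
      refine le_trans (lemN hL hb le_rfl (he C hC).2.2.1.1 le_rfl ?_ ?_) (hdel C hC Z)
      · rcases h3 with ⟨rfl, rfl⟩ | ⟨rfl, rfl⟩
        · exact ha
        · exact hb'
      · rcases h3 with ⟨rfl, rfl⟩ | ⟨rfl, rfl⟩
        · exact hb'
        · exact ha
    · obtain ⟨C, hC, h3⟩ := (hF _ _).1 h1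
      by_contra hcon
      have h4 := (he C hC).2.2.1.2 Z hZ ((hdel C hC Z).trans (not_lt.1 hcon))
      rcases h3 with ⟨rfl, -⟩ | ⟨rfl, -⟩
      · exact h4.1 ha
      · exact h4.2 ha
  have hI : Ind Y F := by
    intro a a' b b' h1 h2 hab
    obtain ⟨C, hC, h3⟩ := (hF _ _).1 h1
    obtain ⟨C', hC', h4⟩ := (hF _ _).1 h2
    by_cases hCC : C' = C
    · subst hCC
      have hne := hab.ne
      rcases h3 with ⟨h3, h5⟩ | ⟨h3, h5⟩ <;> rcases h4 with ⟨h4, -⟩ | ⟨h4, -⟩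
      · exact absurd (h3.trans h4.symm) hne
      · rw [h4, h5]
      · rw [h4, h5]
      · exact absurd (h3.trans h4.symm) hne
    · refine absurd hab ((he C hC).2.2.2 C' hC' hCC a ?_ b ?_)
      · rcases h3 with ⟨rfl, -⟩ | ⟨rfl, -⟩
        · exact Or.inl rfl
        · exact Or.inr rfl
      · rcases h4 with ⟨rfl, -⟩ | ⟨rfl, -⟩
        · exact Or.inl rfl
        · exact Or.inr rfl
  have key : ∀ N, KCl L (Y \ F) k N → KCl L Y k N ∧ c N < i := by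
    intro N hN
    obtain ⟨a, ha⟩ := hN.1.1.1
    have hNt : Tt L Y N :=
      ⟨⟨a, ha⟩, (D_mono (G := Y \ F) hPl fun _ _ _ _ h => h.1).trans hN.1.1.2⟩
    have hC : IsCl L Y (cl L Y a) := isCl_cl hL hb.w1 a
    generalize hCe : cl L Y a = C at hC
    have haC : a ∈ C := hCe ▸ mem_cl hL a
    have hNC : N ⊆ C := hC.2 N hNt ⟨a, ha, haC⟩
    have hsub : {T | T ⊆ N ∧ Top L (Y \ F) (L.l - 1) T} ⊆ {T | T ⊆ C ∧ Top L Y (L.l - 1) T} :=
      fun T hT => ⟨hT.1.trans hNC, hT.2.mono hPl' fun _ _ _ _ h => h.1⟩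
    have heq := Set.eq_of_subset_of_ncard_le hsub ((hm C hC.1).trans hN.2)
    have hK : KCl L Y k C := ⟨hC, hN.2.trans (Set.ncard_le_ncard hsub)⟩
    have hci : c C ≠ i := by
      intro hci
      have h1 := he C ⟨hK, hci⟩
      obtain ⟨T, hT, h2, h3⟩ := h1.2.2.1.1.2 (L.l - 1) (by have := hL.l1; omega)
      have hTC : T ⊆ C := hC.2 T (hT.tt hL) ⟨_, h2, h1.1⟩
      have hT' : T ∈ {T | T ⊆ N ∧ Top L (Y \ F) (L.l - 1) T} := heq ▸ ⟨hTC, hT⟩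
      have h4 := (hT'.2.tt hL).2
      have h5 := hM.pair _ _ ((hF _ _).2 ⟨C, ⟨hK, hci⟩, Or.inl ⟨rfl, rfl⟩⟩) T h2 h3
      linarith
    have hnoF : ∀ u ∈ C, ∀ v, ¬ F.Adj u v := by
      intro u hu v huv
      obtain ⟨C', hC', h1⟩ := (hF _ _).1 huv
      exact hci ((hC.eq hC'.1.1 ⟨u, hu, hmem hC' h1⟩) ▸ hC'.2)
    have hCt : Tt L (Y \ F) C := by
      refine ⟨hC.1.1, le_of_eq_of_le (D_congr fun u hu v _ => ?_) hC.1.2⟩
      exact ⟨fun h1 => ⟨h1, hnoF u hu v⟩, fun h1 => h1.1⟩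
    obtain rfl : N = C := hNC.antisymm (hN.1.2 C hCt ⟨a, haC, ha⟩)
    exact ⟨hK, lt_of_le_of_ne (Nat.lt_succ_iff.1 (hc N hK)) hci⟩
  refine ⟨F, hM, hI, c, fun N hN => (key N hN).2, fun 𝒮 R q h𝒮 hex => ?_⟩
  obtain ⟨C, hC, hR, a, ha, b, hb', hel, hno⟩ :=
    hr 𝒮 R q (fun C hC => ⟨(key C (h𝒮 C hC).1).1, (h𝒮 C hC).2⟩) hex
  have hK := (key C (h𝒮 C hC).1).1
  obtain ⟨a', -, b', -, rfl, rfl, hel'⟩ :=
    pull_elig (f := id) (Y' := Y \ F) hL hb (hb.sub hL sdiff_le) (injOn_id C)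
      (fun _ _ _ _ h => h.1) (h𝒮 C hC).1 hK.1 (hm C hK.1.1) (by simp) ha hel
  exact ⟨C, hC, hR, a', ha, b', hb', hel', fun C' hC' hne w hw =>
    ⟨fun h1 => (hno C' hC' hne w hw).1 h1.1, fun h1 => (hno C' hC' hne w hw).2 h1.1⟩⟩

end Pool.Agent.Lib.MP_781e3b_co.CN
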