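import Pool.Agent.Lib.MP_781e3b_co.RR.Iso

/-!
Removing the isolated vertices of both graphs keeps Ramsey equivalence; mutual containment.
-/

namespace Pool.Agent.Lib.MP_781e3b_co.CN

open Set Function SimpleGraph

theorem core_imp {V W X Y : Type} [Fintype V] {H₁ : SimpleGraph V} {H₂ : SimpleGraph W}
    (h : RamseyEquiv H₁ H₂ 2) {j : X → V} (hj : Injective j) (hS : H₁.support ⊆ range j)
    {k : Y → W} (hk : Injective k) (hY : ∀ y, ∃ y', H₂.Adj (k y) (k y')) {n : ℕ}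
    {G : SimpleGraph (Fin n)} (hG : Arrows G (H₁.comap j) 2) : Arrows G (H₂.comap k) 2 := by
  classical
  let e : Fin n ↪ Fin n ⊕ V := ⟨Sum.inl, Sum.inl_injective⟩
  have h1 : Arrows (G.map e) H₁ 2 := by
    intro c hc
    obtain ⟨i, f, f1, f2⟩ := hG (fun x y => c (e x) (e y)) fun x y => hc _ _
    refine ⟨i, emb_of_support (R := fun x y => (G.map e).Adj x y ∧ c x y = i) hj hS
      ⟨e ∘ f, e.injective.comp f1, fun u v huv => ⟨?_, (f2 u v huv).2⟩⟩ (by simp)⟩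
    exact map_adj_apply' (f2 u v huv).1 (e.injective.ne (f2 u v huv).1.ne)
  intro c hc
  obtain ⟨i, f, f1, f2⟩ := h.imp h1
    (fun x y => match x, y with
      | Sum.inl x, Sum.inl y => c x y
      | _, _ => 0) (by rintro (x | x) (y | y) <;> first | exact hc _ _ | rfl)
  have h2 : ∀ y, ∃ x, e x = f (k y) := fun y => by
    obtain ⟨y', hy⟩ := hY y
    obtain ⟨-, x, -, -, h3, -⟩ := (f2 _ _ hy).1
    exact ⟨x, h3⟩
  choose g hg using h2
  refine ⟨i, g, fun u v huv => hk (f1 (by rw [← hg, ← hg, huv])), fun u v huv => ?_⟩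
  obtain ⟨h3, h4⟩ := f2 _ _ huv
  rw [← hg, ← hg] at h3 h4
  exact ⟨by simpa using h3, h4⟩

/-- An enumeration of the non-isolated vertices. -/
theorem exists_core {a : ℕ} (H : SimpleGraph (Fin a)) :
    ∃ (m : ℕ) (j : Fin m → Fin a), Injective j ∧ range j = H.support := by
  classical
  let e := Fintype.equivFin H.support
  refine ⟨_, Subtype.val ∘ e.symm, Subtype.val_injective.comp e.symm.injective, ?_⟩
  rw [range_comp, e.symm.range_eq_univ, image_univ, Subtype.range_coe]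

theorem core_equiv {a b m n : ℕ} {H₁ : SimpleGraph (Fin a)} {H₂ : SimpleGraph (Fin b)}
    (h : RamseyEquiv H₁ H₂ 2) {j : Fin m → Fin a} (hj : Injective j) (j2 : range j = H₁.support)
    {k : Fin n → Fin b} (hk : Injective k) (k2 : range k = H₂.support) :
    RamseyEquiv (H₁.comap j) (H₂.comap k) 2 := by
  have key : ∀ {a m : ℕ} {H : SimpleGraph (Fin a)} {j : Fin m → Fin a}, range j = H.support →
      ∀ y, ∃ y', H.Adj (j y) (j y') := by
    intro a m H j e y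
    obtain ⟨z, hz⟩ : j y ∈ H.support := e ▸ mem_range_self y
    obtain ⟨y', rfl⟩ : z ∈ range j := e ▸ ⟨_, hz.symm⟩
    exact ⟨y', hz⟩
  exact fun _ _ => ⟨core_imp h hj j2.ge hk (key k2), core_imp h.symm hk k2.ge hj (key j2)⟩

theorem iso_of_embs {V W : Type} [Finite V] [Finite W] {H₁ : SimpleGraph V} {H₂ : SimpleGraph W}
    (h1 : Pool.Agent.Lib.MP_781e3b_co.Emb H₁ H₂.Adj)
    (h2 : Pool.Agent.Lib.MP_781e3b_co.Emb H₂ H₁.Adj) : Nonempty (H₁ ≃g H₂) := by
  obtain ⟨f, f1, f2⟩ := h1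
  obtain ⟨g, g1, g2⟩ := h2
  have hb : Bijective f := ⟨f1, (Finite.injective_iff_surjective.1 (f1.comp g1)).of_comp⟩
  have a1 : Prod.map f f '' {p | H₁.Adj p.1 p.2} ⊆ {p | H₂.Adj p.1 p.2} := by
    rintro _ ⟨p, hp, rfl⟩
    exact f2 _ _ hp
  have a2 : Prod.map g g '' {p | H₂.Adj p.1 p.2} ⊆ {p | H₁.Adj p.1 p.2} := by
    rintro _ ⟨p, hp, rfl⟩
    exact g2 _ _ hp
  have a3 := eq_of_subset_of_ncard_le a1 (by
    rw [ncard_image_of_injective _ (f1.prodMap f1),
      ← ncard_image_of_injective _ (g1.prodMap g1)]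
    exact ncard_le_ncard a2)
  refine ⟨⟨Equiv.ofBijective f hb, fun {u v} => ⟨fun huv => ?_, f2 u v⟩⟩⟩
  have : (f u, f v) ∈ Prod.map f f '' {p | H₁.Adj p.1 p.2} := a3 ▸ huv
  obtain ⟨p, hp, h3⟩ := this
  obtain rfl : p = (u, v) := f1.prodMap f1 h3
  exact hp

end Pool.Agent.Lib.MP_781e3b_co.CN
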