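import Pool.Agent.Lib.MP_781e3b_co.CN.Main
import Pool.Agent.Lib.MP_781e3b_co.CN.Core

/-!
Two connected graphs that are Ramsey equivalent in two colours are isomorphic.
-/

namespace Pool.Agent.Lib.MP_781e3b_co.CN

theorem conn_iso {a b : ℕ} {H₁ : SimpleGraph (Fin a)} {H₂ : SimpleGraph (Fin b)}
    (c₁ : H₁.Connected) (c₂ : H₂.Connected) (h : RamseyEquiv H₁ H₂ 2) : Nonempty (H₁ ≃g H₂) :=
  iso_of_embs (conn_emb c₁ h) (conn_emb c₂ h.symm)

end Pool.Agent.Lib.MP_781e3b_co.CN
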