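import Mathlib

/-!
Levels of density, clusters, and the local calculus on ground times labels.
-/

namespace Pool.Agent.Lib.MP_781e3b_co.CN

open Set Function SimpleGraph

/-! ### Levels -/

/-- Parameters of the levels. -/
structure Lv where
  m : ℝ
  n : ℕ
  l : ℕ
  t : ℕ → ℕ
  ρ : ℕ → ℝ

/-- The threshold of level j. -/
def Lv.θ (L : Lv) : ℕ → ℝ
  | 0 => 2 * L.m - 1
  | j + 1 => L.θ j - L.ρ j

/-- The weights below level j are not negative. -/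
def Lv.P (L : Lv) (j : ℕ) : Prop := ∀ i < j, 0 ≤ L.ρ i

structure Lv.OK (L : Lv) : Prop where
  m1 : 1 < L.m
  n3 : 3 ≤ L.n
  l1 : 1 ≤ L.l
  pos : ∀ j < L.l, 0 < L.ρ j
  last : L.θ L.l = L.m

section
variable {Ω V : Type}

/-- Number of subsets of Z with the property Q. -/
noncomputable def cnt (Q : Set Ω → Prop) (Z : Set Ω) : ℕ := {T | T ⊆ Z ∧ Q T}.ncard

def IsEdge (G : SimpleGraph Ω) (T : Set Ω) : Prop := ∃ a b, G.Adj a b ∧ T = {a, b}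

/-- Number of edges inside Z. -/
noncomputable def ec (G : SimpleGraph Ω) (Z : Set Ω) : ℕ := cnt (IsEdge G) Z

/-- A tight set on n points. -/
def Mk (L : Lv) (G : SimpleGraph Ω) (K : Set Ω) : Prop :=
  K.ncard = L.n ∧ L.m * K.ncard - ec G K ≤ 2 * L.m - 1

def Mark (L : Lv) (G : SimpleGraph Ω) (Z : Set Ω) : Prop := ∃ K ⊆ Z, Mk L G K

/-- The dimension function of level j. -/
noncomputable def D (L : Lv) (G : SimpleGraph Ω) : ℕ → Set Ω → ℝ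
  | 0 => fun Z => L.m * Z.ncard - ec G Z
  | j + 1 => fun Z => D L G j Z -
      L.ρ j * cnt (fun T => T.ncard = L.t j ∧ D L G j T ≤ L.θ j ∧ Mark L G T) Z

/-- A top of level j. -/
def Top (L : Lv) (G : SimpleGraph Ω) (j : ℕ) (T : Set Ω) : Prop :=
  T.ncard = L.t j ∧ D L G j T ≤ L.θ j ∧ Mark L G T

theorem D_zero (L : Lv) (G : SimpleGraph Ω) (Z : Set Ω) :
    D L G 0 Z = L.m * Z.ncard - ec G Z := rfl

theorem D_succ (L : Lv) (G : SimpleGraph Ω) (j : ℕ) (Z : Set Ω) :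
    D L G (j + 1) Z = D L G j Z - L.ρ j * cnt (Top L G j) Z := rfl

structure W1 (L : Lv) (G : SimpleGraph Ω) (S : Set Ω) : Prop where
  ge : ∀ j ≤ L.l, ∀ Z ⊆ S, Z.Nontrivial → L.θ j ≤ D L G j Z
  small : ∀ Z ⊆ S, 3 ≤ Z.ncard → Z.ncard < L.n → L.θ 0 < D L G 0 Z

structure Bd (L : Lv) (G : SimpleGraph Ω) : Prop where
  w1 : W1 L G univ
  top : ∀ j < L.l, ∀ Z, D L G j Z ≤ L.θ j → Mark L G Z → Z.ncard ≤ L.t j

/-- R is strong in S. -/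
def Str (L : Lv) (G : SimpleGraph Ω) (S R : Set Ω) : Prop :=
  ∀ Z ⊆ S, D L G L.l (Z ∩ R) ≤ D L G L.l Z

/-- R is separated in S. -/
def Sepa (L : Lv) (G : SimpleGraph Ω) (S R : Set Ω) : Prop :=
  ∀ j < L.l, ∀ Z ⊆ S, D L G j Z ≤ L.θ j → Mark L G Z → (Z ∩ R).Nontrivial → Z ⊆ R

/-- S is covered by S₁ and S₂, and so are its edges. -/
def Cut (G : SimpleGraph Ω) (S S₁ S₂ : Set Ω) : Prop :=
  S ⊆ S₁ ∪ S₂ ∧ ∀ x ∈ S, ∀ y ∈ S, G.Adj x y → (x ∈ S₁ ∧ y ∈ S₁) ∨ (x ∈ S₂ ∧ y ∈ S₂)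

/-- B induces a 2-connected graph. -/
def TwoC (G : SimpleGraph Ω) (B : Set Ω) : Prop :=
  3 ≤ B.ncard ∧ ∀ v, ∀ a ∈ B, ∀ b ∈ B, a ≠ v → b ≠ v →
    Relation.ReflTransGen (fun x y => G.Adj x y ∧ x ∈ B ∧ y ∈ B ∧ x ≠ v ∧ y ≠ v) a b

/-- The edge a b lies in a top of every level below i. -/
def Nest (L : Lv) (G : SimpleGraph Ω) (i : ℕ) (a b : Ω) : Prop :=
  G.Adj a b ∧ ∀ j < i, ∃ T, Top L G j T ∧ a ∈ T ∧ b ∈ T

/-- E is a forest in Y whose components are induced. -/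
def IndF (Y E : SimpleGraph Ω) : Prop :=
  E ≤ Y ∧ ∀ u v, Y.Adj u v → ¬ (E \ edge u v).Reachable u v

/-- Bounds for Γ when the pairs of E carry the weight κ. -/
structure PH (L : Lv) (Γ E : SimpleGraph Ω) (κ κ' : ℝ) : Prop where
  a : ∀ C : Set Ω, C.Nontrivial → 2 * L.m - κ' ≤ D L Γ L.l C - κ * ec E C
  b : ∀ C : Set Ω, 1 ≤ ec E C → 2 * L.m ≤ D L Γ L.l C - κ * (ec E C - 1)
  c : ∀ j < L.l, ∀ C : Set Ω, 1 ≤ ec E C →
    L.θ j + ec E C * (2 * L.m - L.θ j) ≤ D L Γ j C ∨ L.θ j < D L Γ j C - κ * ec E C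

/-! ### Clusters -/

/-- Tight on the last level. -/
def Tt (L : Lv) (G : SimpleGraph Ω) (Z : Set Ω) : Prop := Z.Nonempty ∧ D L G L.l Z ≤ L.m

/-- The cluster of a. -/
def cl (L : Lv) (G : SimpleGraph Ω) (a : Ω) : Set Ω := {b | ∃ Z, Tt L G Z ∧ a ∈ Z ∧ b ∈ Z}

def IsCl (L : Lv) (G : SimpleGraph Ω) (C : Set Ω) : Prop :=
  Tt L G C ∧ ∀ Z, Tt L G Z → (Z ∩ C).Nonempty → Z ⊆ C

/-- Number of tops of the highest level. -/
noncomputable def tops (L : Lv) (G : SimpleGraph Ω) (Z : Set Ω) : ℕ := cnt (Top L G (L.l - 1)) Z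

def KCl (L : Lv) (G : SimpleGraph Ω) (k : ℕ) (C : Set Ω) : Prop := IsCl L G C ∧ k ≤ tops L G C

/-- Eligible edge. -/
def Elig (L : Lv) (G : SimpleGraph Ω) (a b : Ω) : Prop :=
  Nest L G L.l a b ∧
    ∀ Z : Set Ω, Z.Nontrivial → D L (G \ edge a b) L.l Z ≤ L.m → a ∉ Z ∧ b ∉ Z

/-- Rooted elimination inside every class of k-clusters. -/
def ERoot (L : Lv) (G : SimpleGraph Ω) (k : ℕ) (c : Set Ω → ℕ) : Prop :=
  ∀ (𝒮 : Set (Set Ω)) (R : Set Ω) (q : ℕ), (∀ C ∈ 𝒮, KCl L G k C ∧ c C = q) → (∃ C ∈ 𝒮, C ≠ R) →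
    ∃ C ∈ 𝒮, C ≠ R ∧ ∃ a ∈ C, ∃ b ∈ C, Elig L G a b ∧
      ∀ C' ∈ 𝒮, C' ≠ C → ∀ w ∈ C', ¬ G.Adj a w ∧ ¬ G.Adj b w

def Cls (L : Lv) (G : SimpleGraph Ω) (k i : ℕ) : Prop :=
  ∃ c : Set Ω → ℕ, (∀ C, KCl L G k C → c C < i) ∧ ERoot L G k c

/-- A matching whose pairs are strong and whose ends are cold in Y \ F. -/
structure Mat (L : Lv) (Y F : SimpleGraph Ω) : Prop where
  le : F ≤ Y
  uniq : ∀ a b b', F.Adj a b → F.Adj a b' → b = b'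
  pair : ∀ a b, F.Adj a b → ∀ Z : Set Ω, a ∈ Z → b ∈ Z → 2 * L.m ≤ D L (Y \ F) L.l Z
  cold : ∀ a b, F.Adj a b → ∀ Z : Set Ω, Z.Nontrivial → a ∈ Z → L.m < D L (Y \ F) L.l Z

/-- The matching is induced. -/
def Ind (Y F : SimpleGraph Ω) : Prop :=
  ∀ a a' b b', F.Adj a a' → F.Adj b b' → Y.Adj a b → b = a'

/-- The part of a: its cluster in Y \ F, or its edge of F. -/
def piF (L : Lv) (Y F : SimpleGraph Ω) (a : Ω) : Set Ω := cl L (Y \ F) a ∪ F.neighborSet a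

/-- The edges of Y that meet S. -/
def St (Y : SimpleGraph Ω) (S : Set Ω) : SimpleGraph Ω where
  Adj u v := Y.Adj u v ∧ (u ∈ S ∨ v ∈ S)
  symm := ⟨fun _ _ h => ⟨h.1.symm, h.2.symm⟩⟩
  loopless := ⟨fun _ h => h.1.ne rfl⟩

structure SOK (Y : SimpleGraph Ω) (S : Set Ω) : Prop where
  ind : ∀ u ∈ S, ∀ v ∈ S, ¬ Y.Adj u v
  acy : IndF (St Y S) (St Y S)
  two : ∀ u v, (Y \ St Y S).Adj u v → ¬ (St Y S).Reachable u v ∨
    ∃ s ∈ S, Y.Adj s u ∧ Y.Adj s v ∧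
      ¬ Relation.ReflTransGen (fun x y => (St Y S).Adj x y ∧ x ≠ s ∧ y ≠ s) u v

/-! ### Vertices over a ground set -/

/-- The numerical invariants; gr is the map to the ground. -/
structure Num (L : Lv) (G : SimpleGraph Ω) (gr : Ω → V) (S : Set Ω) : Prop where
  w1 : W1 L G S
  str : ∀ v, Str L G S (gr ⁻¹' {v})
  fs : ∀ v, ∀ j < L.l, ∀ Z ⊆ S, D L G j Z ≤ L.θ j → (Z ∩ gr ⁻¹' {v}).Nontrivial → Z ⊆ gr ⁻¹' {v}
  t : ∀ Z ⊆ S, D L G L.l Z ≤ L.m → ∀ a ∈ Z, ∀ b ∈ Z, gr a = gr b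

/-- Blue position with centre c and leaf u. -/
def PosB (L : Lv) (G : SimpleGraph Ω) (gr : Ω → V) (S : Set Ω) (c u : V) (κ : ℝ) : Prop :=
  ∀ Z ⊆ S, D L G L.l (Z ∩ gr ⁻¹' {c}) + D L G L.l (Z ∩ gr ⁻¹' {u}) - L.m ≤ D L G L.l Z ∧
    (D L G L.l (Z ∩ gr ⁻¹' {c}) < 2 * L.m →
      D L G L.l (Z ∩ gr ⁻¹' {c}) + D L G L.l (Z ∩ gr ⁻¹' {u}) - κ ≤ D L G L.l Z)

/-- Numerical part of a red position. -/
structure PosN (L : Lv) (G : SimpleGraph Ω) (gr : Ω → V) (S : Set Ω) (u u' : V) (κ : ℝ) :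
    Prop where
  ge : ∀ Z ⊆ S, D L G L.l (Z ∩ gr ⁻¹' {u}) + D L G L.l (Z ∩ gr ⁻¹' {u'}) - κ ≤ D L G L.l Z
  nt : ∀ j < L.l, ∀ Z ⊆ S, D L G j Z ≤ L.θ j → (Z ∩ gr ⁻¹' {u}).Nonempty →
    (Z ∩ gr ⁻¹' {u'}).Nonempty → False

end

/-- The graph in a fibre, the members and their options. -/
structure Fib (Φ : Type) where
  Ψ : SimpleGraph Φ
  Mem : Type
  nd : Mem → Set Φ
  cls : Mem → ℕ
  opt : Mem → Φ → Φ → Prop

structure Fib.OK {Φ : Type} (F : Fib Φ) (L : Lv) : Prop where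
  ne : Nonempty Φ
  w1 : W1 L F.Ψ univ
  sub : ∀ μ a b, F.opt μ a b → a ∈ F.nd μ ∧ b ∈ F.nd μ
  two : ∀ μ w, ∃ a b, F.opt μ a b ∧ a ≠ w ∧ b ≠ w
  sep : ∀ μ μ', μ ≠ μ' → ∀ a ∈ F.nd μ, ∀ w ∈ F.nd μ', ¬ F.Ψ.Adj a w

section
variable {V V' Φ : Type}

/-- All vertices over A. -/
abbrev up (A : Set V) : Set (V × Φ) := Prod.fst ⁻¹' A

/-- A map of grounds acts on vertices. -/
def lift (f : V → V') (x : V × Φ) : V' × Φ := (f x.1, x.2)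

/-- Every fibre carries Ψ. -/
def FibG (F : Fib Φ) (G : SimpleGraph (V × Φ)) : Prop :=
  ∀ v a b, G.Adj (v, a) (v, b) ↔ F.Ψ.Adj a b

/-- The member s has an option without edges to the other members of the family. -/
def Free (F : Fib Φ) (G : SimpleGraph (V × Φ)) (𝒮 : Set (V × F.Mem)) (s : V × F.Mem) : Prop :=
  ∃ a b, F.opt s.2 a b ∧ ∀ s' ∈ 𝒮, s' ≠ s → ∀ w ∈ F.nd s'.2,
    ¬ G.Adj (s.1, a) (s'.1, w) ∧ ¬ G.Adj (s.1, b) (s'.1, w)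

def E1 (F : Fib Φ) (G : SimpleGraph (V × Φ)) (A B : Set V) : Prop :=
  ∀ (𝒮 : Set (V × F.Mem)) (q : ℕ), (∀ s ∈ 𝒮, s.1 ∈ A ∧ F.cls s.2 = q) → (∃ s ∈ 𝒮, s.1 ∉ B) →
    ∃ s ∈ 𝒮, s.1 ∉ B ∧ Free F G 𝒮 s

structure Good (L : Lv) (F : Fib Φ) (G : SimpleGraph (V × Φ)) (A : Set V) : Prop where
  num : Num L G Prod.fst (up A)
  e : ∀ v, E1 F G A {v}

structure Root (L : Lv) (F : Fib Φ) (G : SimpleGraph (V × Φ)) (A B : Set V) : Prop where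
  str : Str L G (up A) (up B)
  sepa : Sepa L G (up A) (up B)
  e : E1 F G A B

structure PosR (L : Lv) (F : Fib Φ) (G : SimpleGraph (V × Φ)) (A : Set V) (u u' : V) (κ : ℝ) :
    Prop where
  num : PosN L G Prod.fst (up A) u u' κ
  e : E1 F G A {u, u'}

/-- A is covered by A₁ and A₂, and so are its cross edges. -/
def Spl (G : SimpleGraph (V × Φ)) (A A₁ A₂ : Set V) : Prop :=
  A ⊆ A₁ ∪ A₂ ∧ ∀ x y, G.Adj x y → x.1 ∈ A → y.1 ∈ A → x.1 ≠ y.1 →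
    (x.1 ∈ A₁ ∧ y.1 ∈ A₁) ∨ (x.1 ∈ A₂ ∧ y.1 ∈ A₂)

/-- The standing assumptions of the calculus. -/
structure Ctx (L : Lv) (F : Fib Φ) (G : SimpleGraph (V × Φ)) : Prop where
  hL : L.OK
  hF : F.OK L
  hG : FibG F G

end

/-! ### Joining through cells -/

section
variable {C V : Type}

/-- Joined through the cells in 𝒟. -/
def Jn (g : C → Set V) (𝒟 : Set C) : V → V → Prop :=
  Relation.ReflTransGen fun a b => ∃ c ∈ 𝒟, a ∈ g c ∧ b ∈ g c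

/-- Points of B that are joined through 𝒟 are joined through 𝒟₀. -/
def Conv (g : C → Set V) (𝒟 : Set C) (B : Set V) (𝒟₀ : Set C) : Prop :=
  ∀ a ∈ B, ∀ b ∈ B, Jn g 𝒟 a b → Jn g 𝒟₀ a b

end

end Pool.Agent.Lib.MP_781e3b_co.CN
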