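import Pool.Agent.Lib.MP_781e3b_co.CN.Ground0

/-!
The gadget atom (2.4).
-/

namespace Pool.Agent.Lib.MP_781e3b_co.CN

open Set Function SimpleGraph

variable {V Φ U : Type} [Finite V] [Finite Φ] [Finite U] {L : Lv} {F : Fib Φ}
  {G : SimpleGraph (V × Φ)} {A : Set V} {Γ : SimpleGraph U} {ι : U → V × Φ} {c u : V} {κ : ℝ}

/-- A copy of Γ that is a union of components of G over A and holds all cross edges. -/
structure GAtom (L : Lv) (F : Fib Φ) (G : SimpleGraph (V × Φ)) (A : Set V) (Γ : SimpleGraph U)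
    (ι : U → V × Φ) : Prop where
  ctx : Ctx L F G
  inj : Injective ι
  adj : ∀ a b, Γ.Adj a b ↔ G.Adj (ι a) (ι b)
  cross : ∀ x y, G.Adj x y → x.1 ∈ A → y.1 ∈ A → x.1 ≠ y.1 → x ∈ range ι ∧ y ∈ range ι
  closed : ∀ a w, F.Ψ.Adj (ι a).2 w → ((ι a).1, w) ∈ range ι
  num : Num L Γ (fun a => (ι a).1) univ

namespace GadgetAux

open Classical in
/-- The copy is the part none, the rest of the fibre of v is the part some v. -/
noncomputable def part (ι : U → V × Φ) (x : V × Φ) : Option V :=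
  if x ∈ range ι then none else some x.1

omit [Finite V] [Finite Φ] [Finite U] in
theorem part_none {x : V × Φ} : part ι x = none ↔ x ∈ range ι := by
  unfold part
  by_cases h : x ∈ range ι
  · simp only [h, if_true]
  · simp only [h, if_false, reduceCtorEq]

omit [Finite V] [Finite Φ] [Finite U] in
theorem part_some {x : V × Φ} {v : V} (h : part ι x = some v) : x.1 = v := by
  unfold part at h
  by_cases hx : x ∈ range ι
  · simp only [hx, if_true, reduceCtorEq] at h
  · simpa only [hx, if_false, Option.some.injEq] using h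

omit [Finite V] [Finite Φ] [Finite U] in
theorem mem_of_adj (h : GAtom L F G A Γ ι) {x y : V × Φ} (hxy : G.Adj x y) (e : x.1 = y.1)
    (hx : x ∈ range ι) : y ∈ range ι := by
  obtain ⟨a, rfl⟩ := hx
  obtain ⟨v, w⟩ := y
  have e' : (ι a).1 = v := e
  subst e'
  exact h.closed a w ((h.ctx.hG (ι a).1 (ι a).2 w).1 hxy)

omit [Finite V] [Finite Φ] [Finite U] in
theorem edge_part (h : GAtom L F G A Γ ι) (x : V × Φ) (hx : x ∈ up A) (y : V × Φ) (hy : y ∈ up A)
    (hxy : G.Adj x y) : part ι x = part ι y := by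
  by_cases e : x.1 = y.1
  · by_cases hr : x ∈ range ι
    · rw [part_none.2 hr, part_none.2 (mem_of_adj h hxy e hr)]
    · have hr' : y ∉ range ι := fun hy' => hr (mem_of_adj h hxy.symm e.symm hy')
      unfold part
      rw [if_neg hr, if_neg hr', e]
  · obtain ⟨h1, h2⟩ := h.cross x y hxy hx hy e
    rw [part_none.2 h1, part_none.2 h2]

theorem w1_part (h : GAtom L F G A Γ ι) (i : Option V) : W1 L G (up A ∩ part ι ⁻¹' {i}) := by
  cases i with
  | none =>
    refine (W1.iso (G' := G) (f := ι) h.inj.injOn (fun a _ b _ => h.adj a b) h.num.w1).mono ?_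
    intro x hx
    rw [image_univ]
    exact part_none.1 hx.2
  | some v =>
    refine W1.hom (G' := F.Ψ) (f := Prod.snd) h.ctx.hL ?_ ?_ (h.ctx.hF.w1.mono (subset_univ _))
    · intro x hx y hy e
      exact Prod.ext ((part_some hx.2).trans (part_some hy.2).symm) e
    · rintro ⟨v₁, a⟩ hx ⟨v₂, b⟩ hy hxy
      have e1 : v₁ = v := part_some hx.2
      have e2 : v₂ = v := part_some hy.2
      subst e1 e2
      exact (h.ctx.hG _ a b).1 hxy

theorem D_copy (h : GAtom L F G A Γ ι) (j : ℕ) (Z : Set (V × Φ)) :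
    D L G j (Z ∩ part ι ⁻¹' {none}) = D L Γ j (ι ⁻¹' Z) := by
  have e : Z ∩ part ι ⁻¹' {none} = ι '' (ι ⁻¹' Z) := by
    rw [image_preimage_eq_inter_range]
    ext x
    exact and_congr_right fun _ => part_none
  rw [e]
  exact D_iso h.inj.injOn fun a _ b _ => h.adj a b

theorem rest_nonneg (h : GAtom L F G A Γ ι) {j : ℕ} (hj : j ≤ L.l) {Z : Set (V × Φ)}
    (hZ : Z ⊆ up A) (v : V) : 0 ≤ D L G j (Z ∩ part ι ⁻¹' {some v}) :=
  (w1_part h (some v)).nonneg h.ctx.hL hj (inter_subset_inter_left _ hZ)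

theorem formula [Fintype V] (h : GAtom L F G A Γ ι) {j : ℕ} (hj : j ≤ L.l) {Z : Set (V × Φ)}
    (hZ : Z ⊆ up A) :
    D L G j Z = D L Γ j (ι ⁻¹' Z) + ∑ v, D L G j (Z ∩ part ι ⁻¹' {some v}) := by
  rw [(disjoint_add h.ctx.hL (part ι) (edge_part h) (w1_part h)).2.1 j hj Z hZ,
    Fintype.sum_option, D_copy h]

theorem fibre (h : GAtom L F G A Γ ι) {j : ℕ} (hj : j ≤ L.l) {Z : Set (V × Φ)}
    (hZ : Z ⊆ up A) (v : V) :
    D L G j (Z ∩ Prod.fst ⁻¹' {v}) =
      D L Γ j (ι ⁻¹' Z ∩ (fun a => (ι a).1) ⁻¹' {v}) + D L G j (Z ∩ part ι ⁻¹' {some v}) := by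
  have : Fintype V := Fintype.ofFinite V
  rw [formula h hj (inter_subset_left.trans hZ), Finset.sum_eq_single v]
  · have e : Z ∩ Prod.fst ⁻¹' {v} ∩ part ι ⁻¹' {some v} = Z ∩ part ι ⁻¹' {some v} := by
      ext x
      exact ⟨fun hx => ⟨hx.1.1, hx.2⟩, fun hx => ⟨⟨hx.1, part_some hx.2⟩, hx.2⟩⟩
    rw [e]
    rfl
  · intro w _ hw
    have e : Z ∩ Prod.fst ⁻¹' {v} ∩ part ι ⁻¹' {some w} = ∅ :=
      eq_empty_iff_forall_notMem.2 fun x hx => hw ((part_some hx.2).symm.trans hx.1.2)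
    rw [e, D_empty h.ctx.hL.n3]
  · exact fun hv => absurd (Finset.mem_univ v) hv

/-- A set below 2m lies in one fibre or in the copy. -/
theorem one_part (h : GAtom L F G A Γ ι) {j : ℕ} (hj : j ≤ L.l) {Z : Set (V × Φ)}
    (hZ : Z ⊆ up A) (hD : D L G j Z < 2 * L.m) :
    (∀ a ∈ Z, ∀ b ∈ Z, a.1 = b.1) ∨ (Z ⊆ range ι ∧ D L Γ j (ι ⁻¹' Z) = D L G j Z) := by
  have : Fintype V := Fintype.ofFinite V
  have k := (disjoint_add h.ctx.hL (part ι) (edge_part h) (w1_part h)).2.2 j hj Z hZ hD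
  by_cases hr : Z ⊆ range ι
  · refine Or.inr ⟨hr, ?_⟩
    have e : Z ∩ part ι ⁻¹' {none} = Z := inter_eq_left.2 fun x hx => part_none.2 (hr hx)
    rw [← D_copy h, e]
  · obtain ⟨x, hx, hx'⟩ := not_subset.1 hr
    have e : part ι x = some x.1 := if_neg hx'
    exact Or.inl fun a ha b hb =>
      (part_some ((k a ha x hx).trans e)).trans (part_some ((k b hb x hx).trans e)).symm

end GadgetAux

open GadgetAux

/-- disjoint_add for the partition of up A into the copy (none) and the rests of the fibres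
(some v); D (Z ∩ range ι) = D Γ (ι ⁻¹' Z) by D_iso. The same formula holds for the part of Z
in a fibre. -/
theorem GAtom.good (h : GAtom L F G A Γ ι) : Num L G Prod.fst (up A) := by
  have : Fintype V := Fintype.ofFinite V
  have hL := h.ctx.hL
  refine ⟨(disjoint_add hL (part ι) (edge_part h) (w1_part h)).1, fun v Z hZ => ?_,
    fun v j hj Z hZ hD hn => ?_, fun Z hZ hD a ha b hb => ?_⟩
  · have k1 := h.num.str v (ι ⁻¹' Z) (subset_univ _)
    have k2 := Finset.single_le_sum (f := fun w => D L G L.l (Z ∩ part ι ⁻¹' {some w}))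
      (fun w _ => rest_nonneg h le_rfl hZ w) (Finset.mem_univ v)
    rw [fibre h le_rfl hZ, formula h le_rfl hZ]
    exact add_le_add k1 k2
  · have k := hL.θ_le hj.le
    obtain ⟨x, hx, y, hy, hxy⟩ := hn
    rcases one_part h hj.le hZ (by linarith) with h1 | ⟨h1, h2⟩
    · exact fun z hz => (h1 z hz x hx.1).trans hx.2
    · obtain ⟨a, rfl⟩ := h1 hx.1
      obtain ⟨b, rfl⟩ := h1 hy.1
      have k2 := h.num.fs v j hj (ι ⁻¹' Z) (subset_univ _) (h2.trans_le hD)
        ⟨a, hx, b, hy, fun e => hxy (congrArg ι e)⟩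
      intro z hz
      obtain ⟨d, rfl⟩ := h1 hz
      exact k2 hz
  · have k := hL.m1
    rcases one_part h le_rfl hZ (by linarith) with h1 | ⟨h1, h2⟩
    · exact h1 a ha b hb
    · obtain ⟨a', rfl⟩ := h1 ha
      obtain ⟨b', rfl⟩ := h1 hb
      exact h.num.t (ι ⁻¹' Z) (subset_univ _) (h2.trans_le hD) a' ha b' hb

theorem GAtom.pos (h : GAtom L F G A Γ ι) (hne : c ≠ u)
    (p : PosB L Γ (fun a => (ι a).1) univ c u κ) : PosB L G Prod.fst (up A) c u κ := by
  have : Fintype V := Fintype.ofFinite V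
  intro Z hZ
  obtain ⟨p1, p2⟩ := p (ι ⁻¹' Z) (subset_univ _)
  have k := Finset.add_le_sum (s := Finset.univ)
    (f := fun w => D L G L.l (Z ∩ part ι ⁻¹' {some w}))
    (fun w _ => rest_nonneg h le_rfl hZ w) (Finset.mem_univ c) (Finset.mem_univ u) hne
  have k0 := rest_nonneg h le_rfl hZ c
  rw [fibre h le_rfl hZ c, fibre h le_rfl hZ u, formula h le_rfl hZ]
  refine ⟨by linarith, fun hlt => ?_⟩
  have := p2 (by linarith)
  linarith

end Pool.Agent.Lib.MP_781e3b_co.CN
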