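import Pool.Agent.Lib.MP_781e3b_co.CN.Basic2

/-!
Gluing along a strong and separated part (2.1).
-/

namespace Pool.Agent.Lib.MP_781e3b_co.CN

open Set Function SimpleGraph

variable {Ω : Type} [Finite Ω] {L : Lv} {G : SimpleGraph Ω} {Z T S S₁ S₂ R : Set Ω} {j : ℕ}

omit [Finite Ω] in
theorem Cut.symm (h : Cut G S S₁ S₂) : Cut G S S₂ S₁ :=
  ⟨union_comm S₁ S₂ ▸ h.1, fun x hx y hy hxy => (h.2 x hx y hy hxy).symm⟩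

/-- D_cost. -/
theorem Str.level (h : Str L G S R) (hL : L.OK) (hj : j ≤ L.l) (hZ : Z ⊆ S) :
    D L G j (Z ∩ R) ≤ D L G j Z := by
  have h1 := D_cost (L := L) (G := G) (Z := Z) (Z' := Z ∩ R) (hL.P le_rfl) hj inter_subset_left
  have h2 := h Z hZ
  linarith

theorem str_of_sub (hL : L.OK) (h : W1 L G S) (hs : (S ∩ R).Subsingleton) : Str L G S R := by
  intro Z hZ
  have h0 : (Z ∩ R).Subsingleton := hs.anti (inter_subset_inter_left R hZ)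
  rcases h0.eq_empty_or_singleton with he | ⟨a, ha⟩
  · rw [he, D_empty hL.n3]
    exact h.nonneg hL le_rfl hZ
  · have haZ : a ∈ Z ∩ R := ha ▸ mem_singleton a
    rw [ha, D_singleton hL.n3]
    exact h.m_le hL le_rfl hZ ⟨a, haZ.1⟩

omit [Finite Ω] in
theorem sepa_of_sub (hs : (S ∩ R).Subsingleton) : Sepa L G S R := by
  intro j _ Z hZ _ _ hn
  exact absurd (hs.anti (inter_subset_inter_left R hZ)) hn.not_subsingleton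

structure Glued (L : Lv) (G : SimpleGraph Ω) (S S₁ S₂ : Set Ω) : Prop where
  add : ∀ j ≤ L.l, ∀ Z ⊆ S,
    D L G j Z = D L G j (Z ∩ S₁) + D L G j (Z ∩ S₂) - D L G j (Z ∩ S₁ ∩ S₂)
  w1 : W1 L G S
  str : Str L G S S₁
  sepa : Sepa L G S S₁
  cross : ∀ j < L.l, ∀ Z ⊆ S, D L G j Z ≤ L.θ j → ¬ Z ⊆ S₁ → ¬ Z ⊆ S₂ → (Z ∩ S₁ ∩ S₂).Nontrivial

namespace Glue0Aux

/-- The formula on level j. -/
def Fm (L : Lv) (G : SimpleGraph Ω) (S S₁ S₂ : Set Ω) (j : ℕ) : Prop :=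
  ∀ Z ⊆ S, D L G j Z = D L G j (Z ∩ S₁) + D L G j (Z ∩ S₂) - D L G j (Z ∩ S₁ ∩ S₂)

omit [Finite Ω] in
theorem Fm.symm (h : Fm L G S S₁ S₂ j) : Fm L G S S₂ S₁ j := fun Z hZ => by
  rw [h Z hZ, inter_right_comm Z S₂ S₁]; ring

theorem fm (hc : Cut G S S₁ S₂) (ht : ∀ i < j, ∀ T ⊆ S, Top L G i T → T ⊆ S₁ ∨ T ⊆ S₂) :
    Fm L G S S₁ S₂ j := by
  intro Z hZ
  have h := D_flower (L := L) (G := G) (Z := Z) (j := j) (I := Unit) S₁ (fun _ => S₂)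
    (fun x hx => (hc.1 (hZ hx)).imp id fun h => mem_iUnion.2 ⟨(), h⟩)
    (fun i i' h => (h rfl).elim)
    (fun a ha b hb hab => (hc.2 a (hZ ha) b (hZ hb) hab).imp id fun h => ⟨(), h⟩)
    (fun i hi T hT h => (ht i hi T (hT.trans hZ) h).imp id fun h => ⟨(), h⟩)
  rw [h, Fintype.sum_unique, inter_right_comm Z S₂ S₁]; ring

theorem le1 (hL : L.OK) (hj : j ≤ L.l) (hf : Fm L G S S₁ S₂ j) (s₂ : Str L G (S ∩ S₂) S₁)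
    (hZ : Z ⊆ S) : D L G j (Z ∩ S₁) ≤ D L G j Z := by
  have h := s₂.level hL hj (Z := Z ∩ S₂) (inter_subset_inter_left S₂ hZ)
  rw [inter_right_comm Z S₂ S₁] at h
  rw [hf Z hZ]; linarith

omit [Finite Ω] in
theorem side (hc : Cut G S S₁ S₂) (hZ : Z ⊆ S) (h : ¬ Z ⊆ S₂) : ∃ y ∈ Z ∩ S₁, y ∉ S₂ := by
  obtain ⟨y, hy, hy2⟩ := not_subset.1 h
  exact ⟨y, ⟨hy, (hc.1 (hZ hy)).resolve_right hy2⟩, hy2⟩

theorem apart (hL : L.OK) (hj : j ≤ L.l) (hc : Cut G S S₁ S₂) (hf : Fm L G S S₁ S₂ j)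
    (w₁ : W1 L G (S ∩ S₁)) (w₂ : W1 L G (S ∩ S₂)) (hZ : Z ⊆ S) (h₁ : ¬ Z ⊆ S₁) (h₂ : ¬ Z ⊆ S₂)
    (he : Z ∩ S₁ ∩ S₂ = ∅) : 2 * L.m ≤ D L G j Z := by
  obtain ⟨y, hy, -⟩ := side hc hZ h₂
  obtain ⟨x, hx, -⟩ := side hc.symm hZ h₁
  have a1 := w₁.m_le hL hj (inter_subset_inter_left S₁ hZ) ⟨y, hy⟩
  have a2 := w₂.m_le hL hj (inter_subset_inter_left S₂ hZ) ⟨x, hx⟩
  rw [hf Z hZ, he, D_empty hL.n3]; linarith

theorem cross (hL : L.OK) (hj : j < L.l) (hc : Cut G S S₁ S₂) (hf : Fm L G S S₁ S₂ j)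
    (w₁ : W1 L G (S ∩ S₁)) (w₂ : W1 L G (S ∩ S₂)) (hZ : Z ⊆ S) (ht : D L G j Z ≤ L.θ j)
    (h₁ : ¬ Z ⊆ S₁) (h₂ : ¬ Z ⊆ S₂) : (Z ∩ S₁ ∩ S₂).Nontrivial := by
  by_contra hn
  rcases (not_nontrivial_iff.1 hn).eq_empty_or_singleton with he | ⟨a, ha⟩
  · have h1 := apart hL hj.le hc hf w₁ w₂ hZ h₁ h₂ he
    have h2 := hL.θ_le hj.le
    linarith
  · have haZ : a ∈ Z ∩ S₁ ∩ S₂ := ha ▸ mem_singleton a
    obtain ⟨y, hy, hy2⟩ := side hc hZ h₂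
    obtain ⟨x, hx, hx1⟩ := side hc.symm hZ h₁
    have a1 := w₁.ge j hj.le _ (inter_subset_inter_left S₁ hZ)
      ⟨y, hy, a, haZ.1, fun e => hy2 (e ▸ haZ.2)⟩
    have a2 := w₂.ge j hj.le _ (inter_subset_inter_left S₂ hZ)
      ⟨x, hx, a, ⟨haZ.1.1, haZ.2⟩, fun e => hx1 (e ▸ haZ.1.2)⟩
    have h3 := hL.m_lt hj
    rw [hf Z hZ, ha, D_singleton hL.n3] at ht
    linarith

theorem ge (hL : L.OK) (hj : j ≤ L.l) (hc : Cut G S S₁ S₂) (hf : Fm L G S S₁ S₂ j)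
    (w₁ : W1 L G (S ∩ S₁)) (w₂ : W1 L G (S ∩ S₂)) (s₂ : Str L G (S ∩ S₂) S₁) (hZ : Z ⊆ S)
    (hn : Z.Nontrivial) : L.θ j ≤ D L G j Z := by
  by_cases h₁ : Z ⊆ S₁
  · exact w₁.ge j hj Z (subset_inter hZ h₁) hn
  by_cases h₂ : Z ⊆ S₂
  · exact w₂.ge j hj Z (subset_inter hZ h₂) hn
  rcases (Z ∩ S₁ ∩ S₂).eq_empty_or_nonempty with he | ⟨a, ha⟩
  · have h1 := apart hL hj hc hf w₁ w₂ hZ h₁ h₂ he
    have h2 := hL.θ_le hj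
    linarith
  · obtain ⟨y, hy, hy2⟩ := side hc hZ h₂
    exact (w₁.ge j hj _ (inter_subset_inter_left S₁ hZ)
      ⟨y, hy, a, ha.1, fun e => hy2 (e ▸ ha.2)⟩).trans (le1 hL hj hf s₂ hZ)

theorem small (hL : L.OK) (hc : Cut G S S₁ S₂) (w₁ : W1 L G (S ∩ S₁)) (w₂ : W1 L G (S ∩ S₂))
    (s₂ : Str L G (S ∩ S₂) S₁) (hZ : Z ⊆ S) (hn : Z.ncard ≤ L.n) (h₁ : ¬ Z ⊆ S₁)
    (h₂ : ¬ Z ⊆ S₂) : L.θ 0 < D L G 0 Z := by
  have hf : Fm L G S S₁ S₂ 0 := fm hc fun i hi => absurd hi (Nat.not_lt_zero i)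
  by_contra ht
  have h0 := cross hL hL.l1 hc hf w₁ w₂ hZ (not_lt.1 ht) h₁ h₂
  obtain ⟨y, hy, hy2⟩ := side hc hZ h₂
  have c1 : 1 < (Z ∩ S₁ ∩ S₂).ncard := (one_lt_ncard_iff_nontrivial).2 h0
  have c2 : (Z ∩ S₁ ∩ S₂).ncard < (Z ∩ S₁).ncard :=
    ncard_lt_ncard ⟨inter_subset_left, fun h => hy2 (h hy).2⟩
  have c3 : (Z ∩ S₁).ncard < Z.ncard :=
    ncard_lt_ncard ⟨inter_subset_left, fun h => h₁ fun x hx => (h hx).2⟩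
  have h4 := w₁.small _ (inter_subset_inter_left S₁ hZ) (by omega) (by omega)
  exact ht (h4.trans_le (le1 hL (Nat.zero_le _) hf s₂ hZ))

theorem one (hL : L.OK) (hj : j < L.l) (hf : Fm L G S S₁ S₂ j) (s₂ : Str L G (S ∩ S₂) S₁)
    (p₁ : Sepa L G (S ∩ S₁) S₂) (hZ : Z ⊆ S) (ht : D L G j Z ≤ L.θ j) {K : Set Ω} (hK : K ⊆ Z)
    (hk : Mk L G K) (hK₁ : K ⊆ S₁) (h0 : (Z ∩ S₁ ∩ S₂).Nontrivial) : Z ∩ S₁ ⊆ S₂ :=
  p₁ j hj _ (inter_subset_inter_left S₁ hZ) ((le1 hL hj.le hf s₂ hZ).trans ht)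
    ⟨K, subset_inter hK hK₁, hk⟩ h0

theorem marked (hL : L.OK) (hj : j < L.l) (hc : Cut G S S₁ S₂) (hf : Fm L G S S₁ S₂ j)
    (w₁ : W1 L G (S ∩ S₁)) (w₂ : W1 L G (S ∩ S₂))
    (s₁ : Str L G (S ∩ S₁) S₂) (s₂ : Str L G (S ∩ S₂) S₁) (p₁ : Sepa L G (S ∩ S₁) S₂)
    (p₂ : Sepa L G (S ∩ S₂) S₁) (hZ : Z ⊆ S) (ht : D L G j Z ≤ L.θ j) (hm : Mark L G Z) :
    Z ⊆ S₁ ∨ Z ⊆ S₂ := by
  by_contra hn
  obtain ⟨h₁, h₂⟩ := not_or.1 hn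
  have h0 := cross hL hj hc hf w₁ w₂ hZ ht h₁ h₂
  obtain ⟨K, hK, hk⟩ := hm
  obtain ⟨y, hy, hy2⟩ := side hc hZ h₂
  obtain ⟨x, hx, hx1⟩ := side hc.symm hZ h₁
  by_cases k₁ : K ⊆ S₁
  · exact hy2 (one hL hj hf s₂ p₁ hZ ht hK hk k₁ h0 hy)
  by_cases k₂ : K ⊆ S₂
  · exact hx1 (one hL hj hf.symm s₁ p₂ hZ ht hK hk k₂ (inter_right_comm Z S₁ S₂ ▸ h0) hx)
  exact absurd (small hL hc w₁ w₂ s₂ (hK.trans hZ) hk.1.le k₁ k₂) (not_lt.2 hk.2)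

end Glue0Aux

/-- Induction on j: if the tops of the levels below j lie in S₁ or S₂, D_flower with
I = Unit gives the formula on level j. With Str.level it gives D j (Z ∩ Sᵢ) ≤ D j Z.
A crossing tight Z (j < l) has two points in S₁ ∩ S₂: else D ≥ m + m or θ + θ - m, both
above θ. A crossing K with Mk would give a tight K ∩ S₁ with 3 ≤ card < n, against
W1.small. So the marked part of a marked tight Z lies in one side Sᵢ, Z ∩ Sᵢ is marked and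
tight, and Sepa puts it in the other side: Z lies in S₁ or in S₂. -/
theorem glue_core (hL : L.OK) (hc : Cut G S S₁ S₂) (w₁ : W1 L G (S ∩ S₁)) (w₂ : W1 L G (S ∩ S₂))
    (s₁ : Str L G (S ∩ S₁) S₂) (s₂ : Str L G (S ∩ S₂) S₁) (p₁ : Sepa L G (S ∩ S₁) S₂)
    (p₂ : Sepa L G (S ∩ S₂) S₁) : Glued L G S S₁ S₂ := by
  have key : ∀ j ≤ L.l, ∀ i < j, ∀ T ⊆ S, Top L G i T → T ⊆ S₁ ∨ T ⊆ S₂ := by
    intro j
    induction j with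
    | zero => exact fun _ i hi => absurd hi (Nat.not_lt_zero i)
    | succ j ih =>
      intro hj i hi T hT h
      rcases Nat.lt_succ_iff_lt_or_eq.1 hi with hi | rfl
      · exact ih (Nat.le_of_succ_le hj) i hi T hT h
      · exact Glue0Aux.marked hL hj hc (Glue0Aux.fm hc (ih (Nat.le_of_succ_le hj))) w₁ w₂ s₁ s₂
          p₁ p₂ hT h.2.1 h.2.2
  have hf : ∀ j ≤ L.l, Glue0Aux.Fm L G S S₁ S₂ j := fun j hj => Glue0Aux.fm hc (key j hj)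
  refine ⟨hf, ⟨fun j hj Z hZ hn => Glue0Aux.ge hL hj hc (hf j hj) w₁ w₂ s₂ hZ hn,
    fun Z hZ h3 hn => ?_⟩, fun Z hZ => Glue0Aux.le1 hL le_rfl (hf _ le_rfl) s₂ hZ,
    fun j hj Z hZ ht hm hn => ?_,
    fun j hj Z hZ ht h₁ h₂ => Glue0Aux.cross hL hj hc (hf j hj.le) w₁ w₂ hZ ht h₁ h₂⟩
  · by_cases h₁ : Z ⊆ S₁
    · exact w₁.small Z (subset_inter hZ h₁) h3 hn
    by_cases h₂ : Z ⊆ S₂
    · exact w₂.small Z (subset_inter hZ h₂) h3 hn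
    exact Glue0Aux.small hL hc w₁ w₂ s₂ hZ hn.le h₁ h₂
  · rcases Glue0Aux.marked hL hj hc (hf j hj.le) w₁ w₂ s₁ s₂ p₁ p₂ hZ ht hm with h₁ | h₂
    · exact h₁
    · exact p₂ j hj Z (subset_inter hZ h₂) ht hm hn

theorem glue_one (hL : L.OK) (hc : Cut G S S₁ S₂) (hs : (S ∩ S₁ ∩ S₂).Subsingleton)
    (w₁ : W1 L G (S ∩ S₁)) (w₂ : W1 L G (S ∩ S₂)) : Glued L G S S₁ S₂ :=
  glue_core hL hc w₁ w₂ (str_of_sub hL w₁ hs) (str_of_sub hL w₂ (inter_right_comm S S₁ S₂ ▸ hs))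
    (sepa_of_sub hs) (sepa_of_sub (inter_right_comm S S₁ S₂ ▸ hs))

end Pool.Agent.Lib.MP_781e3b_co.CN
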