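import Pool.Agent.Lib.MP_781e3b_co.CN.Glue

/-!
The calculus on ground sets: easy rules (2.2).
-/

namespace Pool.Agent.Lib.MP_781e3b_co.CN

open Set Function SimpleGraph

section
variable {Ω V : Type} [Finite Ω] {L : Lv} {G : SimpleGraph Ω} {gr : Ω → V} {S S' : Set Ω}
  {c u u' : V} {κ κ' : ℝ}

omit [Finite Ω] in
theorem Num.mono (h : Num L G gr S) (hS : S' ⊆ S) : Num L G gr S' := by
  exact ⟨⟨fun j hj Z hZ => h.w1.ge j hj Z (hZ.trans hS), fun Z hZ => h.w1.small Z (hZ.trans hS)⟩,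
    fun v Z hZ => h.str v Z (hZ.trans hS), fun v j hj Z hZ => h.fs v j hj Z (hZ.trans hS),
    fun Z hZ => h.t Z (hZ.trans hS)⟩

omit [Finite Ω] in
theorem PosB.mono (h : PosB L G gr S c u κ) (hS : S' ⊆ S) : PosB L G gr S' c u κ := by
  exact fun Z hZ => h Z (hZ.trans hS)

omit [Finite Ω] in
theorem PosB.le (h : PosB L G gr S c u κ) (hκ : κ ≤ κ') : PosB L G gr S c u κ' := by
  exact fun Z hZ => ⟨(h Z hZ).1, fun hh => by linarith [(h Z hZ).2 hh]⟩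

omit [Finite Ω] in
theorem PosN.mono (h : PosN L G gr S u u' κ) (hS : S' ⊆ S) : PosN L G gr S' u u' κ := by
  exact ⟨fun Z hZ => h.ge Z (hZ.trans hS), fun j hj Z hZ => h.nt j hj Z (hZ.trans hS)⟩

omit [Finite Ω] in
theorem PosN.le (h : PosN L G gr S u u' κ) (hκ : κ ≤ κ') : PosN L G gr S u u' κ' := by
  exact ⟨fun Z hZ => by linarith [h.ge Z hZ], h.nt⟩

omit [Finite Ω] in
theorem PosN.symm (h : PosN L G gr S u u' κ) : PosN L G gr S u' u κ := by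
  exact ⟨fun Z hZ => by linarith [h.ge Z hZ], fun j hj Z hZ ht h1 h2 => h.nt j hj Z hZ ht h2 h1⟩

/-- An edge is a tight pair on level 0 (D_pair). -/
theorem PosN.noedge (hL : L.OK) (h : PosN L G gr S u u' κ) {x y : Ω} (hx : x ∈ S) (hy : y ∈ S)
    (h1 : gr x = u) (h2 : gr y = u') : ¬ G.Adj x y := by
  intro hxy
  exact h.nt 0 hL.l1 {x, y} (pair_subset hx hy) (D_pair hL.n3 hxy).le ⟨x, by simp, h1⟩
    ⟨y, by simp, h2⟩

end

variable {V Φ : Type} [Finite V] [Finite Φ] {L : Lv} {F : Fib Φ} {G : SimpleGraph (V × Φ)}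
  {A A' B B' C : Set V} {c u u' : V} {κ κ' : ℝ}

omit [Finite V] [Finite Φ] in
theorem E1.mono (h : E1 F G A B) (hA : A' ⊆ A) : E1 F G A' B := by
  exact fun 𝒮 q h1 => h 𝒮 q fun s hs => ⟨hA (h1 s hs).1, (h1 s hs).2⟩

omit [Finite V] [Finite Φ] in
theorem E1.congr (h : E1 F G A B) (hB : A ∩ B = A ∩ B') : E1 F G A B' := by
  rintro 𝒮 q h1 ⟨s, hs, hn⟩
  obtain ⟨t, ht, htn, hf⟩ := h 𝒮 q h1
    ⟨s, hs, fun hb => hn (hB.subset ⟨(h1 s hs).1, hb⟩).2⟩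
  exact ⟨t, ht, fun hb => htn (hB.symm.subset ⟨(h1 t ht).1, hb⟩).2, hf⟩

omit [Finite V] [Finite Φ] in
theorem E1.trans (h : E1 F G A B) (h' : E1 F G (A ∩ B) C) (hC : A ∩ C ⊆ B) : E1 F G A C := by
  intro 𝒮 q h1 h2
  by_cases h3 : ∃ s ∈ 𝒮, s.1 ∉ B
  · obtain ⟨t, ht, htn, hf⟩ := h 𝒮 q h1 h3
    exact ⟨t, ht, fun hc => htn (hC ⟨(h1 t ht).1, hc⟩), hf⟩
  · refine h' 𝒮 q (fun s hs => ⟨⟨(h1 s hs).1, ?_⟩, (h1 s hs).2⟩) h2
    by_contra hb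
    exact h3 ⟨s, hs, hb⟩

omit [Finite V] [Finite Φ] in
/-- Any option is free if all members lie in one fibre (Fib.OK.sep). -/
theorem free_of_fibre (h : Ctx L F G) {𝒮 : Set (V × F.Mem)} {s : V × F.Mem}
    (hs : ∀ s' ∈ 𝒮, s'.1 = s.1) : Free F G 𝒮 s := by
  obtain ⟨w₀⟩ := h.hF.ne
  obtain ⟨a, b, hab, -, -⟩ := h.hF.two s.2 w₀
  refine ⟨a, b, hab, fun s' hs' hne w hw => ?_⟩
  have h1 := hs s' hs'
  have h2 : s.2 ≠ s'.2 := fun h2 => hne (Prod.ext h1 h2.symm)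
  rw [h1, h.hG, h.hG]
  exact ⟨h.hF.sep _ _ h2 a (h.hF.sub _ _ _ hab).1 w hw,
    h.hF.sep _ _ h2 b (h.hF.sub _ _ _ hab).2 w hw⟩

omit [Finite V] [Finite Φ] in
theorem Good.mono (h : Good L F G A) (hA : A' ⊆ A) : Good L F G A' := by
  exact ⟨h.num.mono (preimage_mono hA), fun v => (h.e v).mono hA⟩

omit [Finite V] [Finite Φ] in
theorem Root.mono (h : Root L F G A B) (hA : A' ⊆ A) : Root L F G A' B := by
  exact ⟨fun Z hZ => h.str Z (hZ.trans (preimage_mono hA)),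
    fun j hj Z hZ => h.sepa j hj Z (hZ.trans (preimage_mono hA)), h.e.mono hA⟩

omit [Finite V] [Finite Φ] in
theorem Root.congr (h : Root L F G A B) (hB : A ∩ B = A ∩ B') : Root L F G A B' := by
  have key : ∀ Z : Set (V × Φ), Z ⊆ up A → Z ∩ up B' = Z ∩ up B := fun Z hZ =>
    Set.ext fun x => ⟨fun hx => ⟨hx.1, (hB.symm.subset ⟨hZ hx.1, hx.2⟩).2⟩,
      fun hx => ⟨hx.1, (hB.subset ⟨hZ hx.1, hx.2⟩).2⟩⟩
  refine ⟨fun Z hZ => ?_, fun j hj Z hZ ht hm hn x hx => ?_, h.e.congr hB⟩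
  · rw [key Z hZ]
    exact h.str Z hZ
  · rw [key Z hZ] at hn
    exact (hB.subset ⟨hZ hx, h.sepa j hj Z hZ ht hm hn hx⟩).2

omit [Finite V] [Finite Φ] in
theorem Root.refl (h : A ⊆ B) : Root L F G A B := by
  refine ⟨fun Z hZ => ?_, fun j _ Z hZ _ _ _ => hZ.trans (preimage_mono h), ?_⟩
  · rw [inter_eq_left.2 (hZ.trans (preimage_mono h))]
  · rintro 𝒮 q h1 ⟨s, hs, hn⟩
    exact absurd (h (h1 s hs).1) hn

omit [Finite V] [Finite Φ] in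
theorem Root.trans (h : Root L F G A B) (h' : Root L F G (A ∩ B) C) (hC : A ∩ C ⊆ B) :
    Root L F G A C := by
  refine ⟨fun Z hZ => ?_, fun j hj Z hZ ht hm hn => ?_, h.e.trans h'.e hC⟩
  · have h1 : Z ∩ up C = Z ∩ up B ∩ up C :=
      Set.ext fun x => ⟨fun hx => ⟨⟨hx.1, hC ⟨hZ hx.1, hx.2⟩⟩, hx.2⟩, fun hx => ⟨hx.1.1, hx.2⟩⟩
    rw [h1]
    exact (h'.str (Z ∩ up B) fun x hx => ⟨hZ hx.1, hx.2⟩).trans (h.str Z hZ)
  · have h1 : Z ⊆ up B :=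
      h.sepa j hj Z hZ ht hm (hn.mono fun x hx => ⟨hx.1, hC ⟨hZ hx.1, hx.2⟩⟩)
    exact h'.sepa j hj Z (fun x hx => ⟨hZ hx, h1 hx⟩) ht hm hn

/-- A ∩ B is empty or a point. -/
theorem Good.root (h : Good L F G A) (hc : Ctx L F G) (hs : (A ∩ B).Subsingleton) :
    Root L F G A B := by
  rcases hs.eq_empty_or_singleton with he | ⟨v, hv⟩
  · have h0 : (up A ∩ up B : Set (V × Φ)).Subsingleton := fun x hx =>
      absurd (he.subset ⟨hx.1, hx.2⟩) (notMem_empty _)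
    refine ⟨str_of_sub hc.hL h.num.w1 h0, sepa_of_sub h0, ?_⟩
    rintro 𝒮 q h1 ⟨s, hs, hn⟩
    by_cases h2 : ∃ t ∈ 𝒮, t.1 ∉ ({s.1} : Set V)
    · obtain ⟨t, ht, -, hf⟩ := h.e s.1 𝒮 q h1 h2
      exact ⟨t, ht, fun hb => notMem_empty _ (he.subset ⟨(h1 t ht).1, hb⟩), hf⟩
    · refine ⟨s, hs, hn, free_of_fibre hc fun t ht => ?_⟩
      by_contra h3
      exact h2 ⟨t, ht, h3⟩
  · have h1 : Root L F G A {v} :=
      ⟨h.num.str v, fun j hj Z hZ ht _ hn => h.num.fs v j hj Z hZ ht hn, h.e v⟩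
    refine h1.congr ?_
    rw [hv, inter_eq_right]
    exact hv.symm.subset.trans inter_subset_left

/-- W1.hom along Prod.snd. -/
theorem good_fibre (hc : Ctx L F G) (hA : A.Subsingleton) : Good L F G A := by
  have hw : W1 L G (up A) := by
    refine W1.hom (f := Prod.snd) (G' := F.Ψ) hc.hL (fun x hx y hy hxy => Prod.ext (hA hx hy) hxy)
      ?_ (hc.hF.w1.mono (subset_univ _))
    rintro ⟨v, a⟩ hx ⟨w, b⟩ hy hxy
    obtain rfl : v = w := hA hx hy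
    exact (hc.hG v a b).1 hxy
  refine ⟨⟨hw, fun v Z hZ => ?_, fun v j _ Z hZ _ hn x hx => ?_,
    fun Z hZ _ a ha b hb => hA (hZ ha) (hZ hb)⟩, fun v => ?_⟩
  · rcases (Z ∩ Prod.fst ⁻¹' {v}).eq_empty_or_nonempty with he | ⟨y, hy⟩
    · rw [he, D_empty hc.hL.n3]
      exact hw.nonneg hc.hL le_rfl hZ
    · have h1 : Z ⊆ Prod.fst ⁻¹' {v} := fun x hx => (hA (hZ hx) (hZ hy.1)).trans hy.2
      rw [inter_eq_left.2 h1]
  · obtain ⟨y, hy⟩ := hn.nonempty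
    exact (hA (hZ hx) (hZ hy.1)).trans hy.2
  · rintro 𝒮 q h1 ⟨s, hs, hn⟩
    exact ⟨s, hs, hn, free_of_fibre hc fun t ht => hA (h1 t ht).1 (h1 s hs).1⟩

omit [Finite V] [Finite Φ] in
theorem PosR.mono (h : PosR L F G A u u' κ) (hA : A' ⊆ A) : PosR L F G A' u u' κ := by
  exact ⟨h.num.mono (preimage_mono hA), h.e.mono hA⟩

omit [Finite V] [Finite Φ] in
theorem PosR.le (h : PosR L F G A u u' κ) (hκ : κ ≤ κ') : PosR L F G A u u' κ' := by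
  exact ⟨h.num.le hκ, h.e⟩

omit [Finite V] [Finite Φ] in
theorem PosR.symm (h : PosR L F G A u u' κ) : PosR L F G A u' u κ := by
  exact ⟨h.num.symm, h.e.congr (by rw [pair_comm])⟩

omit [Finite V] [Finite Φ] in
theorem PosB.raise (hr : Root L F G A B) (hc : c ∈ B) (hu : u ∈ B)
    (h : PosB L G Prod.fst (up (A ∩ B)) c u κ) : PosB L G Prod.fst (up A) c u κ := by
  intro Z hZ
  have key : ∀ v ∈ B, Z ∩ up B ∩ Prod.fst ⁻¹' {v} = Z ∩ Prod.fst ⁻¹' {v} := fun v hv =>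
    Set.ext fun x => ⟨fun hx => ⟨hx.1.1, hx.2⟩,
      fun hx => ⟨⟨hx.1, mem_of_eq_of_mem (x := x.1) hx.2 hv⟩, hx.2⟩⟩
  have h1 := h (Z ∩ up B) fun x hx => ⟨hZ hx.1, hx.2⟩
  have h2 := hr.str Z hZ
  rw [key c hc, key u hu] at h1
  exact ⟨h1.1.trans h2, fun hh => (h1.2 hh).trans h2⟩

/-- Str.level for the part nt. -/
theorem PosR.raise (hL : L.OK) (hr : Root L F G A B) (hu : u ∈ B) (hu' : u' ∈ B)
    (h : PosR L F G (A ∩ B) u u' κ) : PosR L F G A u u' κ := by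
  have key : ∀ Z : Set (V × Φ), ∀ v ∈ B,
      Z ∩ up B ∩ Prod.fst ⁻¹' {v} = Z ∩ Prod.fst ⁻¹' {v} := fun Z v hv =>
    Set.ext fun x => ⟨fun hx => ⟨hx.1.1, hx.2⟩,
      fun hx => ⟨⟨hx.1, mem_of_eq_of_mem (x := x.1) hx.2 hv⟩, hx.2⟩⟩
  refine ⟨⟨fun Z hZ => ?_, fun j hj Z hZ ht h1 h2 => ?_⟩,
    hr.e.trans h.e (inter_subset_right.trans (pair_subset hu hu'))⟩
  · have h1 := h.num.ge (Z ∩ up B) fun x hx => ⟨hZ hx.1, hx.2⟩
    rw [key Z u hu, key Z u' hu'] at h1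
    exact h1.trans (hr.str Z hZ)
  · refine h.num.nt j hj (Z ∩ up B) (fun x hx => ⟨hZ hx.1, hx.2⟩)
      ((hr.str.level hL hj.le hZ).trans ht) ?_ ?_
    · rwa [key Z u hu]
    · rwa [key Z u' hu']

end Pool.Agent.Lib.MP_781e3b_co.CN
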