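import Pool.Agent.Lib.MP_781e3b_co.CN.Ground0

/-!
Gluing of ground sets (2.2) and the split lemma (2.5).
-/

namespace Pool.Agent.Lib.MP_781e3b_co.CN

open Set Function SimpleGraph

variable {V Φ : Type} [Finite V] [Finite Φ] {L : Lv} {F : Fib Φ} {G : SimpleGraph (V × Φ)}
  {A A₁ A₂ B : Set V} {s u u' : V} {κ : ℝ}

omit [Finite V] [Finite Φ] in
theorem Spl.symm (h : Spl G A A₁ A₂) : Spl G A A₂ A₁ :=
  ⟨union_comm A₁ A₂ ▸ h.1, fun x y a hx hy hn => (h.2 x y a hx hy hn).symm⟩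

omit [Finite V] [Finite Φ] in
theorem Spl.cut (h : Spl G A A₁ A₂) : Cut G (up A) (up A₁) (up A₂) := by
  refine ⟨fun x hx => h.1 hx, fun x hx y hy a => ?_⟩
  by_cases e : x.1 = y.1
  · exact (h.1 hx).imp (fun h => ⟨h, show y.1 ∈ A₁ from e ▸ h⟩)
      fun h => ⟨h, show y.1 ∈ A₂ from e ▸ h⟩
  · exact h.2 x y a hx hy e

namespace Ground1Aux

theorem glued (hc : Ctx L F G) (hs : Spl G A A₁ A₂) (g₁ : Good L F G (A ∩ A₁))
    (g₂ : Good L F G (A ∩ A₂)) (r₁ : Root L F G (A ∩ A₁) A₂) (r₂ : Root L F G (A ∩ A₂) A₁) :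
    Glued L G (up A) (up A₁) (up A₂) :=
  glue_core hc.hL hs.cut g₁.num.w1 g₂.num.w1 r₁.str r₂.str r₁.sepa r₂.sepa

omit [Finite V] [Finite Φ] in
theorem e1 (hs : Spl G A A₁ A₂) (r₂ : E1 F G (A ∩ A₂) A₁) : E1 F G A A₁ := by
  rintro 𝒮 q h ⟨s, hs1, hs2⟩
  obtain ⟨t, ⟨ht, ht2⟩, ht1, a, b, hab, hf⟩ := r₂ {s ∈ 𝒮 | s.1 ∈ A₂} q
    (fun s hs => ⟨⟨(h s hs.1).1, hs.2⟩, (h s hs.1).2⟩)
    ⟨s, ⟨hs1, (hs.1 (h s hs1).1).resolve_left hs2⟩, hs2⟩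
  refine ⟨t, ht, ht1, a, b, hab, fun s' hs' hne w hw => ?_⟩
  by_cases h2 : s'.1 ∈ A₂
  · exact hf s' ⟨hs', h2⟩ hne w hw
  · have key : ∀ x, ¬ G.Adj (t.1, x) (s'.1, w) := fun x hx =>
      (hs.2 _ _ hx (h t ht).1 (h s' hs').1 fun e => h2 (show s'.1 ∈ A₂ from
        (show t.1 = s'.1 from e) ▸ ht2)).elim (fun k => ht1 k.1) fun k => h2 k.2
    exact ⟨key a, key b⟩

omit [Finite V] [Finite Φ] in
theorem in_eq {Z : Set (V × Φ)} (hu : u ∈ A₁) :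
    Z ∩ up A₁ ∩ Prod.fst ⁻¹' {u} = Z ∩ Prod.fst ⁻¹' {u} :=
  Subset.antisymm (fun _ h => ⟨h.1.1, h.2⟩) fun x h =>
    ⟨⟨h.1, show x.1 ∈ A₁ from (show x.1 = u from h.2) ▸ hu⟩, h.2⟩

omit [Finite V] [Finite Φ] in
theorem out_eq {Z : Set (V × Φ)} (hs : Spl G A A₁ A₂) (hZ : Z ⊆ up A) (hu : u ∉ A₂) :
    Z ∩ up A₁ ∩ Prod.fst ⁻¹' {u} = Z ∩ Prod.fst ⁻¹' {u} :=
  Subset.antisymm (fun _ h => ⟨h.1.1, h.2⟩) fun x h =>
    ⟨⟨h.1, (hs.1 (hZ h.1)).resolve_right fun k => hu ((show x.1 = u from h.2) ▸ k)⟩, h.2⟩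

omit [Finite V] [Finite Φ] in
theorem str_in (h : Str L G (up A) (up A₁)) (g₁ : Good L F G (A ∩ A₁)) (hu : u ∈ A₁) :
    Str L G (up A) (Prod.fst ⁻¹' {u}) := fun Z hZ => by
  rw [← in_eq hu]
  exact (g₁.num.str u _ (inter_subset_inter_left _ hZ)).trans (h Z hZ)

theorem fs_in (hL : L.OK) (h : Str L G (up A) (up A₁)) (g₁ : Good L F G (A ∩ A₁)) (hu : u ∈ A₁)
    {j : ℕ} (hj : j < L.l) {Z : Set (V × Φ)} (hZ : Z ⊆ up A) (ht : D L G j Z ≤ L.θ j)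
    (hn : (Z ∩ Prod.fst ⁻¹' {u}).Nontrivial) : Z ∩ up A₁ ⊆ Prod.fst ⁻¹' {u} :=
  g₁.num.fs u j hj _ (inter_subset_inter_left _ hZ) ((h.level hL hj.le hZ).trans ht)
    (by rwa [in_eq hu])

theorem fs (hL : L.OK) (hs : Spl G A A₁ A₂) (k : Glued L G (up A) (up A₁) (up A₂))
    (k' : Glued L G (up A) (up A₂) (up A₁)) (g₁ : Good L F G (A ∩ A₁))
    (g₂ : Good L F G (A ∩ A₂)) (hu : u ∈ A₁)
    {j : ℕ} (hj : j < L.l) {Z : Set (V × Φ)} (hZ : Z ⊆ up A) (ht : D L G j Z ≤ L.θ j)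
    (hn : (Z ∩ Prod.fst ⁻¹' {u}).Nontrivial) : Z ⊆ Prod.fst ⁻¹' {u} := by
  have h1 := fs_in hL k.str g₁ hu hj hZ ht hn
  by_cases h2 : u ∈ A₂
  · have h3 := fs_in hL k'.str g₂ h2 hj hZ ht hn
    exact fun x hx => (hs.1 (hZ hx)).elim (fun h => h1 ⟨hx, h⟩) fun h => h3 ⟨hx, h⟩
  by_cases h3 : Z ⊆ up A₁
  · exact fun x hx => h1 ⟨hx, h3 hx⟩
  obtain ⟨y, hy⟩ := hn.nonempty
  obtain ⟨x, hx⟩ := (k.cross j hj Z hZ ht h3
    fun h => h2 ((show y.1 = u from hy.2) ▸ h hy.1)).nonempty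
  exact absurd ((show x.1 = u from h1 hx.1) ▸ hx.2) h2

end Ground1Aux

/-- glue_core in both directions. Str.level gives D j (Z ∩ up Aᵢ) ≤ D j Z. fs: if a tight Z
has two points over v ∈ A₁ then Z ∩ up A₁ lies over v; if v ∈ A₂ the same holds for the
other side, else Z ∩ up A₁ ∩ up A₂ is empty and Glued.cross applies. t: both parts lie in one
fibre each; if these differ, D = D + D ≥ 2m. E1 A A₁: apply E1 (A ∩ A₂) A₁ to the members over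
A₂; E1.trans. -/
theorem glue (hc : Ctx L F G) (hs : Spl G A A₁ A₂) (g₁ : Good L F G (A ∩ A₁))
    (g₂ : Good L F G (A ∩ A₂)) (r₁ : Root L F G (A ∩ A₁) A₂) (r₂ : Root L F G (A ∩ A₂) A₁) :
    Good L F G A ∧ Root L F G A A₁ ∧ Root L F G A A₂ := by
  have hL := hc.hL
  have k := Ground1Aux.glued hc hs g₁ g₂ r₁ r₂
  have k' := Ground1Aux.glued hc hs.symm g₂ g₁ r₂ r₁
  have e₁ := Ground1Aux.e1 hs r₂.e
  have e₂ := Ground1Aux.e1 hs.symm r₁.e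
  refine ⟨⟨⟨k.w1, fun v => ?_, fun v j hj Z hZ ht hn => ?_, fun Z hZ ht a ha b hb => ?_⟩,
    fun v => ?_⟩, ⟨k.str, k.sepa, e₁⟩, ⟨k'.str, k'.sepa, e₂⟩⟩
  · by_cases h1 : v ∈ A₁
    · exact Ground1Aux.str_in k.str g₁ h1
    by_cases h2 : v ∈ A₂
    · exact Ground1Aux.str_in k'.str g₂ h2
    refine str_of_sub hL k.w1 fun x hx => ?_
    exact ((hs.1 hx.1).elim (fun h => h1 ((show x.1 = v from hx.2) ▸ h))
      fun h => h2 ((show x.1 = v from hx.2) ▸ h)).elim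
  · obtain ⟨y, hy⟩ := hn.nonempty
    rcases hs.1 (hZ hy.1) with h | h
    · exact Ground1Aux.fs hL hs k k' g₁ g₂ ((show y.1 = v from hy.2) ▸ h) hj hZ ht hn
    · exact Ground1Aux.fs hL hs.symm k' k g₂ g₁ ((show y.1 = v from hy.2) ▸ h) hj hZ ht hn
  · have t₁ := g₁.num.t _ (inter_subset_inter_left _ hZ) ((k.str Z hZ).trans ht)
    have t₂ := g₂.num.t _ (inter_subset_inter_left _ hZ) ((k'.str Z hZ).trans ht)
    rcases (Z ∩ up A₁ ∩ up A₂).eq_empty_or_nonempty with he | ⟨x, hx⟩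
    · have key : ∀ a ∈ Z ∩ up A₁, ∀ b ∈ Z ∩ up A₂, False := fun a ha b hb => by
        have h1 := k.w1.m_le hL le_rfl (inter_subset_left.trans hZ) ⟨a, ha⟩
        have h2 := k.w1.m_le hL le_rfl (inter_subset_left.trans hZ) ⟨b, hb⟩
        have h3 := hL.m1
        rw [k.add _ le_rfl Z hZ, he, D_empty hL.n3] at ht
        linarith
      rcases hs.1 (hZ ha) with h | h <;> rcases hs.1 (hZ hb) with h' | h'
      · exact t₁ a ⟨ha, h⟩ b ⟨hb, h'⟩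
      · exact (key a ⟨ha, h⟩ b ⟨hb, h'⟩).elim
      · exact (key b ⟨hb, h'⟩ a ⟨ha, h⟩).elim
      · exact t₂ a ⟨ha, h⟩ b ⟨hb, h'⟩
    · have key : ∀ a ∈ Z, a.1 = x.1 := fun a ha => (hs.1 (hZ ha)).elim
        (fun h => t₁ a ⟨ha, h⟩ x hx.1) fun h => t₂ a ⟨ha, h⟩ x ⟨hx.1.1, hx.2⟩
      exact (key a ha).trans (key b hb).symm
  · by_cases h1 : v ∈ A₁
    · exact e₁.trans (g₁.e v) fun x hx => (show x = v from hx.2) ▸ h1
    · exact e₂.trans (g₂.e v) fun x hx =>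
        (hs.1 hx.1).resolve_left fun h => h1 ((show x = v from hx.2) ▸ h)

theorem glue_pt (hc : Ctx L F G) (hs : Spl G A A₁ A₂) (h : (A ∩ A₁ ∩ A₂).Subsingleton)
    (g₁ : Good L F G (A ∩ A₁)) (g₂ : Good L F G (A ∩ A₂)) :
    Good L F G A ∧ Root L F G A A₁ ∧ Root L F G A A₂ :=
  glue hc hs g₁ g₂ (g₁.root hc h) (g₂.root hc (inter_right_comm A A₁ A₂ ▸ h))

/-- Glue A₁ and B ∪ A₂. -/
theorem root_pad (hc : Ctx L F G) (g : Good L F G A) (hs : Spl G A A₁ A₂)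
    (hd : A ∩ A₁ ∩ A₂ = ∅) (r : Root L F G (A ∩ A₁) B) (hB : B ⊆ A₁) : Root L F G A (B ∪ A₂) := by
  have h0 : ∀ x ∈ A, x ∈ A₁ → x ∉ A₂ := fun x h h1 h2 =>
    (hd ▸ (⟨⟨h, h1⟩, h2⟩ : x ∈ A ∩ A₁ ∩ A₂) : x ∈ (∅ : Set V))
  have s₁ : Spl G A A₁ (B ∪ A₂) :=
    ⟨fun x hx => (hs.1 hx).imp id Or.inr, fun x y a hx hy hn =>
      (hs.2 x y a hx hy hn).imp id fun h => ⟨Or.inr h.1, Or.inr h.2⟩⟩
  have s₂ : Spl G (A ∩ (B ∪ A₂)) A₁ A₂ :=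
    ⟨fun x hx => hs.1 hx.1, fun x y a hx hy hn => hs.2 x y a hx.1 hy.1 hn⟩
  have hs' : (A ∩ (B ∪ A₂) ∩ A₁ ∩ A₂).Subsingleton := fun x hx =>
    (h0 x hx.1.1.1 hx.1.2 hx.2).elim
  have g₁ : Good L F G (A ∩ (B ∪ A₂) ∩ A₁) := g.mono fun x hx => hx.1.1
  have g₂ : Good L F G (A ∩ (B ∪ A₂) ∩ A₂) := g.mono fun x hx => hx.1.1
  have r₂ := (glue hc s₂ g₁ g₂ (g₁.root hc hs')
    (g₂.root hc (inter_right_comm (A ∩ (B ∪ A₂)) A₁ A₂ ▸ hs'))).2.1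
  refine (glue hc s₁ (g.mono inter_subset_left) (g.mono inter_subset_left) (r.congr ?_) r₂).2.2
  exact Subset.antisymm (fun x hx => ⟨hx.1, Or.inl hx.2⟩) fun x hx =>
    ⟨hx.1, hx.2.resolve_right (h0 x hx.1.1 hx.1.2)⟩

/-- Glued.add, Num.str, Glued.cross. -/
theorem split_empty (hc : Ctx L F G) (g : Good L F G A) (hs : Spl G A A₁ A₂)
    (hd : A ∩ A₁ ∩ A₂ = ∅) (h1 : u ∉ A₂) (h2 : u' ∉ A₁) :
    PosN L G Prod.fst (up A) u u' 0 := by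
  have hL := hc.hL
  have h0 : ∀ Z : Set (V × Φ), Z ⊆ up A → Z ∩ up A₁ ∩ up A₂ = ∅ := fun Z hZ =>
    eq_empty_of_forall_notMem fun x hx =>
      (hd ▸ (⟨⟨hZ hx.1.1, hx.1.2⟩, hx.2⟩ : x.1 ∈ A ∩ A₁ ∩ A₂) : x.1 ∈ (∅ : Set V))
  have k := glue_one hL hs.cut (by rw [h0 _ subset_rfl]; exact subsingleton_empty)
    (g.num.w1.mono inter_subset_left) (g.num.w1.mono inter_subset_left)
  refine ⟨fun Z hZ => ?_, fun j hj Z hZ ht ⟨x, hx⟩ ⟨y, hy⟩ => ?_⟩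
  · have a1 := g.num.str u (Z ∩ up A₁) (inter_subset_left.trans hZ)
    have a2 := g.num.str u' (Z ∩ up A₂) (inter_subset_left.trans hZ)
    rw [Ground1Aux.out_eq hs hZ h1] at a1
    rw [Ground1Aux.out_eq hs.symm hZ h2] at a2
    rw [k.add _ le_rfl Z hZ, h0 Z hZ, D_empty hL.n3]
    linarith
  · have h := (k.cross j hj Z hZ ht (fun h => h2 ((show y.1 = u' from hy.2) ▸ h hy.1))
      fun h => h1 ((show x.1 = u from hx.2) ▸ h hx.1)).nonempty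
    rw [h0 Z hZ] at h
    exact not_nonempty_empty h

/-- With I the part of Z over s: D Z = D Z₁ + D Z₂ - D I. Cases I = ∅, 2m ≤ D I,
m ≤ D I < 2m. A tight Z that meets both fibres crosses, so I has two points and Num.fs
puts Z over s. -/
theorem split_pt (hc : Ctx L F G) (g : Good L F G A) (hs : Spl G A A₁ A₂)
    (hd : A ∩ A₁ ∩ A₂ ⊆ {s}) (hs₁ : s ∈ A₁) (hs₂ : s ∈ A₂) (h1 : u ∉ A₂) (h2 : u' ∉ A₁)
    (p : PosB L G Prod.fst (up A) s u κ) (p' : PosB L G Prod.fst (up A) s u' κ) :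
    PosN L G Prod.fst (up A) u u' (max 0 (2 * κ - L.m)) := by
  have hL := hc.hL
  have hs' : (A ∩ A₁ ∩ A₂).Subsingleton := subsingleton_singleton.anti hd
  have g₁ : Good L F G (A ∩ A₁) := g.mono inter_subset_left
  have g₂ : Good L F G (A ∩ A₂) := g.mono inter_subset_left
  have k := Ground1Aux.glued hc hs g₁ g₂ (g₁.root hc hs')
    (g₂.root hc (inter_right_comm A A₁ A₂ ▸ hs'))
  have h0 : ∀ Z : Set (V × Φ), Z ⊆ up A → Z ∩ up A₁ ∩ up A₂ = Z ∩ Prod.fst ⁻¹' {s} := fun Z hZ =>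
    Subset.antisymm (fun x hx => ⟨hx.1.1, hd ⟨⟨hZ hx.1.1, hx.1.2⟩, hx.2⟩⟩) fun x hx =>
      ⟨⟨hx.1, show x.1 ∈ A₁ from (show x.1 = s from hx.2) ▸ hs₁⟩,
        show x.1 ∈ A₂ from (show x.1 = s from hx.2) ▸ hs₂⟩
  refine ⟨fun Z hZ => ?_, fun j hj Z hZ ht ⟨x, hx⟩ ⟨y, hy⟩ => ?_⟩
  · have a1 := g.num.str u (Z ∩ up A₁) (inter_subset_left.trans hZ)
    have a2 := g.num.str u' (Z ∩ up A₂) (inter_subset_left.trans hZ)
    have b1 := p (Z ∩ up A₁) (inter_subset_left.trans hZ)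
    have b2 := p' (Z ∩ up A₂) (inter_subset_left.trans hZ)
    rw [Ground1Aux.out_eq hs hZ h1] at a1 b1
    rw [Ground1Aux.out_eq hs.symm hZ h2] at a2 b2
    rw [Ground1Aux.in_eq hs₁] at b1
    rw [Ground1Aux.in_eq hs₂] at b2
    rw [k.add _ le_rfl Z hZ, h0 Z hZ]
    have m1 := le_max_left 0 (2 * κ - L.m)
    have m2 := le_max_right 0 (2 * κ - L.m)
    rcases (Z ∩ Prod.fst ⁻¹' {s}).eq_empty_or_nonempty with he | hne
    · rw [he, D_empty hL.n3]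
      linarith
    · have c := g.num.w1.m_le hL le_rfl (inter_subset_left.trans hZ) hne
      rcases lt_or_ge (D L G L.l (Z ∩ Prod.fst ⁻¹' {s})) (2 * L.m) with h | h
      · linarith [b1.2 h, b2.2 h]
      · linarith [b1.1, b2.1]
  · have h := k.cross j hj Z hZ ht (fun h => h2 ((show y.1 = u' from hy.2) ▸ h hy.1))
      fun h => h1 ((show x.1 = u from hx.2) ▸ h hx.1)
    rw [h0 Z hZ] at h
    have h3 : x.1 = s := g.num.fs s j hj Z hZ ht h hx.1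
    exact h1 ((show x.1 = u from hx.2) ▸ h3 ▸ hs₂)

end Pool.Agent.Lib.MP_781e3b_co.CN
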