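import Pool.Agent.Lib.MP_781e3b_co.RR.Sep
import Pool.Agent.Lib.MP_781e3b_co.CN.Ground1

/-!
Forests of sets, forests of copies, and folding.
-/

namespace Pool.Agent.Lib.MP_781e3b_co.CN

open Set Function SimpleGraph

/-- Strong induction on the size of X. Take z ≠ z' in X and let Y be the set of members
reached from z' without passing z; Un N Y meets Un N (X \ Y) only in points of N z, which
are joined outside z. -/
theorem sf_of_sep {W V : Type} {N : W → Set V} {X : Set W} (hX : X.Finite) (h : RR.Sep N N X) :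
    RR.SF N X := by
  induction hn : X.ncard using Nat.strong_induction_on generalizing X with
  | _ n ih =>
    by_cases hs : X.Subsingleton
    · exact RR.SF.of_subsingleton hs
    obtain ⟨z, hz, z', hz', hne⟩ := not_subsingleton_iff.1 hs
    have mono : ∀ Y ⊆ X, RR.Sep N N Y := by
      intro Y hY y hy u hu w hw hwk
      refine h y (hY hy) u hu w hw (Relation.ReflTransGen.mono ?_ _ _ hwk)
      rintro a b ⟨c, hc, h1, h2⟩
      exact ⟨c, hY hc, h1, h2⟩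
    let Y : Set W := {y | Relation.ReflTransGen
      (fun a b => b ∈ X ∧ b ≠ z ∧ ∃ v, v ∈ N a ∧ v ∈ N b) z' y}
    have hY : ∀ y ∈ Y, y ∈ X ∧ y ≠ z := by
      intro y hy
      rcases Relation.ReflTransGen.cases_tail hy with e | ⟨c, _, h1, h2, _⟩
      · exact e ▸ ⟨hz', hne.symm⟩
      · exact ⟨h1, h2⟩
    have hYX : Y ⊆ X := fun y hy => (hY y hy).1
    have hz'Y : z' ∈ Y := Relation.ReflTransGen.refl
    have walk : ∀ y ∈ Y, ∀ b ∈ N y, ∃ a ∈ N z',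
        Relation.ReflTransGen (RR.SepAux.Jn N X z) a b := by
      intro y hy
      induction hy with
      | refl => exact fun b hb => ⟨b, hb, .refl⟩
      | tail _ hst ih' =>
        obtain ⟨h1, h2, v, hv, hv'⟩ := hst
        intro b hb
        obtain ⟨a, ha, hav⟩ := ih' v hv
        exact ⟨a, ha, hav.tail ⟨_, h1, h2, hv', hb⟩⟩
    have l1 : Y.ncard < X.ncard :=
      ncard_lt_ncard ⟨hYX, fun hh => (hY z (hh hz)).2 rfl⟩ hX
    have l2 : (X \ Y).ncard < X.ncard :=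
      ncard_lt_ncard ⟨sdiff_subset, fun hh => (hh hz').2 hz'Y⟩ hX
    have s1 := ih _ (hn ▸ l1) (hX.subset hYX) (mono Y hYX) rfl
    have s2 := ih _ (hn ▸ l2) (hX.subset sdiff_subset) (mono (X \ Y) sdiff_subset) rfl
    have key : ∀ u ∈ RR.Un N Y ∩ RR.Un N (X \ Y), u ∈ N z ∧ ∃ a ∈ N z',
        Relation.ReflTransGen (RR.SepAux.Jn N X z) a u := by
      rintro u ⟨⟨y, hy, hu⟩, y', hy', hu'⟩
      refine ⟨?_, walk y hy u hu⟩
      by_contra hc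
      exact hy'.2 (Relation.ReflTransGen.tail hy ⟨hy'.1, fun e => hc (e ▸ hu'), u, hu, hu'⟩)
    rw [← union_sdiff_cancel hYX]
    refine RR.SF.glue s1 s2 disjoint_sdiff_right ?_
    intro u hu w hw
    obtain ⟨h1, a, ha, hau⟩ := key u hu
    obtain ⟨h2, b, hb, hbw⟩ := key w hw
    exact h z hz u h1 w h2
      (((RR.SepAux.walk_symm hau).tail ⟨z', hz', hne.symm, ha, hb⟩).trans hbw)

variable {V V' Φ : Type} [Finite V] [Finite V'] [Finite Φ] {L : Lv} {F : Fib Φ}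
  {G : SimpleGraph (V × Φ)} {G' : SimpleGraph (V' × Φ)} {A B : Set V}

/-- Induction on the forest, for all A; glue_pt, Root.trans. A cross edge over
A ∩ Un N X that lies in a member of the other side has both ends in the common point. -/
theorem good_sf (hc : Ctx L F G) {W : Type} {N : W → Set V} {X : Set W} (h : RR.SF N X)
    (hA : A ⊆ RR.Un N X)
    (he : ∀ x y, G.Adj x y → x.1 ∈ A → y.1 ∈ A → x.1 ≠ y.1 → ∃ z ∈ X, x.1 ∈ N z ∧ y.1 ∈ N z)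
    (hg : ∀ z ∈ X, Good L F G (A ∩ N z)) : Good L F G A ∧ ∀ z ∈ X, Root L F G A (N z) := by
  induction h generalizing A with
  | empty =>
    refine ⟨good_fibre hc fun a ha => ?_, fun z hz => hz.elim⟩
    obtain ⟨z, hz, _⟩ := hA ha
    exact hz.elim
  | single z =>
    have hz : A ⊆ N z := by
      intro a ha
      obtain ⟨y, rfl, hy⟩ := hA ha
      exact hy
    refine ⟨(hg z rfl).mono (subset_inter Subset.rfl hz), ?_⟩
    rintro y rfl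
    exact Root.refl hz
  | @glue X Y _ _ _ hs ih₁ ih₂ =>
    have spl : Spl G A (RR.Un N X) (RR.Un N Y) := by
      refine ⟨fun a ha => ?_, fun x y hxy hx hy hne => ?_⟩
      · obtain ⟨z, hz | hz, h⟩ := hA ha
        · exact Or.inl ⟨z, hz, h⟩
        · exact Or.inr ⟨z, hz, h⟩
      · obtain ⟨z, hz | hz, h1, h2⟩ := he x y hxy hx hy hne
        · exact Or.inl ⟨⟨z, hz, h1⟩, z, hz, h2⟩
        · exact Or.inr ⟨⟨z, hz, h1⟩, z, hz, h2⟩
    obtain ⟨g₁, r₁⟩ := ih₁ (A := A ∩ RR.Un N X) inter_subset_right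
      (fun x y hxy hx hy hne => by
        obtain ⟨z, hz | hz, h1, h2⟩ := he x y hxy hx.1 hy.1 hne
        · exact ⟨z, hz, h1, h2⟩
        · exact (hne (hs ⟨hx.2, z, hz, h1⟩ ⟨hy.2, z, hz, h2⟩)).elim)
      (fun z hz => (hg z (Or.inl hz)).mono fun a ha => ⟨ha.1.1, ha.2⟩)
    obtain ⟨g₂, r₂⟩ := ih₂ (A := A ∩ RR.Un N Y) inter_subset_right
      (fun x y hxy hx hy hne => by
        obtain ⟨z, hz | hz, h1, h2⟩ := he x y hxy hx.1 hy.1 hne
        · exact (hne (hs ⟨⟨z, hz, h1⟩, hx.2⟩ ⟨⟨z, hz, h2⟩, hy.2⟩)).elim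
        · exact ⟨z, hz, h1, h2⟩)
      (fun z hz => (hg z (Or.inr hz)).mono fun a ha => ⟨ha.1.1, ha.2⟩)
    obtain ⟨g, q₁, q₂⟩ := glue_pt hc spl (hs.anti fun a ha => ⟨ha.1.2, ha.2⟩) g₁ g₂
    refine ⟨g, ?_⟩
    rintro z (hz | hz)
    · exact q₁.trans (r₁ z hz) fun a ha => ⟨z, hz, ha.2⟩
    · exact q₂.trans (r₂ z hz) fun a ha => ⟨z, hz, ha.2⟩

/-- Sets that meet in one common point at most (SF.of_pt). -/
theorem good_sun (hc : Ctx L F G) {W : Type} [Finite W] {N : W → Set V} {Q : Set V}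
    (hQ : Q.Subsingleton) (hN : ∀ z z', z ≠ z' → A ∩ N z ∩ N z' ⊆ Q) (hA : A ⊆ ⋃ z, N z)
    (he : ∀ x y, G.Adj x y → x.1 ∈ A → y.1 ∈ A → x.1 ≠ y.1 → ∃ z, x.1 ∈ N z ∧ y.1 ∈ N z)
    (hg : ∀ z, Good L F G (A ∩ N z)) : Good L F G A ∧ ∀ z, Root L F G A (N z) := by
  have sf : RR.SF (fun z => A ∩ N z) univ :=
    RR.SF.of_pt finite_univ (fun _ => Q) (fun _ _ => hQ)
      fun z _ z' _ hne u hu hu' => hN z z' hne ⟨hu, hu'.2⟩
  obtain ⟨g, r⟩ := good_sf (A := A) hc sf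
    (fun a ha => by
      obtain ⟨z, hz⟩ := mem_iUnion.1 (hA ha)
      exact ⟨z, mem_univ _, ha, hz⟩)
    (fun x y hxy hx hy hne => by
      obtain ⟨z, h1, h2⟩ := he x y hxy hx hy hne
      exact ⟨z, mem_univ _, ⟨hx, h1⟩, hy, h2⟩)
    (fun z _ => (hg z).mono inter_subset_right)
  exact ⟨g, fun z => (r z (mem_univ _)).congr (by rw [← inter_assoc, inter_self])⟩

/-- A partition without cross edges (good_sun over the range of part). -/
theorem good_parts (hc : Ctx L F G) {I : Type} (part : V → I)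
    (he : ∀ x y, G.Adj x y → x.1 ∈ A → y.1 ∈ A → part x.1 = part y.1)
    (hg : ∀ i, Good L F G (A ∩ part ⁻¹' {i})) :
    Good L F G A ∧ ∀ i, Root L F G A (part ⁻¹' {i}) := by
  have sf : RR.SF (fun i => part ⁻¹' {i}) (range part) :=
    RR.SF.of_pt (finite_range part) (fun _ => ∅) (fun _ _ => subsingleton_empty)
      fun z _ z' _ hne u hu hu' => hne (hu.symm.trans hu')
  obtain ⟨g, r⟩ := good_sf (A := A) hc sf (fun a _ => ⟨part a, mem_range_self a, rfl⟩)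
    (fun x y hxy hx hy _ => ⟨part x.1, mem_range_self _, rfl, (he x y hxy hx hy).symm⟩)
    (fun z _ => hg z)
  refine ⟨g, fun i => ?_⟩
  by_cases hi : i ∈ range part
  · exact r i hi
  · exact g.root hc fun a ha => (hi ⟨a, ha.2⟩).elim

/-- The points outside C have no cross edges (good_parts, good_fibre, glue_pt). -/
theorem good_iso (hc : Ctx L F G) (C : Set V)
    (he : ∀ x y, G.Adj x y → x.1 ∈ A → y.1 ∈ A → x.1 ≠ y.1 → x.1 ∈ C)
    (hg : Good L F G (A ∩ C)) : Good L F G A ∧ Root L F G A C := by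
  have g₂ : Good L F G (A ∩ Cᶜ) := by
    refine (good_parts hc id (fun x y hxy hx hy => ?_) fun i => good_fibre hc ?_).1
    · by_contra hne
      exact hx.2 (he x y hxy hx.1 hy.1 hne)
    · exact fun a ha b hb => ha.2.trans hb.2.symm
  have spl : Spl G A C Cᶜ :=
    ⟨fun a _ => em (a ∈ C), fun x y hxy hx hy hne =>
      Or.inl ⟨he x y hxy hx hy hne, he y x hxy.symm hy hx hne.symm⟩⟩
  obtain ⟨g, q, _⟩ := glue_pt hc spl (fun a ha => (ha.2 ha.1.2).elim) hg g₂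
  exact ⟨g, q⟩

/-- Induction on the forest (Fo.sound, Fo.fullst, SepAux.sub_BV, BV_union, BW_union).
Atom: BV = vb j. Star: BV = N z. glueV: glue_pt. glueW z: the common points are those of
N z, so the roots at z and Root.congr give the hypotheses of glue; Root.trans. -/
theorem good_forest (hc : Ctx L F G) {C W : Type} {S : RR.Sys C W V} {Cs : Set C} {Z : Set W}
    {R : Set (W × V)} (hF : RR.Fo S True Cs Z R) (hw : S.Whole)
    (he : ∀ x y, G.Adj x y → x.1 ∈ A ∩ S.BV Cs R → y.1 ∈ A ∩ S.BV Cs R → x.1 ≠ y.1 →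
      (∃ z ∈ S.BW Cs Z, x.1 ∈ S.N z ∧ y.1 ∈ S.N z) ∨ ∃ j ∈ Cs, x.1 ∈ S.vb j ∧ y.1 ∈ S.vb j)
    (h1 : ∀ z, Good L F G (A ∩ S.N z)) (h2 : ∀ j, Good L F G (A ∩ S.vb j))
    (h3 : ∀ j, ∀ z ∈ S.wb j, Root L F G (A ∩ S.vb j) (S.N z)) :
    Good L F G (A ∩ S.BV Cs R) ∧ (∀ z ∈ S.BW Cs Z, Root L F G (A ∩ S.BV Cs R) (S.N z)) ∧
      ∀ j ∈ Cs, Root L F G (A ∩ S.BV Cs R) (S.vb j) := by
  have vb : ∀ {Cs : Set C} (R : Set (W × V)), ∀ j ∈ Cs, S.vb j ⊆ S.BV Cs R :=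
    fun R j hj v hv => Or.inl ⟨j, hj, hv⟩
  induction hF with
  | empty =>
    refine ⟨good_fibre hc ?_, ?_, fun j hj => hj.elim⟩
    · rintro a ⟨_, ⟨P, hP, _⟩ | ⟨z, hz⟩⟩
      · exact hP.elim
      · exact hz.elim
    · rintro z (⟨P, hP, _⟩ | hz)
      · exact hP.elim
      · exact hz.elim
  | atom P Z R hZ hR _ =>
    have e : S.BV {P} R = S.vb P := by
      refine Subset.antisymm ?_ (vb R P rfl)
      rintro v (⟨Q, rfl, hv⟩ | ⟨z, hz⟩)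
      · exact hv
      · exact (hR z v hz).2.1
    rw [e]
    refine ⟨h2 P, ?_, ?_⟩
    · rintro z (⟨Q, rfl, hz⟩ | hz)
      · exact h3 _ z hz
      · exact h3 P z (hZ hz)
    · rintro j rfl
      exact Root.refl inter_subset_right
  | star y R hR hf =>
    have e : S.BV ∅ R = S.N y := by
      ext v
      constructor
      · rintro (⟨Q, hQ, _⟩ | ⟨z, hz⟩)
        · exact hQ.elim
        · exact (hR z v hz).1 ▸ (hR z v hz).2
      · exact fun hv => Or.inr ⟨y, hf trivial v hv⟩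
    rw [e]
    refine ⟨h1 y, ?_, fun j hj => hj.elim⟩
    rintro z (⟨Q, hQ, _⟩ | rfl)
    · exact hQ.elim
    · exact Root.refl inter_subset_right
  | @glueV C₁ C₂ Z₁ Z₂ R₁ R₂ f₁ f₂ _ _ hs ih₁ ih₂ =>
    rw [S.BV_union, S.BW_union] at he ⊢
    have n₁ := RR.SepAux.sub_BV f₁ hw
    have n₂ := RR.SepAux.sub_BV f₂ hw
    obtain ⟨g₁, r₁, t₁⟩ := ih₁ fun x y hxy hx hy hne => by
      rcases he x y hxy ⟨hx.1, Or.inl hx.2⟩ ⟨hy.1, Or.inl hy.2⟩ hne with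
        ⟨z, hz | hz, a, b⟩ | ⟨j, hj | hj, a, b⟩
      · exact Or.inl ⟨z, hz, a, b⟩
      · exact (hne (hs ⟨hx.2, n₂ z hz a⟩ ⟨hy.2, n₂ z hz b⟩)).elim
      · exact Or.inr ⟨j, hj, a, b⟩
      · exact (hne (hs ⟨hx.2, vb R₂ j hj a⟩ ⟨hy.2, vb R₂ j hj b⟩)).elim
    obtain ⟨g₂, r₂, t₂⟩ := ih₂ fun x y hxy hx hy hne => by
      rcases he x y hxy ⟨hx.1, Or.inr hx.2⟩ ⟨hy.1, Or.inr hy.2⟩ hne with
        ⟨z, hz | hz, a, b⟩ | ⟨j, hj | hj, a, b⟩
      · exact (hne (hs ⟨n₁ z hz a, hx.2⟩ ⟨n₁ z hz b, hy.2⟩)).elim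
      · exact Or.inl ⟨z, hz, a, b⟩
      · exact (hne (hs ⟨vb R₁ j hj a, hx.2⟩ ⟨vb R₁ j hj b, hy.2⟩)).elim
      · exact Or.inr ⟨j, hj, a, b⟩
    have spl : Spl G (A ∩ (S.BV C₁ R₁ ∪ S.BV C₂ R₂)) (S.BV C₁ R₁) (S.BV C₂ R₂) := by
      refine ⟨inter_subset_right, fun x y hxy hx hy hne => ?_⟩
      rcases he x y hxy hx hy hne with ⟨z, hz | hz, a, b⟩ | ⟨j, hj | hj, a, b⟩
      · exact Or.inl ⟨n₁ z hz a, n₁ z hz b⟩
      · exact Or.inr ⟨n₂ z hz a, n₂ z hz b⟩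
      · exact Or.inl ⟨vb R₁ j hj a, vb R₁ j hj b⟩
      · exact Or.inr ⟨vb R₂ j hj a, vb R₂ j hj b⟩
    have m : ∀ T U : Set V, A ∩ T ∩ U ⊆ A ∩ U := fun T U a ha => ⟨ha.1.1, ha.2⟩
    obtain ⟨g, q₁, q₂⟩ := glue_pt hc spl (hs.anti fun a ha => ⟨ha.1.2, ha.2⟩)
      (g₁.mono (m _ _)) (g₂.mono (m _ _))
    refine ⟨g, ?_, ?_⟩
    · rintro z (hz | hz)
      · exact q₁.trans ((r₁ z hz).mono (m _ _)) fun a ha => n₁ z hz ha.2
      · exact q₂.trans ((r₂ z hz).mono (m _ _)) fun a ha => n₂ z hz ha.2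
    · rintro j (hj | hj)
      · exact q₁.trans ((t₁ j hj).mono (m _ _)) fun a ha => vb R₁ j hj ha.2
      · exact q₂.trans ((t₂ j hj).mono (m _ _)) fun a ha => vb R₂ j hj ha.2
  | @glueW z₀ C₁ C₂ Z₁ Z₂ R₁ R₂ f₁ f₂ _ hz₁ hz₂ _ hs ih₁ ih₂ =>
    rw [S.BV_union, S.BW_union] at he ⊢
    have n₁ := RR.SepAux.sub_BV f₁ hw
    have n₂ := RR.SepAux.sub_BV f₂ hw
    have w₁ : z₀ ∈ S.BW C₁ Z₁ := Or.inr hz₁
    have w₂ : z₀ ∈ S.BW C₂ Z₂ := Or.inr hz₂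
    have cm : ∀ v ∈ S.BV C₁ R₁, v ∈ S.BV C₂ R₂ → v ∈ S.N z₀ :=
      fun v h h' => (f₁.sound (hs v h h').1).2
    obtain ⟨g₁, r₁, t₁⟩ := ih₁ fun x y hxy hx hy hne => by
      rcases he x y hxy ⟨hx.1, Or.inl hx.2⟩ ⟨hy.1, Or.inl hy.2⟩ hne with
        ⟨z, hz | hz, a, b⟩ | ⟨j, hj | hj, a, b⟩
      · exact Or.inl ⟨z, hz, a, b⟩
      · exact Or.inl ⟨z₀, w₁, cm _ hx.2 (n₂ z hz a), cm _ hy.2 (n₂ z hz b)⟩
      · exact Or.inr ⟨j, hj, a, b⟩
      · exact Or.inl ⟨z₀, w₁, cm _ hx.2 (vb R₂ j hj a), cm _ hy.2 (vb R₂ j hj b)⟩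
    obtain ⟨g₂, r₂, t₂⟩ := ih₂ fun x y hxy hx hy hne => by
      rcases he x y hxy ⟨hx.1, Or.inr hx.2⟩ ⟨hy.1, Or.inr hy.2⟩ hne with
        ⟨z, hz | hz, a, b⟩ | ⟨j, hj | hj, a, b⟩
      · exact Or.inl ⟨z₀, w₂, cm _ (n₁ z hz a) hx.2, cm _ (n₁ z hz b) hy.2⟩
      · exact Or.inl ⟨z, hz, a, b⟩
      · exact Or.inl ⟨z₀, w₂, cm _ (vb R₁ j hj a) hx.2, cm _ (vb R₁ j hj b) hy.2⟩
      · exact Or.inr ⟨j, hj, a, b⟩
    have spl : Spl G (A ∩ (S.BV C₁ R₁ ∪ S.BV C₂ R₂)) (S.BV C₁ R₁) (S.BV C₂ R₂) := by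
      refine ⟨inter_subset_right, fun x y hxy hx hy hne => ?_⟩
      rcases he x y hxy hx hy hne with ⟨z, hz | hz, a, b⟩ | ⟨j, hj | hj, a, b⟩
      · exact Or.inl ⟨n₁ z hz a, n₁ z hz b⟩
      · exact Or.inr ⟨n₂ z hz a, n₂ z hz b⟩
      · exact Or.inl ⟨vb R₁ j hj a, vb R₁ j hj b⟩
      · exact Or.inr ⟨vb R₂ j hj a, vb R₂ j hj b⟩
    have m : ∀ T U : Set V, A ∩ T ∩ U ⊆ A ∩ U := fun T U a ha => ⟨ha.1.1, ha.2⟩
    obtain ⟨g, q₁, q₂⟩ := glue hc spl (g₁.mono (m _ _)) (g₂.mono (m _ _))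
      (((r₁ z₀ w₁).mono (m _ _)).congr (Subset.antisymm
        (fun a ha => ⟨ha.1, n₂ z₀ w₂ ha.2⟩) fun a ha => ⟨ha.1, cm a ha.1.2 ha.2⟩))
      (((r₂ z₀ w₂).mono (m _ _)).congr (Subset.antisymm
        (fun a ha => ⟨ha.1, n₁ z₀ w₁ ha.2⟩) fun a ha => ⟨ha.1, cm a ha.2 ha.1.2⟩))
    refine ⟨g, ?_, ?_⟩
    · rintro z (hz | hz)
      · exact q₁.trans ((r₁ z hz).mono (m _ _)) fun a ha => n₁ z hz ha.2
      · exact q₂.trans ((r₂ z hz).mono (m _ _)) fun a ha => n₂ z hz ha.2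
    · rintro j (hj | hj)
      · exact q₁.trans ((t₁ j hj).mono (m _ _)) fun a ha => vb R₁ j hj ha.2
      · exact q₂.trans ((t₂ j hj).mono (m _ _)) fun a ha => vb R₂ j hj ha.2

omit [Finite V] [Finite V'] [Finite Φ] in
/-- If some member does not lie over r, choose below and lift; else there are no cross edges
between members. -/
theorem fold (hc : Ctx L F G) (π : V → V') {r : V'}
    (hh : ∀ x y, G.Adj x y → x.1 ∈ A → y.1 ∈ A → x.1 ≠ y.1 →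
      π x.1 ≠ π y.1 ∧ G'.Adj (lift π x) (lift π y))
    (h : E1 F G' (π '' A) {r}) (hB : ∀ v ∈ B, π v = r) : E1 F G A B := by
  intro 𝒮 q hS hex
  have same : ∀ s t : V × F.Mem, t ≠ s → s.1 = t.1 → ∀ a ∈ F.nd s.2, ∀ w ∈ F.nd t.2,
      ¬ G.Adj (s.1, a) (t.1, w) := by
    intro s t hne e a ha w hw hadj
    rw [← e, hc.hG] at hadj
    exact hc.hF.sep s.2 t.2 (fun e' => hne (Prod.ext e e').symm) a ha w hw hadj
  by_cases hall : ∀ s ∈ 𝒮, π s.1 = r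
  · obtain ⟨s, hs, hsB⟩ := hex
    obtain ⟨w₀⟩ := hc.hF.ne
    obtain ⟨a, b, hab, _⟩ := hc.hF.two s.2 w₀
    have key : ∀ t ∈ 𝒮, t ≠ s → ∀ c ∈ F.nd s.2, ∀ w ∈ F.nd t.2, ¬ G.Adj (s.1, c) (t.1, w) := by
      intro t ht hne c hcm w hw hadj
      by_cases e : s.1 = t.1
      · exact same s t hne e c hcm w hw hadj
      · exact (hh _ _ hadj (hS s hs).1 (hS t ht).1 e).1 ((hall s hs).trans (hall t ht).symm)
    exact ⟨s, hs, hsB, a, b, hab, fun t ht hne w hw =>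
      ⟨key t ht hne a (hc.hF.sub _ _ _ hab).1 w hw, key t ht hne b (hc.hF.sub _ _ _ hab).2 w hw⟩⟩
  · push Not at hall
    obtain ⟨s₀, hs₀, hr₀⟩ := hall
    obtain ⟨_, ⟨s, hs, rfl⟩, hsr, a, b, hab, hfree⟩ :=
      h ((fun s : V × F.Mem => (π s.1, s.2)) '' 𝒮) q
        (by
          rintro _ ⟨s, hs, rfl⟩
          exact ⟨mem_image_of_mem π (hS s hs).1, (hS s hs).2⟩)
        ⟨_, mem_image_of_mem _ hs₀, hr₀⟩
    refine ⟨s, hs, fun hsB => hsr (hB _ hsB), a, b, hab, fun t ht hne w hw => ?_⟩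
    by_cases e : s.1 = t.1
    · exact ⟨same s t hne e a (hc.hF.sub _ _ _ hab).1 w hw,
        same s t hne e b (hc.hF.sub _ _ _ hab).2 w hw⟩
    · constructor
      · intro hadj
        obtain ⟨h1, h2⟩ := hh _ _ hadj (hS s hs).1 (hS t ht).1 e
        exact (hfree _ (mem_image_of_mem _ ht) (fun e' => h1 (congrArg Prod.fst e').symm) w hw).1 h2
      · intro hadj
        obtain ⟨h1, h2⟩ := hh _ _ hadj (hS s hs).1 (hS t ht).1 e
        exact (hfree _ (mem_image_of_mem _ ht) (fun e' => h1 (congrArg Prod.fst e').symm) w hw).2 h2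

end Pool.Agent.Lib.MP_781e3b_co.CN
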