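import Pool.Agent.Lib.MP_781e3b_co.CN.Parts0

/-!
The parts of Y \ F and the fibre graph.
-/

namespace Pool.Agent.Lib.MP_781e3b_co.CN

open Set Function SimpleGraph

namespace PartsAux

variable {Ω : Type} [Finite Ω] {L : Lv} {G Y F : SimpleGraph Ω} {N Z : Set Ω}

theorem part_cl (hL : L.OK) (hb : Bd L Y) (hF : Mat L Y F) {a : Ω} (ha : a ∉ F.support) :
    piF L Y F ⁻¹' {piF L Y F a} = cl L (Y \ F) a := by
  ext b
  rw [mem_preimage, mem_singleton_iff, eq_comm, piF_eq hL hb hF]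
  exact ⟨fun h => h.resolve_right fun h' => ha ⟨b, h'⟩, Or.inl⟩

theorem part_edge (hL : L.OK) (hb : Bd L Y) (hF : Mat L Y F) {a a' : Ω} (ha : F.Adj a a') :
    piF L Y F ⁻¹' {piF L Y F a} = {a, a'} := by
  ext b
  rw [mem_preimage, mem_singleton_iff, eq_comm, piF_eq hL hb hF, cl_end hL hF ha]
  refine or_congr Iff.rfl ⟨fun h => hF.uniq a b a' h ha, fun h => ?_⟩
  rw [mem_singleton_iff.1 h]
  exact ha

theorem part_cases (hL : L.OK) (hb : Bd L Y) (hF : Mat L Y F) (v : Set Ω) :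
    piF L Y F ⁻¹' {v} = ∅ ∨ IsCl L (Y \ F) (piF L Y F ⁻¹' {v}) ∨
      ∃ a a', F.Adj a a' ∧ piF L Y F ⁻¹' {v} = {a, a'} := by
  rcases (piF L Y F ⁻¹' {v}).eq_empty_or_nonempty with h | ⟨a, ha⟩
  · exact Or.inl h
  · obtain rfl : piF L Y F a = v := ha
    by_cases hs : a ∈ F.support
    · obtain ⟨a', h⟩ := hs
      exact Or.inr (Or.inr ⟨a, a', h, part_edge hL hb hF h⟩)
    · rw [part_cl hL hb hF hs]
      exact Or.inr (Or.inl (isCl_cl hL (hb.sub hL sdiff_le).w1 a))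

theorem cl_sub (hL : L.OK) (hN : IsCl L G N) (Z : Set Ω) :
    D L G L.l (Z ∪ N) + D L G L.l (Z ∩ N) ≤ D L G L.l Z + L.m := by
  have h1 := D_sub (G := G) (Z := Z) (Z' := N) (hL.P le_rfl)
  have h2 := hN.1.2
  linarith

omit [Finite Ω] in
theorem cl_out (hN : IsCl L G N) (h : N ⊆ Z) (h' : ¬ Z ⊆ N) : L.m < D L G L.l Z := by
  by_contra hc
  obtain ⟨x, hx⟩ := hN.1.1
  exact h' (hN.2 Z ⟨⟨x, h hx⟩, not_lt.1 hc⟩ ⟨x, h hx, hx⟩)

theorem cl_str (hL : L.OK) (w : W1 L G univ) (hN : IsCl L G N) (Z : Set Ω) :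
    D L G L.l (Z ∩ N) ≤ D L G L.l Z := by
  have h1 := cl_sub hL hN Z
  have h2 := w.m_le hL le_rfl (subset_univ (Z ∪ N)) (hN.1.1.mono subset_union_right)
  linarith

theorem pair_le (hL : L.OK) (a a' : Ω) (Z : Set Ω) :
    D L G L.l (Z ∩ {a, a'}) ≤ 2 * L.m := by
  have h1 := D_le_card (G := G) (Z := Z ∩ {a, a'}) (hL.P le_rfl)
  have h2 : (Z ∩ {a, a'}).ncard ≤ 2 :=
    (ncard_le_ncard inter_subset_right (toFinite _)).trans
      ((ncard_insert_le a {a'}).trans (by rw [ncard_singleton]))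
  have h3 : ((Z ∩ {a, a'}).ncard : ℝ) ≤ 2 := by exact_mod_cast h2
  have h4 := hL.m1
  nlinarith

omit [Finite Ω] in
theorem pair_cases (a a' : Ω) (Z : Set Ω) : (a ∈ Z ∧ a' ∈ Z) ∨ (a ∈ Z ∧ Z ∩ {a, a'} = {a}) ∨
    (a' ∈ Z ∧ Z ∩ {a, a'} = {a'}) ∨ Z ∩ {a, a'} = ∅ := by
  by_cases h : a ∈ Z <;> by_cases h' : a' ∈ Z
  · exact Or.inl ⟨h, h'⟩
  · exact Or.inr (Or.inl ⟨h, by
      rw [inter_insert_of_mem h, inter_singleton_eq_empty.2 h', insert_empty_eq]⟩)
  · exact Or.inr (Or.inr (Or.inl ⟨h', by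
      rw [inter_insert_of_notMem h, inter_eq_right.2 (singleton_subset_iff.2 h')]⟩))
  · exact Or.inr (Or.inr (Or.inr (by
      rw [inter_insert_of_notMem h, inter_singleton_eq_empty.2 h'])))

end PartsAux

open PartsAux

section
variable {Ω V V' : Type} [Finite Ω] {L : Lv} {G Y F : SimpleGraph Ω} {S : Set Ω} {κ : ℝ}

/-- A part is empty, a cluster N or an edge of F. Cluster: D Z ≥ D (Z ∩ N) + D (Z ∪ N) - m,
strict if Z is not inside N; D_cost. Edge of F: Mat.pair, D_le_card, D_level. -/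
theorem parts_num (hL : L.OK) (hb : Bd L Y) (hF : Mat L Y F) :
    Num L (Y \ F) (piF L Y F) univ := by
  have w : W1 L (Y \ F) univ := (hb.sub hL sdiff_le).w1
  refine ⟨w, fun v Z hZ => ?_, fun v j hj Z _ hD hn => ?_, fun Z _ hD a ha b hb' => ?_⟩
  · rcases part_cases hL hb hF v with h | h | ⟨a, a', hadj, h⟩
    · rw [h, inter_empty, D_empty hL.n3]
      exact w.nonneg hL le_rfl hZ
    · exact cl_str hL w h Z
    · rw [h]
      rcases pair_cases a a' Z with ⟨h1, h2⟩ | ⟨h1, h2⟩ | ⟨h1, h2⟩ | h2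
      · exact (pair_le hL a a' Z).trans (hF.pair a a' hadj Z h1 h2)
      · rw [h2, D_singleton hL.n3]
        exact w.m_le hL le_rfl hZ ⟨a, h1⟩
      · rw [h2, D_singleton hL.n3]
        exact w.m_le hL le_rfl hZ ⟨a', h1⟩
      · rw [h2, D_empty hL.n3]
        exact w.nonneg hL le_rfl hZ
  · rcases part_cases hL hb hF v with h | h | ⟨a, a', hadj, h⟩
    · rw [h, inter_empty] at hn
      exact absurd hn not_nontrivial_empty
    · by_contra hc
      have h1 := cl_sub hL h Z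
      have h2 := cl_out h (subset_union_right (s := Z)) fun hs => hc (subset_union_left.trans hs)
      have h3 := D_cost (G := Y \ F) (hL.P le_rfl) hj.le
        (inter_subset_left (s := Z) (t := piF L Y F ⁻¹' {v}))
      have h4 := w.ge j hj.le _ (subset_univ _) hn
      linarith
    · exfalso
      rw [h] at hn
      rcases pair_cases a a' Z with ⟨h1, h2⟩ | ⟨h1, h2⟩ | ⟨h1, h2⟩ | h2
      · have h3 := hF.pair a a' hadj Z h1 h2
        have h4 := D_level (G := Y \ F) (Z := Z) (hL.P le_rfl) hj.le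
        have h5 := hL.θ_le hj.le
        linarith
      · exact not_nontrivial_singleton (h2 ▸ hn)
      · exact not_nontrivial_singleton (h2 ▸ hn)
      · exact not_nontrivial_empty (h2 ▸ hn)
  · exact (piF_eq hL hb hF a b).2 (Or.inl ⟨Z, ⟨⟨a, ha⟩, hD⟩, ha, hb'⟩)

/-- κ = max 1 (m - δ) with δ from D_gap. Let N' be the cluster of b. Centre a cluster N:
D Z ≥ D (Z ∩ N) + D (Z ∩ N') - 2m + D (Z ∪ N ∪ N'). Centre an edge of F: by the number of its
ends in Z (Mat.pair, Mat.cold for Z ∪ N', parts_num). -/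
theorem parts_pos (hL : L.OK) (hb : Bd L Y) (hF : Mat L Y F) :
    ∃ κ : ℝ, 1 ≤ κ ∧ κ < L.m ∧ ∀ a b, piF L Y F a ≠ piF L Y F b → b ∉ F.support →
      PosB L (Y \ F) (piF L Y F) univ (piF L Y F a) (piF L Y F b) κ := by
  have w : W1 L (Y \ F) univ := (hb.sub hL sdiff_le).w1
  obtain ⟨δ, hδ, hgap⟩ := D_gap L (Y \ F)
  have hm := hL.m1
  have k1 : (1 : ℝ) ≤ max 1 (L.m - δ) := le_max_left _ _
  have k2 : L.m - δ ≤ max 1 (L.m - δ) := le_max_right _ _
  have k3 : max 1 (L.m - δ) < L.m := max_lt hm (by linarith)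
  refine ⟨max 1 (L.m - δ), k1, k3, fun a b hab hs Z _ => ?_⟩
  generalize max 1 (L.m - δ) = κ at *
  have hN' : IsCl L (Y \ F) (piF L Y F ⁻¹' {piF L Y F b}) := by
    rw [part_cl hL hb hF hs]
    exact isCl_cl hL w b
  have hd : ∀ x, x ∈ piF L Y F ⁻¹' {piF L Y F a} → x ∉ piF L Y F ⁻¹' {piF L Y F b} :=
    fun x h1 h2 => hab ((mem_singleton_iff.1 h1).symm.trans (mem_singleton_iff.1 h2))
  have hbN : b ∈ piF L Y F ⁻¹' {piF L Y F b} := rfl
  have hc := part_cases hL hb hF (piF L Y F a)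
  generalize piF L Y F ⁻¹' {piF L Y F a} = C at *
  generalize piF L Y F ⁻¹' {piF L Y F b} = N' at *
  have s0 := cl_str hL w hN' Z
  have s1 := cl_sub hL hN' Z
  have one : ∀ x y, F.Adj x y → x ∈ Z → x ∈ C → L.m + δ ≤ D L (Y \ F) L.l (Z ∪ N') :=
    fun x y hxy hx hxC => hgap _ (hF.cold x y hxy _
      ⟨x, Or.inl hx, b, Or.inr hbN, fun e => hd x hxC (e ▸ hbN)⟩ (Or.inl hx))
  rcases hc with h | h | ⟨x, y, hxy, h⟩
  · rw [h, inter_empty, D_empty hL.n3]
    exact ⟨by linarith, fun _ => by linarith⟩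
  · have h1 := cl_sub hL h Z
    have h2 := cl_sub hL hN' (Z ∪ C)
    have e : (Z ∪ C) ∩ N' = Z ∩ N' := by
      ext x
      exact ⟨fun hx => ⟨hx.1.resolve_right fun hC => hd x hC hx.2, hx.2⟩,
        fun hx => ⟨Or.inl hx.1, hx.2⟩⟩
    have h3 := hgap _ (cl_out (Z := Z ∪ C ∪ N') h (subset_union_right.trans subset_union_left)
      fun hsub => hd b (hsub (Or.inr hbN)) hbN)
    rw [e] at h2
    exact ⟨by linarith, fun _ => by linarith⟩
  · subst h
    rcases pair_cases x y Z with ⟨h1, h2⟩ | ⟨h1, h2⟩ | ⟨h1, h2⟩ | h2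
    · have h3 := pair_le (G := Y \ F) hL x y Z
      have h4 := hF.pair x y hxy (Z ∪ N') (Or.inl h1) (Or.inl h2)
      have h5 := hF.pair x y hxy (Z ∩ {x, y}) ⟨h1, Or.inl rfl⟩ ⟨h2, Or.inr rfl⟩
      exact ⟨by linarith, fun h6 => by linarith⟩
    · have h3 := one x y hxy h1 (Or.inl rfl)
      rw [h2, D_singleton hL.n3]
      exact ⟨by linarith, fun _ => by linarith⟩
    · have h3 := one y x hxy.symm h1 (Or.inr rfl)
      rw [h2, D_singleton hL.n3]
      exact ⟨by linarith, fun _ => by linarith⟩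
    · rw [h2, D_empty hL.n3]
      exact ⟨by linarith, fun _ => by linarith⟩

end

end Pool.Agent.Lib.MP_781e3b_co.CN
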