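import Pool.Agent.Lib.MP_781e3b_co.CN.RedFin0
import Pool.Agent.Lib.MP_781e3b_co.CN.Gadget
import Pool.Agent.Lib.MP_781e3b_co.CN.Ground2
import Pool.Agent.Lib.MP_781e3b_co.CN.Parts

/-!
Red copies: the matching cells, and the conclusion.
-/

namespace Pool.Agent.Lib.MP_781e3b_co.CN

open Set Function SimpleGraph

variable {K : Kit} {W : World K} {U' : Type} [Finite U'] {Y' : SimpleGraph U'} {B T : Set U'}
  {φ : U' → W.V × K.Φ}

namespace RedFinAux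

/-- No edges in the fibres and no members. -/
def nil (Φ : Type) : Fib Φ where
  Ψ := ⊥
  Mem := Empty
  nd := Empty.elim
  cls := Empty.elim
  opt := Empty.elim

/-- The graph of the edges of the cells in 𝒟. -/
def cG (W : World K) (𝒟 : Set W.Cell) : SimpleGraph (W.V × K.Φ) where
  Adj x y := x ≠ y ∧ ∃ c ∈ 𝒟, ∃ a b, (K.Y \ K.M).Adj a b ∧ x = W.ce c a ∧ y = W.ce c b
  symm := ⟨fun _ _ ⟨h, c, hc, a, b, h1, h2, h3⟩ => ⟨h.symm, c, hc, b, a, h1.symm, h3, h2⟩⟩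
  loopless := ⟨fun _ h => h.1 rfl⟩

theorem num_congr {Ω V : Type} [Finite Ω] {L : Lv} {G G₁ : SimpleGraph Ω} {gr : Ω → V} {S : Set Ω}
    (h : Num L G gr S) (hh : ∀ a ∈ S, ∀ b ∈ S, G.Adj a b ↔ G₁.Adj a b) : Num L G₁ gr S := by
  have e : ∀ j, ∀ Z ⊆ S, D L G₁ j Z = D L G j Z := fun j Z hZ =>
    D_congr fun a ha b hb => hh a (hZ ha) b (hZ hb)
  refine ⟨⟨fun j hj Z hZ hn => ?_, fun Z hZ h1 h2 => ?_⟩, fun v Z hZ => ?_,
    fun v j hj Z hZ h1 => ?_, fun Z hZ h1 => ?_⟩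
  · rw [e j Z hZ]
    exact h.w1.ge j hj Z hZ hn
  · rw [e 0 Z hZ]
    exact h.w1.small Z hZ h1 h2
  · rw [e _ Z hZ, e _ _ (inter_subset_left.trans hZ)]
    exact h.str v Z hZ
  · rw [e j Z hZ] at h1
    exact h.fs v j hj Z hZ h1
  · rw [e _ Z hZ] at h1
    exact h.t Z hZ h1

theorem cross (hR : W.ROK) {c : W.Cell} (hc : W.sg c = false) {a b : K.U}
    (h : (K.Y \ K.M).Adj a b) : (W.ce c a).1 ≠ (W.ce c b).1 := fun e =>
  (((hR.cell c).mu hc a b).1 e).elim h.ne h.2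

theorem mem_g {c : W.Cell} (hc : W.sg c = false) {a b : K.U} (h : (K.Y \ K.M).Adj a b) :
    (W.ce c a).1 ∈ W.g c := by
  rw [World.g, hc]
  exact ⟨a, ⟨b, h⟩, rfl⟩

theorem ctx (hK : K.OK) (hR : W.ROK) {𝒟 : Set W.Cell} (h : ∀ c ∈ 𝒟, W.sg c = false) :
    Ctx K.L (nil K.Φ) (cG W 𝒟) := by
  obtain ⟨u, -⟩ := hK.edge
  refine ⟨hK.hL, ⟨⟨Sum.inl u⟩, w1_noedge hK.hL fun _ _ _ _ h => h, fun μ => μ.elim,
    fun μ => μ.elim, fun μ => μ.elim⟩, fun v x y => ⟨?_, fun h => h.elim⟩⟩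
  rintro ⟨-, c, hc, a, b, h1, h2, h3⟩
  exact (cross hR (h c hc) h1 (by rw [← h2, ← h3])).elim

theorem one (hK : K.OK) (hR : W.ROK) {c : W.Cell} (hc : W.sg c = false) :
    Num K.L (cG W {c}) Prod.fst (up univ) := by
  have hi := (hR.cell c).inj
  refine GAtom.good (Γ := K.Y \ K.M) (ι := W.ce c) (F := nil K.Φ)
    ⟨ctx hK hR fun _ h => h ▸ hc, hi, fun a b => ⟨fun h => ⟨hi.ne h.ne, c, rfl, a, b, h, rfl, rfl⟩,
      ?_⟩, ?_, fun _ _ h => h.elim, (parts_num hK.hL hK.bd hK.hM).congr hK.hL fun a b => ?_⟩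
  · rintro ⟨-, _, rfl, a', b', h, h1, h2⟩
    rwa [hi h1, hi h2]
  · rintro x y ⟨-, _, rfl, a', b', -, h1, h2⟩ - - -
    exact ⟨⟨a', h1.symm⟩, b', h2.symm⟩
  · rw [piF_eq hK.hL hK.bd hK.hM, (hR.cell c).mu hc]
    refine or_congr_left ⟨?_, fun h => h ▸ mem_cl hK.hL a⟩
    rintro ⟨Z, hZ, ha, hb⟩
    by_contra hne
    obtain ⟨T, -, hT⟩ := hZ.top hK.hL (hK.bd.sub hK.hL sdiff_le).w1 ⟨a, ha, b, hb, hne⟩
    exact hK.noTop T hT

theorem has_edge {L : Lv} (hL : L.OK) (hT : Top L Y' (L.l - 1) T) :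
    ∃ u ∈ T, ∃ v ∈ T, Y'.Adj u v := by
  have h1 := (hT.tt hL).2
  have h2 := hL.m1
  exact exists_edge hL (nontrivial_of_three (hT.three hL.n3)) (j := L.l)
    (by linarith)

omit [Finite U'] in
theorem nbr (hB : TwoC Y' B) {u : U'} (hu : u ∈ B) : ∃ v ∈ B, Y'.Adj u v := by
  obtain ⟨w, hw, h1, -⟩ := BridgeAux.third hB.1 u u
  obtain ⟨x, -, h2, h3⟩ := BridgeAux.third hB.1 u w
  rcases (hB.2 x u hu w hw h2 h3).cases_head with h | ⟨v, h, -⟩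
  · exact (h1 h).elim
  · exact ⟨v, h.2.2.1, h.1⟩

end RedFinAux

open RedFinAux

/-- Let 𝒟 be the set of the chosen cells and G the graph of their edges; use the fibre data
with Ψ = ⊥ and no members, and the sets N c = g c: r1 gives Sep, so sf_of_sep. Over g c the cross edges are those of c (r1); GAtom with Γ = Y \ M
(parts_num, Num.congr; clusters of Y \ M are points by noTop, Tt.top), where for adj one
takes the graph of c alone and then uses D_congr on up (g c) (or Good.map with f = id).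
good_sf gives Num.t; but φ '' T has D ≤ m (Top.tt, D_hom) and holds an edge, whose ends
lie in different fibres. -/
theorem red_mu (hK : K.OK) (hR : W.ROK) (hN : Nat.card U' ≤ K.N)
    (hT : Top K.L Y' (K.L.l - 1) T) (hφ : Injective φ) (cell : U' → U' → W.Cell)
    (he : ∀ u ∈ T, ∀ v ∈ T, Y'.Adj u v → W.sg (cell u v) = false ∧ ∃ a b, (K.Y \ K.M).Adj a b ∧
      φ u = W.ce (cell u v) a ∧ φ v = W.ce (cell u v) b) : False := by
  set 𝒟 : Set W.Cell := {c | ∃ u ∈ T, ∃ v ∈ T, Y'.Adj u v ∧ cell u v = c} with h𝒟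
  have hs : ∀ c ∈ 𝒟, W.sg c = false := by
    rintro _ ⟨u, hu, v, hv, h, rfl⟩
    exact (he u hu v hv h).1
  have hc : ∀ z, (𝒟 \ {z}).ncard ≤ K.N ^ 2 := fun z => by
    have h1 : 𝒟 \ {z} ⊆ (fun p : U' × U' => cell p.1 p.2) '' univ := by
      rintro _ ⟨⟨u, -, v, -, -, rfl⟩, -⟩
      exact ⟨(u, v), trivial, rfl⟩
    refine ((ncard_le_ncard h1).trans (ncard_image_le)).trans ?_
    rw [ncard_univ, Nat.card_prod, sq]
    exact Nat.mul_le_mul hN hN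
  have hx := ctx hK hR hs
  have hsep : RR.Sep W.g W.g 𝒟 := fun z _ a ha b hb h =>
    hR.r1 _ (hc z) z (fun h => h.2 rfl) a ha b hb
      (Relation.ReflTransGen.mono (fun _ _ ⟨c, h1, h2, h3⟩ => ⟨c, ⟨h1, h2⟩, h3⟩) _ _ h)
  have hin : ∀ x y, (cG W 𝒟).Adj x y → ∃ z ∈ 𝒟, x.1 ∈ W.g z ∧ y.1 ∈ W.g z := by
    rintro _ _ ⟨-, c, h1, a, b, h, rfl, rfl⟩
    exact ⟨c, h1, mem_g (hs c h1) h, mem_g (hs c h1) h.symm⟩
  have hg : ∀ z ∈ 𝒟, Good K.L (nil K.Φ) (cG W 𝒟) (univ ∩ RR.Un W.g 𝒟 ∩ W.g z) := fun z hz => by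
    refine ⟨num_congr ((one hK hR (hs z hz)).mono fun _ _ => trivial) fun x hx y hy => ⟨?_, ?_⟩,
      fun _ _ _ _ ⟨s, _⟩ => s.2.elim⟩
    · rintro ⟨h0, _, rfl, h⟩
      exact ⟨h0, _, hz, h⟩
    · rintro ⟨h0, c, h1, a, b, h, rfl, rfl⟩
      by_cases e : c = z
      · exact ⟨h0, c, e, a, b, h, rfl, rfl⟩
      · exact (cross hR (hs c h1) h (hsep z hz _ hx.2 _ hy.2 (.single
          ⟨c, h1, e, mem_g (hs c h1) h, mem_g (hs c h1) h.symm⟩))).elim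
  have g1 := (good_sf hx (sf_of_sep (toFinite 𝒟) hsep) inter_subset_right
    (fun x y h _ _ _ => hin x y h) hg).1
  have g2 := (good_iso hx (A := univ) (RR.Un W.g 𝒟)
    (fun x y h _ _ _ => (hin x y h).imp fun _ h => ⟨h.1, h.2.1⟩) g1).1
  have hd : D K.L (cG W 𝒟) K.L.l (φ '' T) ≤ K.L.m := by
    refine (D_hom (hK.hL.P le_rfl) hφ.injOn fun u hu v hv h => ?_).trans (hT.tt hK.hL).2
    obtain ⟨-, a, b, h1⟩ := he u hu v hv h
    exact ⟨hφ.ne h.ne, cell u v, ⟨u, hu, v, hv, h, rfl⟩, a, b, h1⟩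
  obtain ⟨u, hu, v, hv, h⟩ := has_edge hK.hL hT
  obtain ⟨h0, a, b, h1, h2, h3⟩ := he u hu v hv h
  refine cross hR h0 h1 ?_
  rw [← h2, ← h3]
  exact g2.num.t _ (fun _ _ => trivial) hd _ ⟨u, hu, rfl⟩ _ ⟨v, hv, rfl⟩

/-- If an edge inside B goes to X: red_X. Else choose cells; red_sigma (then TwoC.hom,
Top.hom, Kit.OK.hit, and every point of B has an edge in B) or red_mu. -/
theorem red_final (hK : K.OK) (hR : W.ROK) (hN : Nat.card U' ≤ K.N) (hB : TwoC Y' B) (hTB : T ⊆ B)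
    (hT : Top K.L Y' (K.L.l - 1) T) (hb : B.ncard = K.b) (hφ : Injective φ)
    (he : ∀ u v, Y'.Adj u v → W.R (φ u) (φ v)) :
    K.px ∧ (Y'.Connected → Pool.Agent.Lib.MP_781e3b_co.Emb Y' K.Y.Adj) := by
  by_cases hx : ∃ u v, Y'.Adj u v ∧ u ∈ B ∧ v ∈ B ∧ K.X (φ u).2 (φ v).2
  · obtain ⟨u, v, -, -, -, hx⟩ := hx
    exact ⟨hx.1, red_X hR hφ he hx⟩
  exfalso
  have h1 : ∀ u ∈ B, ∀ v ∈ B, Y'.Adj u v → W.CE (φ u) (φ v) := fun u hu v hv h =>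
    (he u v h).resolve_left fun h' => hx ⟨u, v, h, hu, hv, h'.2⟩
  obtain ⟨u₁, hu₁, v₁, hv₁, h₁⟩ := has_edge hK.hL hT
  obtain ⟨c₁, -⟩ := h1 u₁ (hTB hu₁) v₁ (hTB hv₁) h₁
  have h2 : ∀ u v, ∃ c, u ∈ B → v ∈ B → Y'.Adj u v →
      ∃ a b, (K.cg (W.sg c)).Adj a b ∧ φ u = W.ce c a ∧ φ v = W.ce c b := fun u v => by
    by_cases h : u ∈ B ∧ v ∈ B ∧ Y'.Adj u v
    · obtain ⟨c, hc⟩ := h1 u h.1 v h.2.1 h.2.2
      exact ⟨c, fun _ _ _ => hc⟩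
    · exact ⟨c₁, fun a b c => (h ⟨a, b, c⟩).elim⟩
  choose cell hcell using h2
  by_cases hs : ∃ u ∈ B, ∃ v ∈ B, Y'.Adj u v ∧ W.sg (cell u v) = true
  · obtain ⟨u₀, hu, v₀, hv, h₀, hs⟩ := hs
    obtain ⟨f, hf, hh⟩ := red_sigma hR hN hB hφ cell (fun u hu v hv => hcell u v hu hv) hu hv h₀ hs
    obtain ⟨_, hS, u, hu, rfl⟩ := hK.hit (f '' B) (hB.hom hf fun u hu v hv h => (hh u hu v hv h).1)
      ⟨f '' T, image_mono hTB, hT.hom (hK.hL.P (Nat.sub_le _ _)) (hf.mono hTB)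
        fun u hu v hv h => (hh u (hTB hu) v (hTB hv) h).1⟩ (by rw [hf.ncard_image, hb])
    obtain ⟨v, hv, h⟩ := nbr hB hu
    exact (hh u hu v hv h).2 ⟨(hh u hu v hv h).1, Or.inl hS⟩
  · refine red_mu hK hR hN hT hφ cell fun u hu v hv h => ?_
    have e : W.sg (cell u v) = false :=
      Bool.eq_false_iff.2 fun e => hs ⟨u, hTB hu, v, hTB hv, h, e⟩
    have h3 := hcell u v (hTB hu) (hTB hv) h
    rw [e] at h3
    exact ⟨e, h3⟩

end Pool.Agent.Lib.MP_781e3b_co.CN
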