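import Pool.Agent.Lib.MP_781e3b_co.CN.Pattern1

/-!
The patterns E(i) and their bounds (1.4).
-/

namespace Pool.Agent.Lib.MP_781e3b_co.CN

open Set Function SimpleGraph

variable {Ω : Type} [Finite Ω] {L : Lv} {Y E E' F₀ : SimpleGraph Ω} {i j : ℕ} {κ : ℝ}

namespace PatternAux

theorem nontrivial_of_ec {C : Set Ω} (h : 1 ≤ ec E C) : C.Nontrivial := by
  obtain ⟨T, hT, a, b, hab, rfl⟩ := one_le_cnt.1 h
  exact ⟨a, hT (by simp), b, hT (by simp), hab.ne⟩

theorem ec_pos {C : Set Ω} {a b : Ω} (ha : a ∈ C) (hb : b ∈ C) (hab : E.Adj a b) :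
    1 ≤ ec E C :=
  one_le_cnt.2 ⟨{a, b}, by
    intro x hx
    rcases hx with rfl | rfl
    · exact ha
    · exact hb, a, b, hab, rfl⟩

end PatternAux

open PatternAux

/-- Y \ E has no top of level i or higher (exists_top), so D j = D (i + 1) = D i there for
j > i. -/
theorem ph_level (hL : L.OK) (hb : Bd L Y) (hF : F₀ ≤ Y) (hn : ∀ T, ¬ Mk L (Y \ F₀) T)
    (hi : i < L.l) (h0 : 2 * L.m - L.θ i ≤ κ) (h1 : κ < 2 * L.m - L.θ (i + 1)) :
    ∃ E ≤ F₀, PH L (Y \ E) E κ κ := by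
  obtain ⟨E, hE, hN, hT, hU⟩ := exists_E hL hb hF hn hi
  have ph := fun j (hj : j ≤ i + 1) => phantom (E := E) (j := j) hL hb hi hN hU hj
  have hbΓ : Bd L (Y \ E) := hb.sub hL sdiff_le
  have hθ : L.θ i ≤ 2 * L.m - 1 := hL.θ_le hi.le
  have base : ∀ T, ¬ Top L (Y \ E) i T := by
    intro T h
    have hY : Top L Y i T := h.mono (hL.P hi.le) fun a _ b _ hab => hab.1
    obtain ⟨a, ha, b, hb', hab⟩ := hT T hY
    have hr : (1 : ℝ) ≤ ec E T := by exact_mod_cast ec_pos ha hb' hab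
    have h2 := ph i (Nat.le_succ i) T (nontrivial_of_three (h.three hL.n3))
    have h3 := h.2.1
    nlinarith
  have notop : ∀ k, i + k < L.l → ∀ T, ¬ Top L (Y \ E) (i + k) T := by
    intro k
    induction k with
    | zero => exact fun _ => base
    | succ k ih =>
      intro hk T h
      have hk' : i + k < L.l := by omega
      obtain ⟨T', -, h'⟩ := exists_top hL hbΓ.w1 hk' (subset_univ T)
        (nontrivial_of_three (h.three hL.n3)) h.2.1
      exact ih hk' T' h'
  have flat : ∀ j, i ≤ j → j ≤ L.l → ∀ C, D L (Y \ E) j C = D L (Y \ E) i C := by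
    intro j h1 h2 C
    refine D_notop h1 fun i' h3 h4 T _ => ?_
    obtain ⟨k, rfl⟩ := Nat.exists_eq_add_of_le h3
    exact notop k (by omega) T
  have up : ∀ C : Set Ω, 1 ≤ ec E C → 2 * L.m ≤ D L (Y \ E) i C - κ * (ec E C - 1) := by
    intro C hC
    have hr : (1 : ℝ) ≤ ec E C := by exact_mod_cast hC
    have h2 := ph (i + 1) le_rfl C (nontrivial_of_ec hC)
    rw [flat (i + 1) (Nat.le_succ i) hi] at h2
    nlinarith [mul_nonneg (sub_nonneg.2 hr) (sub_nonneg.2 h1.le)]
  refine ⟨E, hE, ?_, ?_, ?_⟩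
  · intro C hC
    rw [flat L.l hi.le le_rfl]
    rcases Nat.eq_zero_or_pos (ec E C) with h | h
    · have h2 := ph i (Nat.le_succ i) C hC
      rw [h] at h2 ⊢
      simp only [Nat.cast_zero, zero_mul, mul_zero, add_zero, sub_zero] at h2 ⊢
      linarith
    · have h2 := up C h
      linarith
  · intro C hC
    rw [flat L.l hi.le le_rfl]
    exact up C hC
  · intro j hj C hC
    rcases le_or_gt j (i + 1) with h | h
    · exact Or.inl (ph j h C (nontrivial_of_ec hC))
    · right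
      rw [flat j (by omega) hj.le]
      have h2 := up C hC
      have h3 : L.θ j ≤ L.θ (i + 1) := Lv.θ_anti (hL.P hj.le) h.le
      linarith

/-- κ < 1: ph_zero. Else take the least i with κ < 2m - θ (i + 1). -/
theorem exists_pattern (hL : L.OK) (hb : Bd L Y) (hF : IndF Y F₀) (hn : ∀ T, ¬ Mk L (Y \ F₀) T)
    (h0 : 0 ≤ κ) (h1 : κ < L.m) : ∃ E, IndF Y E ∧ PH L (Y \ E) E κ (max 1 κ) := by
  rcases lt_or_ge κ 1 with h | h
  · rw [max_eq_left h.le]
    exact ⟨F₀, hF, ph_zero hL hb hF.1 hn h0 h⟩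
  · rw [max_eq_right h]
    have hl : L.l - 1 + 1 = L.l := Nat.sub_add_cancel hL.l1
    have hlast : κ < 2 * L.m - L.θ (L.l - 1 + 1) := by
      rw [hl, hL.last]
      linarith
    classical
    have hex : ∃ i, κ < 2 * L.m - L.θ (i + 1) := ⟨_, hlast⟩
    have hle : Nat.find hex ≤ L.l - 1 := Nat.find_min' hex hlast
    have hlow : 2 * L.m - L.θ (Nat.find hex) ≤ κ := by
      rcases Nat.eq_zero_or_pos (Nat.find hex) with hz | hz
      · rw [hz]
        simp only [Lv.θ]
        linarith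
      · have h2 := Nat.find_min hex (Nat.sub_lt hz Nat.one_pos)
        rw [Nat.sub_add_cancel hz] at h2
        exact not_lt.1 h2
    obtain ⟨E, hE, hP⟩ := ph_level hL hb hF.1 hn (by omega) hlow (Nat.find_spec hex)
    exact ⟨E, hF.mono hE, hP⟩

end Pool.Agent.Lib.MP_781e3b_co.CN
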