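import Pool.Agent.Lib.MP_781e3b_co.CN.TBeta0
import Pool.Agent.Lib.MP_781e3b_co.CN.Beta
import Pool.Agent.Lib.MP_781e3b_co.CN.Pattern

/-!
The beta template: blue side.
-/

namespace Pool.Agent.Lib.MP_781e3b_co.CN

open Set Function SimpleGraph

variable {K : Kit} {W : World K} {E : SimpleGraph K.U} {side : K.U → Bool} {κb κr κ' : ℝ}

namespace TBeta1Aux

/-- The position of a ground point. -/
def part (W : World K) (E : SimpleGraph K.U) (side : K.U → Bool) : bV W W.PR E side → W.PR :=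
  Sum.elim Prod.fst fun z => z.1.1

/-- The beta atom on the position p. -/
noncomputable def bd (W : World K) (E : SimpleGraph K.U) (side : K.U → Bool) (κr κ' : ℝ)
    (p : W.PR) : BData (bV W W.PR E side) K.Φ K.U (PE E side) where
  Γ := K.Y \ E
  Ep := E
  υ u := Sum.inl (p, u)
  lam u := if side u then p.1.2.2 else p.1.1.2
  x d := d.1.1
  y d := d.1.2
  Wd d := range (bTup W W.PR E side (p, d))
  κ := κr
  κ' := κ'

/-- The ground of the atom. -/
def cs (W : World K) (E : SimpleGraph K.U) (side : K.U → Bool) (p : W.PR) :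
    Set (bV W W.PR E side) :=
  range (fun u => Sum.inl (p, u)) ∪ ⋃ d, range (bTup W W.PR E side (p, d))

theorem part_tup (f : W.PR × PE E side) (k : W.V) :
    part W E side (bTup W W.PR E side f k) = f.1 := by
  unfold bTup tt
  split_ifs <;> rfl

theorem part_cs {p : W.PR} {v : bV W W.PR E side} (h : v ∈ cs W E side p) :
    part W E side v = p := by
  rcases h with ⟨u, rfl⟩ | h
  · rfl
  · obtain ⟨d, k, rfl⟩ := mem_iUnion.1 h
    exact part_tup (p, d) k

theorem tup_cs (f : W.PR × PE E side) : range (bTup W W.PR E side f) ⊆ cs W E side f.1 :=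
  fun _ h => Or.inr (mem_iUnion.2 ⟨f.2, h⟩)

theorem inl_cs (p : W.PR) (u : K.U) : (Sum.inl (p, u) : bV W W.PR E side) ∈ cs W E side p :=
  Or.inl ⟨u, rfl⟩

theorem cross {x y : bV W W.PR E side × K.Φ} (h : (betaT W E side).B.Adj x y) (hne : x.1 ≠ y.1) :
    (∃ f, x.1 ∈ range (bTup W W.PR E side f) ∧ y.1 ∈ range (bTup W W.PR E side f)) ∨
      ∃ p u v, (K.Y \ E).Adj u v ∧ x = bι W W.PR E side p u ∧ y = bι W W.PR E side p v := by
  rcases Tm.cross_cases h hne with ⟨f, x', y', -, rfl, rfl⟩ | h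
  · exact Or.inl ⟨f, ⟨x'.1, rfl⟩, ⟨y'.1, rfl⟩⟩
  · exact Or.inr ((placed_adj fun p => bι_inj p).1 h)

theorem cross_cs {x y : bV W W.PR E side × K.Φ} (h : (betaT W E side).B.Adj x y)
    (hne : x.1 ≠ y.1) : ∃ p, x.1 ∈ cs W E side p ∧ y.1 ∈ cs W E side p := by
  rcases cross h hne with ⟨f, h1, h2⟩ | ⟨p, u, v, -, rfl, rfl⟩
  · exact ⟨f.1, tup_cs f h1, tup_cs f h2⟩
  · exact ⟨p, inl_cs p u, inl_cs p v⟩

theorem ctx (hK : K.OK) (hW : W.BOK κb κr) (hs : ∀ u v, E.Adj u v → side u ≠ side v) :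
    Ctx K.L K.fib (betaT W E side).B :=
  ⟨hK.hL, hK.fib, (beta_pre hW hs).fib hW.fib⟩

theorem bd_ok (hK : K.OK) (hW : W.BOK κb κr)
    (hs : ∀ u v, E.Adj u v → side u ≠ side v) (hp : PH K.L (K.Y \ E) E κr κ') (h0 : 0 ≤ κr)
    (h1 : κr ≤ κ') (h2 : κ' < K.L.m) (p : W.PR) (A : Set (bV W W.PR E side))
    (hA : A.ncard ≤ K.N) :
    (bd W E side κr κ' p).OK K.L K.fib (betaT W E side).B (A ∩ cs W E side p) := by
  have hP : ∀ p ∈ W.PR, p.1.1 ≠ p.2.1 := fun p hp => (hW.pr p hp).2.1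
  have hN : ∀ f : W.PR × PE E side,
      (bTup W W.PR E side f ⁻¹' (A ∩ cs W E side p)).ncard ≤ K.N := fun f =>
    (ncard_preimage_le (bTup_inj f)).trans
      ((ncard_le_ncard inter_subset_left (toFinite _)).trans hA)
  refine ⟨ctx hK hW hs, fun u v h => ?_, inter_subset_right, fun d u => ?_, fun d d' h v hv => ?_,
    fun d => d.2.1, fun d d' h => ?_, fun x y h hx hy hne => ?_, fun d => ?_, fun d => ?_,
    (hK.bd.sub hK.hL sdiff_le).w1, hp, h0, h1, h2⟩
  · exact congrArg Prod.snd (Sum.inl_injective h)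
  · exact (inl_mem_bTup hP (p, d) p u).trans (and_iff_right rfl)
  · have hd : ((p, d) : W.PR × PE E side) ≠ (p, d') := fun e => h (congrArg Prod.snd e)
    obtain ⟨u, rfl, h3, -⟩ := tt_meet hd hv.1 hv.2
    rcases h3 with rfl | rfl
    · exact ⟨_, rfl⟩
    · exact ⟨_, rfl⟩
  · refine congrArg Prod.snd (bTup_simple (W := W) (P := W.PR) hs (p, d) (p, d') ?_)
    have := congrArg (image (Prod.mk p)) h
    rwa [image_pair, image_pair] at this
  · rcases cross h hne with ⟨f, h3, h4⟩ | ⟨q, u, v, h3, rfl, rfl⟩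
    · obtain ⟨q, d⟩ := f
      obtain rfl : q = p := (part_cs (tup_cs _ h3)).symm.trans (part_cs hx.2)
      exact Or.inl ⟨d, h3, h4⟩
    · obtain rfl : q = p := part_cs hx.2
      exact Or.inr ⟨u, v, h3, rfl, rfl⟩
  · exact Good.map (hW.ctx hK) (bTup_inj (p, d)) ((beta_pre hW hs).ind hW.fib (p, d))
      (hW.good _ (hN _))
  · have h3 := PosR.map (bTup_inj (p, d)) ((beta_pre hW hs).ind hW.fib (p, d))
      ((hW.pr p.1 p.2).2.2.2.2 _ (hN (p, d)))
    have e1 : bTup W W.PR E side (p, d) p.1.1.1 = Sum.inl (p, d.1.1) :=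
      congrArg Prod.fst (bTup_fst (p, d))
    have e2 : bTup W W.PR E side (p, d) p.1.2.1 = Sum.inl (p, d.1.2) :=
      congrArg Prod.fst (bTup_snd hs hP (p, d))
    rw [e1, e2] at h3
    exact h3

theorem good_root (hK : K.OK) (hW : W.BOK κb κr)
    (hs : ∀ u v, E.Adj u v → side u ≠ side v) (hp : PH K.L (K.Y \ E) E κr κ') (h0 : 0 ≤ κr)
    (h1 : κr ≤ κ') (h2 : κ' < K.L.m) (A : Set (bV W W.PR E side)) (hA : A.ncard ≤ K.N) :
    Good K.L K.fib (betaT W E side).B A ∧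
      ∀ p, Root K.L K.fib (betaT W E side).B A (cs W E side p) := by
  have hc := ctx hK hW hs
  have he : ∀ p, A ∩ (⋃ q, cs W E side q) ∩ part W E side ⁻¹' {p} =
      A ∩ (⋃ q, cs W E side q) ∩ cs W E side p := fun p => by
    ext v
    refine and_congr_right fun hv => ⟨fun h => ?_, fun h => part_cs h⟩
    obtain ⟨q, hq⟩ := mem_iUnion.1 hv.2
    obtain rfl : q = p := (part_cs hq).symm.trans h
    exact hq
  obtain ⟨a, b⟩ := good_parts hc (A := A ∩ ⋃ q, cs W E side q) (part W E side)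
    (fun x y h _ _ => by
      by_cases hne : x.1 = y.1
      · rw [hne]
      · obtain ⟨q, h3, h4⟩ := cross_cs h hne
        rw [part_cs h3, part_cs h4])
    (fun p => by
      rw [he]
      exact (bd_ok hK hW hs hp h0 h1 h2 p A hA).good_all.mono fun v hv => ⟨hv.1.1, hv.2⟩)
  obtain ⟨c, d⟩ := good_iso hc (A := A) (⋃ q, cs W E side q)
    (fun x y h _ _ hne => by
      obtain ⟨q, h3, -⟩ := cross_cs h hne
      exact mem_iUnion.2 ⟨q, h3⟩) a
  exact ⟨c, fun p => d.trans ((b p).congr (he p)) fun v hv => mem_iUnion.2 ⟨p, hv.2⟩⟩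

end TBeta1Aux

/-- good_parts for the map to W.PR. The part of p is a beta atom with Γ = Y \ E, Ep = E,
υ u = inl (p, u), Wd d = range (bTup (p, d)) (Good.map, PosR.map, Pre.ind), together
with points in no hyperedge (good_iso). Then
Root.trans; old positions by PosB.map, PosB.raise; new ones by OK.posB. -/
theorem beta_bok (hK : K.OK) (hW : W.BOK κb κr) (hE : E ≤ K.Y)
    (hs : ∀ u v, E.Adj u v → side u ≠ side v) (hp : PH K.L (K.Y \ E) E κr κ') (h0 : 0 ≤ κr)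
    (h1 : κr ≤ κ') (h2 : κ' < K.L.m) :
    (betaT W E side).w.BOK (max κb κ') 0 ∧ (betaT W E side).Rooted := by
  have hpre := beta_pre hW hs
  have hg := TBeta1Aux.good_root hK hW hs hp h0 h1 h2
  have hr : (betaT W E side).Rooted := fun f A hA =>
    ((hg A hA).2 f.1).trans ((TBeta1Aux.bd_ok hK hW hs hp h0 h1 h2 f.1 A hA).root f.2)
      fun v hv => TBeta1Aux.tup_cs f hv.2
  refine ⟨⟨hpre.fib hW.fib, fun A hA => (hg A hA).1, ?_, fun p hp => hp.elim⟩, hr⟩
  rintro _ (⟨f, p₀, h3, rfl⟩ | ⟨q, u, v, h3, rfl⟩)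
  · obtain ⟨a, b, c, d⟩ := hW.pb p₀ h3
    refine ⟨(hpre.ind hW.fib f _ _).1 a, fun e => b (bTup_inj f e), c, fun A hA => ?_⟩
    exact (PosB.raise (hr f A hA) ⟨_, rfl⟩ ⟨_, rfl⟩ (PosB.map (bTup_inj f) (hpre.ind hW.fib f)
      (d _ ((ncard_preimage_le (bTup_inj f)).trans hA)))).le (le_max_left _ _)
  · obtain ⟨-, -, c, d, -⟩ := hW.pr q.1 q.2
    refine ⟨(betaT W E side).adj_new ((placed_adj fun p => bι_inj p).2 ⟨q, u, v, h3, rfl, rfl⟩),
      fun e => h3.ne (congrArg Prod.snd (Sum.inl_injective e)), ?_, fun A hA => ?_⟩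
    · change K.NP (if side v then q.1.2.2 else q.1.1.2)
      split_ifs
      · exact d
      · exact c
    · exact (PosB.raise ((hg A hA).2 q) (TBeta1Aux.inl_cs q u) (TBeta1Aux.inl_cs q v)
        ((TBeta1Aux.bd_ok hK hW hs hp h0 h1 h2 q A hA).posB h3.ne)).le (le_max_right _ _)

theorem step_beta (hK : K.OK) (hW : W.BOK κb κr) (hR : W.ROK) (hf : W.Forc PC) (h0 : 0 ≤ κr)
    (h1 : κr < K.L.m) :
    ∃ W' : World K, W'.BOK (max κb (max 1 κr)) 0 ∧ W'.ROK ∧ W'.Forc PC ∧ W'.PR = ∅ := by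
  rcases W.PR.eq_empty_or_nonempty with he | hne
  · exact ⟨W, (hW.noR he).le (le_max_left _ _) le_rfl, hR, hf, he⟩
  obtain ⟨E, hE, hp⟩ := exists_pattern hK.hL hK.bd hK.hF₀ hK.noMk h0 h1
  obtain ⟨side, hs⟩ := hE.side
  obtain ⟨a, b⟩ := beta_bok hK hW hE.1 hs hp h0 (le_max_right _ _) (max_lt hK.hL.m1 h1)
  obtain ⟨W', c, d, e, -, f, -⟩ := rr_step hK (betaT W E side) (beta_pre hW hs) (beta_ord hW hs) hW
    hR a b (beta_rt hE hs) (beta_forc hW hs hf hne)
  exact ⟨W', c, d, e, f rfl⟩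

end Pool.Agent.Lib.MP_781e3b_co.CN
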