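import Pool.Agent.Lib.MP_781e3b_co.CN.TFin0
import Pool.Agent.Lib.MP_781e3b_co.CN.Pattern

/-!
The last template: blue side.
-/

namespace Pool.Agent.Lib.MP_781e3b_co.CN

open Set Function SimpleGraph

variable {K : Kit} {W : World K} {o : W.V → ℕ} {κ : ℝ}

/-- The core of the position p. -/
def finCore (W : World K) (o : W.V → ℕ) (p : W.PR) : Set (finT W o).V :=
  {v | (∃ u, v = Sum.inl (p, u)) ∨
    ∃ d : K.UE, K.F₀.Adj d.1.1 d.1.2 ∧ ∃ k : W.V, v = (finT W o).tup (p, d) (Sum.inl k)}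

namespace TFin1Aux

/-- The labels of the reference pair of the position p. -/
abbrev qq (p : W.PR) : K.U × K.U := (K.un p.1.1.2, K.un p.1.1.2)

theorem finP_neg {f : W.PR × K.UE} (h : ¬ K.F₀.Adj f.2.1.1 f.2.1.2) (s : Bool) :
    finP W o s f = Sum.inr (qq f.1, s) := by
  unfold finP
  rw [if_neg h]

theorem finP_pos {f : W.PR × K.UE} (h : K.F₀.Adj f.2.1.1 f.2.1.2) :
    (finP W o false f = Sum.inl f.1.1.1.1 ∧ finP W o true f = Sum.inl f.1.1.2.1) ∨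
      (finP W o false f = Sum.inl f.1.1.2.1 ∧ finP W o true f = Sum.inl f.1.1.1.1) := by
  unfold finP
  rw [if_pos h, if_pos h]
  by_cases e : o f.1.1.1.1 < o f.1.1.2.1
  · exact Or.inl ⟨by simp [e], by simp [e]⟩
  · exact Or.inr ⟨by simp [e], by simp [e]⟩

theorem tp_false (f : W.PR × K.UE) :
    (finT W o).tup f (finP W o false f) = Sum.inl (f.1, f.2.1.1) :=
  tt_α (x := fun f : W.PR × K.UE => (f.1, f.2.1.1)) (y := fun f : W.PR × K.UE => (f.1, f.2.1.2))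
    (α := finP W o false) (β := finP W o true)

theorem tp_true {κb : ℝ} (hW : W.BOK κb κ) (f : W.PR × K.UE) :
    (finT W o).tup f (finP W o true f) = Sum.inl (f.1, f.2.1.2) :=
  tt_β (x := fun f : W.PR × K.UE => (f.1, f.2.1.1)) (y := fun f : W.PR × K.UE => (f.1, f.2.1.2))
    (α := finP W o false) (β := finP W o true) (finP_ne hW f)

theorem tp_inl {f : W.PR × K.UE} {k : (pairT W).w.V} {z : W.PR × K.U}
    (h : (finT W o).tup f k = Sum.inl z) :
    (k = finP W o false f ∧ z = (f.1, f.2.1.1)) ∨ (k = finP W o true f ∧ z = (f.1, f.2.1.2)) :=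
  tt_eq_inl (x := fun f : W.PR × K.UE => (f.1, f.2.1.1)) (y := fun f : W.PR × K.UE => (f.1, f.2.1.2))
    (α := finP W o false) (β := finP W o true) h

theorem tp_inr {f f' : W.PR × K.UE} {k k' : (pairT W).w.V}
    (h : (finT W o).tup f k = Sum.inr (f', k')) : f = f' ∧ k = k' :=
  have h' := tt_eq_inr (x := fun f : W.PR × K.UE => (f.1, f.2.1.1))
    (y := fun f : W.PR × K.UE => (f.1, f.2.1.2)) (α := finP W o false) (β := finP W o true) h
  ⟨h'.1, h'.2.1⟩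

theorem inl_core {p p' : W.PR} {u : K.U} : Sum.inl (p', u) ∈ finCore W o p ↔ p' = p := by
  refine ⟨?_, fun h => Or.inl ⟨u, by rw [h]⟩⟩
  rintro (⟨v, h⟩ | ⟨d, -, k, h⟩)
  · exact (Prod.ext_iff.1 (Sum.inl.inj h)).1
  · rcases tp_inl h.symm with ⟨-, h⟩ | ⟨-, h⟩ <;> exact (Prod.ext_iff.1 h).1

theorem inr_core {p : W.PR} {f : W.PR × K.UE} {k : (pairT W).w.V}
    (h : Sum.inr (f, k) ∈ finCore W o p) :
    f.1 = p ∧ K.F₀.Adj f.2.1.1 f.2.1.2 ∧ ∃ k', k = Sum.inl k' := by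
  rcases h with ⟨v, h⟩ | ⟨d, hd, k', h⟩
  · cases h
  · obtain ⟨rfl, rfl⟩ := tp_inr h.symm
    exact ⟨rfl, hd, k', rfl⟩

theorem mem_core {κb : ℝ} (hW : W.BOK κb κ) {p : W.PR} {f : W.PR × K.UE} {k : (pairT W).w.V} :
    (finT W o).tup f k ∈ finCore W o p ↔ f.1 = p ∧
      ((K.F₀.Adj f.2.1.1 f.2.1.2 ∧ ∃ k', k = Sum.inl k') ∨
        (¬ K.F₀.Adj f.2.1.1 f.2.1.2 ∧ ∃ s, k = Sum.inr (qq f.1, s))) := by
  constructor
  · intro h
    rcases e : (finT W o).tup f k with ⟨p', u⟩ | ⟨f', k'⟩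
    · rw [e] at h
      have h1 := inl_core.1 h
      have h2 : ∃ s, k = finP W o s f ∧ p' = f.1 := by
        rcases tp_inl e with ⟨h2, h3⟩ | ⟨h2, h3⟩ <;> exact ⟨_, h2, (Prod.ext_iff.1 h3).1⟩
      obtain ⟨s, rfl, h3⟩ := h2
      refine ⟨h3.symm.trans h1, ?_⟩
      by_cases hF : K.F₀.Adj f.2.1.1 f.2.1.2
      · refine Or.inl ⟨hF, ?_⟩
        rcases finP_pos (o := o) hF with ⟨a, b⟩ | ⟨a, b⟩ <;> cases s
        exacts [⟨_, a⟩, ⟨_, b⟩, ⟨_, a⟩, ⟨_, b⟩]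
      · exact Or.inr ⟨hF, s, finP_neg hF s⟩
    · rw [e] at h
      obtain ⟨rfl, rfl⟩ := tp_inr e
      exact ⟨(inr_core h).1, Or.inl (inr_core h).2⟩
  · rintro ⟨rfl, ⟨hF, k', rfl⟩ | ⟨hF, s, rfl⟩⟩
    · exact Or.inr ⟨f.2, hF, k', rfl⟩
    · rw [← finP_neg (o := o) hF s]
      cases s
      · rw [tp_false]
        exact inl_core.2 rfl
      · rw [tp_true hW]
        exact inl_core.2 rfl

theorem cross {x y : (finT W o).V × K.Φ} (h : (finT W o).B.Adj x y) (hne : x.1 ≠ y.1) :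
    ∃ f, (∃ x' y' : W.V × K.Φ, x = lift ((finT W o).tup f) (lift Sum.inl x') ∧
        y = lift ((finT W o).tup f) (lift Sum.inl y')) ∨
      ∃ q s, x = lift ((finT W o).tup f) (pι W q s) ∧
        y = lift ((finT W o).tup f) (pι W q (!s)) := by
  rcases Tm.cross_cases h hne with ⟨f, x', y', h1, rfl, rfl⟩ | h1
  · refine ⟨f, ?_⟩
    rcases pair_cross h1 (fun e => hne (congrArg ((finT W o).tup f) e)) with
      ⟨x'', y'', -, rfl, rfl⟩ | ⟨q, s, rfl, rfl⟩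
    · exact Or.inl ⟨_, _, rfl, rfl⟩
    · exact Or.inr ⟨_, _, rfl, rfl⟩
  · exact h1.elim

theorem ctx (hK : K.OK) (hW : W.BOK 1 κ) : Ctx K.L K.fib (finT W o).B :=
  ⟨hK.hL, hK.fib, fin_pre.fib (pair_bok hK hW le_rfl).fib⟩

theorem ind1 (hK : K.OK) (hW : W.BOK 1 κ) (f : W.PR × K.UE) (x y : (pairT W).w.V × K.Φ) :
    (pairT W).w.B.Adj x y ↔
      (finT W o).B.Adj (lift ((finT W o).tup f) x) (lift ((finT W o).tup f) y) :=
  fin_pre.ind (pair_bok hK hW le_rfl).fib f x y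

/-- The old ground inside the hyperedge f. -/
noncomputable def emb (W : World K) (o : W.V → ℕ) (f : W.PR × K.UE) (k : W.V) : (finT W o).V :=
  (finT W o).tup f (Sum.inl k)

theorem emb_inj (f : W.PR × K.UE) : Injective (emb W o f) :=
  (fin_pre.inj f).comp Sum.inl_injective

theorem ind2 (hK : K.OK) (hW : W.BOK 1 κ) (f : W.PR × K.UE) (x y : W.V × K.Φ) :
    W.B.Adj x y ↔ (finT W o).B.Adj (lift (emb W o f) x) (lift (emb W o f) y) :=
  (pair_pre.ind hW.fib () x y).trans (ind1 hK hW f _ _)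

theorem lab {κb : ℝ} (hW : W.BOK κb κ) (p : W.PR) : Sum.inr (K.un p.1.1.2) = p.1.1.2 := by
  obtain ⟨u, hu⟩ := (hW.pr p.1 p.2).2.2.1
  rw [hu]
  rfl

theorem lift_pι {κb : ℝ} (hW : W.BOK κb κ) {f : W.PR × K.UE} (hF : ¬ K.F₀.Adj f.2.1.1 f.2.1.2)
    (s : Bool) : lift ((finT W o).tup f) (pι W (qq f.1) s) =
      (Sum.inl (f.1, if s then f.2.1.2 else f.2.1.1), f.1.1.1.2) := by
  refine Prod.ext ?_ ?_
  · change (finT W o).tup f (Sum.inr (qq f.1, s)) = _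
    rw [← finP_neg (o := o) hF s]
    cases s
    · exact tp_false f
    · exact tp_true hW f
  · cases s <;> exact lab hW f.1

/-- The core as a beta atom. -/
noncomputable def bd (W : World K) (o : W.V → ℕ) (κ : ℝ) (p : W.PR) :
    BData (finT W o).V K.Φ K.U {d : K.UE // K.F₀.Adj d.1.1 d.1.2} where
  Γ := K.Y \ K.F₀
  Ep := K.F₀
  υ u := Sum.inl (p, u)
  lam _ := p.1.1.2
  x d := d.1.1.1
  y d := d.1.1.2
  Wd d := range (emb W o (p, d.1))
  κ := κ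
  κ' := 1

theorem emb_ends {κb : ℝ} (hW : W.BOK κb κ) {f : W.PR × K.UE} (hF : K.F₀.Adj f.2.1.1 f.2.1.2) :
    (emb W o f f.1.1.1.1 = Sum.inl (f.1, f.2.1.1) ∧ emb W o f f.1.1.2.1 = Sum.inl (f.1, f.2.1.2)) ∨
    (emb W o f f.1.1.2.1 = Sum.inl (f.1, f.2.1.1) ∧
      emb W o f f.1.1.1.1 = Sum.inl (f.1, f.2.1.2)) := by
  have a := tp_false (o := o) f
  have b := tp_true (o := o) hW f
  rcases finP_pos (o := o) hF with ⟨h1, h2⟩ | ⟨h1, h2⟩ <;> rw [h1] at a <;> rw [h2] at b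
  exacts [Or.inl ⟨a, b⟩, Or.inr ⟨a, b⟩]

theorem ends {κb : ℝ} (hW : W.BOK κb κ) {f : W.PR × K.UE} (hF : K.F₀.Adj f.2.1.1 f.2.1.2)
    (u : K.U) : Sum.inl (f.1, u) ∈ range (emb W o f) ↔ u = f.2.1.1 ∨ u = f.2.1.2 := by
  constructor
  · rintro ⟨k, hk⟩
    rcases tp_inl hk with ⟨-, h⟩ | ⟨-, h⟩
    exacts [Or.inl (Prod.ext_iff.1 h).2, Or.inr (Prod.ext_iff.1 h).2]
  · rintro (rfl | rfl) <;> rcases emb_ends (o := o) hW hF with ⟨a, b⟩ | ⟨a, b⟩
    exacts [⟨_, a⟩, ⟨_, a⟩, ⟨_, b⟩, ⟨_, b⟩]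

theorem bd_ok (hK : K.OK) (hW : W.BOK 1 κ) (h0 : 0 ≤ κ) (h1 : κ < 1) (p : W.PR)
    (A : Set (finT W o).V) (hA : A.ncard ≤ K.N) :
    (bd W o κ p).OK K.L K.fib (finT W o).B (A ∩ finCore W o p) := by
  have hs : ∀ f, (emb W o f ⁻¹' (A ∩ finCore W o p)).ncard ≤ K.N := fun f =>
    (ncard_preimage_le (emb_inj f)).trans ((ncard_le_ncard inter_subset_left).trans hA)
  refine ⟨ctx hK hW, fun u v h => (Prod.ext_iff.1 (Sum.inl.inj h)).2, ?_,
    fun d u => ends hW (f := (p, d.1)) d.2 u, ?_, fun d => d.2, ?_, ?_,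
    fun d => Good.map (hW.ctx hK) (emb_inj _) (ind2 hK hW _) (hW.good _ (hs _)), fun d => ?_,
    (hK.bd.sub hK.hL sdiff_le).w1, ph_zero hK.hL hK.bd hK.hF₀.1 hK.noMk h0 h1, h0, h1.le,
    hK.hL.m1⟩
  · rintro v ⟨-, ⟨u, rfl⟩ | ⟨d, hd, k, rfl⟩⟩
    · exact Or.inl ⟨u, rfl⟩
    · exact Or.inr (mem_iUnion.2 ⟨⟨d, hd⟩, k, rfl⟩)
  · rintro d d' hd v ⟨⟨k, hk⟩, k', hk'⟩
    rcases v with ⟨p', u⟩ | ⟨f, j⟩
    · rcases tp_inl hk with ⟨-, h⟩ | ⟨-, h⟩ <;> exact ⟨_, congrArg Sum.inl h.symm⟩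
    · exact (hd (Subtype.ext (Prod.ext_iff.1 ((tp_inr hk).1.trans (tp_inr hk').1.symm)).2)).elim
  · intro d d' h
    rcases pair_eq_pair_iff.1 h with ⟨a, b⟩ | ⟨a, b⟩
    · exact Subtype.ext (Subtype.ext (Prod.ext a b))
    · have c := d.1.2.2
      have c' := d'.1.2.2
      change d.1.1.1 = d'.1.1.2 at a
      change d.1.1.2 = d'.1.1.1 at b
      rw [a, b] at c
      exact (lt_asymm c c').elim
  · intro x y hxy hx hy hne
    obtain ⟨f, ⟨x', y', rfl, rfl⟩ | ⟨q, s, rfl, rfl⟩⟩ := cross hxy hne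
    · obtain ⟨rfl, ⟨hF, -⟩ | ⟨-, s, hs⟩⟩ := (mem_core hW).1 hx.2
      · exact Or.inl ⟨⟨f.2, hF⟩, ⟨x'.1, rfl⟩, y'.1, rfl⟩
      · cases hs
    · obtain ⟨rfl, ⟨-, k, hk⟩ | ⟨hF, s', hs⟩⟩ := (mem_core hW).1 hx.2
      · cases hk
      · obtain rfl : q = qq f.1 := (Prod.ext_iff.1 (Sum.inr.inj hs)).1
        have ha : (K.Y \ K.F₀).Adj f.2.1.1 f.2.1.2 := ⟨f.2.2.1, hF⟩
        refine Or.inr ⟨_, _, ?_, lift_pι hW hF s, lift_pι hW hF (!s)⟩
        cases s
        exacts [ha, ha.symm]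
  · have h := PosR.map (emb_inj (o := o) (p, d.1)) (ind2 hK hW _)
      ((hW.pr p.1 p.2).2.2.2.2 _ (hs (p, d.1)))
    rcases emb_ends (o := o) hW (f := (p, d.1)) d.2 with ⟨a, b⟩ | ⟨a, b⟩
    · rw [a, b] at h
      exact h
    · rw [a, b] at h
      exact h.symm

end TFin1Aux

open TFin1Aux

/-- The core is a beta atom with Γ = Y \ F₀, Ep = F₀, E = {d : UE // F₀.Adj ..},
lam u = p.1.2, Wd d = tup (p, d) '' range inl, κ' = 1 (ph_zero, pair_cross, Good.map,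
PosR.map, PosR.symm). For an edge of F₀ the hyperedge meets the core in Wd d (OK.root),
for another edge in its two ends (OK.root_pair). -/
theorem fin_core (hK : K.OK) (hW : W.BOK 1 κ) (_hl : W.LabEq) (h0 : 0 ≤ κ) (h1 : κ < 1) (p : W.PR)
    (A : Set (finT W o).V) (hA : A.ncard ≤ K.N) :
    Good K.L K.fib (finT W o).B (A ∩ finCore W o p) ∧
      ∀ d, Root K.L K.fib (finT W o).B (A ∩ finCore W o p)
        (range ((finT W o).tup (p, d)) ∩ finCore W o p) := by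
  have h := bd_ok hK hW h0 h1 p A hA
  refine ⟨h.good_all, fun d => ?_⟩
  by_cases hF : K.F₀.Adj d.1.1 d.1.2
  · refine (h.root ⟨d, hF⟩).congr (Subset.antisymm ?_ ?_)
    · rintro _ ⟨hv, k, rfl⟩
      exact ⟨hv, ⟨_, rfl⟩, hv.2⟩
    · rintro _ ⟨hv, ⟨k, rfl⟩, hc⟩
      obtain ⟨-, ⟨-, k', rfl⟩ | ⟨hn, -⟩⟩ := (mem_core hW).1 hc
      · exact ⟨hv, k', rfl⟩
      · exact (hn hF).elim
  · have ha : (K.Y \ K.F₀).Adj d.1.1 d.1.2 := ⟨d.2.1, hF⟩
    have hG : (pairT W).w.B.Adj (pι W (qq p) false) (pι W (qq p) true) :=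
      Tm.adj_new (T := pairT W) ((placed_adj pι_inj).2 ⟨qq p, false, true, by simp, rfl, rfl⟩)
    rw [ind1 (o := o) hK hW (p, d), lift_pι hW (f := (p, d)) hF, lift_pι hW (f := (p, d)) hF] at hG
    refine (h.root_pair hK.noMk rfl ha hG fun d' hd => hF ?_).congr (Subset.antisymm ?_ ?_)
    · have e := d'.2
      rcases (h.ends d' _).1 hd.1 with a | a <;> rcases (h.ends d' _).1 hd.2 with b | b
      · exact (ha.ne (a.trans b.symm)).elim
      · rw [a, b]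
        exact e
      · rw [a, b]
        exact e.symm
      · exact (ha.ne (a.trans b.symm)).elim
    · rintro v ⟨hv, rfl | rfl⟩
      · exact ⟨hv, ⟨_, tp_false (p, d)⟩, hv.2⟩
      · exact ⟨hv, ⟨_, tp_true hW (p, d)⟩, hv.2⟩
    · rintro _ ⟨hv, ⟨k, rfl⟩, hc⟩
      obtain ⟨-, ⟨hn, -⟩ | ⟨-, s, rfl⟩⟩ := (mem_core hW).1 hc
      · exact (hF hn).elim
      · refine ⟨hv, ?_⟩
        rw [← finP_neg (o := o) (f := (p, d)) hF s]
        cases s
        exacts [Or.inl (tp_false _), Or.inr (tp_true hW _)]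

namespace TFin1Aux

open Classical in
/-- Cores, and for each hyperedge its points outside the core. -/
noncomputable def part (W : World K) (o : W.V → ℕ) : (finT W o).V → W.PR ⊕ W.PR × K.UE
  | Sum.inl z => Sum.inl z.1
  | Sum.inr z => if Sum.inr z ∈ finCore W o z.1.1 then Sum.inl z.1.1 else Sum.inr z.1

theorem part_inl {p : W.PR} {v : (finT W o).V} : part W o v = Sum.inl p ↔ v ∈ finCore W o p := by
  rcases v with ⟨p', u⟩ | ⟨f, k⟩
  · rw [inl_core]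
    exact ⟨Sum.inl.inj, congrArg Sum.inl⟩
  · simp only [part]
    split_ifs with h
    · exact ⟨fun e => Sum.inl.inj e ▸ h, fun h' => congrArg Sum.inl (inr_core h').1⟩
    · exact ⟨fun e => (by cases e), fun h' => (h ((inr_core h').1.symm ▸ h')).elim⟩

theorem part_inr {f : W.PR × K.UE} {v : (finT W o).V} (h : part W o v = Sum.inr f) :
    ∃ k, v = Sum.inr (f, k) := by
  rcases v with z | ⟨f', k⟩
  · cases h
  · simp only [part] at h
    split_ifs at h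
    exact ⟨k, by rw [Sum.inr.inj h]⟩

theorem part_tp {f : W.PR × K.UE} {k : (pairT W).w.V}
    (h : (finT W o).tup f k ∉ finCore W o f.1) : part W o ((finT W o).tup f k) = Sum.inr f := by
  rcases e : (finT W o).tup f k with ⟨p', u⟩ | ⟨f', k'⟩
  · rw [e, inl_core] at h
    rcases tp_inl e with ⟨-, a⟩ | ⟨-, a⟩ <;> exact (h (Prod.ext_iff.1 a).1).elim
  · rw [e] at h
    obtain ⟨rfl, rfl⟩ := tp_inr e
    simp only [part]
    rw [if_neg h]

theorem part_adj (hW : W.BOK 1 κ) {x y : (finT W o).V × K.Φ} (h : (finT W o).B.Adj x y) :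
    part W o x.1 = part W o y.1 := by
  by_cases hne : x.1 = y.1
  · rw [hne]
  have key : ∀ f k k', ((finT W o).tup f k ∈ finCore W o f.1 ↔
      (finT W o).tup f k' ∈ finCore W o f.1) →
      part W o ((finT W o).tup f k) = part W o ((finT W o).tup f k') := fun f k k' e => by
    by_cases c : (finT W o).tup f k ∈ finCore W o f.1
    · rw [part_inl.2 c, part_inl.2 (e.1 c)]
    · rw [part_tp c, part_tp (mt e.2 c)]
  obtain ⟨f, ⟨x', y', rfl, rfl⟩ | ⟨q, s, rfl, rfl⟩⟩ := cross h hne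
  · refine key f (Sum.inl x'.1) (Sum.inl y'.1) ?_
    rw [mem_core hW, mem_core hW]
    simp
  · refine key f (Sum.inr (q, s)) (Sum.inr (q, !s)) ?_
    rw [mem_core hW, mem_core hW]
    simp

theorem rest_cross {f : W.PR × K.UE} {x y : (finT W o).V × K.Φ} (h : (finT W o).B.Adj x y)
    (hne : x.1 ≠ y.1) (hx : part W o x.1 = Sum.inr f) : x.1 ∈ range ((finT W o).tup f) := by
  obtain ⟨k, hk⟩ := part_inr hx
  rcases Tm.cross_cases h hne with ⟨f', x', y', -, rfl, rfl⟩ | h1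
  · obtain ⟨rfl, -⟩ := tp_inr hk
    exact ⟨_, rfl⟩
  · exact h1.elim

end TFin1Aux

/-- good_parts for the partition into the cores, for each hyperedge its points outside the
core (Good.map, Good.mono, pair_cross), and single points that lie in no hyperedge and no core
(the points inr (f, k) with k one of the two places of f). Root of the hyperedge (p, d): root_pad over
A ∩ (core ∪ rest), and this set is a root of A by glue_pt; Root.trans. -/
theorem fin_bok (hK : K.OK) (hW : W.BOK 1 κ) (hl : W.LabEq) (h0 : 0 ≤ κ) (h1 : κ < 1) :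
    (finT W o).w.BOK 0 0 ∧ (finT W o).Rooted := by
  have hc := ctx (o := o) hK hW
  have hP := pair_bok hK hW le_rfl
  have hcore : ∀ p, part W o ⁻¹' {Sum.inl p} = finCore W o p := fun p => Set.ext fun _ => part_inl
  have good : ∀ A : Set (finT W o).V, A.ncard ≤ K.N → Good K.L K.fib (finT W o).B A := by
    intro A hA
    refine (good_parts hc (part W o) (fun x y h _ _ => part_adj hW h) ?_).1
    rintro (p | f)
    · rw [hcore]
      exact (fin_core hK hW hl h0 h1 p A hA).1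
    · refine (good_iso hc (range ((finT W o).tup f))
        (fun x y h hx _ hne => rest_cross h hne hx.2) ?_).1
      exact Good.map (hP.ctx hK) (fin_pre.inj f) (ind1 hK hW f) (hP.good _
        ((ncard_preimage_le (fin_pre.inj f)).trans ((ncard_le_ncard inter_subset_left).trans hA)))
  refine ⟨⟨hc.hG, good, fun p hp => hp.elim, fun p hp => hp.elim⟩, fun f A hA => ?_⟩
  have g := good A hA
  set C := finCore W o f.1 with hC
  set Rs : Set (finT W o).V := part W o ⁻¹' {Sum.inr f} with hRs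
  have hCp : ∀ {x y : (finT W o).V × K.Φ}, (finT W o).B.Adj x y → x.1 ∈ C → y.1 ∈ C :=
    fun h hx => part_inl.1 ((part_adj hW h).symm.trans (part_inl.2 hx))
  have hRp : ∀ {x y : (finT W o).V × K.Φ}, (finT W o).B.Adj x y → x.1 ∈ Rs → y.1 ∈ Rs :=
    fun h hx => (part_adj hW h).symm.trans hx
  have r1 : Root K.L K.fib (finT W o).B A (C ∪ Rs) := by
    refine (glue_pt hc (A₂ := (C ∪ Rs)ᶜ) ⟨fun v _ => em _, fun x y h _ _ _ => ?_⟩
      (fun v hv => (hv.2 hv.1.2).elim) (g.mono inter_subset_left) (g.mono inter_subset_left)).2.1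
    by_cases hx : x.1 ∈ C ∪ Rs
    · exact Or.inl ⟨hx, hx.imp (hCp h) (hRp h)⟩
    · exact Or.inr ⟨hx, fun hy => hx (hy.imp (hCp h.symm) (hRp h.symm))⟩
  have r2 : Root K.L K.fib (finT W o).B (A ∩ (C ∪ Rs)) (range ((finT W o).tup f) ∩ C ∪ Rs) := by
    refine root_pad hc (g.mono inter_subset_left) (A₁ := C)
      ⟨inter_subset_right, fun x y h hx _ _ => ?_⟩ (eq_empty_of_forall_notMem fun v hv => ?_)
      (((fin_core hK hW hl h0 h1 f.1 A hA).2 f.2).mono fun v hv => ⟨hv.1.1, hv.2⟩)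
      inter_subset_right
    · exact hx.2.imp (fun h' => ⟨h', hCp h h'⟩) fun h' => ⟨h', hRp h h'⟩
    · have := (part_inl.2 hv.1.2).symm.trans hv.2
      cases this
  have r3 : Root K.L K.fib (finT W o).B (A ∩ (range ((finT W o).tup f) ∩ C ∪ Rs))
      (range ((finT W o).tup f)) :=
    (good_iso hc _ (fun x y h hx _ hne => hx.2.elim (fun h' => h'.1) (rest_cross h hne))
      (g.mono fun v hv => hv.1.1)).2
  refine (r1.trans r2 fun v hv => hv.2.imp_left fun h => h.2).trans r3 ?_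
  rintro _ ⟨-, k, rfl⟩
  by_cases c : (finT W o).tup f k ∈ C
  · exact Or.inl ⟨⟨k, rfl⟩, c⟩
  · exact Or.inr (part_tp c)

theorem step_fin (hK : K.OK) (hW : W.BOK 0 κ) (hR : W.ROK) (hf : W.Forc PL) (he : W.PB = ∅)
    (hl : W.LabEq) (h0 : 0 ≤ κ) (h1 : κ < 1) :
    ∃ W' : World K, W'.BOK 0 0 ∧ W'.ROK ∧ W'.Forc PL ∧ W'.PB = ∅ ∧ W'.PR = ∅ := by
  rcases W.PR.eq_empty_or_nonempty with hr | hne
  · exact ⟨W, hW.noR hr, hR, hf, he, hr⟩
  obtain ⟨o, ho⟩ := exists_injective_nat W.V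
  have hW1 : W.BOK 1 κ := hW.noB he
  obtain ⟨a, b⟩ := fin_bok (o := o) hK hW1 hl h0 h1
  obtain ⟨W', c, d, e, f, g, -⟩ := rr_step hK (finT W o) fin_pre (fin_ord hW ho)
    (pair_bok hK hW1 le_rfl) (pair_rt.rok pair_pre hR) a b (fin_rt hK)
    (fin_forc hK hW hf he hl hne)
  exact ⟨W', c, d, e, f rfl, g rfl⟩

end Pool.Agent.Lib.MP_781e3b_co.CN
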