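import Pool.Agent.Lib.MP_781e3b_co.CN.TStar0

/-!
The star template: blue side and forcing.
-/

namespace Pool.Agent.Lib.MP_781e3b_co.CN

open Set Function SimpleGraph

variable {K : Kit} {W : World K} {κ κr : ℝ}

namespace TStar1Aux

theorem hP (hW : W.BOK κ κr) : ∀ p ∈ W.PB, p.1.1 ≠ p.2.1 := fun p hp => (hW.pb p hp).2.1

theorem ctx (hK : K.OK) (hW : W.BOK κ κr) : Ctx K.L K.fib (starT W).B :=
  ⟨hK.hL, hK.fib, (star_pre hK).fib hW.fib⟩

theorem cross {x y : (starT W).V × K.Φ} (h : (starT W).B.Adj x y) (hne : x.1 ≠ y.1) :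
    ∃ f x' y', W.B.Adj x' y' ∧ x = lift ((starT W).tup f) x' ∧ y = lift ((starT W).tup f) y' :=
  (Tm.cross_cases h hne).resolve_right fun h => h

theorem pts (f : (starT W).Hy) (k : W.V) :
    (k = f.1.1.1.1 ∧ (starT W).tup f k = Sum.inl (f.1, f.2.1.1)) ∨
      (k = f.1.1.2.1 ∧ (starT W).tup f k = Sum.inl (f.1, f.2.1.2)) ∨
      (starT W).tup f k = Sum.inr (f, k) := by
  by_cases h1 : k = f.1.1.1.1
  · exact Or.inl ⟨h1, if_pos h1⟩
  by_cases h2 : k = f.1.1.2.1
  · exact Or.inr (Or.inl ⟨h2, (if_neg h1).trans (if_pos h2)⟩)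
  · exact Or.inr (Or.inr ((if_neg h1).trans (if_neg h2)))

theorem off {u v : K.U} (h : (K.Y \ St K.Y K.S).Adj u v) : K.sd u = true ∧ K.sd v = true := by
  have h1 : u ∉ K.S := fun hu => h.2 ⟨h.1, Or.inl hu⟩
  have h2 : v ∉ K.S := fun hv => h.2 ⟨h.1, Or.inr hv⟩
  simp [Kit.sd, h1, h2]

theorem lab (q : W.PB) {u : K.U} (h : K.sd u = true) :
    (bι W W.PB (St K.Y K.S) K.sd q u).2 = q.1.2.2 := by
  simp [bι, h]

/-- The two sides for the removed set Q. -/
theorem sides (p : W.PB) (Q : Set K.U) {u v : K.U} (hu : u ∉ Q) (hv : v ∉ Q)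
    (h : ¬ Relation.ReflTransGen (fun x y => (St K.Y K.S).Adj x y ∧ x ∉ Q ∧ y ∉ Q) u v)
    (A : Set (starT W).V) :
    ∃ A₁ A₂ : Set (starT W).V, Spl (starT W).B A A₁ A₂ ∧
      (∀ x ∈ A₁ ∩ A₂, ∃ w ∈ Q, x = Sum.inl (p, w)) ∧
      (∀ w ∈ Q, Sum.inl (p, w) ∈ A₁ ∧ Sum.inl (p, w) ∈ A₂) ∧
      Sum.inl (p, u) ∉ A₂ ∧ Sum.inl (p, v) ∉ A₁ := by
  set R : Set K.U :=
    {w | Relation.ReflTransGen (fun x y => (St K.Y K.S).Adj x y ∧ x ∉ Q ∧ y ∉ Q) u w} with hR
  have hRQ : ∀ w ∈ R, w ∉ Q := by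
    intro w hw
    induction hw with
    | refl => exact hu
    | tail _ h2 _ => exact h2.2.2
  have hcl : ∀ a b, (St K.Y K.S).Adj a b → a ∈ R → b ∈ R ∨ b ∈ Q := by
    intro a b hab ha
    by_cases hb : b ∈ Q
    · exact Or.inr hb
    · exact Or.inl (Relation.ReflTransGen.tail ha ⟨hab, hRQ a ha, hb⟩)
  let A₁ : Set (starT W).V := {x | Sum.elim (fun z : W.PB × K.U => z.1 = p ∧ (z.2 ∈ R ∨ z.2 ∈ Q))
    (fun z : (starT W).Hy × W.V => z.1.1 = p ∧ (z.1.2.1.1 ∈ R ∨ z.1.2.1.2 ∈ R)) x}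
  let A₂ : Set (starT W).V := A₁ᶜ ∪ {x | ∃ w ∈ Q, x = Sum.inl (p, w)}
  have key : ∀ f : (starT W).Hy,
      (∀ k, (starT W).tup f k ∈ A₁) ∨ ∀ k, (starT W).tup f k ∈ A₂ := by
    intro f
    by_cases hf : f.1 = p ∧ (f.2.1.1 ∈ R ∨ f.2.1.2 ∈ R)
    · refine Or.inl fun k => ?_
      rcases pts f k with ⟨-, e⟩ | ⟨-, e⟩ | e <;> rw [e]
      · exact ⟨hf.1, hf.2.elim Or.inl (hcl _ _ f.2.2.1.symm)⟩
      · exact ⟨hf.1, hf.2.elim (hcl _ _ f.2.2.1) Or.inl⟩
      · exact hf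
    · refine Or.inr fun k => ?_
      rcases pts f k with ⟨-, e⟩ | ⟨-, e⟩ | e <;> rw [e]
      · by_cases h1 : (Sum.inl (f.1, f.2.1.1) : (starT W).V) ∈ A₁
        · obtain ⟨h2, h3 | h3⟩ := h1
          · exact absurd ⟨h2, Or.inl h3⟩ hf
          · exact Or.inr ⟨_, h3, by rw [← h2]⟩
        · exact Or.inl h1
      · by_cases h1 : (Sum.inl (f.1, f.2.1.2) : (starT W).V) ∈ A₁
        · obtain ⟨h2, h3 | h3⟩ := h1
          · exact absurd ⟨h2, Or.inr h3⟩ hf
          · exact Or.inr ⟨_, h3, by rw [← h2]⟩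
        · exact Or.inl h1
      · exact Or.inl hf
  refine ⟨A₁, A₂, ⟨fun x _ => ?_, fun x y hxy _ _ hne => ?_⟩, ?_, ?_, ?_, ?_⟩
  · by_cases hx : x ∈ A₁
    · exact Or.inl hx
    · exact Or.inr (Or.inl hx)
  · obtain ⟨f, x', y', -, rfl, rfl⟩ := cross hxy hne
    exact (key f).imp (fun h => ⟨h _, h _⟩) fun h => ⟨h _, h _⟩
  · rintro x ⟨h1, h2 | h2⟩
    · exact absurd h1 h2
    · exact h2
  · exact fun w hw => ⟨⟨rfl, Or.inr hw⟩, Or.inr ⟨w, hw, rfl⟩⟩
  · rintro (h1 | ⟨w, hw, e⟩)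
    · exact h1 ⟨rfl, Or.inl Relation.ReflTransGen.refl⟩
    · obtain rfl : u = w := (Prod.mk.inj (Sum.inl.inj e)).2
      exact hu hw
  · rintro ⟨-, h1 | h1⟩
    · exact h h1
    · exact hv h1

/-- The folding map. -/
noncomputable def fo (W : World K) : (starT W).V → W.V :=
  Sum.elim (fun z : W.PB × K.U => if K.sd z.2 then z.1.1.2.1 else z.1.1.1.1)
    fun z : (starT W).Hy × W.V => z.2

theorem fo_tup (hK : K.OK) (f : (starT W).Hy) (k : W.V) : fo W ((starT W).tup f k) = k := by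
  have h0 : K.sd f.2.1.1 = false := f.2.2.2
  have h1 : K.sd f.2.1.2 = true := by
    have h2 := star_side hK _ _ f.2.2.1
    rw [h0] at h2
    simpa using h2.symm
  rcases pts f k with ⟨h, e⟩ | ⟨h, e⟩ | e <;> rw [e]
  · simp [fo, h0, h]
  · simp [fo, h1, h]
  · rfl

theorem blue (hK : K.OK) (hW : W.BOK κ κr) (q : W.PB) {u v : K.U} (h : (St K.Y K.S).Adj u v)
    (hu : K.sd u = false) :
    (starT W).B.Adj (bι W W.PB (St K.Y K.S) K.sd q u) (bι W W.PB (St K.Y K.S) K.sd q v) := by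
  let f : (starT W).Hy := (q, ⟨(u, v), h, hu⟩)
  have h1 := ((star_pre hK).ind hW.fib f q.1.1 q.1.2).1 (hW.pb q.1 q.2).1
  have e1 := bTup_fst (W := W) (P := W.PB) f
  have e2 := bTup_snd (star_side hK) (hP hW) f
  exact e1 ▸ e2 ▸ h1

theorem other : ∀ x b : Fin 2, x ≠ b → x = b + 1 := by decide

end TStar1Aux

open TStar1Aux

/-- bTup_sep, sf_of_sep, good_sf on the union of the hyperedges (Good.map, Pre.ind); the
other points have no cross edges (good_iso, Root.trans). -/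
theorem star_good (hK : K.OK) (hW : W.BOK κ κr) (A : Set (starT W).V) (hA : A.ncard ≤ K.N) :
    Good K.L K.fib (starT W).B A ∧
      ∀ f, Root K.L K.fib (starT W).B A (range ((starT W).tup f)) := by
  have hc := ctx hK hW
  have hp : (starT W).Pre := star_pre hK
  have sf := sf_of_sep (toFinite _) (bTup_sep (W := W) (P := W.PB) (star_side hK) hK.hS.acy)
  set C := RR.Un (fun f => range ((starT W).tup f)) univ with hC
  have g := good_sf hc (A := A ∩ C) sf inter_subset_right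
    (fun x y hxy _ _ hne => by
      obtain ⟨f, x', y', -, rfl, rfl⟩ := cross hxy hne
      exact ⟨f, mem_univ _, mem_range_self _, mem_range_self _⟩)
    fun f _ => (Good.map (hW.ctx hK) (hp.inj f) (hp.ind hW.fib f)
      (hW.good _ ((ncard_preimage_le (hp.inj f)).trans hA))).mono
        fun x hx => ⟨hx.1.1, hx.2⟩
  have g' := good_iso hc (A := A) C
    (fun x y hxy _ _ hne => by
      obtain ⟨f, x', y', -, rfl, rfl⟩ := cross hxy hne
      exact ⟨f, mem_univ _, mem_range_self _⟩) g.1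
  exact ⟨g'.1, fun f => g'.2.trans (g.2 f (mem_univ _)) fun x hx => ⟨f, mem_univ _, hx.2⟩⟩

/-- For the edge u v of Y \ St in the copy p use SOK.two. Let R be the set of points
reached from u in St (without s in the second case), A₁ the points inl (p, w), w ∈ R or
w = s, and the inner points of the hyperedges (p, d) with an end in R, and A₂ the complement
of A₁ together with inl (p, s). split_empty or split_pt (PosB.map, PosB.raise).
E1: fold along inl (q, w) ↦ centre or leaf of q, inr (f, k) ↦ k. -/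
theorem star_pos (hK : K.OK) (hW : W.BOK κ κr) (p : W.PB) {u v : K.U}
    (h : (K.Y \ St K.Y K.S).Adj u v) (A : Set (starT W).V) (hA : A.ncard ≤ K.N) :
    PosR K.L K.fib (starT W).B A (Sum.inl (p, u)) (Sum.inl (p, v)) (max 0 (2 * κ - K.L.m)) := by
  have hc := ctx hK hW
  have hp : (starT W).Pre := star_pre hK
  obtain ⟨g, rt⟩ := star_good hK hW A hA
  refine ⟨?_, ?_⟩
  · rcases hK.hS.two u v h with h1 | ⟨s, hs, hsu, hsv, h1⟩
    · obtain ⟨A₁, A₂, a, b, -, c, d⟩ := sides p ∅ (notMem_empty u) (notMem_empty v)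
        (fun h2 => h1 ((reachable_iff_reflTransGen u v).2 
          (Relation.ReflTransGen.mono (fun _ _ h3 => h3.1) _ _ h2))) A
      refine (split_empty hc g a ?_ c d).le (le_max_left _ _)
      refine eq_empty_of_forall_notMem fun x hx => ?_
      obtain ⟨w, hw, -⟩ := b x ⟨hx.1.2, hx.2⟩
      exact hw
    · obtain ⟨A₁, A₂, a, b, b', c, d⟩ := sides p {s} hsu.ne' hsv.ne' h1 A
      have hsd : K.sd s = false := by simp [Kit.sd, hs]
      have pos : ∀ w, K.Y.Adj s w →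
          PosB K.L (starT W).B Prod.fst (up A) (Sum.inl (p, s)) (Sum.inl (p, w)) κ := by
        intro w hw
        let f : (starT W).Hy := (p, ⟨(s, w), ⟨hw, Or.inl hs⟩, hsd⟩)
        have h2 := PosB.raise (rt f) (mem_range_self _) (mem_range_self _)
          (PosB.map (hp.inj f) (hp.ind hW.fib f)
            ((hW.pb p.1 p.2).2.2.2 _ ((ncard_preimage_le (hp.inj f)).trans hA)))
        have e1 : (starT W).tup f p.1.1.1 = Sum.inl (p, s) :=
          congrArg Prod.fst (bTup_fst (W := W) (P := W.PB) f)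
        have e2 : (starT W).tup f p.1.2.1 = Sum.inl (p, w) :=
          congrArg Prod.fst (bTup_snd (star_side hK) (hP hW) f)
        rwa [e1, e2] at h2
      refine split_pt hc g a ?_ (b' s rfl).1 (b' s rfl).2 c d (pos u hsu) (pos v hsv)
      intro x hx
      obtain ⟨w, rfl, e⟩ := b x ⟨hx.1.2, hx.2⟩
      exact e
  · refine fold hc (G' := W.B) (fo W) (r := p.1.2.1) ?_
      ((hW.good _ ((ncard_image_le (toFinite A)).trans hA)).e _) ?_
    · intro x y hxy _ _ hne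
      obtain ⟨f, x', y', h1, rfl, rfl⟩ := cross hxy hne
      have e : ∀ z : W.V × K.Φ, lift (fo W) (lift ((starT W).tup f) z) = z := fun z =>
        Prod.ext (fo_tup hK f z.1) rfl
      refine ⟨fun h2 => hne ?_, by rw [e, e]; exact h1⟩
      have h3 : x'.1 = y'.1 := (fo_tup hK f x'.1).symm.trans (h2.trans (fo_tup hK f y'.1))
      exact congrArg ((starT W).tup f) h3
    · rintro x (rfl | rfl)
      · simp [fo, (off h).1]
      · simp [fo, (off h).2]

theorem star_bok (hK : K.OK) (hW : W.BOK κ κr) :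
    (starT W).w.BOK 0 (max 0 (2 * κ - K.L.m)) ∧ (starT W).w.LabEq := by
  refine ⟨⟨(star_pre hK).fib hW.fib, fun A hA => (star_good hK hW A hA).1,
    fun p hp => hp.elim, ?_⟩, ?_⟩
  · rintro _ ⟨q, u, v, h, rfl⟩
    refine ⟨⟨Sum.inr q, u, v, h, rfl, rfl⟩, fun e => h.ne (Prod.mk.inj (Sum.inl.inj e)).2, ?_, ?_,
      fun A hA => star_pos hK hW q h A hA⟩
    · exact (lab q (off h).1).symm ▸ (hW.pb q.1 q.2).2.2.1
    · exact (lab q (off h).2).symm ▸ (hW.pb q.1 q.2).2.2.1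
  · rintro _ ⟨q, u, v, h, rfl⟩
    exact (lab q (off h).1).trans (lab q (off h).2).symm

/-- If for some position p no star edge placed on it has the colour βr of the leaf label, then
bι p is a copy in the other colour. Else there is a hyperedge f, and γ satisfies Cnd with
βb := βr. -/
theorem star_forc (hK : K.OK) (hW : W.BOK κ κr) (hf : W.Forc PL) (he : W.PR = ∅)
    (hne : W.PB.Nonempty) : (starT W).HForc PL := by
  rintro χ hχ ⟨γ, hγ⟩ βb βr - hc
  have hp : (starT W).Pre := star_pre hK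
  by_cases hq : ∃ q : W.PB, ∀ u v, (St K.Y K.S).Adj u v → γ q.1.1 q.1.2 ≠ βr q.1.2.2
  · obtain ⟨q, hq⟩ := hq
    refine ⟨βr q.1.2.2 + 1, bι W W.PB (St K.Y K.S) K.sd q, bι_inj q, fun u v huv => ?_⟩
    by_cases hE : (St K.Y K.S).Adj u v
    · refine ⟨Or.inl ?_, other _ _ ?_⟩
      · cases hu : K.sd u
        · exact blue hK hW q hE hu
        · refine (blue hK hW q hE.symm ?_).symm
          have h2 := star_side hK u v hE
          rw [hu] at h2
          simpa using h2.symm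
      · rw [bι_colour (star_side hK) (hP hW) hχ hγ q hE]
        exact hq u v hE
    · have h : (K.Y \ St K.Y K.S).Adj u v := ⟨huv, hE⟩
      refine ⟨Or.inr (Or.inr ⟨Sum.inr q, u, v, h, rfl, rfl⟩), other _ _ ?_⟩
      have h2 := hc.2 _ ⟨q, u, v, h, rfl⟩
      rwa [lab q (off h).1] at h2
  · simp only [not_exists, not_forall, not_not] at hq
    obtain ⟨p₀, hp₀⟩ := hne
    obtain ⟨u, v, hE, -⟩ := hq ⟨p₀, hp₀⟩
    obtain ⟨f⟩ : Nonempty (starT W).Hy := by
      cases hu : K.sd u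
      · exact ⟨(⟨p₀, hp₀⟩, ⟨(u, v), hE, hu⟩)⟩
      · refine ⟨(⟨p₀, hp₀⟩, ⟨(v, u), hE.symm, ?_⟩)⟩
        have h2 := star_side hK u v hE
        rw [hu] at h2
        simpa using h2.symm
    have e : (fun x y => χ (lift ((starT W).tup f) x) (lift ((starT W).tup f) y)) = γ :=
      funext fun x => funext fun y => hγ f x y
    refine hp.mono f ?_
    rw [e]
    refine hf γ (fun x y => by rw [← hγ f, ← hγ f, hχ]) βr βr trivial ⟨fun p h => ?_, fun p h => ?_⟩
    · obtain ⟨_, _, -, h2⟩ := hq ⟨p, h⟩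
      exact h2
    · rw [he] at h
      exact h.elim

theorem step_star (hK : K.OK) (hW : W.BOK κ κr) (hR : W.ROK) (hf : W.Forc PL) (he : W.PR = ∅) :
    ∃ W' : World K, W'.BOK 0 (max 0 (2 * κ - K.L.m)) ∧ W'.ROK ∧ W'.Forc PL ∧ W'.PB = ∅ ∧
      W'.LabEq := by
  rcases W.PB.eq_empty_or_nonempty with hb | hne
  · exact ⟨W, (hW.noR he).noB hb, hR, hf, hb, fun p hp => by rw [he] at hp; exact hp.elim⟩
  obtain ⟨a, b⟩ := star_bok hK hW
  obtain ⟨W', c, d, e, f, -, g⟩ := rr_step hK (starT W) (star_pre hK) (star_ord hK hW) hW hR a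
    (fun f A hA => (star_good hK hW A hA).2 f) (star_rt hK hW hR) (star_forc hK hW hf he hne)
  exact ⟨W', c, d, e, f rfl, g b⟩

end Pool.Agent.Lib.MP_781e3b_co.CN
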