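import Pool.Agent.Lib.MP_781e3b_co.CN.TBase1
import Pool.Agent.Lib.MP_781e3b_co.CN.TBeta1
import Pool.Agent.Lib.MP_781e3b_co.CN.TStar1
import Pool.Agent.Lib.MP_781e3b_co.CN.TFin1
import Pool.Agent.Lib.MP_781e3b_co.CN.RedFin
import Pool.Agent.Lib.MP_781e3b_co.CN.BlueFin

/-!
The chain of steps and the host theorem.
-/

namespace Pool.Agent.Lib.MP_781e3b_co.CN

open Set Function SimpleGraph

variable {K : Kit}

theorem chain_aux (hK : K.OK) (t : ℕ) : ∀ (κ : ℝ) (W : World K), 1 ≤ κ → κ < K.L.m →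
    K.L.m - 1 ≤ 2 ^ t * (K.L.m - κ) → W.BOK κ 0 → W.ROK → W.Forc PC → W.PR = ∅ →
    ∃ W' : World K, W'.BOK 0 0 ∧ W'.ROK ∧ W'.Forc PL ∧ W'.PB = ∅ ∧ W'.PR = ∅ := by
  have hm := hK.hL.m1
  have star : ∀ (κ : ℝ) (W : World K), 1 ≤ κ → W.BOK κ 0 → W.ROK → W.Forc PC → W.PR = ∅ →
      ∃ W' : World K, W'.BOK 0 (max 0 (2 * κ - K.L.m)) ∧ W'.ROK ∧ W'.Forc PL ∧ W'.PB = ∅ ∧
        W'.LabEq := fun κ W h1 hW hR hf he =>
    step_star hK (pair_bok hK hW h1) (pair_rt.rok pair_pre hR) (pair_forc hK hW hf he)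
      (eq_empty_of_forall_notMem fun p ⟨p₀, h, _⟩ => by rw [he] at h; exact h)
  induction t with
  | zero =>
    intro κ W h1 h2 h3 hW hR hf he
    obtain ⟨W', a, b, c, d, e⟩ := star κ W h1 hW hR hf he
    exact step_fin hK a b c d e (le_max_left _ _) (max_lt one_pos (by norm_num at h3; linarith))
  | succ t ih =>
    intro κ W h1 h2 h3 hW hR hf he
    obtain ⟨W', a, b, c, d, e⟩ := star κ W h1 hW hR hf he
    rcases lt_or_ge (2 * κ - K.L.m) 1 with h4 | h4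
    · exact step_fin hK a b c d e (le_max_left _ _) (max_lt one_pos h4)
    · rw [max_eq_right (by linarith)] at a
      obtain ⟨W'', a', b', c', d'⟩ := step_beta hK a b c.pc (by linarith) (by linarith)
      rw [max_eq_right h4, max_eq_right (by linarith)] at a'
      refine ih _ W'' h4 (by linarith) ?_ a' b' c' d'
      rw [pow_succ] at h3
      linarith

theorem chain (hK : K.OK) :
    ∃ W : World K, W.BOK 0 0 ∧ W.ROK ∧ W.Forc PL ∧ W.PB = ∅ ∧ W.PR = ∅ := by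
  have hm := hK.hL.m1
  obtain ⟨W, κ, h1, h2, a, b, c⟩ := step_base hK
  obtain ⟨W', a', b', c', d'⟩ := step_beta hK a b c le_rfl (by linarith)
  rw [max_eq_left zero_le_one, max_eq_left h1] at a'
  obtain ⟨t, ht⟩ := pow_unbounded_of_one_lt ((K.L.m - 1) / (K.L.m - κ)) (one_lt_two (α := ℝ))
  exact chain_aux hK t κ W' h1 h2 ((div_le_iff₀ (by linarith)).1 ht.le) a' b' c' d'

theorem host (hK : K.OK) {U' : Type} [Finite U'] {Y' : SimpleGraph U'} (hN : Nat.card U' ≤ K.N)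
    (hb : Bd K.L Y') {B T : Set U'} (hB : TwoC Y' B) (hTB : T ⊆ B)
    (hT : Top K.L Y' (K.L.l - 1) T) (hc : B.ncard = K.b) :
    ∃ (V : Type) (_ : Fintype V) (G : SimpleGraph V), Arrows G K.Y 2 ∧ (Arrows G Y' 2 →
      Cls K.L Y' K.k K.i ∨
        (K.px ∧ (Y'.Connected → Pool.Agent.Lib.MP_781e3b_co.Emb Y' K.Y.Adj))) := by
  classical
  obtain ⟨W, hW, hR, hf, h1, h2⟩ := chain hK
  have rs : ∀ x y, W.R x y → W.R y x := by
    rintro x y (⟨a, b, u, v, c, d, e⟩ | ⟨c, u, v, a, b, d⟩)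
    · exact Or.inl ⟨a.symm, b, v, u, c.symm, e, d⟩
    · exact Or.inr ⟨c, v, u, a.symm, d, b⟩
  refine ⟨W.V × K.Φ, Fintype.ofFinite _, fromRel W.T, fun χ hχ => ?_, fun h => ?_⟩
  · obtain ⟨i, f, f1, f2⟩ := hf χ hχ (fun _ => 0) (fun _ => 0) trivial
      ⟨fun p hp => by rw [h1] at hp; exact hp.elim, fun p hp => by rw [h2] at hp; exact hp.elim⟩
    exact ⟨i, f, f1, fun u v huv =>
      ⟨(fromRel_adj _ _ _).2 ⟨f1.ne huv.ne, Or.inl (f2 u v huv).1⟩, (f2 u v huv).2⟩⟩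
  · obtain ⟨i, φ, f1, f2⟩ := h (fun x y => if W.B.Adj x y then 0 else 1)
      fun x y => by simp only [W.B.adj_comm x y]
    by_cases hi : i = 0
    · refine Or.inl (blue_final hK hW hN hb f1 fun u v huv => ?_)
      by_contra hn
      have := (f2 u v huv).2
      simp only [if_neg hn, hi] at this
      exact absurd this (by decide)
    · refine Or.inr (red_final hK hR hN hB hTB hT hc f1 fun u v huv => ?_)
      obtain ⟨h3, h4⟩ := f2 u v huv
      have hn : ¬ W.B.Adj (φ u) (φ v) := fun h5 => by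
        simp only [if_pos h5] at h4
        exact hi h4.symm
      rcases ((fromRel_adj _ _ _).1 h3).2 with (h5 | h5) | (h5 | h5)
      exacts [(hn h5).elim, h5, (hn h5.symm).elim, rs _ _ h5]

end Pool.Agent.Lib.MP_781e3b_co.CN
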