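import Pool.Agent.Lib.MP_781e3b_co.CN.Defs

/-!
The set S of star centres (3.4).
-/

namespace Pool.Agent.Lib.MP_781e3b_co.CN

open Set Function SimpleGraph

variable {Ω : Type} [Finite Ω] {Y : SimpleGraph Ω}

namespace Star1Aux

/-- The edges with both ends outside B. -/
def out (Y : SimpleGraph Ω) (B : Set Ω) : SimpleGraph Ω where
  Adj x y := Y.Adj x y ∧ x ∉ B ∧ y ∉ B
  symm := ⟨fun _ _ h => ⟨h.1.symm, h.2.2, h.2.1⟩⟩
  loopless := ⟨fun _ h => h.1.ne rfl⟩

omit [Finite Ω] in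
theorem supp_out {B : Set Ω} {u w : Ω} (q : (out Y B).Walk u w) (hu : u ∉ B) :
    ∀ z ∈ q.support, z ∉ B := by
  induction q with
  | nil => intro z hz; simp at hz; exact hz ▸ hu
  | cons h q ih =>
    intro z hz
    rw [Walk.support_cons, List.mem_cons] at hz
    rcases hz with rfl | hz
    · exact hu
    · exact ih h.2.2 z hz

omit [Finite Ω] in
theorem walk_rtg {B B' : Set Ω} {v u w : Ω} (q : (out Y B).Walk u w)
    (h : ∀ z ∈ q.support, z ∈ B' ∧ z ≠ v) :
    Relation.ReflTransGen (fun x y => Y.Adj x y ∧ x ∈ B' ∧ y ∈ B' ∧ x ≠ v ∧ y ≠ v) u w := by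
  induction q with
  | nil => exact .refl
  | cons hadj q ih =>
    have h1 := h _ (Walk.start_mem_support _)
    have h2 : ∀ z ∈ q.support, z ∈ B' ∧ z ≠ v := fun z hz =>
      h z (by rw [Walk.support_cons]; exact List.mem_cons_of_mem _ hz)
    have h3 := h2 _ (Walk.start_mem_support _)
    exact .head ⟨hadj.1, h1.1, h3.1, h1.2, h3.2⟩ (ih h2)

omit [Finite Ω] in
theorem rtg_symm {B' : Set Ω} {v u w : Ω}
    (h : Relation.ReflTransGen
      (fun x y => Y.Adj x y ∧ x ∈ B' ∧ y ∈ B' ∧ x ≠ v ∧ y ≠ v) u w) :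
    Relation.ReflTransGen (fun x y => Y.Adj x y ∧ x ∈ B' ∧ y ∈ B' ∧ x ≠ v ∧ y ≠ v) w u := by
  induction h with
  | refl => exact .refl
  | tail _ h2 ih => exact .head ⟨h2.1.symm, h2.2.2.1, h2.2.1, h2.2.2.2.2, h2.2.2.2.1⟩ ih

end Star1Aux

open Star1Aux in
/-- An ear: a path through points outside B between two different points of B gives a larger
2-connected set. -/
theorem TwoC.ear {B : Set Ω} (hB : TwoC Y B) {s a a' x x' : Ω} (hs : s ∉ B) (ha : a ∈ B)
    (ha' : a' ∈ B) (hne : a ≠ a')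
    (hx : Relation.ReflTransGen (fun x y => Y.Adj x y ∧ x ∉ B ∧ y ∉ B) s x)
    (hx' : Relation.ReflTransGen (fun x y => Y.Adj x y ∧ x ∉ B ∧ y ∉ B) s x')
    (h1 : Y.Adj x a) (h2 : Y.Adj x' a') : ∃ B', B ⊂ B' ∧ TwoC Y B' := by
  classical
  have r1 : (out Y B).Reachable s x := (reachable_iff_reflTransGen _ _).2 hx
  have r2 : (out Y B).Reachable s x' := (reachable_iff_reflTransGen _ _).2 hx'
  have hxB : x ∉ B := by
    obtain ⟨q⟩ := r1
    exact supp_out q hs x (Walk.end_mem_support _)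
  obtain ⟨p, hp⟩ := (r1.symm.trans r2).exists_isPath
  have hout := supp_out p hxB
  have hsub : B ⊆ B ∪ {z | z ∈ p.support} := subset_union_left
  refine ⟨B ∪ {z | z ∈ p.support}, ⟨hsub, fun h => hxB (h (Or.inr p.start_mem_support))⟩,
    hB.1.trans (ncard_le_ncard hsub (toFinite _)), fun v => ?_⟩
  have key : ∀ w ∈ B ∪ {z | z ∈ p.support}, w ≠ v → ∃ c ∈ B, c ≠ v ∧
      Relation.ReflTransGen (fun x y => Y.Adj x y ∧ x ∈ B ∪ {z | z ∈ p.support} ∧
        y ∈ B ∪ {z | z ∈ p.support} ∧ x ≠ v ∧ y ≠ v) w c := by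
    intro w hw hwv
    rcases hw with hw | hw
    · exact ⟨w, hw, hwv, .refl⟩
    have hw' : w ∈ p.support := hw
    have left : v ∉ (p.takeUntil w hw').support → a ≠ v → ∃ c ∈ B, c ≠ v ∧
        Relation.ReflTransGen (fun x y => Y.Adj x y ∧ x ∈ B ∪ {z | z ∈ p.support} ∧
          y ∈ B ∪ {z | z ∈ p.support} ∧ x ≠ v ∧ y ≠ v) w c := by
      intro hv hav
      have hz : ∀ z ∈ (p.takeUntil w hw').support, z ∈ B ∪ {z | z ∈ p.support} ∧ z ≠ v :=
        fun z hz => ⟨Or.inr (p.support_takeUntil_subset_support hw' hz), fun e => hv (e ▸ hz)⟩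
      have h0 := hz _ (Walk.start_mem_support _)
      exact ⟨a, ha, hav, (rtg_symm (walk_rtg _ hz)).tail ⟨h1, h0.1, Or.inl ha, h0.2, hav⟩⟩
    have right : v ∉ (p.dropUntil w hw').support → a' ≠ v → ∃ c ∈ B, c ≠ v ∧
        Relation.ReflTransGen (fun x y => Y.Adj x y ∧ x ∈ B ∪ {z | z ∈ p.support} ∧
          y ∈ B ∪ {z | z ∈ p.support} ∧ x ≠ v ∧ y ≠ v) w c := by
      intro hv hav
      have hz : ∀ z ∈ (p.dropUntil w hw').support, z ∈ B ∪ {z | z ∈ p.support} ∧ z ≠ v :=
        fun z hz => ⟨Or.inr (p.support_dropUntil_subset_support hw' hz), fun e => hv (e ▸ hz)⟩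
      have h0 := hz _ (Walk.end_mem_support _)
      exact ⟨a', ha', hav, (walk_rtg _ hz).tail ⟨h2, h0.1, Or.inl ha', h0.2, hav⟩⟩
    by_cases hvB : v ∈ B
    · by_cases hav : a = v
      · exact right (fun h => hout v (p.support_dropUntil_subset_support hw' h) hvB)
          (fun e => hne (hav.trans e.symm))
      · exact left (fun h => hout v (p.support_takeUntil_subset_support hw' h) hvB) hav
    · by_cases hv : v ∈ (p.takeUntil w hw').support
      · refine right (fun h => ?_) (fun e => hvB (e ▸ ha'))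
        have hn : (p.support).Nodup := hp.support_nodup
        rw [← p.take_spec hw', Walk.support_append] at hn
        have hd := List.disjoint_of_nodup_append hn
        rw [← Walk.cons_tail_support, List.mem_cons] at h
        rcases h with h | h
        · exact hwv h.symm
        · exact hd hv h
      · exact left hv (fun e => hvB (e ▸ ha))
  intro b hb c hc hbv hcv
  obtain ⟨b', hb', hb'v, e1⟩ := key b hb hbv
  obtain ⟨c', hc', hc'v, e2⟩ := key c hc hcv
  refine (e1.trans ?_).trans (rtg_symm e2)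
  have e3 := hB.2 v b' hb' c' hc' hb'v hc'v
  clear hc' hc'v e2
  induction e3 with
  | refl => exact .refl
  | tail _ h ih => exact ih.tail ⟨h.1, Or.inl h.2.1, Or.inl h.2.2.1, h.2.2.2⟩

end Pool.Agent.Lib.MP_781e3b_co.CN
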