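import Pool.Agent.Lib.MP_781e3b_co.CN.Star0
import Pool.Agent.Lib.MP_781e3b_co.CN.Star1

/-!
The set S of star centres (3.4).
-/

namespace Pool.Agent.Lib.MP_781e3b_co.CN

open Set Function SimpleGraph

variable {Ω : Type} [Finite Ω] {Y : SimpleGraph Ω}

namespace StarAux

omit [Finite Ω] in
theorem greedy (o : Ω → ℕ) (C : Ω → Ω → Prop) :
    ∃ S : Set Ω, ∀ v, v ∈ S ↔ ¬ ∃ s ∈ S, o s < o v ∧ C s v := by
  have wf : WellFounded (InvImage (· < ·) o) := InvImage.wf o wellFounded_lt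
  refine ⟨{v | wf.fix (C := fun _ => Prop) (fun v IH => ¬ ∃ s, ∃ h : o s < o v, IH s h ∧ C s v) v},
    fun v => ?_⟩
  rw [mem_ofPred_eq, WellFounded.fix_eq]
  exact not_congr ⟨fun ⟨s, h1, h2, h3⟩ => ⟨s, h2, h1, h3⟩, fun ⟨s, h2, h1, h3⟩ => ⟨s, h1, h2, h3⟩⟩

omit [Finite Ω] in
theorem av_symm {v a b : Ω} (h : Av Y v a b) : Av Y v b a := by
  induction h with
  | refl => exact .refl
  | tail _ h2 ih => exact .head ⟨h2.1.symm, h2.2.2, h2.2.1⟩ ih

omit [Finite Ω] in
theorem cob_symm {a b : Ω} (h : Cob Y a b) : Cob Y b a :=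
  ⟨h.1.symm, h.2.1.symm, fun v h1 h2 => av_symm (h.2.2 v h2 h1)⟩

omit [Finite Ω] in
/-- A shortest path from the root avoids every other point that is at least as far. -/
theorem av_root {ρ v : Ω} (n : ℕ) : ∀ u, Y.Reachable u ρ → Y.dist u ρ ≤ n →
    Y.dist u ρ ≤ Y.dist v ρ → u ≠ v → Av Y v u ρ := by
  induction n with
  | zero =>
    intro u h1 h2 _ _
    rw [h1.dist_eq_zero_iff.1 (Nat.le_zero.1 h2)]
    exact .refl
  | succ n ih =>
    intro u h1 h2 h3 h4
    obtain ⟨p, hp⟩ := h1.exists_walk_length_eq_dist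
    cases p with
    | nil => exact .refl
    | @cons _ w _ h q =>
      have h5 := dist_le q
      rw [Walk.length_cons] at hp
      have h6 : w ≠ v := by
        rintro rfl
        omega
      exact .head ⟨h, h4, h6⟩ (ih w ⟨q⟩ (by omega) (by omega) h6)

omit [Finite Ω] in
/-- The first point of B on a path. -/
theorem exit {B : Set Ω} {v s w : Ω} (h : Av Y v s w) (hs : s ∉ B) (hw : w ∈ B) :
    ∃ x a, Relation.ReflTransGen (fun x y => Y.Adj x y ∧ x ∉ B ∧ y ∉ B) s x ∧ Y.Adj x a ∧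
      a ∈ B ∧ a ≠ v := by
  induction h using Relation.ReflTransGen.head_induction_on with
  | refl => exact absurd hw hs
  | @head a c h1 _ ih =>
    by_cases hc : c ∈ B
    · exact ⟨a, c, .refl, h1.1, hc, h1.2.2⟩
    · obtain ⟨x, y, h2, h3⟩ := ih hc
      exact ⟨x, y, .head ⟨h1.1, hs, hc⟩ h2, h3⟩

end StarAux

/-- Choose a root in every component and an injective o : Ω → ℕ that extends the distance from
the root. Greedily there is S without Cob pairs such that every v is in S or Cob to some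
s ∈ S with o s < o v. Let v be the last point of B and s such a point. If s ∉ B: s and
a point of B - v are joined in Y - v through the root, so the part of Y - B that holds s has
a neighbour a ≠ v in B; as Av Y a s v, it has a second one; TwoC.ear. -/
theorem exists_S (Y : SimpleGraph Ω) (Q : Set Ω → Prop) (hQ : ∀ B B', B ⊆ B' → Q B → Q B') (b : ℕ)
    (hb : ∀ B, TwoC Y B → Q B → B.ncard ≤ b) :
    ∃ S, SOK Y S ∧ ∀ B, TwoC Y B → Q B → B.ncard = b → (S ∩ B).Nonempty := by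
  obtain ⟨N, ⟨e⟩⟩ := Finite.exists_equiv_fin Ω
  obtain ⟨r, hr1, hr2⟩ : ∃ r : Ω → Ω, (∀ u, Y.Reachable u (r u)) ∧
      ∀ u v, Y.Reachable u v → r u = r v :=
    ⟨fun u => (Y.connectedComponentMk u).out,
      fun u => ConnectedComponent.exact (Quot.out_eq (Y.connectedComponentMk u)).symm,
      fun u v h => by simp only [ConnectedComponent.sound h]⟩
  obtain ⟨o, ho1, ho2⟩ : ∃ o : Ω → ℕ, Injective o ∧
      ∀ u v, o u ≤ o v → Y.dist u (r u) ≤ Y.dist v (r v) := by
    refine ⟨fun u => e u + N * Y.dist u (r u), fun u v h => ?_, fun u v h => ?_⟩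
    · have h1 := congrArg (· % N) h
      simp only [Nat.add_mul_mod_self_left, Nat.mod_eq_of_lt (e _).2] at h1
      exact e.injective (Fin.ext h1)
    · by_contra h1
      have h2 := Nat.mul_le_mul_left N (Nat.succ_le_of_lt (not_le.1 h1))
      have h3 := (e v).2
      rw [Nat.mul_succ] at h2
      beta_reduce at h
      omega
  obtain ⟨S, hS⟩ := StarAux.greedy o (Cob Y)
  refine ⟨S, sok_of_cob fun a ha c hc h => ?_, fun B hB hQB hcard => ?_⟩
  · rcases lt_or_gt_of_ne (ho1.ne h.1) with h1 | h1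
    · exact (hS c).1 hc ⟨a, ha, h1, h⟩
    · exact (hS a).1 ha ⟨c, hc, h1, StarAux.cob_symm h⟩
  by_contra h0
  have h1 : ∀ s ∈ S, s ∉ B := fun s h1 h2 => h0 ⟨s, h1, h2⟩
  have h2 : B.Nontrivial := one_lt_ncard_iff_nontrivial.1 (by have := hB.1; omega)
  obtain ⟨v, hv, h3⟩ := exists_max_image B o (toFinite B) h2.nonempty
  obtain ⟨s, hs, h4, h5⟩ := not_not.1 ((hS v).not.1 fun h => h1 v h hv)
  have hsB := h1 s hs
  obtain ⟨w, hw, h6⟩ := h2.exists_ne v
  have h7 : Y.Reachable w v := by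
    have h7 := hB.2 s w hw v hv (fun e => hsB (e ▸ hw)) (fun e => hsB (e ▸ hv))
    exact (reachable_iff_reflTransGen w v).2
      (Relation.ReflTransGen.mono (fun x y h => h.1) _ _ h7)
  have h8 : ∀ u, Y.Reachable u v → o u ≤ o v → u ≠ v → Av Y v u (r v) := fun u e1 e2 e3 =>
    StarAux.av_root _ u (e1.trans (hr1 v)) le_rfl (by
      have := ho2 u v e2
      rwa [hr2 u v e1] at this) e3
  obtain ⟨x, a, e1, e2, e3, e4⟩ := StarAux.exit
    (Relation.ReflTransGen.trans (h8 s h5.2.1 h4.le h5.1)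
      (StarAux.av_symm (h8 w h7 (h3 w hw) h6))) hsB hw
  obtain ⟨x', a', e5, e6, e7, e8⟩ := StarAux.exit
    (h5.2.2 a (fun e => hsB (e ▸ e3)) e4) hsB hv
  obtain ⟨B', e9, e10⟩ := hB.ear hsB e3 e7 e8.symm e1 e5 e2 e6
  have e11 := hb B' e10 (hQ B B' e9.subset hQB)
  have e12 := ncard_lt_ncard e9
  omega

end Pool.Agent.Lib.MP_781e3b_co.CN
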