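import Pool.Agent.Lib.MP_781e3b_co.TMain
import Pool.Agent.Lib.MP_781e3b_co.CN.Host
import Pool.Agent.Lib.MP_781e3b_co.CN.Clu3
import Pool.Agent.Lib.MP_781e3b_co.CN.Star

/-!
A connected graph lies in every graph that is Ramsey equivalent to it.
-/

namespace Pool.Agent.Lib.MP_781e3b_co.CN

open Set Function SimpleGraph

/-- The host theorem for Y = H₁, used with the equivalence. -/
theorem descend {a b : ℕ} {H₁ : SimpleGraph (Fin a)} {H₂ : SimpleGraph (Fin b)}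
    (h : RamseyEquiv H₁ H₂ 2) {L : Lv} (hL : L.OK) (b₁ : Bd L H₁) (b₂ : Bd L H₂) {k s i : ℕ}
    (hk : 1 ≤ k) (hm : ∀ Z, Tt L H₁ Z → tops L H₁ Z ≤ k)
    (hs : ∀ B, TwoC H₁ B → (∃ T ⊆ B, Top L H₁ (L.l - 1) T) → B.ncard ≤ s)
    (ht : ∃ T, Top L H₁ (L.l - 1) T) {B T : Set (Fin b)} (hB : TwoC H₂ B) (hTB : T ⊆ B)
    (hT : Top L H₂ (L.l - 1) T) (hc : B.ncard = s) {F : SimpleGraph (Fin a)} (hF : Mat L H₁ F)
    (hI : Ind H₁ F) (hC : Cls L (H₁ \ F) k i) (px : Prop) (hpx : ∀ u v, F.Adj u v → px) :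
    Cls L H₂ k i ∨ (px ∧ (H₂.Connected → Pool.Agent.Lib.MP_781e3b_co.Emb H₂ H₁.Adj)) := by
  obtain ⟨S, s1, s2⟩ := exists_S H₁ (fun B => ∃ T ⊆ B, Top L H₁ (L.l - 1) T)
    (fun B B' hBB ⟨T, h1, h2⟩ => ⟨T, h1.trans hBB, h2⟩) s hs
  obtain ⟨M, m1, m2⟩ := exists_M hL b₁
  obtain ⟨F₀, f1, f2⟩ := exists_F0 hL b₁.w1
  obtain ⟨c, c1, c2⟩ := hC
  have hP : L.P L.l := hL.P le_rfl
  have hP' : L.P (L.l - 1) := hL.P (Nat.sub_le _ _)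
  let K : Kit := ⟨L, a, H₁, S, M, F, F₀, k, s, i, c, px, b⟩
  have hK : K.OK := by
    refine ⟨hL, b₁, ?_, s1, s2, m1, m2, hF, hI, hpx, f1, f2, hk, fun Z hZ => ?_, c1, c2⟩
    · obtain ⟨T, -, -, K', -, h1⟩ := ht
      obtain ⟨w, -⟩ := (nontrivial_of_three (Mark.three hL.n3 ⟨K', Subset.rfl, h1⟩)).nonempty
      obtain ⟨u, -, v, -, h2, -⟩ := h1.edge_avoid hL w
      exact ⟨u, v, h2⟩
    · exact (cnt_mono Subset.rfl fun T _ h1 => h1.mono hP' fun _ _ _ _ h => h.1).trans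
        (hm Z ⟨hZ.1, (D_mono (G := H₁ \ F) hP fun _ _ _ _ h => h.1).trans hZ.2⟩)
  obtain ⟨V, _, G, h1, h2⟩ := host hK (Y' := H₂) (by simp [K]) b₂ hB hTB hT hc
  exact h2 (h.imp h1)

theorem conn_emb {a b : ℕ} {H₁ : SimpleGraph (Fin a)} {H₂ : SimpleGraph (Fin b)}
    (hc : H₁.Connected) (h : RamseyEquiv H₁ H₂ 2) :
    Pool.Agent.Lib.MP_781e3b_co.Emb H₁ H₂.Adj := by
  classical
  by_cases hac : H₁.IsAcyclic
  · obtain ⟨⟨f, rfl⟩, -⟩ := tree_main ⟨hc, hac⟩ h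
    exact ⟨f, f.injective, fun u v huv => map_adj_apply' huv (f.injective.ne huv.ne)⟩
  obtain ⟨B₀, hB₀⟩ := twoC_of_cycle hac
  obtain ⟨L, hL, b₁, b₂, t₁, t₂⟩ := levels_pair h hB₀
  have hl : L.l - 1 < L.l := Nat.sub_lt hL.l1 one_pos
  have hP' : L.P (L.l - 1) := hL.P hl.le
  -- the largest 2-connected sets with a top
  have big : ∀ {n : ℕ} (H : SimpleGraph (Fin n)), Bd L H → (∃ T, Top L H (L.l - 1) T) →
      ∃ B, (TwoC H B ∧ ∃ T ⊆ B, Top L H (L.l - 1) T) ∧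
        ∀ B', TwoC H B' → (∃ T ⊆ B', Top L H (L.l - 1) T) → B'.ncard ≤ B.ncard := by
    rintro n H hb ⟨T, hT⟩
    obtain ⟨B, h1, h2⟩ := Set.exists_max_image
      {B | TwoC H B ∧ ∃ T ⊆ B, Top L H (L.l - 1) T} Set.ncard (toFinite _)
      ⟨T, tight_twoC hL hb.w1 hl (subset_univ _) hT.2.1 (hT.three hL.n3), T, Subset.rfl, hT⟩
    exact ⟨B, h1, fun B' h3 h4 => h2 B' ⟨h3, h4⟩⟩
  have move : ∀ {n n' : ℕ} {H : SimpleGraph (Fin n)} {H' : SimpleGraph (Fin n')},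
      RamseyEquiv H H' 2 → ∀ B, TwoC H B → (∃ T ⊆ B, Top L H (L.l - 1) T) →
      ∃ B', TwoC H' B' ∧ (∃ T ⊆ B', Top L H' (L.l - 1) T) ∧ B'.ncard = B.ncard := by
    rintro n n' H H' he B hB ⟨T, h1, h2⟩
    obtain ⟨f, f1, f2⟩ := twoC_transfer he hB
    exact ⟨f '' B, hB.hom f1 f2, ⟨f '' T, image_mono h1, h2.hom hP' (f1.mono h1)
      fun u hu v hv => f2 u (h1 hu) v (h1 hv)⟩, f1.ncard_image⟩
  obtain ⟨B₁, ⟨p1, T₁, p2, p3⟩, p4⟩ := big H₁ b₁ t₁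
  obtain ⟨B₂, ⟨q1, T₂, q2, q3⟩, q4⟩ := big H₂ b₂ t₂
  have hs : B₂.ncard = B₁.ncard := by
    obtain ⟨B, r1, r2, r3⟩ := move h B₁ p1 ⟨T₁, p2, p3⟩
    obtain ⟨B', r4, r5, r6⟩ := move h.symm B₂ q1 ⟨T₂, q2, q3⟩
    exact le_antisymm (r6 ▸ p4 B' r4 r5) (r3 ▸ q4 B r1 r2)
  -- the largest number of tops in a tight set
  have most : ∀ {n : ℕ} (H : SimpleGraph (Fin n)), Bd L H → ∀ T, Top L H (L.l - 1) T →
      ∃ C, KCl L H (tops L H C) C ∧ 1 ≤ tops L H C ∧ ∀ Z, Tt L H Z → tops L H Z ≤ tops L H C := by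
    intro n H hb T hT
    obtain ⟨Z, h1, h2⟩ := Set.exists_max_image {Z | Tt L H Z} (tops L H) (toFinite _)
      ⟨T, hT.tt hL⟩
    obtain ⟨z, hz⟩ := h1.1
    have h3 := isCl_cl hL hb.w1 z
    have h4 : tops L H Z ≤ tops L H (cl L H z) :=
      cnt_mono (h3.2 Z h1 ⟨z, hz, mem_cl hL z⟩) fun _ _ h => h
    exact ⟨cl L H z, ⟨h3, le_rfl⟩,
      ((one_le_cnt.2 ⟨T, Subset.rfl, hT⟩).trans (h2 T (hT.tt hL))).trans h4,
      fun Z' hZ' => (h2 Z' hZ').trans h4⟩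
  obtain ⟨C₁, c1, c2, c3⟩ := most H₁ b₁ T₁ p3
  obtain ⟨C₂, d1, d2, d3⟩ := most H₂ b₂ T₂ q3
  set k := max (tops L H₁ C₁) (tops L H₂ C₂) with hkdef
  have hk : 1 ≤ k := c2.trans (le_max_left _ _)
  have m₁ : ∀ Z, Tt L H₁ Z → tops L H₁ Z ≤ k := fun Z hZ => (c3 Z hZ).trans (le_max_left _ _)
  have m₂ : ∀ Z, Tt L H₂ Z → tops L H₂ Z ≤ k := fun Z hZ => (d3 Z hZ).trans (le_max_right _ _)
  have ex := cls_exists hL b₁ hk
  have h1 : Cls L H₁ k (Nat.find ex) := Nat.find_spec ex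
  have h2 : Cls L H₂ k (Nat.find ex) :=
    (descend h hL b₁ b₂ hk m₁ p4 t₁ q1 q2 q3 hs (mat_bot L H₁) (fun _ _ _ _ h => h.elim)
      (by rwa [sdiff_bot]) False fun _ _ h => h.elim).resolve_right fun h => h.1
  rcases hi : Nat.find ex with _ | i
  · rw [hi] at h1 h2
    obtain ⟨c, e1, -⟩ := h1
    obtain ⟨c', e2, -⟩ := h2
    rcases max_choice (tops L H₁ C₁) (tops L H₂ C₂) with e | e
    · exact absurd (e1 C₁ (by rw [hkdef, e]; exact c1)) (Nat.not_lt_zero _)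
    · exact absurd (e2 C₂ (by rw [hkdef, e]; exact d1)) (Nat.not_lt_zero _)
  · rw [hi] at h2
    obtain ⟨F, f1, f2, f3⟩ := cls_step hL b₂ hk m₂ h2
    rcases descend h.symm hL b₂ b₁ hk m₂ q4 t₂ p1 p2 p3 hs.symm f1 f2 f3 True
      fun _ _ _ => trivial with h3 | h3
    · exact absurd h3 (Nat.find_min ex (by omega))
    · exact h3.2 hc

end Pool.Agent.Lib.MP_781e3b_co.CN
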