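import Pool.Agent.Lib.MP_781e3b_co.CN.Nest0

/-!
Tops and nested edges (1.2, 1.3).
-/

namespace Pool.Agent.Lib.MP_781e3b_co.CN

open Set Function SimpleGraph

variable {Ω : Type} [Finite Ω] {L : Lv} {G : SimpleGraph Ω} {Z T T' : Set Ω} {i j : ℕ} {a b : Ω}

/-- A chain of tops down to a marked set (exists_top, induction on j). -/
theorem exists_chain (hL : L.OK) (hb : Bd L G) (hj : j < L.l) (h : Top L G j T) :
    ∃ K ⊆ T, Mk L G K ∧ ∀ i ≤ j, ∃ T', Top L G i T' ∧ K ⊆ T' := by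
  induction j generalizing T with
  | zero =>
    obtain ⟨K, hK, hM⟩ := h.2.2
    refine ⟨K, hK, hM, fun i hi => ?_⟩
    obtain rfl : i = 0 := Nat.le_zero.1 hi
    exact ⟨T, h, hK⟩
  | succ j ih =>
    have hj' : j < L.l := (Nat.lt_succ_self j).trans hj
    obtain ⟨T₀, hT₀, h₀⟩ := exists_top hL hb.w1 hj' (subset_univ T)
      (nontrivial_of_three (h.three hL.n3)) h.2.1
    obtain ⟨K, hK, hM, hc⟩ := ih hj' h₀
    refine ⟨K, hK.trans hT₀, hM, fun i hi => ?_⟩
    rcases Nat.le_succ_iff.1 hi with hi | rfl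
    · exact hc i hi
    · exact ⟨T, h, hK.trans hT₀⟩

/-- A marked set is not a star: else it has at most n - 1 edges. -/
theorem Mk.edge_avoid (hL : L.OK) (h : Mk L G T) (w : Ω) :
    ∃ a ∈ T, ∃ b ∈ T, G.Adj a b ∧ a ≠ w ∧ b ≠ w := by
  by_contra hc
  have hc' : ∀ a ∈ T, ∀ b ∈ T, G.Adj a b → a = w ∨ b = w := by
    intro a ha b hb hab
    by_contra h1
    exact hc ⟨a, ha, b, hb, hab, fun h2 => h1 (Or.inl h2), fun h2 => h1 (Or.inr h2)⟩
  have hn := hL.n3
  have hcard := h.1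
  have he : ec G T + 1 ≤ L.n := by
    by_cases hw : w ∈ T
    · have hsub : {S | S ⊆ T ∧ IsEdge G S} ⊆ (fun x => ({w, x} : Set Ω)) '' (T \ {w}) := by
        rintro S ⟨hS, a, b, hab, rfl⟩
        have ha : a ∈ T := hS (by simp)
        have hb : b ∈ T := hS (by simp)
        rcases hc' a ha b hb hab with rfl | rfl
        · exact ⟨b, ⟨hb, fun h2 => hab.ne (Eq.symm h2)⟩, rfl⟩
        · exact ⟨a, ⟨ha, fun h2 => hab.ne h2⟩, pair_comm _ _⟩
      have h1 : ec G T ≤ (T \ {w}).ncard :=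
        (ncard_le_ncard hsub (toFinite _)).trans (ncard_image_le (toFinite _))
      have h2 := ncard_diff_singleton_add_one hw (toFinite T)
      omega
    · have h0 : ec G T = 0 := by
        refine cnt_eq_zero.2 ?_
        rintro S hS ⟨a, b, hab, rfl⟩
        have ha : a ∈ T := hS (by simp)
        have hb : b ∈ T := hS (by simp)
        rcases hc' a ha b hb hab with rfl | rfl
        · exact hw ha
        · exact hw hb
      omega
  have h3 := h.2
  rw [hcard] at h3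
  have h4 : (ec G T : ℝ) + 1 ≤ L.n := by exact_mod_cast he
  have h5 : (3 : ℝ) ≤ L.n := by exact_mod_cast hn
  have h6 := hL.m1
  nlinarith

theorem exists_nest (hL : L.OK) (hb : Bd L G) (hj : j < L.l) (h : Top L G j T) (w : Ω) :
    ∃ a ∈ T, ∃ b ∈ T, Nest L G (j + 1) a b ∧ a ≠ w ∧ b ≠ w := by
  obtain ⟨K, hK, hM, hc⟩ := exists_chain hL hb hj h
  obtain ⟨a, ha, b, hb', hab, h1⟩ := hM.edge_avoid hL w
  refine ⟨a, hK ha, b, hK hb', ⟨hab, fun i hi => ?_⟩, h1⟩
  obtain ⟨T', h2, h3⟩ := hc i (Nat.lt_succ_iff.1 hi)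
  exact ⟨T', h2, h3 ha, h3 hb'⟩

end Pool.Agent.Lib.MP_781e3b_co.CN
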