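import Pool.Agent.Lib.MP_781e3b_co.CN.Basic2

/-!
Tops and nested edges (1.2, 1.3).
-/

namespace Pool.Agent.Lib.MP_781e3b_co.CN

open Set Function SimpleGraph

variable {Ω : Type} [Finite Ω] {L : Lv} {G : SimpleGraph Ω} {Z T T' : Set Ω} {i j : ℕ} {a b : Ω}

namespace Nest0Aux

omit [Finite Ω] in
theorem edge_le (hab : G.Adj a b) : edge a b ≤ G := fun x y h => by
  rcases (edge_adj a b x y).1 h with ⟨⟨rfl, rfl⟩ | ⟨rfl, rfl⟩, -⟩
  · exact hab
  · exact hab.symm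

omit [Finite Ω] in
theorem ec_edge (hab : a ≠ b) (ha : a ∈ Z) (hb : b ∈ Z) : ec (edge a b) Z = 1 := by
  have : {T | T ⊆ Z ∧ IsEdge (edge a b) T} = {({a, b} : Set Ω)} := by
    ext T
    constructor
    · rintro ⟨-, x, y, h, rfl⟩
      rcases (edge_adj a b x y).1 h with ⟨⟨rfl, rfl⟩ | ⟨rfl, rfl⟩, -⟩
      · rfl
      · exact pair_comm _ _
    · rintro rfl
      exact ⟨pair_subset ha hb, a, b, (edge_adj a b a b).2 ⟨Or.inl ⟨rfl, rfl⟩, hab⟩, rfl⟩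
  rw [ec, cnt, this, ncard_singleton]

theorem D_zero_del (hab : G.Adj a b) (ha : a ∈ Z) (hb : b ∈ Z) :
    D L (G \ edge a b) 0 Z = D L G 0 Z + 1 := by
  have h := ec_sdiff (Z := Z) (edge_le hab)
  rw [ec_edge hab.ne ha hb] at h
  rw [D_zero, D_zero, ← h]
  push_cast
  ring

omit [Finite Ω] in
theorem adj_iff (h : ¬ (a ∈ Z ∧ b ∈ Z)) :
    ∀ x ∈ Z, ∀ y ∈ Z, G.Adj x y ↔ (G \ edge a b).Adj x y := fun x hx y hy => by
  refine ⟨fun h1 => ⟨h1, fun h2 => h ?_⟩, fun h1 => h1.1⟩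
  rcases (edge_adj a b x y).1 h2 with ⟨⟨rfl, rfl⟩ | ⟨rfl, rfl⟩, -⟩
  · exact ⟨hx, hy⟩
  · exact ⟨hy, hx⟩

theorem cnt_succ {Q Q' : Set Ω → Prop} (hT : T ⊆ Z) (hQ : Q T)
    (h : ∀ T' ⊆ Z, Q' T' ↔ Q T' ∧ T' ≠ T) : cnt Q Z = cnt Q' Z + 1 := by
  have : {T' | T' ⊆ Z ∧ Q' T'} = {T' | T' ⊆ Z ∧ Q T'} \ {T} := by
    ext T'
    exact ⟨fun h1 => ⟨⟨h1.1, ((h T' h1.1).1 h1.2).1⟩, ((h T' h1.1).1 h1.2).2⟩,
      fun h1 => ⟨h1.1.1, (h T' h1.1.1).2 ⟨h1.1.2, h1.2⟩⟩⟩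
  rw [cnt, cnt, this]
  exact (ncard_sdiff_singleton_add_one (s := {T' | T' ⊆ Z ∧ Q T'}) ⟨hT, hQ⟩ (toFinite _)).symm

end Nest0Aux

open Nest0Aux

/-- D j (T ∪ T') ≤ D j T' + D j T - D j (T ∩ T') and the last difference is at most
D i T - D i (T ∩ T') ≤ 0 by D_cost; so T ∪ T' is marked and tight, Bd.top. -/
theorem top_chain (hL : L.OK) (hb : Bd L G) (hi : i ≤ j) (hj : j < L.l) (h : Top L G i T)
    (h' : Top L G j T') (hn : (T ∩ T').Nontrivial) : T ⊆ T' := by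
  have h1 := D_sub (G := G) (Z := T) (Z' := T') (hL.P hj.le)
  have h2 := D_cost (G := G) (hL.P hj.le) hi (inter_subset_left (s := T) (t := T'))
  have h3 := hb.w1.ge i (hi.trans hj.le) _ (subset_univ _) hn
  have h4 := hb.top j hj (T ∪ T') (by linarith [h.2.1, h'.2.1]) (h'.2.2.mono subset_union_right)
  rw [← h'.1] at h4
  rw [eq_of_subset_of_ncard_le subset_union_right h4 (toFinite _)]
  exact subset_union_left

theorem top_eq (hL : L.OK) (hb : Bd L G) (hj : j < L.l) (h : Top L G j T) (h' : Top L G j T')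
    (hn : (T ∩ T').Nontrivial) : T = T' :=
  (top_chain hL hb le_rfl hj h h' hn).antisymm
    (top_chain hL hb le_rfl hj h' h (inter_comm T T' ▸ hn))

/-- Deleting an edge inside Z raises D by at least one. -/
theorem D_del (hP : L.P j) (hab : G.Adj a b) (ha : a ∈ Z) (hb : b ∈ Z) :
    D L G j Z + 1 ≤ D L (G \ edge a b) j Z := by
  induction j with
  | zero => exact (D_zero_del hab ha hb).ge
  | succ j ih =>
    have h0 := hP.mono (Nat.le_succ j)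
    have h1 : (cnt (Top L (G \ edge a b) j) Z : ℝ) ≤ cnt (Top L G j) Z := by
      exact Nat.cast_le.2 <| cnt_mono subset_rfl fun T _ h => Top.mono h h0 fun x _ y _ h => h.1
    have h2 := mul_le_mul_of_nonneg_left h1 (hP j (Nat.lt_succ_self j))
    rw [D_succ, D_succ]
    linarith [ih h0]

theorem D_del_out (h : ¬ (a ∈ Z ∧ b ∈ Z)) : D L (G \ edge a b) j Z = D L G j Z := by
  exact D_congr (adj_iff h)

theorem top_del (hL : L.OK) (hb : Bd L G) (hj : j < L.l) (hab : G.Adj a b) :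
    Top L (G \ edge a b) j T ↔ Top L G j T ∧ ¬ (a ∈ T ∧ b ∈ T) := by
  refine ⟨fun h => ⟨h.mono (hL.P hj.le) fun x _ y _ h => h.1, fun h1 => ?_⟩,
    fun h => (Top.congr (adj_iff h.2)).2 h.1⟩
  have h2 := D_del (hL.P hj.le) hab h1.1 h1.2
  have h3 := hb.w1.ge j hj.le T (subset_univ _) ⟨a, h1.1, b, h1.2, hab.ne⟩
  linarith [h.2.1]

/-- If the tops through a, b of all levels below j lie in Z, the deletion raises D j Z by
exactly 1 + ρ 0 + ... + ρ (j - 1) = 2m - θ j (top_del, top_eq). -/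
theorem D_del_eq (hL : L.OK) (hb : Bd L G) (hj : j ≤ L.l) (hab : G.Adj a b) (ha : a ∈ Z)
    (hbZ : b ∈ Z) (h : ∀ i < j, ∃ T ⊆ Z, Top L G i T ∧ a ∈ T ∧ b ∈ T) :
    D L (G \ edge a b) j Z = D L G j Z + (2 * L.m - L.θ j) := by
  induction j with
  | zero =>
    rw [D_zero_del hab ha hbZ, Lv.θ]
    ring
  | succ j ih =>
    obtain ⟨T, hT, h1, h2, h3⟩ := h j (Nat.lt_succ_self j)
    have h4 : cnt (Top L G j) Z = cnt (Top L (G \ edge a b) j) Z + 1 :=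
      cnt_succ hT h1 fun T' _ => (top_del hL hb hj hab).trans (and_congr_right fun h5 =>
        not_congr ⟨fun h6 => top_eq hL hb hj h5 h1 ⟨a, ⟨h6.1, h2⟩, b, ⟨h6.2, h3⟩, hab.ne⟩,
          fun h6 => h6 ▸ ⟨h2, h3⟩⟩)
    rw [D_succ, D_succ, ih (Nat.le_of_succ_le hj) fun i hi => h i (Nat.lt_succ_of_lt hi), h4,
      Lv.θ]
    push_cast
    ring

/-- D_del_eq with top_chain and Top.succ_tight. -/
theorem lemN_top (hL : L.OK) (hb : Bd L G) (hi : i ≤ L.l) (hn : Nest L G i a b) (hj : j < i)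
    (hT : Top L G j T) (ha : a ∈ T) (hbT : b ∈ T) :
    D L (G \ edge a b) (j + 1) T ≤ 2 * L.m := by
  have hj' : j < L.l := hj.trans_le hi
  rw [D_del_eq hL hb hj' hn.1 ha hbT fun k hk => ?_]
  · linarith [hT.succ_tight (hL.pos j hj').le]
  · have hk' := Nat.lt_succ_iff.1 hk
    obtain ⟨T', h1, h2, h3⟩ := hn.2 k (hk'.trans_lt hj)
    exact ⟨T', top_chain hL hb hk' hj' h1 hT ⟨a, ⟨h2, ha⟩, b, ⟨h3, hbT⟩, hn.1.ne⟩, h1, h2, h3⟩

/-- Lemma N. Induction on j. With T the top of level j through a, b: D_sub for Z and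
T in G - ab, D_del_eq for Z ∪ T, lemN_top, and Z ∩ T holds no top of level j of
G - ab (it would be T). -/
theorem lemN (hL : L.OK) (hb : Bd L G) (hi : i ≤ L.l) (hn : Nest L G i a b) (hj : j ≤ i)
    (ha : a ∈ Z) (hbZ : b ∈ Z) : 2 * L.m ≤ D L (G \ edge a b) j Z := by
  induction j generalizing Z with
  | zero =>
    have h1 := hb.w1.ge 0 (Nat.zero_le _) Z (subset_univ _) ⟨a, ha, b, hbZ, hn.1.ne⟩
    rw [Lv.θ] at h1
    rw [D_zero_del hn.1 ha hbZ]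
    linarith
  | succ j ih =>
    have hj' : j < L.l := lt_of_lt_of_le hj hi
    obtain ⟨T, hT, haT, hbT⟩ := hn.2 j hj
    have h1 := D_sub (G := G \ edge a b) (Z := Z) (Z' := T) (hL.P (j := j + 1) hj')
    have h2 := D_del_eq (Z := Z ∪ T) (j := j + 1) hL hb hj' hn.1 (Or.inl ha) (Or.inl hbZ)
      fun k hk => by
        have hk' := Nat.lt_succ_iff.1 hk
        obtain ⟨T', h1, h2, h3⟩ := hn.2 k (hk'.trans_lt hj)
        exact ⟨T', (top_chain hL hb hk' hj' h1 hT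
          ⟨a, ⟨h2, haT⟩, b, ⟨h3, hbT⟩, hn.1.ne⟩).trans subset_union_right, h1, h2, h3⟩
    have h3 := hb.w1.ge (j + 1) hj' (Z ∪ T) (subset_univ _)
      ⟨a, Or.inl ha, b, Or.inl hbZ, hn.1.ne⟩
    have h4 := lemN_top hL hb hi hn hj hT haT hbT
    have h5 : cnt (Top L (G \ edge a b) j) (Z ∩ T) = 0 := cnt_eq_zero.2 fun T' h5 h6 => by
      have h7 : T' = T := eq_of_subset_of_ncard_le (h5.trans inter_subset_right)
        (hT.1.trans h6.1.symm).le (toFinite _)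
      exact ((top_del hL hb hj' hn.1).1 h6).2 (h7 ▸ ⟨haT, hbT⟩)
    have h6 := ih (Z := Z ∩ T) (Nat.le_of_succ_le hj) ⟨ha, haT⟩ ⟨hbZ, hbT⟩
    have h7 := D_succ L (G \ edge a b) j (Z ∩ T)
    rw [h5, Nat.cast_zero, mul_zero, sub_zero] at h7
    linarith

end Pool.Agent.Lib.MP_781e3b_co.CN
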