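import Pool.Agent.Lib.MP_781e3b_co.Main
import Pool.Agent.Lib.MP_781e3b_co.RR.PotDefs
import Pool.Agent.Lib.MP_781e3b_co.CN.Defs

/-!
Worlds, templates and the five constructions.
-/

namespace Pool.Agent.Lib.MP_781e3b_co.CN

open Set Function SimpleGraph

/-- The data taken from the graph Y. -/
structure Kit where
  L : Lv
  a : ℕ
  Y : SimpleGraph (Fin a)
  S : Set (Fin a)
  M : SimpleGraph (Fin a)
  F : SimpleGraph (Fin a)
  F₀ : SimpleGraph (Fin a)
  k : ℕ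
  b : ℕ
  i : ℕ
  c : Set (Fin a) → ℕ
  px : Prop
  N : ℕ

namespace Kit
variable (K : Kit)

abbrev U : Type := Fin K.a

/-- Labels: the private copy on the left, the nodes on the right. -/
abbrev Φ : Type := Fin K.a ⊕ Fin K.a

abbrev τ : SimpleGraph K.U := K.Y \ K.F

/-- Edges of τ inside clusters. -/
def ΨU : SimpleGraph K.U where
  Adj u v := K.τ.Adj u v ∧ cl K.L K.τ u = cl K.L K.τ v
  symm := ⟨fun _ _ h => ⟨h.1.symm, h.2.symm⟩⟩
  loopless := ⟨fun _ h => h.1.ne rfl⟩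

def fib : Fib K.Φ where
  Ψ := K.ΨU.map Sum.inr
  Mem := {C : Set K.U // KCl K.L K.τ K.k C}
  nd C := Sum.inr '' C.1
  cls C := K.c C.1
  opt C x y := ∃ u ∈ C.1, ∃ v ∈ C.1, Elig K.L K.τ u v ∧ x = Sum.inr u ∧ y = Sum.inr v

/-- The red graph on the private labels. -/
def X (x y : K.Φ) : Prop := K.px ∧ ∃ u v, K.Y.Adj u v ∧ x = Sum.inl u ∧ y = Sum.inl v

/-- The graph of a cell. -/
def cg : Bool → SimpleGraph K.U
  | true => K.Y \ St K.Y K.S
  | false => K.Y \ K.M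

/-- Not private. -/
def NP (x : K.Φ) : Prop := ∃ u, x = Sum.inr u

structure OK : Prop where
  hL : K.L.OK
  bd : Bd K.L K.Y
  edge : ∃ u v, K.Y.Adj u v
  hS : SOK K.Y K.S
  hit : ∀ B, TwoC K.Y B → (∃ T ⊆ B, Top K.L K.Y (K.L.l - 1) T) → B.ncard = K.b →
    (K.S ∩ B).Nonempty
  hM : Mat K.L K.Y K.M
  noTop : ∀ T, ¬ Top K.L (K.Y \ K.M) (K.L.l - 1) T
  hF : Mat K.L K.Y K.F
  ind : Ind K.Y K.F
  px : ∀ u v, K.F.Adj u v → K.px
  hF₀ : IndF K.Y K.F₀
  noMk : ∀ T, ¬ Mk K.L (K.Y \ K.F₀) T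
  k1 : 1 ≤ K.k
  kmax : ∀ Z, Tt K.L K.τ Z → tops K.L K.τ Z ≤ K.k
  clt : ∀ C, KCl K.L K.τ K.k C → K.c C < K.i
  er : ERoot K.L K.τ K.k K.c

end Kit

/-- A world: ground, blue graph, red cells, pending positions. -/
structure World (K : Kit) where
  V : Type
  fin : Finite V
  B : SimpleGraph (V × K.Φ)
  Cell : Type
  finC : Finite Cell
  sg : Cell → Bool
  ce : Cell → K.U → V × K.Φ
  PB : Set ((V × K.Φ) × (V × K.Φ))
  PR : Set ((V × K.Φ) × (V × K.Φ))

attribute [instance] World.fin World.finC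

variable {K : Kit}

/-- A cell of kind s placed by e. -/
structure CellOK {V : Type} (s : Bool) (e : K.U → V × K.Φ) : Prop where
  inj : Injective e
  np : ∀ u ∈ (K.cg s).support, K.NP (e u).2
  sig : s = true → ∀ u v, (e u).1 = (e v).1 → u = v
  mu : s = false → ∀ u v, (e u).1 = (e v).1 ↔ u = v ∨ K.M.Adj u v

/-- Ground points of a cell. -/
def gset {V : Type} (s : Bool) (e : K.U → V × K.Φ) : Set V :=
  {v | ∃ u ∈ (K.cg s).support, (e u).1 = v}

namespace World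
variable (W : World K)

def g (c : W.Cell) : Set W.V := gset (W.sg c) (W.ce c)

/-- Edge of a cell. -/
def CE (x y : W.V × K.Φ) : Prop :=
  ∃ c u v, (K.cg (W.sg c)).Adj u v ∧ x = W.ce c u ∧ y = W.ce c v

/-- Red edge. -/
def R (x y : W.V × K.Φ) : Prop := (x.1 = y.1 ∧ K.X x.2 y.2) ∨ W.CE x y

/-- Edge of the host graph. -/
def T (x y : W.V × K.Φ) : Prop := W.B.Adj x y ∨ W.R x y

abbrev Col : Type := W.V × K.Φ → W.V × K.Φ → Fin 2

/-- A monochromatic copy of Y. -/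
def Mono (χ : W.Col) : Prop :=
  ∃ i, Pool.Agent.Lib.MP_781e3b_co.Emb K.Y fun x y => W.T x y ∧ χ x y = i

/-- The pending positions have the wanted colours. -/
def Cnd (χ : W.Col) (βb βr : K.Φ → Fin 2) : Prop :=
  (∀ p ∈ W.PB, χ p.1 p.2 = βb p.2.2) ∧ ∀ p ∈ W.PR, χ p.1 p.2 ≠ βr p.1.2

def Forc (P : (K.Φ → Fin 2) → (K.Φ → Fin 2) → Prop) : Prop :=
  ∀ χ : W.Col, (∀ x y, χ x y = χ y x) → ∀ βb βr, P βb βr → W.Cnd χ βb βr → W.Mono χ

def LabEq : Prop := ∀ p ∈ W.PR, p.1.2 = p.2.2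

/-- Blue invariants. -/
structure BOK (κb κr : ℝ) : Prop where
  fib : FibG K.fib W.B
  good : ∀ A : Set W.V, A.ncard ≤ K.N → Good K.L K.fib W.B A
  pb : ∀ p ∈ W.PB, W.B.Adj p.1 p.2 ∧ p.1.1 ≠ p.2.1 ∧ K.NP p.2.2 ∧
    ∀ A : Set W.V, A.ncard ≤ K.N → PosB K.L W.B Prod.fst (up A) p.1.1 p.2.1 κb
  pr : ∀ p ∈ W.PR, W.CE p.1 p.2 ∧ p.1.1 ≠ p.2.1 ∧ K.NP p.1.2 ∧ K.NP p.2.2 ∧
    ∀ A : Set W.V, A.ncard ≤ K.N → PosR K.L K.fib W.B A p.1.1 p.2.1 κr

/-- Red invariants. -/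
structure ROK : Prop where
  cell : ∀ c, CellOK (W.sg c) (W.ce c)
  r1 : ∀ 𝒟 : Set W.Cell, 𝒟.ncard ≤ K.N ^ 2 → ∀ c ∉ 𝒟, ∀ a ∈ W.g c, ∀ b ∈ W.g c,
    Jn W.g 𝒟 a b → a = b
  r2 : ∀ 𝒟 : Set W.Cell, 𝒟.ncard ≤ K.N ^ 2 → ∀ p ∈ W.PB, ¬ Jn W.g 𝒟 p.1.1 p.2.1

end World

/-- Both maps are the same constant. -/
def PC (βb βr : K.Φ → Fin 2) : Prop := ∃ b, (∀ x, βb x = b) ∧ ∀ x, βr x = b

/-- No condition. -/
def PL (_ _ : K.Φ → Fin 2) : Prop := True

/-- A template over W: copies of W as hyperedges, new blue edges, new cells. -/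
structure Tm (W : World K) where
  V : Type
  fin : Finite V
  Hy : Type
  finH : Finite Hy
  tup : Hy → W.V → V
  G : SimpleGraph (V × K.Φ)
  New : Type
  finN : Finite New
  sg : New → Bool
  ce : New → K.U → V × K.Φ
  PB : Set ((V × K.Φ) × (V × K.Φ))
  PR : Set ((V × K.Φ) × (V × K.Φ))

attribute [instance] Tm.fin Tm.finH Tm.finN

namespace Tm
variable {W : World K} (T : Tm W)

/-- The blue graph of a template. -/
def B : SimpleGraph (T.V × K.Φ) where
  Adj x y := x ≠ y ∧ ((x.1 = y.1 ∧ K.fib.Ψ.Adj x.2 y.2) ∨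
    (∃ f x' y', W.B.Adj x' y' ∧ x = lift (T.tup f) x' ∧ y = lift (T.tup f) y') ∨ T.G.Adj x y)
  symm := ⟨fun _ _ h => ⟨h.1.symm, h.2.imp (fun h => ⟨h.1.symm, h.2.symm⟩)
    (Or.imp (fun ⟨f, x', y', h1, h2, h3⟩ => ⟨f, y', x', h1.symm, h3, h2⟩) fun h => h.symm)⟩⟩
  loopless := ⟨fun _ h => h.1 rfl⟩

/-- The template as a world. -/
@[reducible] def w : World K where
  V := T.V
  fin := T.fin
  B := T.B
  Cell := T.Hy × W.Cell ⊕ T.New
  finC := inferInstance
  sg := Sum.elim (fun z => W.sg z.2) T.sg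
  ce := Sum.elim (fun z u => lift (T.tup z.1) (W.ce z.2 u)) T.ce
  PB := T.PB
  PR := T.PR

structure Pre : Prop where
  inj : ∀ f, Injective (T.tup f)
  lin : ∀ f f', f ≠ f' → (range (T.tup f) ∩ range (T.tup f')).Subsingleton
  cross : ∀ x y, T.G.Adj x y → x.1 ≠ y.1
  out : ∀ x y, T.G.Adj x y → ∀ f, x.1 ∈ range (T.tup f) → y.1 ∉ range (T.tup f)

/-- The hyperedges respect an order. -/
def Ord : Prop := ∃ (o : W.V → ℕ) (r : T.V → ℕ), Injective o ∧
  ∀ f k k', o k < o k' → r (T.tup f k) < r (T.tup f k')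

/-- Every hyperedge is a root. -/
def Rooted : Prop :=
  ∀ f, ∀ A : Set T.V, A.ncard ≤ K.N → Root K.L K.fib T.B A (range (T.tup f))

/-- The old cells in the hyperedge f. -/
def old (f : T.Hy) : Set T.w.Cell := {c | ∃ c₀, c = Sum.inl (f, c₀)}

/-- What a template has to show on the red side. -/
structure RT : Prop where
  cell : ∀ c, CellOK (T.sg c) (T.ce c)
  h1 : ∀ f, ∀ 𝒟 : Set T.w.Cell, 𝒟.ncard ≤ K.N ^ 2 → Disjoint 𝒟 (T.old f) →
    ∀ a ∈ range (T.tup f), ∀ b ∈ range (T.tup f), Jn T.w.g 𝒟 a b → a = b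
  r1 : ∀ 𝒟 : Set T.w.Cell, 𝒟.ncard ≤ K.N ^ 2 → ∀ c, Sum.inr c ∉ 𝒟 →
    ∀ a ∈ T.w.g (Sum.inr c), ∀ b ∈ T.w.g (Sum.inr c), Jn T.w.g 𝒟 a b → a = b
  r2 : ∀ p ∈ T.PB, (∃ f, ∃ p₀ ∈ W.PB, p = (lift (T.tup f) p₀.1, lift (T.tup f) p₀.2)) ∨
    ∀ 𝒟 : Set T.w.Cell, 𝒟.ncard ≤ K.N ^ 2 → ¬ Jn T.w.g 𝒟 p.1.1 p.2.1

/-- All hyperedges show the same colouring. -/
def Homog (χ : T.w.Col) : Prop :=
  ∃ γ : W.Col, ∀ f x y, χ (lift (T.tup f) x) (lift (T.tup f) y) = γ x y

def HForc (P : (K.Φ → Fin 2) → (K.Φ → Fin 2) → Prop) : Prop :=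
  ∀ χ : T.w.Col, (∀ x y, χ x y = χ y x) → T.Homog χ → ∀ βb βr, P βb βr → T.w.Cnd χ βb βr →
    T.w.Mono χ

end Tm

/-- Output of the girth Ramsey theorem for a template. -/
structure RRO {W : World K} (T : Tm W) (n : ℕ) where
  V : Type
  fin : Finite V
  Hy : Type
  finH : Finite Hy
  J : Type
  finJ : Finite J
  tup : Hy → W.V → V
  ev : J → T.V → V
  ew : J → T.Hy → Hy
  inj : ∀ z, Injective (tup z)
  evinj : ∀ j, Injective (ev j)
  ewinj : ∀ j, Injective (ew j)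
  comm : ∀ j f k, tup (ew j f) k = ev j (T.tup f k)
  lin : ∀ z z', z ≠ z' → (range (tup z) ∩ range (tup z')).Subsingleton
  si : ∀ j z, z ∉ range (ew j) → (range (tup z) ∩ range (ev j)).Subsingleton
  ram : ∀ c : Hy → W.Col, ∃ j γ, ∀ f, c (ew j f) = γ
  fp : RR.FP (⟨fun j => range (ev j), fun j => range (ew j), fun z => range (tup z)⟩ :
    RR.Sys J Hy V) True n

attribute [instance] RRO.fin RRO.finH RRO.finJ

/-- The host as a template over W. -/
@[reducible] def RRO.host {W : World K} {T : Tm W} {n : ℕ} (O : RRO T n) : Tm W where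
  V := O.V
  fin := O.fin
  Hy := O.Hy
  finH := O.finH
  tup := O.tup
  G := ⨆ j, T.G.map (lift (O.ev j))
  New := O.J × T.New
  finN := inferInstance
  sg c := T.sg c.2
  ce c u := lift (O.ev c.1) (T.ce c.2 u)
  PB := {p | ∃ j, ∃ p₀ ∈ T.PB, p = (lift (O.ev j) p₀.1, lift (O.ev j) p₀.2)}
  PR := {p | ∃ j, ∃ p₀ ∈ T.PR, p = (lift (O.ev j) p₀.1, lift (O.ev j) p₀.2)}

/-- The girth that is needed. -/
def Kit.gi (K : Kit) : ℕ := (K.N * (2 * K.a)) ^ 2 + K.N ^ 2 + 2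

/-! ### Padded edges -/

open Classical in
/-- The edge d padded to a tuple, with its ends at the places α d and β d. -/
noncomputable def tt {U E I : Type} (x y : E → U) (α β : E → I) (d : E) (k : I) : U ⊕ E × I :=
  if k = α d then Sum.inl (x d) else if k = β d then Sum.inl (y d) else Sum.inr (d, k)

/-- The graph given by a family of placed copies of Γ. -/
def placed {P U Ω : Type} (Γ : SimpleGraph U) (ι : P → U → Ω) : SimpleGraph Ω :=
  ⨆ p, Γ.map (ι p)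

/-! ### Base -/

/-- One fibre. -/
@[reducible] def pt (K : Kit) : World K where
  V := Unit
  fin := inferInstance
  B := K.fib.Ψ.comap Prod.snd
  Cell := Empty
  finC := inferInstance
  sg := Empty.elim
  ce := Empty.elim
  PB := ∅
  PR := ∅

namespace Kit
variable (K : Kit)

abbrev Pτ : Type := {g : K.U × K.U // K.Y.Adj g.1 g.2}

abbrev Pμ : Type := {g : K.U × K.U // K.ΨU.Adj g.1 g.2}

abbrev V₀ : Type := (K.Pτ ⊕ K.Pμ) × Set K.U

open Classical in
/-- The copy of τ with F on the private edge g. -/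
noncomputable def ιτ (g : K.Pτ) (u : K.U) : K.V₀ × K.Φ :=
  ((Sum.inl g, piF K.L K.Y K.F u),
    if ∃ v, K.F.Adj u v ∧ u < v then Sum.inl g.1.1
    else if u ∈ K.F.support then Sum.inl g.1.2 else Sum.inr u)

open Classical in
/-- The copy of Y \ M with M on the node edge g. -/
noncomputable def ιμ (g : K.Pμ) (u : K.U) : K.V₀ × K.Φ :=
  ((Sum.inr g, insert u (K.M.neighborSet u)),
    if ∃ v, K.M.Adj u v ∧ u < v then Sum.inr g.1.1 else Sum.inr g.1.2)

/-- Edges of τ between different parts. -/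
def τx : SimpleGraph K.U where
  Adj u v := K.τ.Adj u v ∧ piF K.L K.Y K.F u ≠ piF K.L K.Y K.F v
  symm := ⟨fun _ _ h => ⟨h.1.symm, h.2.symm⟩⟩
  loopless := ⟨fun _ h => h.1.ne rfl⟩

end Kit

@[reducible] noncomputable def baseT (K : Kit) : Tm (pt K) where
  V := K.V₀
  fin := inferInstance
  Hy := K.V₀
  finH := inferInstance
  tup v _ := v
  G := placed K.τx K.ιτ
  New := K.Pμ
  finN := inferInstance
  sg _ := false
  ce := K.ιμ
  PB := {p | ∃ g u v, K.τx.Adj u v ∧ v ∉ K.F.support ∧ p = (K.ιτ g u, K.ιτ g v)}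
  PR := {p | ∃ g u v, (K.Y \ K.M).Adj u v ∧ p = (K.ιμ g u, K.ιμ g v)}

/-! ### Bipartite patterns on positions -/

section
variable (W : World K) (P : Set ((W.V × K.Φ) × (W.V × K.Φ))) (E : SimpleGraph K.U)
  (side : K.U → Bool)

/-- Pattern edges, oriented by the sides. -/
abbrev PE (E : SimpleGraph K.U) (side : K.U → Bool) : Type :=
  {d : K.U × K.U // E.Adj d.1 d.2 ∧ side d.1 = false}

abbrev bV : Type := P × K.U ⊕ (P × PE E side) × W.V

noncomputable def bTup : P × PE E side → W.V → bV W P E side :=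
  tt (fun f => (f.1, f.2.1.1)) (fun f => (f.1, f.2.1.2)) (fun f => f.1.1.1.1) fun f => f.1.1.2.1

/-- The vertex that stands for u in the copy of Y for the position p. -/
def bι (p : P) (u : K.U) : bV W P E side × K.Φ :=
  (Sum.inl (p, u), if side u then p.1.2.2 else p.1.1.2)

end

/-- Blue Y \ E with E on the red positions. -/
@[reducible] noncomputable def betaT (W : World K) (E : SimpleGraph K.U) (side : K.U → Bool) :
    Tm W where
  V := bV W W.PR E side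
  fin := inferInstance
  Hy := W.PR × PE E side
  finH := inferInstance
  tup := bTup W W.PR E side
  G := placed (K.Y \ E) (bι W W.PR E side)
  New := Empty
  finN := inferInstance
  sg := Empty.elim
  ce := Empty.elim
  PB := {p | (∃ f, ∃ p₀ ∈ W.PB, p = (lift (bTup W W.PR E side f) p₀.1,
      lift (bTup W W.PR E side f) p₀.2)) ∨
    ∃ q u v, (K.Y \ E).Adj u v ∧ p = (bι W W.PR E side q u, bι W W.PR E side q v)}
  PR := ∅

open Classical in
/-- Centres on the side false. -/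
noncomputable def Kit.sd (K : Kit) (u : K.U) : Bool := decide (u ∉ K.S)

/-- Red Y \ St with the stars on the blue positions. -/
@[reducible] noncomputable def starT (W : World K) : Tm W where
  V := bV W W.PB (St K.Y K.S) K.sd
  fin := inferInstance
  Hy := W.PB × PE (St K.Y K.S) K.sd
  finH := inferInstance
  tup := bTup W W.PB (St K.Y K.S) K.sd
  G := ⊥
  New := W.PB
  finN := inferInstance
  sg _ := true
  ce := bι W W.PB (St K.Y K.S) K.sd
  PB := ∅
  PR := {p | ∃ q u v, (K.Y \ St K.Y K.S).Adj u v ∧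
    p = (bι W W.PB (St K.Y K.S) K.sd q u, bι W W.PB (St K.Y K.S) K.sd q v)}

/-! ### Reference pairs -/

/-- The two ends of the pair for the labels q. -/
def pι (W : World K) (q : K.U × K.U) (s : Bool) : (W.V ⊕ (K.U × K.U) × Bool) × K.Φ :=
  (Sum.inr (q, s), Sum.inr (if s then q.2 else q.1))

/-- W together with a blue edge for every pair of labels that are not private. -/
@[reducible] def pairT (W : World K) : Tm W where
  V := W.V ⊕ (K.U × K.U) × Bool
  fin := inferInstance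
  Hy := Unit
  finH := inferInstance
  tup _ := Sum.inl
  G := placed (⊤ : SimpleGraph Bool) (pι W)
  New := Empty
  finN := inferInstance
  sg := Empty.elim
  ce := Empty.elim
  PB := {p | (∃ p₀ ∈ W.PB, p = (lift Sum.inl p₀.1, lift Sum.inl p₀.2)) ∨
    ∃ q s, p = (pι W q s, pι W q (!s))}
  PR := {p | ∃ p₀ ∈ W.PR, p = (lift Sum.inl p₀.1, lift Sum.inl p₀.2)}

/-! ### The last step -/

/-- Edges of Y, oriented upwards. -/
abbrev Kit.UE (K : Kit) : Type := {d : K.U × K.U // K.Y.Adj d.1 d.2 ∧ d.1 < d.2}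

/-- The vertex of Y behind a label. -/
def Kit.un (K : Kit) : K.Φ → K.U := Sum.elim id id

open Classical in
/-- The place of the lower (s = false) and the upper end of the edge f.2 for the position
f.1. -/
noncomputable def finP (W : World K) (o : W.V → ℕ) (s : Bool) (f : W.PR × K.UE) :
    (pairT W).w.V :=
  if K.F₀.Adj f.2.1.1 f.2.1.2 then
    Sum.inl (if (o f.1.1.1.1 < o f.1.1.2.1 ↔ s = false) then f.1.1.1.1 else f.1.1.2.1)
  else Sum.inr ((K.un f.1.1.1.2, K.un f.1.1.1.2), s)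

@[reducible] noncomputable def finT (W : World K) (o : W.V → ℕ) : Tm (pairT W).w where
  V := W.PR × K.U ⊕ (W.PR × K.UE) × (pairT W).w.V
  fin := inferInstance
  Hy := W.PR × K.UE
  finH := inferInstance
  tup := tt (fun f => (f.1, f.2.1.1)) (fun f => (f.1, f.2.1.2)) (finP W o false) (finP W o true)
  G := ⊥
  New := Empty
  finN := inferInstance
  sg := Empty.elim
  ce := Empty.elim
  PB := ∅
  PR := ∅

end Pool.Agent.Lib.MP_781e3b_co.CN
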