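import Pool.Agent.Lib.MP_781e3b_co.CN.Clu1
import Pool.Agent.Lib.MP_781e3b_co.CN.Glue
import Pool.Agent.Lib.MP_781e3b_co.CN.WDefs

/-!
The parts of Y \ F and the fibre graph.
-/

namespace Pool.Agent.Lib.MP_781e3b_co.CN

open Set Function SimpleGraph

namespace Parts0Aux

theorem fib_eq {Ω V V' : Type} {π : Ω → V} {π' : Ω → V'}
    (he : ∀ a b, π a = π b ↔ π' a = π' b) (a : Ω) : π' ⁻¹' {π' a} = π ⁻¹' {π a} := by
  ext x
  simp only [mem_preimage, mem_singleton_iff, he]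

end Parts0Aux

section
variable {Ω V V' : Type} [Finite Ω] {L : Lv} {G Y F : SimpleGraph Ω} {S : Set Ω} {κ : ℝ}

/-- Num depends on the partition only (an empty part is harmless: W1.nonneg, D_empty). -/
theorem Num.congr {π : Ω → V} {π' : Ω → V'} (hL : L.OK) (h : Num L G π S)
    (he : ∀ a b, π a = π b ↔ π' a = π' b) : Num L G π' S := by
  refine ⟨h.w1, fun v Z hZ => ?_, fun v j hj Z hZ hD hn => ?_,
    fun Z hZ hD a ha b hb => (he a b).1 (h.t Z hZ hD a ha b hb)⟩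
  · by_cases hv : ∃ a, π' a = v
    · obtain ⟨a, rfl⟩ := hv
      rw [Parts0Aux.fib_eq he a]
      exact h.str _ Z hZ
    · have h0 : Z ∩ π' ⁻¹' {v} = ∅ :=
        eq_empty_of_forall_notMem fun x hx => hv ⟨x, hx.2⟩
      rw [h0, D_empty hL.n3]
      exact h.w1.nonneg hL le_rfl hZ
  · obtain ⟨a, ha⟩ := hn.nonempty
    have hv : π' a = v := ha.2
    subst hv
    rw [Parts0Aux.fib_eq he a] at hn ⊢
    exact h.fs _ j hj Z hZ hD hn

omit [Finite Ω] in
theorem PosB.congr {π : Ω → V} {π' : Ω → V'} {a b : Ω} (h : PosB L G π S (π a) (π b) κ)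
    (he : ∀ a b, π a = π b ↔ π' a = π' b) : PosB L G π' S (π' a) (π' b) κ := by
  intro Z hZ
  rw [Parts0Aux.fib_eq he a, Parts0Aux.fib_eq he b]
  exact h Z hZ

/-- The ends of F are cold, so their clusters are points. -/
theorem cl_end (hL : L.OK) (hF : Mat L Y F) {a b : Ω} (h : F.Adj a b) : cl L (Y \ F) a = {a} := by
  refine Subset.antisymm (fun x hx => ?_) (singleton_subset_iff.2 (mem_cl hL a))
  obtain ⟨Z, hT, ha, hxZ⟩ := hx
  by_contra hne
  exact absurd hT.2 (not_le.2 (hF.cold a b h Z ⟨x, hxZ, a, ha, hne⟩ ha))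

theorem piF_eq (hL : L.OK) (hb : Bd L Y) (hF : Mat L Y F) (a b : Ω) :
    piF L Y F a = piF L Y F b ↔ b ∈ cl L (Y \ F) a ∨ F.Adj a b := by
  have w : W1 L (Y \ F) univ := (hb.sub hL sdiff_le).w1
  have hn : ∀ u v, F.Adj u v → F.neighborSet u = {v} := fun u v huv =>
    Subset.antisymm (fun x hx => hF.uniq u x v hx huv) (singleton_subset_iff.2 huv)
  constructor
  · intro h
    have : b ∈ piF L Y F a := by
      rw [h]
      exact Or.inl (mem_cl hL b)
    exact this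
  · rintro (h | h)
    · by_cases hab : a = b
      · rw [hab]
      have hc : cl L (Y \ F) a = cl L (Y \ F) b := (cl_eq_iff hL w).2 h
      have h1 : F.neighborSet a = ∅ := eq_empty_of_forall_notMem fun x hx => by
        rw [cl_end hL hF hx] at h
        exact hab (mem_singleton_iff.1 h).symm
      have h2 : F.neighborSet b = ∅ := eq_empty_of_forall_notMem fun x hx => by
        have h3 : a ∈ cl L (Y \ F) b := hc ▸ mem_cl hL a
        rw [cl_end hL hF hx] at h3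
        exact hab (mem_singleton_iff.1 h3)
      unfold piF
      rw [hc, h1, h2]
    · unfold piF
      rw [cl_end hL hF h, cl_end hL hF h.symm, hn a b h, hn b a h.symm, union_comm]

end

/-- w1: glue_one for the left labels (w1_noedge) and the right labels (W1.iso, W1.hom).
two: two_options. sep: IsCl.eq_cl. -/
theorem Kit.OK.fib {K : Kit} (h : K.OK) : K.fib.OK K.L := by
  have hL := h.hL
  have hb : Bd K.L K.τ := h.bd.sub hL sdiff_le
  have hadj : ∀ x y : K.Φ, K.fib.Ψ.Adj x y →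
      ∃ u v, K.ΨU.Adj u v ∧ Sum.inr u = x ∧ Sum.inr v = y := fun x y hxy => hxy.2
  refine ⟨?_, ?_, ?_, ?_, ?_⟩
  · obtain ⟨u, -, -⟩ := h.edge
    exact ⟨Sum.inl u⟩
  · have w0 : W1 K.L K.ΨU univ :=
      W1.hom (f := id) (G' := K.τ) hL (injOn_id _) (fun _ _ _ _ hh => hh.1)
        (hb.w1.mono (subset_univ _))
    have w2 : W1 K.L K.fib.Ψ ((Sum.inr : K.U → K.Φ) '' univ) := by
      refine W1.iso Sum.inr_injective.injOn (fun a _ b _ => ⟨fun hh => ?_, fun hh => ?_⟩) w0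
      · exact ⟨fun he => hh.ne (Sum.inr_injective he), a, b, hh, rfl, rfl⟩
      · obtain ⟨u, v, h1, h2, h3⟩ := hadj _ _ hh
        rw [← Sum.inr_injective h2, ← Sum.inr_injective h3]
        exact h1
    refine (glue_one (S₁ := range Sum.inl) (S₂ := range Sum.inr) hL ⟨?_, ?_⟩ ?_ ?_ ?_).w1
    · rintro (x | x) -
      · exact Or.inl ⟨x, rfl⟩
      · exact Or.inr ⟨x, rfl⟩
    · intro x _ y _ hxy
      obtain ⟨u, v, -, h2, h3⟩ := hadj _ _ hxy
      exact Or.inr ⟨⟨u, h2⟩, v, h3⟩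
    · rintro x ⟨⟨-, u, rfl⟩, v, hv⟩
      exact absurd hv Sum.inr_ne_inl
    · refine w1_noedge hL ?_
      rintro x ⟨-, u, rfl⟩ y - hxy
      obtain ⟨u', v, -, h2, -⟩ := hadj _ _ hxy
      exact absurd h2 Sum.inr_ne_inl
    · refine w2.mono ?_
      rintro x ⟨-, u, rfl⟩
      exact ⟨u, trivial, rfl⟩
  · rintro C x y ⟨u, hu, v, hv, -, rfl, rfl⟩
    exact ⟨⟨u, hu, rfl⟩, v, hv, rfl⟩
  · intro C w
    obtain ⟨a, ha, b, hb', he, h1, h2⟩ :=
      two_options hL hb C.2.1 (h.k1.trans C.2.2) (K.un w)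
    refine ⟨Sum.inr a, Sum.inr b, ⟨a, ha, b, hb', he, rfl, rfl⟩, fun hh => h1 ?_, fun hh => h2 ?_⟩
    · rw [← hh]
      rfl
    · rw [← hh]
      rfl
  · rintro C C' hne x ⟨u, hu, rfl⟩ y ⟨v, hv, rfl⟩ hxy
    obtain ⟨u', v', h1, h2, h3⟩ := hadj _ _ hxy
    obtain rfl := Sum.inr_injective h2
    obtain rfl := Sum.inr_injective h3
    refine hne (Subtype.ext ?_)
    rw [C.2.1.eq_cl hL hb.w1 hu, C'.2.1.eq_cl hL hb.w1 hv]
    exact h1.2

end Pool.Agent.Lib.MP_781e3b_co.CN
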