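import Pool.Agent.Lib.MP_781e3b_co.CN.Nest

/-!
The patterns E(i) and their bounds (1.4).
-/

namespace Pool.Agent.Lib.MP_781e3b_co.CN

open Set Function SimpleGraph

variable {Ω : Type} [Finite Ω] {L : Lv} {Y E E' F₀ : SimpleGraph Ω} {i j : ℕ} {κ : ℝ}

omit [Finite Ω] in
theorem IndF.mono (h : IndF Y E) (hE : E' ≤ E) : IndF Y E' := by
  exact ⟨hE.trans h.1, fun u v huv hr => h.2 u v huv (hr.mono (sdiff_le_sdiff_right hE))⟩

omit [Finite Ω] in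
/-- Every edge is a bridge, so E is acyclic; IsAcyclic.colorable_two. -/
theorem IndF.side (h : IndF Y E) : ∃ side : Ω → Bool, ∀ u v, E.Adj u v → side u ≠ side v := by
  have ac : E.IsAcyclic := isAcyclic_iff_forall_adj_isBridge.2 fun u v huv =>
    isBridge_iff.2 (h.2 u v (h.1 huv))
  obtain ⟨c⟩ := ac.colorable_two
  exact ⟨fun u => decide (c u = 0), fun u v huv =>
    (by decide : ∀ x y : Fin 2, x ≠ y → decide (x = 0) ≠ decide (y = 0)) _ _ (c.valid huv)⟩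

/-- D j = D 0 in Y \ F₀ (D_nomark), and D 0 rises by the number of deleted edges
(ec_sdiff). -/
theorem ph_zero (hL : L.OK) (hb : Bd L Y) (hF : F₀ ≤ Y) (hn : ∀ T, ¬ Mk L (Y \ F₀) T)
    (h0 : 0 ≤ κ) (h1 : κ < 1) : PH L (Y \ F₀) F₀ κ 1 := by
  have key : ∀ j, ∀ C : Set Ω, C.Nontrivial → 2 * L.m - 1 + ec F₀ C ≤ D L (Y \ F₀) j C :=
    fun j C hC => by
      have h2 := hb.w1.ge 0 (Nat.zero_le _) C (subset_univ _) hC
      have h3 : (ec (Y \ F₀) C : ℝ) + ec F₀ C = ec Y C := by exact_mod_cast ec_sdiff hF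
      rw [D_nomark fun ⟨K, _, hK⟩ => hn K hK, D_zero]
      rw [D_zero, Lv.θ] at h2
      linarith
  have nt : ∀ C : Set Ω, 1 ≤ ec F₀ C → C.Nontrivial := fun C hC => by
    obtain ⟨T, hT, a, b, hab, rfl⟩ := one_le_cnt.1 hC
    exact ⟨a, hT (by simp), b, hT (by simp), hab.ne⟩
  refine ⟨fun C hC => ?_, fun C hC => ?_, fun j hj C hC => Or.inr ?_⟩
  · have := key L.l C hC
    have h2 : (0 : ℝ) ≤ ec F₀ C := Nat.cast_nonneg _
    nlinarith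
  · have := key L.l C (nt C hC)
    have h2 : (1 : ℝ) ≤ ec F₀ C := by exact_mod_cast hC
    nlinarith
  · have := key j C (nt C hC)
    have h2 : (1 : ℝ) ≤ ec F₀ C := by exact_mod_cast hC
    have := hL.θ_le hj.le
    nlinarith

/-- One nested edge of F₀ in every top of level i (exists_chain; a marked set holds an edge
of F₀, else it is marked in Y \ F₀); different tops share at most one point. -/
theorem exists_E (hL : L.OK) (hb : Bd L Y) (hF : F₀ ≤ Y) (hn : ∀ T, ¬ Mk L (Y \ F₀) T)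
    (hi : i < L.l) : ∃ E ≤ F₀, (∀ a b, E.Adj a b → Nest L Y (i + 1) a b) ∧
      (∀ T, Top L Y i T → ∃ a ∈ T, ∃ b ∈ T, E.Adj a b) ∧
      ∀ T, Top L Y i T → ∀ a ∈ T, ∀ b ∈ T, ∀ a' ∈ T, ∀ b' ∈ T, E.Adj a b → E.Adj a' b' →
        ({a, b} : Set Ω) = {a', b'} := by
  have key : ∀ T, Top L Y i T → ∃ p : Ω × Ω, p.1 ∈ T ∧ p.2 ∈ T ∧ F₀.Adj p.1 p.2 ∧
      ∀ j < i + 1, ∃ T', Top L Y j T' ∧ p.1 ∈ T' ∧ p.2 ∈ T' := fun T hT => by
    obtain ⟨K, hK, hM, hc⟩ := exists_chain hL hb hi hT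
    have h1 : 1 ≤ ec F₀ K := by
      by_contra h0
      have h3 := ec_sdiff (Z := K) hF
      refine hn K ⟨hM.1, ?_⟩
      rw [show ec (Y \ F₀) K = ec Y K by omega]
      exact hM.2
    obtain ⟨_, hT', a, b, hab, rfl⟩ := one_le_cnt.1 h1
    refine ⟨(a, b), hK (hT' (by simp)), hK (hT' (by simp)), hab, fun j hj => ?_⟩
    obtain ⟨T', h2, h3⟩ := hc j (Nat.lt_succ_iff.1 hj)
    exact ⟨T', h2, h3 (hT' (by simp)), h3 (hT' (by simp))⟩
  choose p p1 p2 p3 p4 using key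
  let E : SimpleGraph Ω :=
    { Adj := fun u v => ∃ T h, (u = (p T h).1 ∧ v = (p T h).2) ∨ (u = (p T h).2 ∧ v = (p T h).1)
      symm := ⟨fun _ _ ⟨T, h, e⟩ => ⟨T, h, e.symm.imp And.symm And.symm⟩⟩
      loopless := ⟨fun _ ⟨T, h, e⟩ => (p3 T h).ne (by
        rcases e with e | e
        exacts [e.1.symm.trans e.2, e.2.symm.trans e.1])⟩ }
  have un : ∀ T (h : Top L Y i T), ∀ a ∈ T, ∀ b ∈ T, E.Adj a b →
      ({a, b} : Set Ω) = {(p T h).1, (p T h).2} := by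
    intro T h a ha b hb' hab
    have hne := hab.ne
    obtain ⟨T', h', e⟩ := hab
    have : T = T' := top_eq hL hb hi h h' (by
      rcases e with ⟨rfl, rfl⟩ | ⟨rfl, rfl⟩
      exacts [⟨_, ⟨ha, p1 T' h'⟩, _, ⟨hb', p2 T' h'⟩, hne⟩,
        ⟨_, ⟨ha, p2 T' h'⟩, _, ⟨hb', p1 T' h'⟩, hne⟩])
    subst this
    rcases e with ⟨rfl, rfl⟩ | ⟨rfl, rfl⟩
    exacts [rfl, pair_comm _ _]
  refine ⟨E, ?_, ?_, fun T h => ⟨_, p1 T h, _, p2 T h, T, h, Or.inl ⟨rfl, rfl⟩⟩,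
    fun T h a ha b hb' a' ha' b' hb'' h1 h2 =>
      (un T h a ha b hb' h1).trans (un T h a' ha' b' hb'' h2).symm⟩
  · rintro u v ⟨T, h, ⟨rfl, rfl⟩ | ⟨rfl, rfl⟩⟩
    exacts [p3 T h, (p3 T h).symm]
  · rintro u v ⟨T, h, ⟨rfl, rfl⟩ | ⟨rfl, rfl⟩⟩
    · exact ⟨hF (p3 T h), p4 T h⟩
    · exact ⟨hF (p3 T h).symm, fun j hj => (p4 T h j hj).imp fun _ h => ⟨h.1, h.2.symm⟩⟩

end Pool.Agent.Lib.MP_781e3b_co.CN
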