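import Pool.Agent.Lib.MP_781e3b_co.CN.Pattern0

/-!
The patterns E(i) and their bounds (1.4).
-/

namespace Pool.Agent.Lib.MP_781e3b_co.CN

open Set Function SimpleGraph

variable {Ω : Type} [Finite Ω] {L : Lv} {Y E E' F₀ : SimpleGraph Ω} {i j : ℕ} {κ : ℝ}

namespace Pattern1Aux

/-- A top of level at most i holds at most one edge of E. -/
theorem one_edge (hL : L.OK) (hb : Bd L Y) (hi : i < L.l)
    (h1 : ∀ a b, E.Adj a b → Nest L Y (i + 1) a b)
    (h2 : ∀ T, Top L Y i T → ∀ a ∈ T, ∀ b ∈ T, ∀ a' ∈ T, ∀ b' ∈ T, E.Adj a b → E.Adj a' b' →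
      ({a, b} : Set Ω) = {a', b'}) (hj : j ≤ i) {T : Set Ω} (hT : Top L Y j T) {a b a' b' : Ω}
    (ha : a ∈ T) (hbT : b ∈ T) (ha' : a' ∈ T) (hb' : b' ∈ T) (hab : E.Adj a b)
    (hab' : E.Adj a' b') : ({a, b} : Set Ω) = {a', b'} := by
  obtain ⟨T', hT', haT', hbT'⟩ := (h1 a b hab).2 i (Nat.lt_succ_self i)
  have hsub : T ⊆ T' :=
    top_chain hL hb hj hi hT hT' ⟨a, ⟨ha, haT'⟩, b, ⟨hbT, hbT'⟩, hab.ne⟩
  exact h2 T' hT' a haT' b hbT' a' (hsub ha') b' (hsub hb') hab hab'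

omit [Finite Ω] in
theorem edge_le {a b : Ω} (hab : E.Adj a b) : edge a b ≤ E :=
  (edge_le_iff E).2 (Or.inr hab)

omit [Finite Ω] in
theorem edge_of_pair {a b x y : Ω} (hxy : x ≠ y) (h : ({a, b} : Set Ω) = {x, y}) :
    (edge a b).Adj x y := by
  rw [edge_adj]
  refine ⟨?_, hxy⟩
  rcases pair_eq_pair_iff.1 h with ⟨rfl, rfl⟩ | ⟨rfl, rfl⟩
  · exact Or.inl ⟨rfl, rfl⟩
  · exact Or.inr ⟨rfl, rfl⟩

/-- A top of Y \ E holds no edge of E. -/
theorem no_edge (hL : L.OK) (hb : Bd L Y) (hE : E ≤ Y) (hj : j < L.l) {T : Set Ω}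
    (hT : Top L (Y \ E) j T) {a b : Ω} (hab : E.Adj a b) : ¬ (a ∈ T ∧ b ∈ T) := by
  have h : Top L (Y \ edge a b) j T := by
    refine hT.mono (hL.P hj.le) fun x _ y _ hxy => ?_
    rw [sdiff_adj] at hxy ⊢
    exact ⟨hxy.1, fun h => hxy.2 (edge_le hab h)⟩
  exact ((top_del hL hb hj (hE hab)).1 h).2

/-- The edges of E in C kill as many different tops. -/
theorem cnt_top (hL : L.OK) (hb : Bd L Y) (hi : i < L.l)
    (h1 : ∀ a b, E.Adj a b → Nest L Y (i + 1) a b)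
    (h2 : ∀ T, Top L Y i T → ∀ a ∈ T, ∀ b ∈ T, ∀ a' ∈ T, ∀ b' ∈ T, E.Adj a b → E.Adj a' b' →
      ({a, b} : Set Ω) = {a', b'}) (hj : j ≤ i) {C : Set Ω}
    (h : ∀ a ∈ C, ∀ b ∈ C, E.Adj a b → ∃ T ⊆ C, Top L Y j T ∧ a ∈ T ∧ b ∈ T) :
    cnt (Top L (Y \ E) j) C + ec E C ≤ cnt (Top L Y j) C := by
  classical
  have hE : E ≤ Y := fun a b hab => (h1 a b hab).1
  have hjl : j < L.l := hj.trans_lt hi
  have hex : ∀ e : Set Ω, e ⊆ C ∧ IsEdge E e → ∃ T, T ⊆ C ∧ Top L Y j T ∧ e ⊆ T := by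
    rintro e ⟨heC, a, b, hab, rfl⟩
    obtain ⟨T, hTC, hT, ha, hbT⟩ := h a (heC (by simp)) b (heC (by simp)) hab
    exact ⟨T, hTC, hT, pair_subset ha hbT⟩
  choose! g hg using hex
  have hinj : InjOn g {e | e ⊆ C ∧ IsEdge E e} := by
    rintro e he e' he' hee
    obtain ⟨-, hT, hsub⟩ := hg e he
    obtain ⟨-, -, hsub'⟩ := hg e' he'
    rw [← hee] at hsub'
    obtain ⟨-, a, b, hab, rfl⟩ := he
    obtain ⟨-, a', b', hab', rfl⟩ := he'
    exact one_edge hL hb hi h1 h2 hj hT (hsub (by simp)) (hsub (by simp)) (hsub' (by simp))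
      (hsub' (by simp)) hab hab'
  have hdisj : Disjoint {T | T ⊆ C ∧ Top L (Y \ E) j T} (g '' {e | e ⊆ C ∧ IsEdge E e}) := by
    rw [Set.disjoint_left]
    rintro T ⟨-, hT⟩ ⟨e, he, rfl⟩
    obtain ⟨-, -, hsub⟩ := hg e he
    obtain ⟨-, a, b, hab, rfl⟩ := he
    exact no_edge hL hb hE hjl hT hab ⟨hsub (by simp), hsub (by simp)⟩
  have hsub : {T | T ⊆ C ∧ Top L (Y \ E) j T} ∪ g '' {e | e ⊆ C ∧ IsEdge E e} ⊆
      {T | T ⊆ C ∧ Top L Y j T} := by
    rintro T (⟨hTC, hT⟩ | ⟨e, he, rfl⟩)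
    · exact ⟨hTC, hT.mono (hL.P hjl.le) fun x _ y _ hxy => hxy.1⟩
    · exact ⟨(hg e he).1, (hg e he).2.1⟩
  have hc := ncard_le_ncard hsub (toFinite _)
  rw [ncard_union_eq hdisj (toFinite _) (toFinite _), hinj.ncard_image] at hc
  exact hc

/-- All tops through the edges of E in C lie in C. -/
theorem inside (hL : L.OK) (hb : Bd L Y) (hi : i < L.l)
    (h1 : ∀ a b, E.Adj a b → Nest L Y (i + 1) a b)
    (h2 : ∀ T, Top L Y i T → ∀ a ∈ T, ∀ b ∈ T, ∀ a' ∈ T, ∀ b' ∈ T, E.Adj a b → E.Adj a' b' →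
      ({a, b} : Set Ω) = {a', b'}) {C : Set Ω} (j : ℕ) (hj : j ≤ i + 1)
    (h : ∀ j' < j, ∀ a ∈ C, ∀ b ∈ C, E.Adj a b → ∃ T ⊆ C, Top L Y j' T ∧ a ∈ T ∧ b ∈ T) :
    D L Y j C + ec E C * (2 * L.m - L.θ j) ≤ D L (Y \ E) j C := by
  have hE : E ≤ Y := fun a b hab => (h1 a b hab).1
  induction j with
  | zero =>
    have h3 : (ec (Y \ E) C : ℝ) + ec E C = ec Y C := by exact_mod_cast ec_sdiff hE
    rw [D_zero, D_zero]
    simp only [Lv.θ]
    linarith
  | succ j ih =>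
    have hji : j ≤ i := Nat.lt_succ_iff.1 hj
    have h3 := ih (by omega) fun j' hj' => h j' (by omega)
    have h4 : (cnt (Top L (Y \ E) j) C : ℝ) + ec E C ≤ cnt (Top L Y j) C := by
      exact_mod_cast cnt_top hL hb hi h1 h2 hji (h j (Nat.lt_succ_self j))
    have h5 := (hL.pos j (hji.trans_lt hi)).le
    have h6 := mul_le_mul_of_nonneg_left h4 h5
    rw [D_succ, D_succ]
    simp only [Lv.θ]
    nlinarith

end Pattern1Aux

open Pattern1Aux in
/-- The phantom claim. Induction on the number of points outside C. If for some edge ab of E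
in C the top T of level j - 1 through it is not in C, then T holds no other edge of E
(top_chain), so lemN_top, lemN, D_congr and D_sub give D (C ∪ T) ≤ D C. If all these
tops (so by top_chain all lower ones) lie in C, then on every level below j the edges of E
in C kill as many different tops: induction on the level. -/
theorem phantom (hL : L.OK) (hb : Bd L Y) (hi : i < L.l)
    (h1 : ∀ a b, E.Adj a b → Nest L Y (i + 1) a b)
    (h2 : ∀ T, Top L Y i T → ∀ a ∈ T, ∀ b ∈ T, ∀ a' ∈ T, ∀ b' ∈ T, E.Adj a b → E.Adj a' b' →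
      ({a, b} : Set Ω) = {a', b'}) (hj : j ≤ i + 1) (C : Set Ω) (hC : C.Nontrivial) :
    L.θ j + ec E C * (2 * L.m - L.θ j) ≤ D L (Y \ E) j C := by
  have hjl : j ≤ L.l := hj.trans hi
  induction hn : Cᶜ.ncard using Nat.strong_induction_on generalizing C with
  | _ n ih =>
  by_cases h : ∀ j' < j, ∀ a ∈ C, ∀ b ∈ C, E.Adj a b → ∃ T ⊆ C, Top L Y j' T ∧ a ∈ T ∧ b ∈ T
  · have h3 := inside hL hb hi h1 h2 j hj h
    have h4 := hb.w1.ge j hjl C (subset_univ C) hC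
    linarith
  · push Not at h
    obtain ⟨j', hj', a, ha, b, hbC, hab, hno⟩ := h
    obtain ⟨j₀, rfl⟩ : ∃ j₀, j = j₀ + 1 := ⟨j - 1, by omega⟩
    have hN := h1 a b hab
    obtain ⟨T, hT, haT, hbT⟩ := hN.2 j₀ (by omega)
    have hTC : ¬ T ⊆ C := by
      intro hTC
      obtain ⟨T', hT', haT', hbT'⟩ := hN.2 j' (by omega)
      have hsub : T' ⊆ T := top_chain hL hb (by omega) (by omega) hT' hT
        ⟨a, ⟨haT', haT⟩, b, ⟨hbT', hbT⟩, hab.ne⟩
      exact hno T' (hsub.trans hTC) hT' haT' hbT'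
    have hlt : (C ∪ T)ᶜ.ncard < n := by
      rw [← hn]
      refine ncard_lt_ncard ⟨compl_subset_compl.2 subset_union_left, fun hs => hTC ?_⟩
        (toFinite _)
      exact subset_union_right.trans (compl_subset_compl.1 hs)
    have h3 := ih _ hlt (C ∪ T) (hC.mono subset_union_left) rfl
    have hiff : ∀ x ∈ T, ∀ y ∈ T, (Y \ edge a b).Adj x y ↔ (Y \ E).Adj x y := by
      intro x hx y hy
      rw [sdiff_adj, sdiff_adj]
      refine and_congr_right fun hxy => not_congr ⟨fun h => edge_le hab h, fun h => ?_⟩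
      exact edge_of_pair hxy.ne
        (one_edge hL hb hi h1 h2 (by omega) hT haT hbT hx hy hab h)
    have h4 : D L (Y \ E) (j₀ + 1) T ≤ 2 * L.m := by
      rw [D_congr hiff]
      exact lemN_top hL hb hi hN (by omega) hT haT hbT
    have h5 : 2 * L.m ≤ D L (Y \ E) (j₀ + 1) (C ∩ T) := by
      rw [D_congr fun x hx y hy => hiff x hx.2 y hy.2]
      exact lemN hL hb hi hN hj ⟨ha, haT⟩ ⟨hbC, hbT⟩
    have h6 := D_sub (G := Y \ E) (Z := C) (Z' := T) (hL.P hjl)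
    have h7 : (ec E C : ℝ) ≤ ec E (C ∪ T) := by
      exact_mod_cast cnt_mono subset_union_left fun _ _ h => h
    have h8 : 0 ≤ 2 * L.m - L.θ (j₀ + 1) := by
      have := hL.θ_le hjl
      linarith
    have h9 := mul_le_mul_of_nonneg_right h7 h8
    linarith

end Pool.Agent.Lib.MP_781e3b_co.CN
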