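import Pool.Agent.Lib.MP_781e3b_co.RR.Sep
import Pool.Agent.Lib.MP_781e3b_co.CN.WDefs

/-!
Joining through cells: convexity.
-/

namespace Pool.Agent.Lib.MP_781e3b_co.CN

open Set Function SimpleGraph

section
variable {C C' V V' : Type} {g : C → Set V} {g' : C' → Set V'} {𝒟 𝒟₀ 𝒟₁ 𝒟₂ : Set C} {a b : V}
  {A₁ A₂ B B' : Set V}

theorem Jn.symm (h : Jn g 𝒟 a b) : Jn g 𝒟 b a := by
  induction h with
  | refl => exact .refl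
  | tail _ hs ih =>
    obtain ⟨c, hc, h1, h2⟩ := hs
    exact .head ⟨c, hc, h2, h1⟩ ih

theorem Jn.mono (h : Jn g 𝒟 a b) (hs : 𝒟 ⊆ 𝒟₁) : Jn g 𝒟₁ a b := by
  induction h with
  | refl => exact .refl
  | tail _ hs' ih =>
    obtain ⟨c, hc, h1⟩ := hs'
    exact ih.tail ⟨c, hs hc, h1⟩

theorem Jn.eq_of_notMem (h : Jn g 𝒟 a b) (ha : ∀ c ∈ 𝒟, a ∉ g c) : a = b := by
  rcases h.cases_head with e | ⟨_, ⟨c, hc, h1, _⟩, _⟩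
  · exact e
  · exact (ha c hc h1).elim

/-- Pull back along injective maps. -/
theorem Jn.pull {f : V → V'} {e : C → C'} (hf : Injective f) (hg : ∀ c, g' (e c) = f '' g c)
    {𝒟' : Set C'} (h : Jn g' (𝒟' ∩ range e) (f a) (f b)) : Jn g (e ⁻¹' 𝒟') a b := by
  have key : ∀ b', Jn g' (𝒟' ∩ range e) (f a) b' → ∃ b₀, f b₀ = b' ∧ Jn g (e ⁻¹' 𝒟') a b₀ := by
    intro b' hb
    induction hb with
    | refl => exact ⟨a, rfl, .refl⟩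
    | tail _ hs ih =>
      obtain ⟨_, ⟨hc, c, rfl⟩, h1, h2⟩ := hs
      obtain ⟨a₀, rfl, ih⟩ := ih
      rw [hg] at h1 h2
      obtain ⟨a₁, h1, e1⟩ := h1
      obtain ⟨b₀, h2, rfl⟩ := h2
      obtain rfl := hf e1
      exact ⟨b₀, rfl, ih.tail ⟨c, hc, h1, h2⟩⟩
  obtain ⟨b₀, e1, hk⟩ := key _ h
  obtain rfl := hf e1
  exact hk

theorem Conv.trans (h : Conv g 𝒟 B 𝒟₁) (h' : Conv g 𝒟₁ B' 𝒟₀) (hB : B' ⊆ B) :
    Conv g 𝒟 B' 𝒟₀ := fun a ha b hb hj => h' a ha b hb (h a (hB ha) b (hB hb) hj)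

/-- Along a walk from a ∈ A₁ the current point b is in A₁ and joined to a through 𝒟₁, or
it is joined through 𝒟₂ to a point of A₁ ∩ A₂ that is joined to a through 𝒟₁. -/
theorem conv_glue (h₁ : ∀ c ∈ 𝒟₁, g c ⊆ A₁) (h₂ : ∀ c ∈ 𝒟₂, g c ⊆ A₂) (h₀ : 𝒟₀ ⊆ 𝒟₁)
    (h : Conv g 𝒟₂ (A₁ ∩ A₂) 𝒟₀) : Conv g (𝒟₁ ∪ 𝒟₂) A₁ 𝒟₁ := by
  intro a ha b hb hj
  have key : ∀ b, Jn g (𝒟₁ ∪ 𝒟₂) a b → (b ∈ A₁ ∧ Jn g 𝒟₁ a b) ∨
      (b ∈ A₂ ∧ ∃ s ∈ A₁ ∩ A₂, Jn g 𝒟₁ a s ∧ Jn g 𝒟₂ s b) := by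
    intro b hb
    induction hb with
    | refl => exact Or.inl ⟨ha, .refl⟩
    | @tail b b' _ hs ih =>
      obtain ⟨c, hc | hc, h1, h2⟩ := hs
      · refine Or.inl ⟨h₁ c hc h2, .tail ?_ ⟨c, hc, h1, h2⟩⟩
        rcases ih with ih | ⟨hb2, s, hs, ih, ih'⟩
        · exact ih.2
        · exact ih.trans ((h s hs b ⟨h₁ c hc h1, hb2⟩ ih').mono h₀)
      · refine Or.inr ⟨h₂ c hc h2, ?_⟩
        rcases ih with ih | ⟨_, s, hs, ih, ih'⟩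
        · exact ⟨b, ⟨ih.1, h₂ c hc h1⟩, ih.2, .single ⟨c, hc, h1, h2⟩⟩
        · exact ⟨s, hs, ih, ih'.tail ⟨c, hc, h1, h2⟩⟩
  rcases key b hj with ih | ⟨hb2, s, hs, ih, ih'⟩
  · exact ih.2
  · exact ih.trans ((h s hs b ⟨hb, hb2⟩ ih').mono h₀)

/-- Induction on the forest with conv_glue and Conv.trans, as in RR.sep_forest. -/
theorem conv_forest {J W : Type} {S : RR.Sys J W V} {Cs : Set J} {Z : Set W} {R : Set (W × V)}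
    (hF : RR.Fo S True Cs Z R) (hw : S.Whole) (ob : C → W ⊕ J)
    (h1 : ∀ c z, ob c = Sum.inl z → g c ⊆ S.N z) (h2 : ∀ c j, ob c = Sum.inr j → g c ⊆ S.vb j)
    (hat : ∀ j, ∀ z ∈ S.wb j,
      Conv g (𝒟 ∩ ob ⁻¹' (Sum.inl '' S.wb j ∪ {Sum.inr j})) (S.N z) (𝒟 ∩ ob ⁻¹' {Sum.inl z})) :
    (∀ z ∈ S.BW Cs Z, Conv g (𝒟 ∩ ob ⁻¹' (Sum.inl '' S.BW Cs Z ∪ Sum.inr '' Cs)) (S.N z)
      (𝒟 ∩ ob ⁻¹' {Sum.inl z})) ∧
    ∀ j ∈ Cs, Conv g (𝒟 ∩ ob ⁻¹' (Sum.inl '' S.BW Cs Z ∪ Sum.inr '' Cs)) (S.vb j)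
      (𝒟 ∩ ob ⁻¹' (Sum.inl '' S.wb j ∪ {Sum.inr j})) := by
  have hsub : ∀ {Cs Z R}, RR.Fo S True Cs Z R →
      ∀ c ∈ 𝒟 ∩ ob ⁻¹' (Sum.inl '' S.BW Cs Z ∪ Sum.inr '' Cs), g c ⊆ S.BV Cs R := by
    rintro Cs Z R hF c ⟨-, ⟨z, hz, e⟩ | ⟨j, hj, e⟩⟩
    · exact (h1 c z e.symm).trans (RR.SepAux.sub_BV hF hw z hz)
    · exact fun v hv => Or.inl ⟨j, hj, h2 c j e.symm hv⟩
  have hun : ∀ (C₁ C₂ : Set J) (Z₁ Z₂ : Set W),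
      𝒟 ∩ ob ⁻¹' (Sum.inl '' S.BW (C₁ ∪ C₂) (Z₁ ∪ Z₂) ∪ Sum.inr '' (C₁ ∪ C₂)) =
        𝒟 ∩ ob ⁻¹' (Sum.inl '' S.BW C₁ Z₁ ∪ Sum.inr '' C₁) ∪
          𝒟 ∩ ob ⁻¹' (Sum.inl '' S.BW C₂ Z₂ ∪ Sum.inr '' C₂) := fun C₁ C₂ Z₁ Z₂ => by
    rw [S.BW_union, image_union, image_union, union_union_union_comm, preimage_union,
      inter_union_distrib_left]
  have hvb : ∀ (Cs : Set J) (R : Set (W × V)), ∀ j ∈ Cs, S.vb j ⊆ S.BV Cs R :=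
    fun Cs R j hj v hv => Or.inl ⟨j, hj, hv⟩
  induction hF with
  | empty =>
    refine ⟨?_, fun j hj => hj.elim⟩
    rintro z (⟨P, hP, _⟩ | hz)
    · exact hP.elim
    · exact hz.elim
  | atom P Z R hZ _ _ =>
    have e : S.BW {P} Z = S.wb P := by
      ext z
      constructor
      · rintro (⟨Q, rfl, hz⟩ | hz)
        · exact hz
        · exact hZ hz
      · exact fun hz => Or.inl ⟨P, rfl, hz⟩
    rw [e, image_singleton]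
    refine ⟨hat P, ?_⟩
    rintro j rfl
    exact fun _ _ _ _ h => h
  | star y R _ _ =>
    have e : S.BW ∅ {y} = {y} := by
      ext z
      constructor
      · rintro (⟨P, hP, _⟩ | hz)
        · exact hP.elim
        · exact hz
      · exact fun hz => Or.inr hz
    rw [e, image_singleton, image_empty, union_empty]
    refine ⟨?_, fun j hj => hj.elim⟩
    rintro z rfl
    exact fun _ _ _ _ h => h
  | glueV h₁ h₂ _ _ hs ih₁ ih₂ =>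
    have c₁ := conv_glue (hsub h₁) (hsub h₂) (empty_subset _)
      fun a ha b hb _ => hs ha hb ▸ Relation.ReflTransGen.refl
    have c₂ := conv_glue (hsub h₂) (hsub h₁) (empty_subset _)
      fun a ha b hb _ => hs ha.symm hb.symm ▸ Relation.ReflTransGen.refl
    rw [union_comm] at c₂
    rw [hun, S.BW_union]
    refine ⟨?_, ?_⟩
    · rintro z (hz | hz)
      · exact c₁.trans (ih₁.1 z hz) (RR.SepAux.sub_BV h₁ hw z hz)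
      · exact c₂.trans (ih₂.1 z hz) (RR.SepAux.sub_BV h₂ hw z hz)
    · rintro j (hj | hj)
      · exact c₁.trans (ih₁.2 j hj) (hvb _ _ j hj)
      · exact c₂.trans (ih₂.2 j hj) (hvb _ _ j hj)
  | glueW z₀ h₁ h₂ _ hz₁ hz₂ _ hs ih₁ ih₂ =>
    have c₁ := conv_glue (hsub h₁) (hsub h₂) (𝒟₀ := 𝒟 ∩ ob ⁻¹' {Sum.inl z₀})
      (fun c hc => ⟨hc.1, Or.inl ⟨z₀, Or.inr hz₁, hc.2.symm⟩⟩)
      fun a ha b hb => ih₂.1 z₀ (Or.inr hz₂) a (h₁.sound (hs a ha.1 ha.2).1).2 b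
        (h₁.sound (hs b hb.1 hb.2).1).2
    have c₂ := conv_glue (hsub h₂) (hsub h₁) (𝒟₀ := 𝒟 ∩ ob ⁻¹' {Sum.inl z₀})
      (fun c hc => ⟨hc.1, Or.inl ⟨z₀, Or.inr hz₂, hc.2.symm⟩⟩)
      fun a ha b hb => ih₁.1 z₀ (Or.inr hz₁) a (h₁.sound (hs a ha.2 ha.1).1).2 b
        (h₁.sound (hs b hb.2 hb.1).1).2
    rw [union_comm] at c₂
    rw [hun, S.BW_union]
    refine ⟨?_, ?_⟩
    · rintro z (hz | hz)
      · exact c₁.trans (ih₁.1 z hz) (RR.SepAux.sub_BV h₁ hw z hz)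
      · exact c₂.trans (ih₂.1 z hz) (RR.SepAux.sub_BV h₂ hw z hz)
    · rintro j (hj | hj)
      · exact c₁.trans (ih₁.2 j hj) (hvb _ _ j hj)
      · exact c₂.trans (ih₂.2 j hj) (hvb _ _ j hj)

end

variable {K : Kit}

theorem gset_lift {V V' : Type} (f : V → V') (s : Bool) (e : K.U → V × K.Φ) :
    gset s (fun u => lift f (e u)) = f '' gset s e := by
  ext v
  constructor
  · rintro ⟨u, hu, rfl⟩
    exact ⟨_, ⟨u, hu, rfl⟩, rfl⟩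
  · rintro ⟨_, ⟨u, hu, rfl⟩, rfl⟩
    exact ⟨u, hu, rfl⟩

theorem CellOK.lift {V V' : Type} {f : V → V'} (hf : Injective f) {s : Bool} {e : K.U → V × K.Φ}
    (h : CellOK s e) : CellOK s fun u => lift f (e u) := by
  refine ⟨fun u v e' => h.inj (Prod.ext (hf (congrArg Prod.fst e')) (Prod.ext_iff.1 e').2), h.np,
    fun hs u v e' => h.sig hs u v (hf e'), fun hs u v => ?_⟩
  exact hf.eq_iff.trans (h.mu hs u v)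

variable {W : World K} {T : Tm W}

/-- conv_glue with 𝒟₁ = 𝒟 ∩ old f, 𝒟₂ = 𝒟 \ old f, A₂ = univ, 𝒟₀ = ∅. -/
theorem Tm.RT.conv (h : T.RT) (f : T.Hy) (𝒟 : Set T.w.Cell) (hc : 𝒟.ncard ≤ K.N ^ 2) :
    Conv T.w.g 𝒟 (range (T.tup f)) (𝒟 ∩ T.old f) := by
  have h1 := conv_glue (g := T.w.g) (𝒟₁ := 𝒟 ∩ T.old f) (𝒟₂ := 𝒟 \ T.old f) (𝒟₀ := ∅)
    (A₁ := range (T.tup f)) (A₂ := univ) (by
      rintro _ ⟨-, c₀, rfl⟩ _ ⟨u, -, rfl⟩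
      exact ⟨_, rfl⟩) (fun _ _ => subset_univ _) (empty_subset _)
    fun a ha b hb hj => h.h1 f _ ((ncard_le_ncard sdiff_subset (toFinite _)).trans hc)
      disjoint_sdiff_left a ha.1 b hb.1 hj ▸ Relation.ReflTransGen.refl
  rwa [inter_union_sdiff] at h1

/-- RT.conv, Jn.pull along tup f and c ↦ inl (f, c). -/
theorem Tm.RT.rok (h : T.RT) (hp : T.Pre) (hW : W.ROK) : T.w.ROK := by
  have pull : ∀ (f : T.Hy) (𝒟 : Set T.w.Cell), 𝒟.ncard ≤ K.N ^ 2 → ∀ a b,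
      Jn T.w.g 𝒟 (T.tup f a) (T.tup f b) →
      ((fun c => Sum.inl (f, c)) ⁻¹' 𝒟 : Set W.Cell).ncard ≤ K.N ^ 2 ∧
        Jn W.g ((fun c => Sum.inl (f, c)) ⁻¹' 𝒟) a b := by
    intro f 𝒟 hc a b hj
    refine ⟨(ncard_le_ncard_of_injOn (fun c => Sum.inl (f, c)) (fun _ h => h)
      (fun _ _ _ _ e => (Prod.ext_iff.1 (Sum.inl.inj e)).2) (toFinite _)).trans hc, ?_⟩
    refine Jn.pull (g := W.g) (g' := T.w.g) (e := fun c => Sum.inl (f, c)) (hp.inj f)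
      (fun c => gset_lift (T.tup f) (W.sg c) (W.ce c)) ?_
    exact (h.conv f 𝒟 hc _ ⟨a, rfl⟩ _ ⟨b, rfl⟩ hj).mono fun c ⟨h1, c₀, e⟩ => ⟨h1, c₀, e.symm⟩
  refine ⟨?_, ?_, fun 𝒟 hc p hp' hj => ?_⟩
  · rintro (⟨f, c⟩ | c)
    · exact (hW.cell c).lift (hp.inj f)
    · exact h.cell c
  · rintro 𝒟 hc (⟨f, c⟩ | c) hn a ha b hb hj
    · obtain ⟨u, hu, rfl⟩ := ha
      obtain ⟨v, hv, rfl⟩ := hb
      obtain ⟨h1, h2⟩ := pull f 𝒟 hc _ _ hj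
      exact congrArg (T.tup f) (hW.r1 _ h1 c hn _ ⟨u, hu, rfl⟩ _ ⟨v, hv, rfl⟩ h2)
    · exact h.r1 𝒟 hc c hn a ha b hb hj
  · rcases h.r2 p hp' with ⟨f, p₀, h0, rfl⟩ | h0
    · obtain ⟨h1, h2⟩ := pull f 𝒟 hc _ _ hj
      exact hW.r2 _ h1 p₀ h0 h2
    · exact h0 𝒟 hc hj

end Pool.Agent.Lib.MP_781e3b_co.CN
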