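import Pool.Agent.Lib.MP_781e3b_co.CN.Ground0

/-!
Transport along injective maps of grounds.
-/

namespace Pool.Agent.Lib.MP_781e3b_co.CN

open Set Function SimpleGraph

variable {V V' Φ : Type} [Finite V] [Finite V'] [Finite Φ] {L : Lv} {F : Fib Φ}
  {G : SimpleGraph (V × Φ)} {G' : SimpleGraph (V' × Φ)} {f : V → V'} {A : Set V'} {B : Set V}
  {c u u' : V} {κ : ℝ}

omit [Finite V] [Finite V'] [Finite Φ] in
theorem lift_injective (hf : Injective f) : Injective (lift f : V × Φ → V' × Φ) := by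
  exact fun x y h => Prod.ext (hf (congrArg Prod.fst h)) (congrArg Prod.snd h :)

omit [Finite V] [Finite Φ] in
theorem ncard_preimage_le (hf : Injective f) : (f ⁻¹' A).ncard ≤ A.ncard := by
  exact ncard_le_ncard_of_injOn f (fun a ha => ha) hf.injOn (toFinite A)

namespace TransportAux

omit [Finite V] [Finite V'] [Finite Φ] in
theorem ex {Z : Set (V' × Φ)} (hZ : Z ⊆ up (A ∩ range f)) :
    ∃ Z₀ : Set (V × Φ), Z₀ ⊆ up (f ⁻¹' A) ∧ lift f '' Z₀ = Z := by
  refine ⟨lift f ⁻¹' Z, fun x hx => (hZ hx).1, image_preimage_eq_of_subset fun x hx => ?_⟩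
  obtain ⟨v, hv⟩ := (hZ hx).2
  exact ⟨(v, x.2), Prod.ext hv rfl⟩

omit [Finite V] [Finite V'] [Finite Φ] in
theorem inter (Z : Set (V × Φ)) (B' : Set V') :
    lift f '' Z ∩ up B' = lift f '' (Z ∩ up (f ⁻¹' B')) :=
  (image_inter_preimage (lift f) Z (up B')).symm

omit [Finite V] [Finite V'] [Finite Φ] in
theorem pre (hf : Injective f) (v : V) : f ⁻¹' {f v} = {v} := by
  rw [← image_singleton, hf.preimage_image]

theorem D_lift (hf : Injective f) (hh : ∀ x y, G.Adj x y ↔ G'.Adj (lift f x) (lift f y))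
    (j : ℕ) (Z : Set (V × Φ)) : D L G' j (lift f '' Z) = D L G j Z :=
  D_iso (lift_injective hf).injOn fun a _ b _ => hh a b

omit [Finite V] [Finite V'] [Finite Φ] in
theorem e1 {B' : Set V'} (hh : ∀ x y, G.Adj x y ↔ G'.Adj (lift f x) (lift f y))
    (h : E1 F G (f ⁻¹' A) (f ⁻¹' B')) : E1 F G' (A ∩ range f) B' := by
  intro 𝒮 q h1 ⟨s, hs, hsB⟩
  obtain ⟨t, ht, htB, a, b, hab, hfree⟩ := h {s | (f s.1, s.2) ∈ 𝒮} q
    (fun s hs => ⟨(h1 _ hs).1.1, (h1 _ hs).2⟩) (by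
      obtain ⟨v, hv⟩ := (h1 s hs).1.2
      refine ⟨(v, s.2), ?_, ?_⟩
      · change (f v, s.2) ∈ 𝒮
        rw [hv]; exact hs
      · change f v ∉ B'
        rw [hv]; exact hsB)
  refine ⟨(f t.1, t.2), ht, htB, a, b, hab, fun s' hs' hne w hw => ?_⟩
  obtain ⟨v, hv⟩ := (h1 s' hs').1.2
  obtain ⟨v', μ⟩ := s'
  obtain rfl : f v = v' := hv
  have := hfree (v, μ) hs' (fun e => hne (by rw [← e])) w hw
  exact ⟨fun k => this.1 ((hh (t.1, a) (v, w)).2 k), fun k => this.2 ((hh (t.1, b) (v, w)).2 k)⟩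

theorem root {B' : Set V'} (hf : Injective f)
    (hh : ∀ x y, G.Adj x y ↔ G'.Adj (lift f x) (lift f y))
    (h : Root L F G (f ⁻¹' A) (f ⁻¹' B')) : Root L F G' (A ∩ range f) B' := by
  refine ⟨fun Z hZ => ?_, fun j hj Z hZ h1 h2 h3 => ?_, e1 hh h.e⟩
  · obtain ⟨Z₀, h0, rfl⟩ := ex hZ
    rw [inter, D_lift hf hh, D_lift hf hh]
    exact h.str Z₀ h0
  · obtain ⟨Z₀, h0, rfl⟩ := ex hZ
    rw [D_lift hf hh] at h1
    rw [Mark.iso (G := G) (lift_injective hf).injOn fun a _ b _ => hh a b] at h2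
    rw [inter] at h3
    exact image_subset_iff.2 (h.sepa j hj Z₀ h0 h1 h2 (nontrivial_of_image _ _ h3))

end TransportAux

open TransportAux

/-- Every Z ⊆ up (A ∩ range f) is lift f '' Z₀; D_iso, Mark.iso. For a root outside the
range of f use Good.root with B = ∅. -/
theorem Good.map (hc : Ctx L F G) (hf : Injective f)
    (hh : ∀ x y, G.Adj x y ↔ G'.Adj (lift f x) (lift f y)) (h : Good L F G (f ⁻¹' A)) :
    Good L F G' (A ∩ range f) := by
  have hr : ∀ v, Root L F G' (A ∩ range f) {v} := fun v =>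
    TransportAux.root hf hh (h.root hc ((subsingleton_singleton.preimage hf).anti inter_subset_right))
  refine ⟨⟨?_, fun v => (hr v).str, fun v j hj Z hZ h1 h2 => ?_, fun Z hZ h1 a ha b hb => ?_⟩,
    fun v => (hr v).e⟩
  · refine (W1.iso (lift_injective hf).injOn (fun a _ b _ => hh a b) h.num.w1).mono fun x hx => ?_
    obtain ⟨v, hv⟩ := hx.2
    refine ⟨(v, x.2), ?_, Prod.ext hv rfl⟩
    change f v ∈ A
    rw [hv]; exact hx.1
  · obtain ⟨Z₀, h0, rfl⟩ := ex hZ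
    rw [D_lift hf hh] at h1
    obtain ⟨_, ⟨x, -, rfl⟩, hx⟩ := h2.nonempty
    obtain rfl : f x.1 = v := hx
    rw [inter, pre hf] at h2
    have := h.num.fs x.1 j hj Z₀ h0 h1 (nontrivial_of_image _ _ h2)
    rintro _ ⟨y, hy, rfl⟩
    exact congrArg f (this hy)
  · obtain ⟨Z₀, h0, rfl⟩ := ex hZ
    rw [D_lift hf hh] at h1
    obtain ⟨x, hx, rfl⟩ := ha
    obtain ⟨y, hy, rfl⟩ := hb
    exact congrArg f (h.num.t Z₀ h0 h1 x hx y hy)

theorem Root.map (hf : Injective f) (hh : ∀ x y, G.Adj x y ↔ G'.Adj (lift f x) (lift f y))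
    (h : Root L F G (f ⁻¹' A) B) : Root L F G' (A ∩ range f) (f '' B) := by
  exact TransportAux.root hf hh (by rwa [hf.preimage_image])

theorem PosB.map (hf : Injective f) (hh : ∀ x y, G.Adj x y ↔ G'.Adj (lift f x) (lift f y))
    (h : PosB L G Prod.fst (up (f ⁻¹' A)) c u κ) :
    PosB L G' Prod.fst (up (A ∩ range f)) (f c) (f u) κ := by
  intro Z hZ
  obtain ⟨Z₀, h0, rfl⟩ := ex hZ
  rw [inter, inter, pre hf, pre hf, D_lift hf hh, D_lift hf hh, D_lift hf hh]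
  exact h Z₀ h0

theorem PosR.map (hf : Injective f) (hh : ∀ x y, G.Adj x y ↔ G'.Adj (lift f x) (lift f y))
    (h : PosR L F G (f ⁻¹' A) u u' κ) : PosR L F G' (A ∩ range f) (f u) (f u') κ := by
  refine ⟨⟨fun Z hZ => ?_, fun j hj Z hZ h1 h2 h3 => ?_⟩, e1 hh ?_⟩
  · obtain ⟨Z₀, h0, rfl⟩ := ex hZ
    rw [inter, inter, pre hf, pre hf, D_lift hf hh, D_lift hf hh, D_lift hf hh]
    exact h.num.ge Z₀ h0
  · obtain ⟨Z₀, h0, rfl⟩ := ex hZ
    rw [D_lift hf hh] at h1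
    rw [inter, pre hf] at h2 h3
    exact h.num.nt j hj Z₀ h0 h1 h2.of_image h3.of_image
  · rw [← image_pair, hf.preimage_image]
    exact h.e

end Pool.Agent.Lib.MP_781e3b_co.CN
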