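import Pool.Agent.Lib.MP_781e3b_co.RR.Step
import Pool.Agent.Lib.MP_781e3b_co.CN.Transport
import Pool.Agent.Lib.MP_781e3b_co.CN.Red0

/-!
The girth Ramsey theorem for templates, and induced structure.
-/

namespace Pool.Agent.Lib.MP_781e3b_co.CN

open Set Function SimpleGraph

variable {K : Kit} {W : World K} {T : Tm W} {n : ℕ}

namespace RR1Aux

/-- The hyperedges of a template as a train of height one. -/
def train (T : Tm W) : RR.Tr Unit W.V where
  V := T.V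
  W := fun | 0 => T.Hy | _ + 1 => Unit
  finV := inferInstance
  finW := fun | 0 => inferInstanceAs (Finite T.Hy) | _ + 1 => inferInstanceAs (Finite Unit)
  par := fun _ _ => ()
  N := fun | 0 => fun z => range (T.tup z) | _ + 1 => fun _ => univ
  tup := T.tup
  lab := fun _ => ()

theorem lift_eq {V V' V'' Φ : Type} {f : V → V''} {g : V' → V''} {x : V × Φ} {y : V' × Φ}
    (h : lift f x = lift g y) : f x.1 = g y.1 ∧ x.2 = y.2 :=
  ⟨congrArg Prod.fst h, congrArg Prod.snd h⟩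

theorem fib_adj {V Φ : Type} {F : Fib Φ} {G : SimpleGraph (V × Φ)} (h : FibG F G) {x y : V × Φ}
    (e : x.1 = y.1) : G.Adj x y ↔ F.Ψ.Adj x.2 y.2 := by
  obtain ⟨v, a⟩ := x
  obtain ⟨w, b⟩ := y
  obtain rfl : v = w := e
  exact h v a b

/-- Two copies in a forest meet in at most one point or inside one wagon. -/
theorem fo_two {C W V : Type} {S : RR.Sys C W V} {full : Prop} {Cs : Set C} {Z : Set W}
    {R : Set (W × V)} (h : RR.Fo S full Cs Z R) {P P' : C} (hP : P ∈ Cs) (hP' : P' ∈ Cs)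
    (hne : P ≠ P') : (S.vb P ∩ S.vb P').Subsingleton ∨ ∃ z, S.vb P ∩ S.vb P' ⊆ S.N z := by
  induction h with
  | empty => exact hP.elim
  | atom Q Z R _ _ _ => exact (hne (hP.trans hP'.symm)).elim
  | star z R _ _ => exact hP.elim
  | glueV _ _ _ _ hV ih₁ ih₂ =>
    rcases hP with hP | hP <;> rcases hP' with hP' | hP'
    · exact ih₁ hP hP'
    · exact Or.inl (hV.anti fun v hv => ⟨Or.inl ⟨P, hP, hv.1⟩, Or.inl ⟨P', hP', hv.2⟩⟩)
    · exact Or.inl (hV.anti fun v hv => ⟨Or.inl ⟨P', hP', hv.2⟩, Or.inl ⟨P, hP, hv.1⟩⟩)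
    · exact ih₂ hP hP'
  | glueW z h₁ _ _ _ _ _ hV ih₁ ih₂ =>
    rcases hP with hP | hP <;> rcases hP' with hP' | hP'
    · exact ih₁ hP hP'
    · exact Or.inr ⟨z, fun v hv =>
        (h₁.sound (hV v (Or.inl ⟨P, hP, hv.1⟩) (Or.inl ⟨P', hP', hv.2⟩)).1).2⟩
    · exact Or.inr ⟨z, fun v hv =>
        (h₁.sound (hV v (Or.inl ⟨P', hP', hv.2⟩) (Or.inl ⟨P, hP, hv.1⟩)).1).2⟩
    · exact ih₂ hP hP'

end RR1Aux

/-- Order W.V by LinearOrder.lift' o; the train has W 0 = T.Hy, W (_ + 1) = Unit as in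
RR.tee; RR.dia_cons as in RR.girth_ramsey, keeping fin, lin and si of Out. -/
theorem rr_exists (hp : T.Pre) (ho : T.Ord) (n : ℕ) : Nonempty (RRO T n) := by
  classical
  obtain ⟨o, r, ho1, ho2⟩ := ho
  let _ : LinearOrder W.V := LinearOrder.lift' o ho1
  have hF : RR.Good (fun _ => ()) 1 (fun _ => univ) (RR1Aux.train T) := by
    refine ⟨fun _ => rfl, fun _ _ => rfl, fun μ hμ z => ?_, fun μ hμ z z' hne _ v _ _ => ?_, ?_⟩
    · exact subset_univ _
    · cases μ with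
      | zero => exact ⟨zero_lt_one, mem_univ _⟩
      | succ μ => exact (hne rfl).elim
    · exact ⟨r, fun f k k' hk => ho2 f k k' hk⟩
  have hl : RR.Lin ((RR1Aux.train T).N 0) := hp.lin
  have : Nonempty W.Col := ⟨fun _ _ => 0⟩
  obtain ⟨H, J, e, he⟩ := RR.dia_cons (n + 2) (by omega) 0 (fun _ => n + 2) le_rfl (RR.dia_zero _)
    Unit W.V _ _ W.Col (RR1Aux.train T) hF hl fun μ h1 h2 => by omega
  have hN : H.N 0 = fun z => range (H.tup z) := funext he.good.N0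
  have hfp : RR.FP (RR.sys e 0) True n :=
    ((he.fp 0 Nat.one_pos).weaken fun _ => rfl).mono (Nat.le_add_right n 2)
  have hlin := he.lin
  have hsi := he.si
  unfold RR.sys at hfp
  rw [hN] at hfp hlin hsi
  obtain ⟨ρ, hρ⟩ := he.good.ord
  exact ⟨{
    V := H.V
    fin := inferInstance
    Hy := H.W 0
    finH := inferInstance
    J := J
    finJ := he.fin
    tup := H.tup
    ev := fun j => (e j).v
    ew := fun j => (e j).w 0
    inj := fun z k k' h => (hρ z).injective (congrArg ρ h)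
    evinj := fun j => (e j).vinj
    ewinj := fun j => (e j).winj 0 (Nat.zero_le _)
    comm := fun j => (e j).tup
    lin := hlin
    si := hsi
    ram := he.ram
    fp := hfp }⟩

theorem Tm.Pre.fib (hp : T.Pre) (hW : FibG K.fib W.B) : FibG K.fib T.B := by
  intro v a b
  constructor
  · rintro ⟨-, h | ⟨f, x', y', h, e₁, e₂⟩ | h⟩
    · exact h.2
    · have h1 : T.tup f x'.1 = T.tup f y'.1 :=
        (congrArg Prod.fst e₁).symm.trans (congrArg Prod.fst e₂)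
      obtain rfl : a = x'.2 := congrArg Prod.snd e₁
      obtain rfl : b = y'.2 := congrArg Prod.snd e₂
      exact (RR1Aux.fib_adj hW (hp.inj f h1)).1 h
    · exact (hp.cross _ _ h rfl).elim
  · exact fun h => ⟨fun e => h.ne (congrArg Prod.snd e), Or.inl ⟨rfl, h⟩⟩

/-- A hyperedge carries the old blue graph. -/
theorem Tm.Pre.ind (hp : T.Pre) (hW : FibG K.fib W.B) (f : T.Hy) (x y : W.V × K.Φ) :
    W.B.Adj x y ↔ T.B.Adj (lift (T.tup f) x) (lift (T.tup f) y) := by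
  constructor
  · exact fun h => ⟨fun e => h.ne (lift_injective (hp.inj f) e),
      Or.inr (Or.inl ⟨f, x, y, h, rfl, rfl⟩)⟩
  · rintro ⟨-, h | ⟨f', x', y', h, e₁, e₂⟩ | h⟩
    · exact (RR1Aux.fib_adj hW (hp.inj f h.1)).2 h.2
    · by_cases hf : f = f'
      · subst hf
        rw [lift_injective (hp.inj f) e₁, lift_injective (hp.inj f) e₂]
        exact h
      · obtain ⟨a₁, b₁⟩ := RR1Aux.lift_eq e₁
        obtain ⟨a₂, b₂⟩ := RR1Aux.lift_eq e₂
        have h1 : T.tup f x.1 = T.tup f y.1 :=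
          hp.lin f f' hf ⟨⟨_, rfl⟩, _, a₁.symm⟩ ⟨⟨_, rfl⟩, _, a₂.symm⟩
        have h2 : x'.1 = y'.1 := hp.inj f' (a₁.symm.trans (h1.trans a₂))
        rw [RR1Aux.fib_adj hW (hp.inj f h1), b₁, b₂]
        exact (RR1Aux.fib_adj hW h2).1 h
    · exact (hp.out _ _ h f ⟨_, rfl⟩ ⟨_, rfl⟩).elim

/-- A cross edge lies in a hyperedge or is new. -/
theorem Tm.cross_cases {x y : T.V × K.Φ} (h : T.B.Adj x y) (hne : x.1 ≠ y.1) :
    (∃ f x' y', W.B.Adj x' y' ∧ x = lift (T.tup f) x' ∧ y = lift (T.tup f) y') ∨ T.G.Adj x y :=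
  h.2.resolve_left fun h => hne h.1

theorem Tm.adj_new {x y : T.V × K.Φ} (h : T.G.Adj x y) : T.B.Adj x y :=
  ⟨h.ne, Or.inr (Or.inr h)⟩

/-- Edges of the old host graph go to edges. -/
theorem Tm.Pre.push (hp : T.Pre) (f : T.Hy) {x y : W.V × K.Φ} (h : W.T x y) :
    T.w.T (lift (T.tup f) x) (lift (T.tup f) y) := by
  rcases h with h | h | ⟨c, u, v, h, rfl, rfl⟩
  · exact Or.inl ⟨fun e => h.ne (lift_injective (hp.inj f) e),
      Or.inr (Or.inl ⟨f, x, y, h, rfl, rfl⟩)⟩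
  · exact Or.inr (Or.inl ⟨congrArg (T.tup f) h.1, h.2⟩)
  · exact Or.inr (Or.inr ⟨Sum.inl (f, c), u, v, h, rfl, rfl⟩)

theorem Tm.Pre.mono (hp : T.Pre) (f : T.Hy) {χ : T.w.Col}
    (h : W.Mono fun x y => χ (lift (T.tup f) x) (lift (T.tup f) y)) : T.w.Mono χ := by
  obtain ⟨i, g, hg, h⟩ := h
  exact ⟨i, fun u => lift (T.tup f) (g u), (lift_injective (hp.inj f)).comp hg,
    fun u v huv => ⟨hp.push f (h u v huv).1, (h u v huv).2⟩⟩

theorem RRO.host_adj (O : RRO T n) {x y : O.V × K.Φ} : O.host.G.Adj x y ↔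
    ∃ j x' y', T.G.Adj x' y' ∧ x = lift (O.ev j) x' ∧ y = lift (O.ev j) y' := by
  change (⨆ j, T.G.map (lift (O.ev j))).Adj x y ↔ _
  rw [SimpleGraph.iSup_adj]
  constructor
  · rintro ⟨j, -, x', y', h, rfl, rfl⟩
    exact ⟨j, x', y', h, rfl, rfl⟩
  · rintro ⟨j, x', y', h, rfl, rfl⟩
    exact ⟨j, fun e => h.ne (lift_injective (O.evinj j) e), x', y', h, rfl, rfl⟩

/-- out from si and comm. -/
theorem RRO.pre (O : RRO T n) (hp : T.Pre) : O.host.Pre := by
  refine ⟨O.inj, O.lin, fun x y h₀ => ?_, fun x y h₀ z hx hy => ?_⟩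
  · obtain ⟨j, x', y', h, rfl, rfl⟩ := O.host_adj.1 h₀
    exact fun e => hp.cross _ _ h (O.evinj j e)
  · obtain ⟨j, x', y', h, rfl, rfl⟩ := O.host_adj.1 h₀
    by_cases hz : z ∈ range (O.ew j)
    · obtain ⟨f, rfl⟩ := hz
      obtain ⟨k, hk⟩ := hx
      obtain ⟨k', hk'⟩ := hy
      exact hp.out _ _ h f ⟨k, O.evinj j ((O.comm j f k).symm.trans hk)⟩
        ⟨k', O.evinj j ((O.comm j f k').symm.trans hk')⟩
    · exact hp.cross _ _ h (O.evinj j (O.si j z hz ⟨hx, _, rfl⟩ ⟨hy, _, rfl⟩))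

theorem RRO.whole (O : RRO T n) : (⟨fun j => range (O.ev j), fun j => range (O.ew j),
    fun z => range (O.tup z)⟩ : RR.Sys O.J O.Hy O.V).Whole := by
  rintro j _ ⟨f, rfl⟩ _ ⟨k, rfl⟩
  exact ⟨T.tup f k, (O.comm j f k).symm⟩

/-- Cover the two copies by a forest; induction on the forest. At the gluing that separates them
the common points lie in one point or in one N z; if z is not in both copies use si. -/
theorem RRO.two (O : RRO T n) (hn : 2 ≤ n) {j j' : O.J} (h : j ≠ j') :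
    (range (O.ev j) ∩ range (O.ev j')).Subsingleton ∨
      ∃ z ∈ range (O.ew j), z ∈ range (O.ew j') ∧
        range (O.ev j) ∩ range (O.ev j') ⊆ range (O.tup z) := by
  classical
  obtain ⟨Cs, Z, R, h1, h2⟩ := O.fp {j, j'} ∅
    (by rw [Finset.card_empty, add_zero]; exact Finset.card_le_two.trans hn)
  rcases RR1Aux.fo_two h1 (h2.cp j (by simp)) (h2.cp j' (by simp)) h with h3 | ⟨z, h3⟩
  · exact Or.inl h3
  · by_cases hz : z ∈ range (O.ew j)
    · by_cases hz' : z ∈ range (O.ew j')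
      · exact Or.inr ⟨z, hz, hz', h3⟩
      · exact Or.inl ((O.si j' z hz').anti fun v hv => ⟨h3 hv, hv.2⟩)
    · exact Or.inl ((O.si j z hz).anti fun v hv => ⟨h3 hv, hv.1⟩)

/-- A copy carries the blue graph of the template (si, two, Pre.out). -/
theorem RRO.ind (O : RRO T n) (hn : 2 ≤ n) (hp : T.Pre) (hW : FibG K.fib W.B) (j : O.J)
    (x y : T.V × K.Φ) : T.B.Adj x y ↔ O.host.B.Adj (lift (O.ev j) x) (lift (O.ev j) y) := by
  have hc : ∀ f (x' : W.V × K.Φ),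
      lift (O.ev j) (lift (T.tup f) x') = lift (O.tup (O.ew j f)) x' := fun f x' =>
    Prod.ext (O.comm j f x'.1).symm rfl
  constructor
  · rintro ⟨hne, h⟩
    refine ⟨fun e => hne (lift_injective (O.evinj j) e), ?_⟩
    rcases h with h | ⟨f, x', y', h, rfl, rfl⟩ | h
    · exact Or.inl ⟨congrArg (O.ev j) h.1, h.2⟩
    · exact Or.inr (Or.inl ⟨O.ew j f, x', y', h, hc f x', hc f y'⟩)
    · exact Or.inr (Or.inr (O.host_adj.2 ⟨j, x, y, h, rfl, rfl⟩))
  · rintro ⟨hne, h⟩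
    refine ⟨fun e => hne (congrArg _ e), ?_⟩
    rcases h with h | ⟨z, x', y', h, e₁, e₂⟩ | h
    · exact Or.inl ⟨O.evinj j h.1, h.2⟩
    · by_cases hz : z ∈ range (O.ew j)
      · obtain ⟨f, rfl⟩ := hz
        exact Or.inr (Or.inl ⟨f, x', y', h, lift_injective (O.evinj j) (e₁.trans (hc f x').symm),
          lift_injective (O.evinj j) (e₂.trans (hc f y').symm)⟩)
      · obtain ⟨a₁, b₁⟩ := RR1Aux.lift_eq e₁
        obtain ⟨a₂, b₂⟩ := RR1Aux.lift_eq e₂
        have h1 : O.ev j x.1 = O.ev j y.1 :=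
          O.si j z hz ⟨⟨_, a₁.symm⟩, _, rfl⟩ ⟨⟨_, a₂.symm⟩, _, rfl⟩
        have h2 : x'.1 = y'.1 := O.inj z (a₁.symm.trans (h1.trans a₂))
        refine Or.inl ⟨O.evinj j h1, ?_⟩
        rw [b₁, b₂]
        exact (RR1Aux.fib_adj hW h2).1 h
    · obtain ⟨j', x', y', h, e₁, e₂⟩ := O.host_adj.1 h
      by_cases hj : j = j'
      · subst hj
        rw [lift_injective (O.evinj j) e₁, lift_injective (O.evinj j) e₂]
        exact Or.inr (Or.inr h)
      · obtain ⟨a₁, -⟩ := RR1Aux.lift_eq e₁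
        obtain ⟨a₂, -⟩ := RR1Aux.lift_eq e₂
        have m₁ : O.ev j' x'.1 ∈ range (O.ev j) ∩ range (O.ev j') := ⟨⟨_, a₁⟩, _, rfl⟩
        have m₂ : O.ev j' y'.1 ∈ range (O.ev j) ∩ range (O.ev j') := ⟨⟨_, a₂⟩, _, rfl⟩
        rcases O.two hn hj with h3 | ⟨z, -, ⟨f, rfl⟩, h3⟩
        · exact (hp.cross _ _ h (O.evinj j' (h3 m₁ m₂))).elim
        · obtain ⟨k, hk⟩ := h3 m₁
          obtain ⟨k', hk'⟩ := h3 m₂
          exact (hp.out _ _ h f ⟨k, O.evinj j' ((O.comm j' f k).symm.trans hk)⟩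
            ⟨k', O.evinj j' ((O.comm j' f k').symm.trans hk')⟩).elim

end Pool.Agent.Lib.MP_781e3b_co.CN
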