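import Pool.Agent.Lib.MP_781e3b_co.CN.RR1
import Pool.Agent.Lib.MP_781e3b_co.CN.Ground2
import Pool.Agent.Lib.MP_781e3b_co.CN.Parts0

/-!
The blue invariants of the host.
-/

namespace Pool.Agent.Lib.MP_781e3b_co.CN

open Set Function SimpleGraph

variable {K : Kit} {W : World K} {T : Tm W} {κb κr κb' κr' : ℝ}

theorem World.BOK.ctx (hK : K.OK) (h : W.BOK κb κr) : Ctx K.L K.fib W.B := ⟨hK.hL, hK.fib, h.fib⟩

namespace RR2Aux

/-- One common bag for every pair of points of A that has one. -/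
theorem pairs {V I : Type} [Finite V] (bag : I → Set V) (A : Set V) {N : ℕ} (hA : A.ncard ≤ N) :
    ∃ X : Finset I, X.card ≤ N ^ 2 ∧ ∀ u ∈ A, ∀ v ∈ A, (∃ i, u ∈ bag i ∧ v ∈ bag i) →
      ∃ i ∈ X, u ∈ bag i ∧ v ∈ bag i := by
  classical
  set P : Set (V × V) := {p | p ∈ A ×ˢ A ∧ ∃ i, p.1 ∈ bag i ∧ p.2 ∈ bag i} with hP
  have hex : ∀ p : P, ∃ i, p.1.1 ∈ bag i ∧ p.1.2 ∈ bag i := fun p => p.2.2
  choose ob hob using hex
  have : Fintype P := Fintype.ofFinite _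
  refine ⟨Finset.univ.image ob, ?_, fun u hu v hv h => ?_⟩
  · have h1 : P.ncard ≤ (A ×ˢ A).ncard := ncard_le_ncard (fun p hp => hp.1) (toFinite _)
    rw [ncard_prod] at h1
    have h2 : Fintype.card P = P.ncard := by
      rw [← Nat.card_eq_fintype_card, Nat.card_coe_set_eq]
    calc (Finset.univ.image ob).card ≤ (Finset.univ : Finset P).card := Finset.card_image_le
      _ = P.ncard := by rw [Finset.card_univ, h2]
      _ ≤ A.ncard * A.ncard := h1
      _ ≤ N ^ 2 := by rw [sq]; exact Nat.mul_le_mul hA hA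
  · exact ⟨ob ⟨(u, v), ⟨hu, hv⟩, h⟩, Finset.mem_image_of_mem _ (Finset.mem_univ _),
      hob ⟨(u, v), ⟨hu, hv⟩, h⟩⟩

/-- Few hyperedges and copies hold all cross edges over A. -/
theorem cover {n : ℕ} (O : RRO T n) (A : Set O.V) (hA : A.ncard ≤ K.N) :
    ∃ (XP : Finset O.J) (XW : Finset O.Hy), XP.card + XW.card ≤ K.N ^ 2 ∧
      ∀ x y, O.host.B.Adj x y → x.1 ∈ A → y.1 ∈ A → x.1 ≠ y.1 →
        (∃ z ∈ XW, x.1 ∈ range (O.tup z) ∧ y.1 ∈ range (O.tup z)) ∨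
          ∃ j ∈ XP, x.1 ∈ range (O.ev j) ∧ y.1 ∈ range (O.ev j) := by
  classical
  obtain ⟨X, hX, hc⟩ := pairs
    (Sum.elim (fun z => range (O.tup z)) (fun j => range (O.ev j)) : O.Hy ⊕ O.J → Set O.V) A hA
  refine ⟨X.toRight, X.toLeft, ?_, fun x y hxy hx hy hne => ?_⟩
  · rw [add_comm, Finset.card_toLeft_add_card_toRight]
    exact hX
  · have hb : ∃ i : O.Hy ⊕ O.J,
        x.1 ∈ Sum.elim (fun z => range (O.tup z)) (fun j => range (O.ev j)) i ∧
        y.1 ∈ Sum.elim (fun z => range (O.tup z)) (fun j => range (O.ev j)) i := by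
      rcases Tm.cross_cases hxy hne with ⟨z, x', y', -, rfl, rfl⟩ | h
      · exact ⟨Sum.inl z, ⟨x'.1, rfl⟩, ⟨y'.1, rfl⟩⟩
      · obtain ⟨j, x', y', -, rfl, rfl⟩ := O.host_adj.1 h
        exact ⟨Sum.inr j, ⟨x'.1, rfl⟩, ⟨y'.1, rfl⟩⟩
    obtain ⟨z | j, hi, h1, h2⟩ := hc _ hx _ hy hb
    · exact Or.inl ⟨z, Finset.mem_toLeft.2 hi, h1, h2⟩
    · exact Or.inr ⟨j, Finset.mem_toRight.2 hi, h1, h2⟩

theorem two_le (K : Kit) : 2 ≤ K.gi := Nat.le_add_left _ _

theorem range_tup {n : ℕ} (O : RRO T n) (j : O.J) (f : T.Hy) :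
    range (O.tup (O.ew j f)) = O.ev j '' range (T.tup f) := by
  rw [← range_comp]
  exact congrArg range (funext fun k => O.comm j f k)

theorem main (O : RRO T K.gi) (hK : K.OK) (hp : T.Pre) (hW : W.BOK κb κr)
    (hT : T.w.BOK κb' κr') (hr : T.Rooted) (A : Set O.V) (hA : A.ncard ≤ K.N)
    (X₀ : Finset O.J) (h₀ : X₀.card ≤ 1) :
    Good K.L K.fib O.host.B A ∧ ∀ j ∈ X₀, Root K.L K.fib O.host.B A (range (O.ev j)) := by
  classical
  obtain ⟨XP, XW, hcard, hcov⟩ := cover O A hA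
  have hc : Ctx K.L K.fib O.host.B := ⟨hK.hL, hK.fib, (O.pre hp).fib hW.fib⟩
  have hle : (X₀ ∪ XP).card + XW.card ≤ K.gi := by
    have h1 := Finset.card_union_le X₀ XP
    unfold Kit.gi
    omega
  obtain ⟨Cs, Z, R, hF, hC⟩ := O.fp (X₀ ∪ XP) XW hle
  have hind := O.ind (two_le K) hp hW.fib
  obtain ⟨g, -, r⟩ := good_forest (A := A) hc hF O.whole
    (fun x y hxy hx hy hne => (hcov x y hxy hx.1 hy.1 hne).imp
      (fun ⟨z, hz, h⟩ => ⟨z, Or.inr (hC.wg z hz), h⟩)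
      (fun ⟨j, hj, h⟩ => ⟨j, hC.cp j (Finset.mem_union_right _ hj), h⟩))
    (fun z => Good.map (hW.ctx hK) (O.inj z) ((O.pre hp).ind hW.fib z)
      (hW.good _ ((ncard_preimage_le (O.inj z)).trans hA)))
    (fun j => Good.map (hT.ctx hK) (O.evinj j) (hind j)
      (hT.good _ ((ncard_preimage_le (O.evinj j)).trans hA)))
    (by
      rintro j _ ⟨f, rfl⟩
      have h := Root.map (A := A) (O.evinj j) (hind j)
        (hr f _ ((ncard_preimage_le (O.evinj j)).trans hA))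
      rw [← range_tup] at h
      exact h)
  obtain ⟨g', r'⟩ := good_iso (A := A) hc _ (fun x y hxy hx hy hne => by
    rcases hcov x y hxy hx hy hne with ⟨z, hz, h, -⟩ | ⟨j, hj, h, -⟩
    · exact Or.inr ⟨z, hC.st z hz _ h⟩
    · exact Or.inl ⟨j, hC.cp j (Finset.mem_union_right _ hj), h⟩) g
  refine ⟨g', fun j hj => ?_⟩
  have hj' : j ∈ Cs := hC.cp j (Finset.mem_union_left _ hj)
  exact r'.trans (r j hj') fun v hv => Or.inl ⟨j, hj', hv.2⟩

/-- Cell edges of the template go to cell edges of the host. -/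
theorem ce {n : ℕ} (O : RRO T n) (j : O.J) {x y : T.V × K.Φ} (h : T.w.CE x y) :
    O.host.w.CE (lift (O.ev j) x) (lift (O.ev j) y) := by
  obtain ⟨⟨f, c⟩ | c, u, v, h1, rfl, rfl⟩ := h
  · exact ⟨Sum.inl (O.ew j f, c), u, v, h1, Prod.ext (O.comm j f _).symm rfl,
      Prod.ext (O.comm j f _).symm rfl⟩
  · exact ⟨Sum.inr (j, c), u, v, h1, rfl, rfl⟩

end RR2Aux

/-- For each of the at most (N * 2a) ^ 2 cross edges over A take a hyperedge or a copy that
holds it; cover these and the copy j (if there is one) by a forest. good_forest with Good.map,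
Root.map (Pre.ind, RRO.ind). The points of A outside the forest have no cross edges over
A: good_iso, Root.trans. -/
theorem RRO.local (O : RRO T K.gi) (hK : K.OK) (hp : T.Pre) (hW : W.BOK κb κr)
    (hT : T.w.BOK κb' κr') (hr : T.Rooted) (A : Set O.V) (hA : A.ncard ≤ K.N) :
    Good K.L K.fib O.host.B A ∧ ∀ j, Root K.L K.fib O.host.B A (range (O.ev j)) := by
  exact ⟨(RR2Aux.main O hK hp hW hT hr A hA ∅ (by simp)).1, fun j =>
    (RR2Aux.main O hK hp hW hT hr A hA {j} (by simp)).2 j (Finset.mem_singleton_self j)⟩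

/-- local, PosB.map, PosB.raise, PosR.map, PosR.raise. -/
theorem RRO.bok (O : RRO T K.gi) (hK : K.OK) (hp : T.Pre) (hW : W.BOK κb κr)
    (hT : T.w.BOK κb' κr') (hr : T.Rooted) : O.host.w.BOK κb' κr' := by
  have hind := O.ind (RR2Aux.two_le K) hp hW.fib
  refine ⟨(O.pre hp).fib hW.fib, fun A hA => (O.local hK hp hW hT hr A hA).1, ?_, ?_⟩
  · rintro _ ⟨j, p₀, h₀, rfl⟩
    obtain ⟨a, b, c, d⟩ := hT.pb p₀ h₀
    refine ⟨(hind j _ _).1 a, fun h => b (O.evinj j h), c, fun A hA => ?_⟩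
    exact PosB.raise ((O.local hK hp hW hT hr A hA).2 j) ⟨_, rfl⟩ ⟨_, rfl⟩
      (PosB.map (O.evinj j) (hind j) (d _ ((ncard_preimage_le (O.evinj j)).trans hA)))
  · rintro _ ⟨j, p₀, h₀, rfl⟩
    obtain ⟨a, b, c, d, e⟩ := hT.pr p₀ h₀
    refine ⟨RR2Aux.ce O j a, fun h => b (O.evinj j h), c, d, fun A hA => ?_⟩
    exact PosR.raise hK.hL ((O.local hK hp hW hT hr A hA).2 j) ⟨_, rfl⟩ ⟨_, rfl⟩
      (PosR.map (O.evinj j) (hind j) (e _ ((ncard_preimage_le (O.evinj j)).trans hA)))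

end Pool.Agent.Lib.MP_781e3b_co.CN
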