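import Pool.Agent.Lib.MP_781e3b_co.CN.RR1

/-!
The red invariants of the host, and forcing.
-/

namespace Pool.Agent.Lib.MP_781e3b_co.CN

open Set Function SimpleGraph

variable {K : Kit} {W : World K} {T : Tm W}

namespace RR3Aux

theorem jn_push {C C' V V' : Type} {g : C → Set V} {g' : C' → Set V'} {f : V → V'} {e : C → C'}
    (hg : ∀ c, g' (e c) = f '' g c) {𝒟 : Set C} {a b : V} (h : Jn g 𝒟 a b) :
    Jn g' (e '' 𝒟) (f a) (f b) := by
  induction h with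
  | refl => exact Relation.ReflTransGen.refl
  | tail _ h2 ih =>
    obtain ⟨c, hc, h3, h4⟩ := h2
    exact Relation.ReflTransGen.tail ih
      ⟨e c, mem_image_of_mem e hc, hg c ▸ mem_image_of_mem f h3, hg c ▸ mem_image_of_mem f h4⟩

theorem ncard_pre {C C' : Type} [Finite C'] {e : C → C'} (he : Injective e) (𝒟 : Set C') :
    (e ⁻¹' 𝒟).ncard ≤ 𝒟.ncard :=
  ncard_le_ncard_of_injOn e (fun _ h => h) he.injOn

variable {n : ℕ} (O : RRO T n)

/-- The object of a cell. -/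
def ob : O.host.w.Cell → O.Hy ⊕ O.J := Sum.map Prod.fst Prod.fst

/-- The cells of a copy. -/
def ec (j : O.J) : T.w.Cell → O.host.w.Cell :=
  Sum.map (fun z => (O.ew j z.1, z.2)) fun c => (j, c)

/-- The cells of a hyperedge. -/
def eh (z : O.Hy) (c : W.Cell) : O.host.w.Cell := Sum.inl (z, c)

theorem lift_comm (j : O.J) (f : T.Hy) (x : W.V × K.Φ) :
    lift (O.ev j) (lift (T.tup f) x) = lift (O.tup (O.ew j f)) x :=
  Prod.ext (O.comm j f x.1).symm rfl

theorem ec_inj (j : O.J) : Injective (ec O j) :=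
  Injective.sumMap
    (fun _ _ h => Prod.ext (O.ewinj j (Prod.mk.inj h).1) (Prod.mk.inj h).2)
    fun _ _ h => congrArg Prod.snd h

theorem eh_inj (z : O.Hy) : Injective (eh O z) :=
  fun _ _ h => congrArg Prod.snd (Sum.inl_injective h)

theorem sg_ec (j : O.J) (c : T.w.Cell) : O.host.w.sg (ec O j c) = T.w.sg c := by
  cases c <;> rfl

theorem ce_ec (j : O.J) (c : T.w.Cell) :
    O.host.w.ce (ec O j c) = fun u => lift (O.ev j) (T.w.ce c u) := by
  cases c with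
  | inl z => exact funext fun u => (lift_comm O j z.1 _).symm
  | inr c => rfl

theorem g_ec (j : O.J) (c : T.w.Cell) : O.host.w.g (ec O j c) = O.ev j '' T.w.g c := by
  rw [World.g, sg_ec, ce_ec, gset_lift]
  rfl

theorem g_eh (z : O.Hy) (c : W.Cell) : O.host.w.g (eh O z c) = O.tup z '' W.g c :=
  gset_lift (O.tup z) (W.sg c) (W.ce c)

theorem range_ec (j : O.J) :
    ob O ⁻¹' (Sum.inl '' range (O.ew j) ∪ {Sum.inr j}) = range (ec O j) := by
  ext c
  constructor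
  · rcases c with ⟨z, c⟩ | ⟨i, c⟩
    · rintro (⟨_, ⟨f, rfl⟩, h⟩ | h)
      · obtain rfl : O.ew j f = z := Sum.inl_injective h
        exact ⟨Sum.inl (f, c), rfl⟩
      · cases h
    · rintro (⟨_, _, h⟩ | h)
      · cases h
      · obtain rfl : i = j := Sum.inr_injective h
        exact ⟨Sum.inr c, rfl⟩
  · rintro ⟨z | c, rfl⟩
    · exact Or.inl ⟨_, ⟨z.1, rfl⟩, rfl⟩
    · exact Or.inr rfl

theorem range_eh (z : O.Hy) : ob O ⁻¹' {Sum.inl z} = range (eh O z) := by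
  ext c
  constructor
  · rcases c with ⟨y, c⟩ | ⟨i, c⟩
    · intro h
      obtain rfl : y = z := Sum.inl_injective h
      exact ⟨c, rfl⟩
    · intro h
      cases h
  · rintro ⟨c, rfl⟩
    rfl

/-- Few objects lie in a forest. -/
theorem cover (X : Set (O.Hy ⊕ O.J)) (hX : X.ncard ≤ n) :
    ∃ Cs Z R, RR.Fo (⟨fun j => range (O.ev j), fun j => range (O.ew j),
      fun z => range (O.tup z)⟩ : RR.Sys O.J O.Hy O.V) True Cs Z R ∧
      X ⊆ Sum.inl '' Z ∪ Sum.inr '' Cs := by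
  have hf := X.toFinite
  obtain ⟨Cs, Z, R, h1, h2⟩ := O.fp hf.toFinset.toRight hf.toFinset.toLeft (by
    rw [add_comm, Finset.card_toLeft_add_card_toRight, ← ncard_eq_toFinset_card X hf]
    exact hX)
  refine ⟨Cs, Z, R, h1, ?_⟩
  rintro (z | j) h
  · exact Or.inl ⟨z, h2.wg z (Finset.mem_toLeft.2 (hf.mem_toFinset.2 h)), rfl⟩
  · exact Or.inr ⟨j, h2.cp j (Finset.mem_toRight.2 (hf.mem_toFinset.2 h)), rfl⟩

/-- Hyperedges and copies are convex. -/
theorem conv (O : RRO T K.gi) (hT : T.RT) (𝒟 : Set O.host.w.Cell) (hc : 𝒟.ncard ≤ K.N ^ 2) :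
    (∀ z, Conv O.host.w.g 𝒟 (range (O.tup z)) (𝒟 ∩ range (eh O z))) ∧
      ∀ j, Conv O.host.w.g 𝒟 (range (O.ev j)) (𝒟 ∩ range (ec O j)) := by
  have key : ∀ o : O.Hy ⊕ O.J,
      (∀ z, o = Sum.inl z → Conv O.host.w.g 𝒟 (range (O.tup z)) (𝒟 ∩ range (eh O z))) ∧
      ∀ j, o = Sum.inr j → Conv O.host.w.g 𝒟 (range (O.ev j)) (𝒟 ∩ range (ec O j)) := by
    intro o
    obtain ⟨Cs, Z, R, hF, hX⟩ := cover O (insert o (ob O '' 𝒟)) (by
      refine (ncard_insert_le o (ob O '' 𝒟)).trans ?_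
      have h2 := (ncard_image_le (f := ob O) (s := 𝒟)).trans hc
      generalize (ob O '' 𝒟).ncard = m at h2
      unfold Kit.gi
      omega)
    have h := conv_forest (g := O.host.w.g) (𝒟 := 𝒟) hF O.whole (ob O) ?_ ?_ ?_
    · have hD : 𝒟 ∩ ob O ⁻¹' (Sum.inl '' (⟨fun j => range (O.ev j), fun j => range (O.ew j),
          fun z => range (O.tup z)⟩ : RR.Sys O.J O.Hy O.V).BW Cs Z ∪ Sum.inr '' Cs) = 𝒟 :=
        inter_eq_left.2 fun c hc => (hX (Or.inr (mem_image_of_mem _ hc))).imp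
          (fun h => image_mono (fun _ h => Or.inr h) h) id
      rw [hD] at h
      have ho := hX (mem_insert o _)
      refine ⟨?_, ?_⟩
      · rintro z rfl
        rcases ho with ⟨y, h1, h2⟩ | ⟨y, _, h2⟩
        · obtain rfl : y = z := Sum.inl_injective h2
          rw [← range_eh]
          exact h.1 y (Or.inr h1)
        · cases h2
      · rintro j rfl
        rcases ho with ⟨y, _, h2⟩ | ⟨y, h1, h2⟩
        · cases h2
        · obtain rfl : y = j := Sum.inr_injective h2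
          rw [← range_ec]
          exact h.2 y h1
    · intro c z h
      obtain ⟨c, rfl⟩ : c ∈ range (eh O z) := range_eh O z ▸ h
      rw [g_eh]
      exact image_subset_range _ _
    · intro c j h
      obtain ⟨c, rfl⟩ : c ∈ range (ec O j) := range_ec O j ▸ Or.inr h
      rw [g_ec]
      exact image_subset_range _ _
    · rintro j _ ⟨f, rfl⟩ _ ⟨a, rfl⟩ _ ⟨b, rfl⟩ h
      rw [range_ec, O.comm, O.comm] at h
      have h1 := hT.conv f _ ((ncard_pre (ec_inj O j) 𝒟).trans hc) _ ⟨a, rfl⟩ _ ⟨b, rfl⟩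
        (Jn.pull (O.evinj j) (g_ec O j) h)
      rw [O.comm, O.comm]
      refine (jn_push (g_ec O j) h1).mono ?_
      rintro _ ⟨_, ⟨h2, c, rfl⟩, rfl⟩
      exact ⟨h2, rfl⟩
  exact ⟨fun z => (key (Sum.inl z)).1 z rfl, fun j => (key (Sum.inr j)).2 j rfl⟩

/-- Edges of the template go to edges of the host. -/
theorem push (j : O.J) {x y : T.V × K.Φ} (h : T.w.T x y) :
    O.host.w.T (lift (O.ev j) x) (lift (O.ev j) y) := by
  rcases h with ⟨hne, h⟩ | ⟨h1, h2⟩ | ⟨c, u, v, h1, rfl, rfl⟩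
  · refine Or.inl ⟨fun he => hne (lift_injective (O.evinj j) he), ?_⟩
    rcases h with ⟨h1, h2⟩ | ⟨f, x', y', h1, rfl, rfl⟩ | h
    · exact Or.inl ⟨congrArg (O.ev j) h1, h2⟩
    · exact Or.inr (Or.inl ⟨O.ew j f, x', y', h1, lift_comm O j f x', lift_comm O j f y'⟩)
    · exact Or.inr (Or.inr (O.host_adj.2 ⟨j, x, y, h, rfl, rfl⟩))
  · exact Or.inr (Or.inl ⟨congrArg (O.ev j) h1, h2⟩)
  · refine Or.inr (Or.inr ⟨ec O j c, u, v, ?_, ?_, ?_⟩)
    · rw [sg_ec]
      exact h1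
    · rw [ce_ec]
    · rw [ce_ec]

end RR3Aux

open RR3Aux

/-- The object of a cell is its hyperedge or its copy. Cover the objects of 𝒟 and one more object
by a forest; conv_forest, where the hypothesis on atoms comes from RT.conv by Jn.pull along
ev j and the map of cells inl (f, c) ↦ inl (ew j f, c), inr c ↦ inr (j, c). Then pull back
to W (old cells) or to T.w (new cells, positions). -/
theorem RRO.rok (O : RRO T K.gi) (hp : T.Pre) (hW : W.ROK) (hT : T.RT) : O.host.w.ROK := by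
  refine ⟨?_, fun 𝒟 hc c hn a ha b hb h => ?_, ?_⟩
  · rintro (⟨z, c⟩ | ⟨j, c⟩)
    · exact (hW.cell c).lift (O.inj z)
    · exact (hT.cell c).lift (O.evinj j)
  · rcases c with ⟨z, c⟩ | ⟨j, c⟩
    · obtain ⟨a, ha', rfl⟩ : a ∈ O.tup z '' W.g c := g_eh O z c ▸ ha
      obtain ⟨b, hb', rfl⟩ : b ∈ O.tup z '' W.g c := g_eh O z c ▸ hb
      exact congrArg _ (hW.r1 _ ((ncard_pre (eh_inj O z) 𝒟).trans hc) c hn a ha' b hb'
        (Jn.pull (O.inj z) (g_eh O z) ((conv O hT 𝒟 hc).1 z _ ⟨a, rfl⟩ _ ⟨b, rfl⟩ h)))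
    · obtain ⟨a, ha', rfl⟩ : a ∈ O.ev j '' T.w.g (Sum.inr c) := g_ec O j (Sum.inr c) ▸ ha
      obtain ⟨b, hb', rfl⟩ : b ∈ O.ev j '' T.w.g (Sum.inr c) := g_ec O j (Sum.inr c) ▸ hb
      exact congrArg _ (hT.r1 _ ((ncard_pre (ec_inj O j) 𝒟).trans hc) c hn a ha' b hb'
        (Jn.pull (O.evinj j) (g_ec O j) ((conv O hT 𝒟 hc).2 j _ ⟨a, rfl⟩ _ ⟨b, rfl⟩ h)))
  · rintro 𝒟 hc _ ⟨j, p, h1, rfl⟩ h
    exact (hT.rok hp hW).r2 _ ((ncard_pre (ec_inj O j) 𝒟).trans hc) p h1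
      (Jn.pull (O.evinj j) (g_ec O j) ((conv O hT 𝒟 hc).2 j _ ⟨_, rfl⟩ _ ⟨_, rfl⟩ h))

/-- Colour a hyperedge by the colouring it shows, take a monochromatic copy j and pull the
colouring back along lift (ev j). -/
theorem RRO.forc {n : ℕ} (O : RRO T n) {P : (K.Φ → Fin 2) → (K.Φ → Fin 2) → Prop}
    (h : T.HForc P) : O.host.w.Forc P := by
  intro χ hχ βb βr hP hC
  obtain ⟨j, γ, hγ⟩ := O.ram fun z x y => χ (lift (O.tup z) x) (lift (O.tup z) y)
  obtain ⟨i, f, h1, h2⟩ := h (fun x y => χ (lift (O.ev j) x) (lift (O.ev j) y))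
    (fun _ _ => hχ _ _)
    ⟨γ, fun f x y => by
      rw [← hγ f]
      exact congrArg₂ χ (lift_comm O j f x) (lift_comm O j f y)⟩ βb βr hP
    ⟨fun p hp => hC.1 _ ⟨j, p, hp, rfl⟩, fun p hp => hC.2 _ ⟨j, p, hp, rfl⟩⟩
  exact ⟨i, lift (O.ev j) ∘ f, (lift_injective (O.evinj j)).comp h1,
    fun u v huv => ⟨push O j (h2 u v huv).1, (h2 u v huv).2⟩⟩

end Pool.Agent.Lib.MP_781e3b_co.CN
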