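import Pool.Agent.Lib.MP_781e3b_co.CN.RR2
import Pool.Agent.Lib.MP_781e3b_co.CN.RR3

/-!
One Ramsey step.
-/

namespace Pool.Agent.Lib.MP_781e3b_co.CN

open Set Function SimpleGraph

variable {K : Kit} {W : World K} {κb κr κb' κr' : ℝ}

theorem rr_step (hK : K.OK) (T : Tm W) (hp : T.Pre) (ho : T.Ord) (hW : W.BOK κb κr) (hR : W.ROK)
    (hT : T.w.BOK κb' κr') (hr : T.Rooted) (rT : T.RT)
    {P : (K.Φ → Fin 2) → (K.Φ → Fin 2) → Prop} (hf : T.HForc P) :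
    ∃ W' : World K, W'.BOK κb' κr' ∧ W'.ROK ∧ W'.Forc P ∧ (T.PB = ∅ → W'.PB = ∅) ∧
      (T.PR = ∅ → W'.PR = ∅) ∧ (T.w.LabEq → W'.LabEq) := by
  obtain ⟨O⟩ := rr_exists hp ho K.gi
  refine ⟨O.host.w, O.bok hK hp hW hT hr, O.rok hp hR rT, O.forc hf, fun h => ?_, fun h => ?_,
    fun h => ?_⟩
  · exact eq_empty_of_forall_notMem fun p ⟨_, p₀, h1, _⟩ => by rw [h] at h1; exact h1
  · exact eq_empty_of_forall_notMem fun p ⟨_, p₀, h1, _⟩ => by rw [h] at h1; exact h1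
  · rintro _ ⟨j, p₀, h1, rfl⟩
    exact h p₀ h1

theorem World.BOK.le (h : W.BOK κb κr) (h1 : κb ≤ κb') (h2 : κr ≤ κr') : W.BOK κb' κr' :=
  ⟨h.fib, h.good,
    fun p hp => let ⟨a, b, c, d⟩ := h.pb p hp; ⟨a, b, c, fun A hA => (d A hA).le h1⟩,
    fun p hp => let ⟨a, b, c, d, e⟩ := h.pr p hp; ⟨a, b, c, d, fun A hA => (e A hA).le h2⟩⟩

theorem World.BOK.noB (h : W.BOK κb κr) (he : W.PB = ∅) : W.BOK κb' κr :=
  ⟨h.fib, h.good, fun p hp => by rw [he] at hp; exact hp.elim, h.pr⟩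

theorem World.BOK.noR (h : W.BOK κb κr) (he : W.PR = ∅) : W.BOK κb κr' :=
  ⟨h.fib, h.good, h.pb, fun p hp => by rw [he] at hp; exact hp.elim⟩

theorem World.Forc.pc (h : W.Forc PL) : W.Forc PC := fun χ hχ βb βr _ => h χ hχ βb βr trivial

end Pool.Agent.Lib.MP_781e3b_co.CN
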