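import Pool.Agent.Lib.MP_781e3b_co.CN.Red0
import Pool.Agent.Lib.MP_781e3b_co.CN.Bridge

/-!
Red copies: the private copy and the star cells.
-/

namespace Pool.Agent.Lib.MP_781e3b_co.CN

open Set Function SimpleGraph

variable {K : Kit} {W : World K} {U' : Type} [Finite U'] {Y' : SimpleGraph U'} {B : Set U'}
  {φ : U' → W.V × K.Φ}

omit [Finite U'] in
/-- Cell edges have labels that are not private, so along Y' all labels are private, all edges
are edges of X, and all points lie in one fibre. -/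
theorem red_X (hR : W.ROK) (hφ : Injective φ) (he : ∀ u v, Y'.Adj u v → W.R (φ u) (φ v))
    {u v : U'} (hx : K.X (φ u).2 (φ v).2) (hc : Y'.Connected) :
    Pool.Agent.Lib.MP_781e3b_co.Emb Y' K.Y.Adj := by
  have step : ∀ w w', Y'.Adj w w' → (∃ a, (φ w).2 = Sum.inl a) →
      (φ w).1 = (φ w').1 ∧ K.X (φ w).2 (φ w').2 := by
    rintro w w' hw ⟨a, ha⟩
    rcases he w w' hw with h | ⟨c, x, y, hxy, h1, -⟩
    · exact h
    · obtain ⟨z, hz⟩ := (hR.cell c).np x ⟨y, hxy⟩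
      rw [← h1, ha] at hz
      cases hz
  have all : ∀ w, (∃ a, (φ w).2 = Sum.inl a) ∧ (φ w).1 = (φ u).1 := by
    intro w
    have hr : Relation.ReflTransGen Y'.Adj u w :=
      (SimpleGraph.reachable_iff_reflTransGen u w).1 (hc.preconnected u w)
    induction hr with
    | refl =>
      obtain ⟨-, a, b, -, h1, -⟩ := hx
      exact ⟨⟨a, h1⟩, rfl⟩
    | tail _ hs ih =>
      obtain ⟨h1, -, a, b, -, -, h2⟩ := step _ _ hs ih.1
      exact ⟨⟨b, h2⟩, h1.symm.trans ih.2⟩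
  choose f hf using fun w => (all w).1
  refine ⟨f, fun w w' h => hφ (Prod.ext ((all w).2.trans (all w').2.symm) ?_), fun w w' hw => ?_⟩
  · rw [hf, hf, h]
  · obtain ⟨-, -, a, b, hab, h1, h2⟩ := step w w' hw (all w).1
    rw [hf] at h1 h2
    rw [Sum.inl_injective h1, Sum.inl_injective h2]
    exact hab

/-- Let 𝒟 be the set of the chosen cells other than c (at most N ^ 2). For a point a of
g c let Q a be the set of u ∈ B whose ground point is joined to a through 𝒟; these sets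
are disjoint (r1), and an edge of B in another cell stays inside or outside Q a. At most one
t ∈ Q a has an edge in c (CellOK.sig, hφ). If B has an edge in another cell, then by
connectivity some Q a holds two points; it misses one end of u₀ v₀; walk in B - t. So all edges
of B lie in c; this gives f with ce c (f u) = φ u on B. -/
theorem red_sigma (hR : W.ROK) (hN : Nat.card U' ≤ K.N) (hB : TwoC Y' B) (hφ : Injective φ)
    (cell : U' → U' → W.Cell)
    (he : ∀ u ∈ B, ∀ v ∈ B, Y'.Adj u v → ∃ a b, (K.cg (W.sg (cell u v))).Adj a b ∧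
      φ u = W.ce (cell u v) a ∧ φ v = W.ce (cell u v) b)
    {u₀ v₀ : U'} (hu : u₀ ∈ B) (hv : v₀ ∈ B) (h₀ : Y'.Adj u₀ v₀) (hs : W.sg (cell u₀ v₀) = true) :
    ∃ f : U' → K.U, InjOn f B ∧
      ∀ u ∈ B, ∀ v ∈ B, Y'.Adj u v → (K.Y \ St K.Y K.S).Adj (f u) (f v) := by
  classical
  set c := cell u₀ v₀ with hc
  set 𝒟 : Set W.Cell := range (fun p : U' × U' => cell p.1 p.2) \ {c} with h𝒟
  have hcard : 𝒟.ncard ≤ K.N ^ 2 := by
    have h1 : 𝒟.ncard ≤ (range fun p : U' × U' => cell p.1 p.2).ncard :=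
      ncard_le_ncard sdiff_subset (toFinite _)
    have h2 : (range fun p : U' × U' => cell p.1 p.2).ncard ≤ Nat.card (U' × U') := by
      rw [← image_univ, ← ncard_univ]
      exact ncard_image_le (toFinite _)
    rw [Nat.card_prod] at h2
    calc 𝒟.ncard ≤ Nat.card U' * Nat.card U' := h1.trans h2
      _ ≤ K.N * K.N := Nat.mul_le_mul hN hN
      _ = K.N ^ 2 := (sq _).symm
  have hcD : c ∉ 𝒟 := fun h => h.2 rfl
  let E : U' → U' → Prop := fun x y =>
    ∃ a b, (K.cg (W.sg c)).Adj a b ∧ φ x = W.ce c a ∧ φ y = W.ce c b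
  let I : U' → Prop := fun x => ∃ a ∈ (K.cg (W.sg c)).support, φ x = W.ce c a
  let J : U' → U' → Prop := fun x y => Jn W.g 𝒟 (φ x).1 (φ y).1
  have EI : ∀ x y, E x y → I x ∧ I y := by
    rintro x y ⟨a, b, hab, h1, h2⟩
    exact ⟨⟨a, ⟨b, hab⟩, h1⟩, ⟨b, ⟨a, hab.symm⟩, h2⟩⟩
  have key : ∀ x y, I x → I y → J x y → x = y := by
    rintro x y ⟨a, ha, h1⟩ ⟨b, hb, h2⟩ hj
    have h3 : (φ x).1 = (φ y).1 :=
      hR.r1 𝒟 hcard c hcD _ ⟨a, ha, by rw [h1]⟩ _ ⟨b, hb, by rw [h2]⟩ hj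
    rw [h1, h2] at h3
    have h4 : a = b := (hR.cell c).sig hs a b h3
    exact hφ (by rw [h1, h2, h4])
  have alt : ∀ x ∈ B, ∀ y ∈ B, Y'.Adj x y → E x y ∨ J x y := by
    intro x hx y hy hxy
    obtain ⟨a, b, hab, h1, h2⟩ := he x hx y hy hxy
    by_cases h : cell x y = c
    · rw [h] at hab h1 h2
      exact Or.inl ⟨a, b, hab, h1, h2⟩
    · refine Or.inr (Relation.ReflTransGen.single ⟨cell x y, ⟨⟨(x, y), rfl⟩, h⟩, ?_, ?_⟩)
      · exact ⟨a, ⟨b, hab⟩, by rw [h1]⟩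
      · exact ⟨b, ⟨a, hab.symm⟩, by rw [h2]⟩
  have E0 : E u₀ v₀ := he u₀ hu v₀ hv h₀
  have allE : ∀ x ∈ B, ∀ y ∈ B, Y'.Adj x y → E x y := by
    intro x hx y hy hxy
    rcases alt x hx y hy hxy with h | hj
    · exact h
    exfalso
    have jr : J x x := Relation.ReflTransGen.refl
    obtain ⟨z, hz, hzj⟩ : ∃ z ∈ B, ¬ J x z := by
      by_contra hn
      push Not at hn
      exact h₀.ne (key _ _ (EI _ _ E0).1 (EI _ _ E0).2
        (Relation.ReflTransGen.trans (Jn.symm (hn u₀ hu)) (hn v₀ hv)))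
    obtain ⟨t, ht, htu⟩ : ∃ t, J x t ∧ ∀ p, J x p → I p → p = t := by
      by_cases h : ∃ t, J x t ∧ I t
      · obtain ⟨t, h1, h2⟩ := h
        exact ⟨t, h1, fun p h3 h4 =>
          key _ _ h4 h2 (Relation.ReflTransGen.trans (Jn.symm h3) h1)⟩
      · exact ⟨x, jr, fun p h3 h4 => absurd ⟨p, h3, h4⟩ h⟩
    obtain ⟨s, hsB, hsj, hst⟩ : ∃ s ∈ B, J x s ∧ s ≠ t := by
      by_cases h : x = t
      · exact ⟨y, hy, hj, fun h' => hxy.ne (h.trans h'.symm)⟩
      · exact ⟨x, hx, jr, h⟩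
    have hw := hB.2 t s hsB z hz hst fun h => hzj (h ▸ ht)
    apply hzj
    clear hzj hz
    induction hw with
    | refl => exact hsj
    | tail _ hs' ih =>
      obtain ⟨h1, h2, h3, h4, -⟩ := hs'
      rcases alt _ h2 _ h3 h1 with h | h
      · exact absurd (htu _ ih (EI _ _ h).1) h4
      · exact Relation.ReflTransGen.trans ih h
  have allI : ∀ x, ∃ a, x ∈ B → φ x = W.ce c a := by
    intro x
    obtain ⟨a₀, -, h0⟩ := (EI _ _ E0).1
    by_cases hx : x ∈ B
    · obtain ⟨w, -, h1, h2⟩ := BridgeAux.third hB.1 x u₀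
      rcases (hB.2 w x hx u₀ hu h1 h2).cases_head with h | ⟨q, hq, -⟩
      · exact ⟨a₀, fun _ => h ▸ h0⟩
      · obtain ⟨a, -, ha⟩ := (EI _ _ (allE x hx q hq.2.2.1 hq.1)).1
        exact ⟨a, fun _ => ha⟩
    · exact ⟨a₀, fun h => absurd h hx⟩
  choose f hf using allI
  refine ⟨f, fun x hx y hy h => hφ (by rw [hf x hx, hf y hy, h]), fun x hx y hy hxy => ?_⟩
  obtain ⟨a, b, hab, h1, h2⟩ := allE x hx y hy hxy
  have e1 : f x = a := (hR.cell c).inj ((hf x hx).symm.trans h1)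
  have e2 : f y = b := (hR.cell c).inj ((hf y hy).symm.trans h2)
  rw [hs] at hab
  rw [e1, e2]
  exact hab

end Pool.Agent.Lib.MP_781e3b_co.CN
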