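import Pool.Agent.Lib.MP_781e3b_co.CN.Defs

/-!
The set S of star centres (3.4).
-/

namespace Pool.Agent.Lib.MP_781e3b_co.CN

open Set Function SimpleGraph

variable {Ω : Type} [Finite Ω] {Y : SimpleGraph Ω}

/-- Joined in Y - v. -/
def Av (Y : SimpleGraph Ω) (v : Ω) : Ω → Ω → Prop :=
  Relation.ReflTransGen fun x y => Y.Adj x y ∧ x ≠ v ∧ y ≠ v

/-- No third vertex separates a from b. -/
def Cob (Y : SimpleGraph Ω) (a b : Ω) : Prop :=
  a ≠ b ∧ Y.Reachable a b ∧ ∀ v, v ≠ a → v ≠ b → Av Y v a b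

namespace Star0Aux

omit [Finite Ω] in
theorem av_symm {w a b : Ω} (h : Av Y w a b) : Av Y w b a := by
  induction h with
  | refl => exact .refl
  | tail _ s ih => exact .head ⟨s.1.symm, s.2.2, s.2.1⟩ ih

omit [Finite Ω] in
theorem av_seg {f : ℕ → Ω} {n : ℕ} (ad : ∀ i < n, Y.Adj (f i) (f (i + 1))) {w : Ω} {i j : ℕ}
    (hij : i ≤ j) (hj : j ≤ n) (hw : ∀ k, i ≤ k → k ≤ j → f k ≠ w) : Av Y w (f i) (f j) := by
  induction j, hij using Nat.le_induction with
  | base => exact .refl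
  | succ j hij ih =>
    exact (ih (by omega) fun k h1 h2 => hw k h1 (by omega)).tail
      ⟨ad j (by omega), hw j hij (by omega), hw _ (by omega) le_rfl⟩

omit [Finite Ω] in
theorem reach_seg {f : ℕ → Ω} {n : ℕ} (ad : ∀ i < n, Y.Adj (f i) (f (i + 1))) {i j : ℕ}
    (hij : i ≤ j) (hj : j ≤ n) : Y.Reachable (f i) (f j) := by
  induction j, hij using Nat.le_induction with
  | base => rfl
  | succ j hij ih => exact (ih (by omega)).trans (ad j (by omega)).reachable

omit [Finite Ω] in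
/-- Two points of a cycle are Cob. -/
theorem cob_cyc {f : ℕ → Ω} {n : ℕ} (ad : ∀ i < n, Y.Adj (f i) (f (i + 1)))
    (inj : ∀ i ≤ n, ∀ j ≤ n, f i = f j → i = j) (cl : Y.Adj (f 0) (f n)) {i j : ℕ} (hij : i < j)
    (hj : j ≤ n) : Cob Y (f i) (f j) := by
  refine ⟨fun e => hij.ne (inj i (by omega) j hj e), reach_seg ad hij.le hj, fun w h1 h2 => ?_⟩
  by_cases hw : ∀ k, i ≤ k → k ≤ j → f k ≠ w
  · exact av_seg ad hij.le hj hw
  · simp only [not_forall, not_not] at hw
    obtain ⟨k, k1, k2, rfl⟩ := hw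
    have k3 : k ≠ i := fun e => h1 (e ▸ rfl)
    have k4 : k ≠ j := fun e => h2 (e ▸ rfl)
    have ne : ∀ l ≤ n, l ≠ k → f l ≠ f k := fun l hl h e => h (inj l hl k (by omega) e)
    have a := av_seg ad (Nat.zero_le i) (by omega) fun l _ hl => ne l (by omega) (by omega)
    have b := av_seg ad hj le_rfl fun l hl hl' => ne l hl' (by omega)
    exact ((av_symm a).tail ⟨cl, ne 0 (by omega) (by omega), ne n le_rfl (by omega)⟩).trans
      (av_symm b)

omit [Finite Ω] in
/-- A path closed by an edge of Y has at most one point in S. -/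
theorem path {S : Set Ω} (h : ∀ a ∈ S, ∀ b ∈ S, ¬ Cob Y a b) {G : SimpleGraph Ω} (hG : G ≤ Y)
    {u v : Ω} (huv : Y.Adj u v) (r : G.Reachable u v) : ∃ (f : ℕ → Ω) (n : ℕ), f 0 = u ∧ f n = v ∧
      1 ≤ n ∧ (∀ i < n, G.Adj (f i) (f (i + 1))) ∧
      ∀ i ≤ n, ∀ j ≤ n, f i ∈ S → f j ∈ S → i = j := by
  obtain ⟨p, hp⟩ := r.exists_isPath
  have ad : ∀ i < p.length, G.Adj (p.getVert i) (p.getVert (i + 1)) := fun i hi =>
    p.adj_getVert_succ hi
  have cob := fun i j (hij : i < j) (hj : j ≤ p.length) =>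
    cob_cyc (Y := Y) (fun i hi => hG (ad i hi)) (fun i hi j hj e => hp.getVert_injOn hi hj e)
      (by rwa [p.getVert_zero, p.getVert_length]) hij hj
  refine ⟨p.getVert, p.length, p.getVert_zero, p.getVert_length,
    Nat.pos_of_ne_zero fun e => huv.ne (p.eq_of_length_eq_zero e), ad, fun i hi j hj a b => ?_⟩
  rcases lt_trichotomy i j with c | c | c
  · exact absurd (cob i j c hj) (h _ a _ b)
  · exact c
  · exact absurd (cob j i c hi) (h _ b _ a)

omit [Finite Ω] in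
theorem mid {S : Set Ω} (h : ∀ a ∈ S, ∀ b ∈ S, ¬ Cob Y a b) {G : SimpleGraph Ω}
    (hG : G ≤ St Y S) {u v : Ω} (huv : Y.Adj u v) (hu : u ∉ S) (hv : v ∉ S)
    (r : G.Reachable u v) : ∃ s ∈ S, G.Adj s u ∧ G.Adj s v := by
  obtain ⟨f, n, rfl, rfl, n1, ad, one⟩ := path h (fun _ _ a => (hG a).1) huv r
  obtain ⟨m, rfl⟩ : ∃ m, n = m + 1 := ⟨n - 1, by omega⟩
  have a := ad 0 (by omega)
  have b := ad m (by omega)
  have a' := (hG a).2.resolve_left hu
  obtain rfl := one _ (by omega) _ (by omega) a' ((hG b).2.resolve_right hv)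
  exact ⟨_, a', a.symm, b⟩

end Star0Aux

/-- Adjacent points are Cob. For the other two parts take a path in St Y S; it alternates
between S and its complement. If it closes a cycle with two points of S, then two points of S
at distance two on the cycle are Cob: use the common neighbour, or go round the cycle. -/
theorem sok_of_cob {S : Set Ω} (h : ∀ a ∈ S, ∀ b ∈ S, ¬ Cob Y a b) : SOK Y S := by
  refine ⟨fun u hu v hv a => h u hu v hv ⟨a.ne, a.reachable, fun w h1 h2 =>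
    .single ⟨a, h1.symm, h2.symm⟩⟩, ⟨le_rfl, fun u v a r => ?_⟩, fun u v a => ?_⟩
  · obtain ⟨f, n, rfl, rfl, n1, ad, one⟩ := Star0Aux.path h (G := St Y S \ edge u v)
      (fun _ _ b => b.1.1) a.1 r
    have n2 : n ≠ 1 := by
      rintro rfl
      exact (ad 0 one_pos).2 ((edge_adj _ _ _ _).2 ⟨Or.inl ⟨rfl, rfl⟩, a.ne⟩)
    rcases (ad 0 n1).1.2 with b | b
    · rcases (ad 1 (by omega)).1.2 with c | c
      · have := one _ (by omega) _ (by omega) b c
        omega
      · have := one _ (by omega) _ (by omega) b c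
        omega
    · rcases a.2 with c | c
      · have := one _ (by omega) _ (by omega) b c
        omega
      · have := one _ (by omega) _ le_rfl b c
        omega
  · have hu : u ∉ S := fun e => a.2 ⟨a.1, Or.inl e⟩
    have hv : v ∉ S := fun e => a.2 ⟨a.1, Or.inr e⟩
    refine or_iff_not_imp_left.2 fun r => ?_
    obtain ⟨s, hs, s1, s2⟩ := Star0Aux.mid h le_rfl a.1 hu hv (not_not.1 r)
    refine ⟨s, hs, s1.1, s2.1, fun r' => ?_⟩
    let G : SimpleGraph Ω := ⟨fun x y => (St Y S).Adj x y ∧ x ≠ s ∧ y ≠ s,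
      ⟨fun _ _ b => ⟨b.1.symm, b.2.2, b.2.1⟩⟩, ⟨fun _ b => b.1.ne rfl⟩⟩
    obtain ⟨t, ht, t1, t2⟩ := Star0Aux.mid h (G := G) (fun _ _ b => b.1) a.1 hu hv
      ((reachable_iff_reflTransGen _ _).2 r')
    refine h s hs t ht ⟨t1.2.1.symm, s1.1.reachable.trans t1.1.1.symm.reachable,
      fun w h1 h2 => ?_⟩
    by_cases e : u = w
    · have e' : v ≠ w := fun e' => a.1.ne (e.trans e'.symm)
      exact .tail (.single ⟨s2.1, h1.symm, e'⟩) ⟨t2.1.1.symm, e', h2.symm⟩
    · exact .tail (.single ⟨s1.1, h1.symm, e⟩) ⟨t1.1.1.symm, e, h2.symm⟩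

end Pool.Agent.Lib.MP_781e3b_co.CN
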