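import Pool.Agent.Lib.MP_781e3b_co.RR.Sep
import Pool.Agent.Lib.MP_781e3b_co.CN.WDefs

/-!
Padded edges (compare RR/TeeA).
-/

namespace Pool.Agent.Lib.MP_781e3b_co.CN

open Set Function SimpleGraph

variable {U E I : Type} {x y : E → U} {α β : E → I} {d d' : E} {k k' : I} {u u' : U}

theorem tt_α : tt x y α β d (α d) = Sum.inl (x d) := if_pos rfl

theorem tt_β (h : α d ≠ β d) : tt x y α β d (β d) = Sum.inl (y d) :=
  (if_neg h.symm).trans (if_pos rfl)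

theorem tt_inner (h1 : k ≠ α d) (h2 : k ≠ β d) : tt x y α β d k = Sum.inr (d, k) :=
  (if_neg h1).trans (if_neg h2)

namespace TeeAux

theorem cases (x y : E → U) (α β : E → I) (d : E) (k : I) :
    (k = α d ∧ tt x y α β d k = Sum.inl (x d)) ∨ (k = β d ∧ tt x y α β d k = Sum.inl (y d)) ∨
      (k ≠ α d ∧ k ≠ β d ∧ tt x y α β d k = Sum.inr (d, k)) := by
  by_cases h1 : k = α d
  · exact Or.inl ⟨h1, if_pos h1⟩
  by_cases h2 : k = β d
  · exact Or.inr (Or.inl ⟨h2, (if_neg h1).trans (if_pos h2)⟩)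
  · exact Or.inr (Or.inr ⟨h1, h2, tt_inner h1 h2⟩)

/-- The invariant of a walk that starts at u. -/
def Inv (x : E → U) (F : Set E) (r : U → Prop) : U ⊕ E × I → Prop
  | Sum.inl w => r w
  | Sum.inr z => z.1 ∈ F ∧ r (x z.1)

end TeeAux

open TeeAux

theorem tt_eq_inl (h : tt x y α β d k = Sum.inl u) :
    (k = α d ∧ u = x d) ∨ (k = β d ∧ u = y d) := by
  rcases cases x y α β d k with ⟨a, e⟩ | ⟨a, e⟩ | ⟨-, -, e⟩ <;> rw [e] at h
  · exact Or.inl ⟨a, (Sum.inl.inj h).symm⟩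
  · exact Or.inr ⟨a, (Sum.inl.inj h).symm⟩
  · cases h

theorem tt_eq_inr (h : tt x y α β d k = Sum.inr (d', k')) :
    d = d' ∧ k = k' ∧ k ≠ α d ∧ k ≠ β d := by
  rcases cases x y α β d k with ⟨-, e⟩ | ⟨-, e⟩ | ⟨a, b, e⟩ <;> rw [e] at h <;> cases h
  exact ⟨rfl, rfl, a, b⟩

theorem tt_inj (h : x d ≠ y d) : Injective (tt x y α β d) := by
  intro k k' e
  rcases cases x y α β d k' with ⟨a, e'⟩ | ⟨a, e'⟩ | ⟨-, -, e'⟩ <;> rw [e'] at e
  · exact (tt_eq_inl e).elim (fun c => c.1.trans a.symm) fun c => (h c.2).elim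
  · exact (tt_eq_inl e).elim (fun c => (h c.2.symm).elim) fun c => c.1.trans a.symm
  · exact (tt_eq_inr e).2.1

theorem inl_mem_tt (h : α d ≠ β d) : Sum.inl u ∈ range (tt x y α β d) ↔ u = x d ∨ u = y d := by
  refine ⟨fun ⟨_, e⟩ => (tt_eq_inl e).imp And.right And.right, ?_⟩
  rintro (rfl | rfl)
  exacts [⟨_, tt_α⟩, ⟨_, tt_β h⟩]

theorem tt_meet (h : d ≠ d') {v : U ⊕ E × I} (h1 : v ∈ range (tt x y α β d))
    (h2 : v ∈ range (tt x y α β d')) :
    ∃ u, v = Sum.inl u ∧ (u = x d ∨ u = y d) ∧ (u = x d' ∨ u = y d') := by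
  obtain ⟨k, e⟩ := h1
  obtain ⟨k', e'⟩ := h2
  rcases v with u | ⟨d₀, k₀⟩
  · exact ⟨u, rfl, (tt_eq_inl e).imp And.right And.right, (tt_eq_inl e').imp And.right And.right⟩
  · exact (h ((tt_eq_inr e).1.trans (tt_eq_inr e').1.symm)).elim

theorem tt_lin (hxy : ∀ d, x d ≠ y d) (hs : ∀ d d', ({x d, y d} : Set U) = {x d', y d'} → d = d')
    (h : d ≠ d') : (range (tt x y α β d) ∩ range (tt x y α β d')).Subsingleton := by
  have _ := hxy
  intro v hv w hw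
  obtain ⟨a, rfl, a1, a2⟩ := tt_meet h hv.1 hv.2
  obtain ⟨b, rfl, b1, b2⟩ := tt_meet h hw.1 hw.2
  by_contra hn
  have hab : a ≠ b := fun e => hn (congrArg _ e)
  have key : ∀ p q : U, a = p ∨ a = q → b = p ∨ b = q → ({p, q} : Set U) = {a, b} := by
    rintro p q (rfl | rfl) (rfl | rfl)
    exacts [(hab rfl).elim, rfl, pair_comm _ _, (hab rfl).elim]
  exact h (hs _ _ ((key _ _ a1 b1).trans (key _ _ a2 b2).symm))

/-- As RR.tee_good: put inl u at the place M * (o' u + 1) and the inner points just below or above the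
two ends, in the order o. -/
theorem tt_ord [Finite I] (o : I → ℕ) (o' : U → ℕ)
    (h : ∀ d, (o (α d) < o (β d) ∧ o' (x d) < o' (y d)) ∨
      (o (β d) < o (α d) ∧ o' (y d) < o' (x d))) (ho : Injective o) :
    ∃ r : U ⊕ E × I → ℕ, ∀ d k k', o k < o k' → r (tt x y α β d k) < r (tt x y α β d k') := by
  obtain ⟨M₀, hM⟩ := (finite_range o).bddAbove
  set M := M₀ + 2 with hM2
  let ρ : U ⊕ E × I → ℕ := fun
    | Sum.inl u => (o' u + 1) * M
    | Sum.inr (d, k) => max (if o k < o (α d) then 0 else (o' (x d) + 1) * M)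
        (if o k < o (β d) then 0 else (o' (y d) + 1) * M) + 1 + o k
  refine ⟨ρ, fun d k k' hk => ?_⟩
  have hg : ∀ k, (o k = o (α d) ∧ ρ (tt x y α β d k) = (o' (x d) + 1) * M) ∨
      (o k = o (β d) ∧ ρ (tt x y α β d k) = (o' (y d) + 1) * M) ∨
      (o k ≠ o (α d) ∧ o k ≠ o (β d) ∧ ρ (tt x y α β d k) =
        max (if o k < o (α d) then 0 else (o' (x d) + 1) * M)
          (if o k < o (β d) then 0 else (o' (y d) + 1) * M) + 1 + o k) := fun k => by
    rcases cases x y α β d k with ⟨a, e⟩ | ⟨a, e⟩ | ⟨a, b, e⟩ <;> rw [e]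
    exacts [Or.inl ⟨congrArg o a, rfl⟩, Or.inr (Or.inl ⟨congrArg o a, rfl⟩),
      Or.inr (Or.inr ⟨ho.ne a, ho.ne b, rfl⟩)]
  have h3 : o k ≤ M₀ := hM (mem_range_self k)
  have h4 : o k' ≤ M₀ := hM (mem_range_self k')
  have h5 : ∀ a, M ≤ (a + 1) * M := fun a => Nat.le_mul_of_pos_left _ (Nat.succ_pos _)
  have h6 : ∀ a b, a < b → (a + 1) * M + M ≤ (b + 1) * M := fun a b hab => by
    rw [← Nat.succ_mul]
    exact Nat.mul_le_mul_right _ (Nat.succ_le_succ hab)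
  have h7 := (h d).imp (And.imp_right (h6 _ _)) (And.imp_right (h6 _ _))
  have h8 := h5 (o' (x d))
  have h9 := h5 (o' (y d))
  have g1 := hg k
  have g2 := hg k'
  generalize (o' (x d) + 1) * M = A at *
  generalize (o' (y d) + 1) * M = B at *
  split_ifs at g1 g2 <;> omega

/-- A walk through the sets tt d '' Hs, d ∈ X, that starts at inl u and ends at inl u'
gives a walk along the edges of F ∩ X. Invariant: inl w is reached only if w is joined to u,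
and inr (d, k) only if d ∈ F ∩ X and x d is joined to u. -/
theorem tt_reach (F X : Set E) (Hs : Set I) (h2 : ∀ d, d ∉ F → α d ∉ Hs ∧ β d ∉ Hs)
    (h : Jn (fun d => tt x y α β d '' Hs) X (Sum.inl u) (Sum.inl u')) :
    Relation.ReflTransGen
      (fun a b => ∃ d ∈ F ∩ X, (x d = a ∧ y d = b) ∨ (x d = b ∧ y d = a)) u u' := by
  set r := Relation.ReflTransGen
    (fun a b => ∃ d ∈ F ∩ X, (x d = a ∧ y d = b) ∨ (x d = b ∧ y d = a)) u with hr
  have key : ∀ v, Jn (fun d => tt x y α β d '' Hs) X (Sum.inl u) v → Inv x F r v := fun v hv => by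
    induction hv with
    | refl => exact .refl
    | tail _ h ih =>
      obtain ⟨c, hc, ⟨j, hj, rfl⟩, j', -, rfl⟩ := h
      have h1 : c ∈ F ∧ r (x c) := by
        rcases cases x y α β c j with ⟨a, e⟩ | ⟨a, e⟩ | ⟨-, -, e⟩ <;> rw [e] at ih
        · exact ⟨by_contra fun hF => (h2 c hF).1 (a ▸ hj), ih⟩
        · have hF : c ∈ F := by_contra fun hF => (h2 c hF).2 (a ▸ hj)
          exact ⟨hF, .tail ih ⟨c, ⟨hF, hc⟩, Or.inr ⟨rfl, rfl⟩⟩⟩
        · exact ih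
      rcases cases x y α β c j' with ⟨-, e⟩ | ⟨-, e⟩ | ⟨-, -, e⟩ <;> rw [e]
      exacts [h1.2, .tail h1.2 ⟨c, ⟨h1.1, hc⟩, Or.inl ⟨rfl, rfl⟩⟩, h1]
  exact key _ h

/-- Two points of range (tt d) that are joined outside d are equal or the two ends;
tt_reach with X = {d}ᶜ. -/
theorem tt_sep (F : Set E) (hF : RR.Acy x y F) (Hs : Set I)
    (h2 : ∀ d, d ∉ F → α d ∉ Hs ∧ β d ∉ Hs) :
    RR.Sep (fun d => range (tt x y α β d)) (fun d => tt x y α β d '' Hs) univ := by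
  rintro z - v hv w hw h
  rcases h.cases_head with e | ⟨c, ⟨z₁, -, hz₁, h₁, -⟩, -⟩
  · exact e
  rcases h.cases_tail with e | ⟨c', -, z₂, -, hz₂, -, h₂⟩
  · exact e.symm
  obtain ⟨a, rfl, -, a1⟩ := tt_meet hz₁ (image_subset_range _ _ h₁) hv
  obtain ⟨b, rfl, -, b1⟩ := tt_meet hz₂ (image_subset_range _ _ h₂) hw
  have h3 := tt_reach F {z}ᶜ Hs h2
    (Relation.ReflTransGen.mono (fun _ _ ⟨c, _, h1, h2⟩ => ⟨c, h1, h2⟩) _ _ h)
  have h4 : Relation.ReflTransGen (RR.Link x y F z) a b :=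
    Relation.ReflTransGen.mono (fun _ _ ⟨c, h1, h2⟩ => ⟨c, h1.1, h1.2, h2⟩) _ _ h3
  have h5 : Relation.ReflTransGen (RR.Link x y F z) b a := by
    clear h h3 b1 hw h₂
    induction h4 with
    | refl => exact .refl
    | tail _ h ih =>
      obtain ⟨c, h1, h2, h3⟩ := h
      exact .head ⟨c, h1, h2, h3.symm⟩ ih
  rcases a1 with rfl | rfl <;> rcases b1 with rfl | rfl
  · rfl
  · exact (hF z h4).elim
  · exact (hF z h5).elim
  · rfl

theorem placed_adj {P Ω : Type} {Γ : SimpleGraph U} {ι : P → U → Ω} (hι : ∀ p, Injective (ι p))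
    {a b : Ω} : (placed Γ ι).Adj a b ↔ ∃ p u v, Γ.Adj u v ∧ a = ι p u ∧ b = ι p v := by
  rw [placed, iSup_adj]
  refine exists_congr fun p => ⟨fun ⟨_, u, v, h, e, e'⟩ => ⟨u, v, h, e.symm, e'.symm⟩, ?_⟩
  rintro ⟨u, v, h, rfl, rfl⟩
  exact ⟨(hι p).ne h.ne, u, v, h, rfl, rfl⟩

end Pool.Agent.Lib.MP_781e3b_co.CN
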