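import Pool.Agent.Lib.MP_781e3b_co.CN.RRS
import Pool.Agent.Lib.MP_781e3b_co.CN.Tee

/-!
The base template: shape, red side, forcing.
-/

namespace Pool.Agent.Lib.MP_781e3b_co.CN

open Set Function SimpleGraph

variable {K : Kit}

namespace TBase0Aux

theorem not_lo {L : Lv} {Y F : SimpleGraph K.U} (hF : Mat L Y F) {u v : K.U} (h : F.Adj u v)
    (hlt : v < u) : ¬ ∃ w, F.Adj u w ∧ u < w := by
  rintro ⟨w, hw, h2⟩
  rw [← hF.uniq u v w h hw] at h2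
  exact lt_asymm hlt h2

theorem τ_lo (g : K.Pτ) {u v : K.U} (h : K.F.Adj u v) (hlt : u < v) :
    (K.ιτ g u).2 = Sum.inl g.1.1 :=
  if_pos ⟨v, h, hlt⟩

theorem τ_hi (hK : K.OK) (g : K.Pτ) {u v : K.U} (h : K.F.Adj u v) (hlt : v < u) :
    (K.ιτ g u).2 = Sum.inl g.1.2 := by
  have h2 : u ∈ K.F.support := ⟨v, h⟩
  simp only [Kit.ιτ]
  rw [if_neg (not_lo hK.hF h hlt), if_pos h2]

theorem μ_lo (g : K.Pμ) {u v : K.U} (h : K.M.Adj u v) (hlt : u < v) :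
    (K.ιμ g u).2 = Sum.inr g.1.1 :=
  if_pos ⟨v, h, hlt⟩

theorem μ_hi (hK : K.OK) (g : K.Pμ) {u v : K.U} (h : K.M.Adj u v) (hlt : v < u) :
    (K.ιμ g u).2 = Sum.inr g.1.2 :=
  if_neg (not_lo hK.hM h hlt)

/-- The labels of an edge of F are the ends of g. -/
theorem τ_lab (hK : K.OK) (g : K.Pτ) {u v : K.U} (h : K.F.Adj u v) :
    ((K.ιτ g u).2 = Sum.inl g.1.1 ∧ (K.ιτ g v).2 = Sum.inl g.1.2) ∨
      ((K.ιτ g u).2 = Sum.inl g.1.2 ∧ (K.ιτ g v).2 = Sum.inl g.1.1) := by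
  rcases lt_or_gt_of_ne h.ne with hlt | hlt
  · exact Or.inl ⟨τ_lo g h hlt, τ_hi hK g h.symm hlt⟩
  · exact Or.inr ⟨τ_hi hK g h hlt, τ_lo g h.symm hlt⟩

/-- The labels of an edge of M are the ends of g. -/
theorem μ_lab (hK : K.OK) (g : K.Pμ) {u v : K.U} (h : K.M.Adj u v) :
    ((K.ιμ g u).2 = Sum.inr g.1.1 ∧ (K.ιμ g v).2 = Sum.inr g.1.2) ∨
      ((K.ιμ g u).2 = Sum.inr g.1.2 ∧ (K.ιμ g v).2 = Sum.inr g.1.1) := by
  rcases lt_or_gt_of_ne h.ne with hlt | hlt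
  · exact Or.inl ⟨μ_lo g h hlt, μ_hi hK g h.symm hlt⟩
  · exact Or.inr ⟨μ_hi hK g h hlt, μ_lo g h.symm hlt⟩

theorem μ_gr (hK : K.OK) (g : K.Pμ) (u v : K.U) :
    (K.ιμ g u).1 = (K.ιμ g v).1 ↔ u = v ∨ K.M.Adj u v := by
  constructor
  · intro h
    have h1 : insert u (K.M.neighborSet u) = insert v (K.M.neighborSet v) := congrArg Prod.snd h
    have h2 : v ∈ insert u (K.M.neighborSet u) := h1 ▸ mem_insert v _
    exact h2.imp Eq.symm id
  · rintro (rfl | h)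
    · rfl
    · have key : ∀ a b, K.M.Adj a b → insert a (K.M.neighborSet a) = {a, b} := by
        intro a b hab
        ext w
        simp only [mem_insert_iff, mem_neighborSet, mem_singleton_iff]
        exact or_congr_right ⟨fun hw => hK.hM.uniq a w b hw hab, fun hw => hw ▸ hab⟩
      have h1 : insert u (K.M.neighborSet u) = insert v (K.M.neighborSet v) := by
        rw [key u v h, key v u h.symm, pair_comm]
      exact Prod.ext rfl h1

theorem τ_gr (g : K.Pτ) (u v : K.U) :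
    (K.ιτ g u).1 = (K.ιτ g v).1 ↔ piF K.L K.Y K.F u = piF K.L K.Y K.F v :=
  ⟨fun h => congrArg Prod.snd h, fun h => Prod.ext rfl h⟩

/-- The ground points of a cell lie over a part inr c. -/
theorem mem_g {c : (baseT K).w.Cell} {a : K.V₀} (ha : a ∈ (baseT K).w.g c) :
    ∃ g : K.Pμ, c = Sum.inr g ∧ a.1 = Sum.inr g := by
  rcases c with ⟨_, e⟩ | g
  · exact e.elim
  · obtain ⟨u, -, rfl⟩ := ha
    exact ⟨g, rfl, rfl⟩

theorem other {b x : Fin 2} (h : x ≠ b) : x = b + 1 := by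
  revert b x
  decide

end TBase0Aux

open TBase0Aux

/-- good_fibre. -/
theorem pt_bok (hK : K.OK) : (pt K).BOK 0 0 := by
  have h : FibG K.fib (pt K).B := fun _ _ _ => Iff.rfl
  exact ⟨h, fun A _ => good_fibre ⟨hK.hL, hK.fib, h⟩ fun _ _ _ _ => rfl,
    fun _ hp => hp.elim, fun _ hp => hp.elim⟩

theorem pt_rok : (pt K).ROK :=
  ⟨fun c => c.elim, fun _ _ c => c.elim, fun _ _ _ hp => hp.elim⟩

theorem ιτ_of_notMem (g : K.Pτ) {u : K.U} (hu : u ∉ K.F.support) : (K.ιτ g u).2 = Sum.inr u := by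
  simp only [Kit.ιτ]
  rw [if_neg fun ⟨v, h, _⟩ => hu ⟨v, h⟩, if_neg hu]

theorem ιτ_of_mem (g : K.Pτ) {u : K.U} (hu : u ∈ K.F.support) : ∃ v, (K.ιτ g u).2 = Sum.inl v := by
  simp only [Kit.ιτ]
  split_ifs
  · exact ⟨_, rfl⟩
  · exact ⟨_, rfl⟩

/-- piF_eq, cl_end. -/
theorem ιτ_inj (hK : K.OK) (g : K.Pτ) : Injective (K.ιτ g) := by
  intro u v h
  have h1 := (τ_gr g u v).1 (congrArg Prod.fst h)
  have h2 : (K.ιτ g u).2 = (K.ιτ g v).2 := congrArg Prod.snd h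
  by_cases hu : u ∈ K.F.support
  · rcases (piF_eq hK.hL hK.bd hK.hF u v).1 h1 with h3 | h3
    · obtain ⟨w, hw⟩ := hu
      rw [cl_end hK.hL hK.hF hw] at h3
      exact h3.symm
    · rcases τ_lab hK g h3 with ⟨e1, e2⟩ | ⟨e1, e2⟩ <;> rw [e1, e2] at h2
      · exact (g.2.ne (Sum.inl_injective h2)).elim
      · exact (g.2.ne' (Sum.inl_injective h2)).elim
  · by_cases hv : v ∈ K.F.support
    · obtain ⟨w, hw⟩ := ιτ_of_mem g hv
      rw [ιτ_of_notMem g hu, hw] at h2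
      cases h2
    · rw [ιτ_of_notMem g hu, ιτ_of_notMem g hv] at h2
      exact Sum.inr_injective h2

theorem ιμ_cell (hK : K.OK) (g : K.Pμ) : CellOK false (K.ιμ g) := by
  refine ⟨fun u v h => ?_, fun u _ => ?_, fun h => (Bool.false_ne_true h).elim,
    fun _ => μ_gr hK g⟩
  · rcases (μ_gr hK g u v).1 (congrArg Prod.fst h) with h3 | h3
    · exact h3
    · have h2 : (K.ιμ g u).2 = (K.ιμ g v).2 := congrArg Prod.snd h
      rcases μ_lab hK g h3 with ⟨e1, e2⟩ | ⟨e1, e2⟩ <;> rw [e1, e2] at h2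
      · exact (g.2.ne (Sum.inr_injective h2)).elim
      · exact (g.2.ne' (Sum.inr_injective h2)).elim
  · simp only [Kit.ιμ]
    split_ifs
    · exact ⟨_, rfl⟩
    · exact ⟨_, rfl⟩

theorem base_pre (hK : K.OK) : (baseT K).Pre := by
  have hc : ∀ x y, (baseT K).G.Adj x y → x.1 ≠ y.1 := by
    intro x y h
    obtain ⟨g, u, v, huv, rfl, rfl⟩ := (placed_adj (ιτ_inj hK)).1 h
    exact fun e => huv.2 ((τ_gr g u v).1 e)
  refine ⟨fun _ _ _ _ => rfl, fun f f' _ => ?_, hc, ?_⟩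
  · rintro _ ⟨⟨_, rfl⟩, -⟩ _ ⟨⟨_, rfl⟩, -⟩
    rfl
  · rintro x y h f ⟨_, h1⟩ ⟨_, h2⟩
    exact hc x y h (h1.symm.trans h2)

theorem base_ord : (baseT K).Ord :=
  ⟨fun _ => 0, fun _ => 0, fun _ _ _ => rfl, fun _ _ _ h => h⟩

/-- Different cells have disjoint ground sets, which miss the parts inl g. -/
theorem base_rt (hK : K.OK) : (baseT K).RT := by
  refine ⟨ιμ_cell hK, ?_, ?_, ?_⟩
  · rintro f 𝒟 - - _ ⟨_, rfl⟩ _ ⟨_, rfl⟩ -
    rfl
  · intro 𝒟 _ c hc a ha b _ h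
    refine h.eq_of_notMem fun c' hc' ha' => hc ?_
    obtain ⟨g, e1, e2⟩ := mem_g ha
    obtain ⟨g', e3, e4⟩ := mem_g ha'
    rw [e1, Sum.inr_injective (e2.symm.trans e4), ← e3]
    exact hc'
  · rintro _ ⟨g, u, v, huv, -, rfl⟩
    refine Or.inr fun 𝒟 _ h => huv.2 ((τ_gr g u v).1 (h.eq_of_notMem fun c _ ha => ?_))
    obtain ⟨g', -, e⟩ := mem_g ha
    cases e

/-- Let b be the constant and γ the colouring of the fibres. If an edge g of ΨU has a colour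
other than b, then ιμ g is a copy in that colour. Else, if for an edge g of Y every edge of
F placed on it has the colour b (so if F is empty), then ιτ g is a copy of colour b: an
edge of τ lies in a cluster or is a position in one orientation (Ind, piF_eq). Else px holds
and u ↦ (v, inl u) is a copy in the other colour. -/
theorem base_forc (hK : K.OK) : (baseT K).HForc PC := by
  rintro χ hχ ⟨γ, hγ⟩ βb βr ⟨b, hb, hr⟩ ⟨cb, cr⟩
  obtain ⟨u₀, v₀, h₀⟩ := hK.edge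
  have hf : ∀ x y : K.V₀ × K.Φ, x.1 = y.1 → χ x y = γ ((), x.2) ((), y.2) := by
    rintro ⟨f, s⟩ ⟨_, t⟩ rfl
    exact hγ f ((), s) ((), t)
  have hs : ∀ s t, γ ((), s) ((), t) = γ ((), t) ((), s) := fun s t => by
    have p : K.V₀ := (Sum.inl ⟨(u₀, v₀), h₀⟩, ∅)
    rw [← hf (p, s) (p, t) rfl, ← hf (p, t) (p, s) rfl, hχ]
  have hfib : ∀ x y : K.V₀ × K.Φ, x.1 = y.1 → ∀ u v, K.ΨU.Adj u v → x.2 = Sum.inr u →
      y.2 = Sum.inr v → (baseT K).w.T x y := by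
    intro x y e u v huv e1 e2
    refine Or.inl ⟨fun h => huv.ne (Sum.inr_injective (e1.symm.trans (h ▸ e2))),
      Or.inl ⟨e, ?_⟩⟩
    rw [e1, e2]
    exact ⟨Sum.inr_injective.ne huv.ne, u, v, huv, rfl, rfl⟩
  by_cases hA : ∃ g : K.Pμ, γ ((), Sum.inr g.1.1) ((), Sum.inr g.1.2) ≠ b
  · obtain ⟨g, hg⟩ := hA
    refine ⟨b + 1, K.ιμ g, (ιμ_cell hK g).inj, fun u v huv => ?_⟩
    by_cases hM : K.M.Adj u v
    · have e := (μ_gr hK g u v).2 (Or.inr hM)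
      beta_reduce
      rw [hf _ _ e]
      rcases μ_lab hK g hM with ⟨e1, e2⟩ | ⟨e1, e2⟩
      · refine ⟨hfib _ _ e _ _ g.2 e1 e2, ?_⟩
        rw [e1, e2]
        exact other hg
      · refine ⟨hfib _ _ e _ _ g.2.symm e1 e2, ?_⟩
        rw [e1, e2, hs]
        exact other hg
    · have h1 : (K.Y \ K.M).Adj u v := ⟨huv, hM⟩
      refine ⟨Or.inr (Or.inr ⟨Sum.inr g, u, v, h1, rfl, rfl⟩), other ?_⟩
      have := cr _ ⟨g, u, v, h1, rfl⟩
      rwa [hr] at this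
  push Not at hA
  by_cases hB : ∃ g : K.Pτ, ∀ u v, K.F.Adj u v → γ ((), Sum.inl g.1.1) ((), Sum.inl g.1.2) = b
  · obtain ⟨g, hg⟩ := hB
    refine ⟨b, K.ιτ g, ιτ_inj hK g, fun u v huv => ?_⟩
    by_cases hF : K.F.Adj u v
    · have e := (τ_gr g u v).2 ((piF_eq hK.hL hK.bd hK.hF u v).2 (Or.inr hF))
      beta_reduce
      rw [hf _ _ e]
      rcases τ_lab hK g hF with ⟨e1, e2⟩ | ⟨e1, e2⟩
      · refine ⟨Or.inr (Or.inl ⟨e, hK.px u v hF, _, _, g.2, e1, e2⟩), ?_⟩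
        rw [e1, e2]
        exact hg u v hF
      · refine ⟨Or.inr (Or.inl ⟨e, hK.px u v hF, _, _, g.2.symm, e1, e2⟩), ?_⟩
        rw [e1, e2, hs]
        exact hg u v hF
    · have h1 : K.τ.Adj u v := ⟨huv, hF⟩
      by_cases hp : piF K.L K.Y K.F u = piF K.L K.Y K.F v
      · have out : ∀ a c, K.τ.Adj a c → piF K.L K.Y K.F a = piF K.L K.Y K.F c →
            a ∉ K.F.support := by
          rintro a c hac e ⟨w, hw⟩
          have h3 := ((piF_eq hK.hL hK.bd hK.hF a c).1 e).resolve_right hac.2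
          rw [cl_end hK.hL hK.hF hw] at h3
          exact hac.ne' h3
        have h3 := ((piF_eq hK.hL hK.bd hK.hF u v).1 hp).resolve_right hF
        have h4 : K.ΨU.Adj u v :=
          ⟨h1, (cl_eq_iff hK.hL (hK.bd.sub hK.hL sdiff_le).w1).2 h3⟩
        have e := (τ_gr g u v).2 hp
        have e1 := ιτ_of_notMem g (out u v h1 hp)
        have e2 := ιτ_of_notMem g (out v u h1.symm hp.symm)
        refine ⟨hfib _ _ e _ _ h4 e1 e2, ?_⟩
        rw [hf _ _ e, e1, e2]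
        exact hA ⟨(u, v), h4⟩
      · have h2 : K.τx.Adj u v := ⟨h1, hp⟩
        refine ⟨Or.inl ⟨(ιτ_inj hK g).ne huv.ne, Or.inr (Or.inr
          ((placed_adj (ιτ_inj hK)).2 ⟨g, u, v, h2, rfl, rfl⟩))⟩, ?_⟩
        by_cases hv : v ∈ K.F.support
        · have hu : u ∉ K.F.support := by
            rintro ⟨u', hu'⟩
            obtain ⟨v', hv'⟩ := hv
            exact hF (hK.ind u u' v v' hu' hv' huv ▸ hu')
          have := cb _ ⟨g, v, u, h2.symm, hu, rfl⟩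
          rw [hb] at this
          rw [hχ]
          exact this
        · have := cb _ ⟨g, u, v, h2, hv, rfl⟩
          rwa [hb] at this
  · push Not at hB
    obtain ⟨a, c, hac, -⟩ := hB ⟨(u₀, v₀), h₀⟩
    have p : K.V₀ := (Sum.inl ⟨(u₀, v₀), h₀⟩, ∅)
    refine ⟨b + 1, fun u => (p, Sum.inl u),
      fun u v h => Sum.inl_injective (congrArg Prod.snd h), fun u v huv => ?_⟩
    refine ⟨Or.inr (Or.inl ⟨rfl, hK.px a c hac, u, v, huv, rfl, rfl⟩), ?_⟩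
    obtain ⟨_, _, -, h⟩ := hB ⟨(u, v), huv⟩
    exact (hf (p, Sum.inl u) (p, Sum.inl v) rfl).trans (other h)

end Pool.Agent.Lib.MP_781e3b_co.CN
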