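import Pool.Agent.Lib.MP_781e3b_co.CN.TBase0
import Pool.Agent.Lib.MP_781e3b_co.CN.Gadget
import Pool.Agent.Lib.MP_781e3b_co.CN.Parts

/-!
The base template: blue side.
-/

namespace Pool.Agent.Lib.MP_781e3b_co.CN

open Set Function SimpleGraph

variable {K : Kit}

namespace TBase1Aux

theorem ctx (hK : K.OK) : Ctx K.L K.fib (baseT K).B :=
  ⟨hK.hL, hK.fib, (base_pre hK).fib (pt_bok hK).fib⟩

theorem w1 (hK : K.OK) : W1 K.L K.τ univ := (parts_num hK.hL hK.bd hK.hF).w1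

/-- A cross edge is an edge of a placed copy. -/
theorem cross (hK : K.OK) {x y : K.V₀ × K.Φ} (h : (baseT K).B.Adj x y) (hne : x.1 ≠ y.1) :
    ∃ g u v, K.τx.Adj u v ∧ x = K.ιτ g u ∧ y = K.ιτ g v := by
  rcases Tm.cross_cases (T := baseT K) h hne with ⟨f, x', y', -, rfl, rfl⟩ | h
  · exact (hne rfl).elim
  · exact (placed_adj (ιτ_inj hK)).1 h

theorem new (hK : K.OK) (g : K.Pτ) {u v : K.U} (h : K.τx.Adj u v) :
    (baseT K).B.Adj (K.ιτ g u) (K.ιτ g v) :=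
  Tm.adj_new (T := baseT K) ((placed_adj (ιτ_inj hK)).2 ⟨g, u, v, h, rfl, rfl⟩)

theorem lab (g : K.Pτ) {a u : K.U} (h : (K.ιτ g a).2 = Sum.inr u) :
    a ∉ K.F.support ∧ a = u := by
  have ha : a ∉ K.F.support := fun ha => by
    obtain ⟨v, hv⟩ := ιτ_of_mem g ha
    rw [hv] at h
    cases h
  exact ⟨ha, Sum.inr.inj ((ιτ_of_notMem g ha).symm.trans h)⟩

theorem psi {x y : K.Φ} (h : K.fib.Ψ.Adj x y) :
    ∃ u v, K.ΨU.Adj u v ∧ Sum.inr u = x ∧ Sum.inr v = y :=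
  (map_adj' _ _ _ _).1 h |>.2

theorem psi_mk {u v : K.U} (h : K.ΨU.Adj u v) : K.fib.Ψ.Adj (Sum.inr u) (Sum.inr v) :=
  (map_adj' _ _ _ _).2 ⟨fun e => h.ne (Sum.inr.inj e), u, v, h, rfl, rfl⟩

theorem notMem (hK : K.OK) {u v : K.U} (h : K.ΨU.Adj u v) : u ∉ K.F.support := by
  rintro ⟨w, hw⟩
  have h1 : v ∈ cl K.L K.τ u := h.2 ▸ mem_cl hK.hL v
  rw [cl_end hK.hL hK.hF hw] at h1
  exact h.ne h1.symm

theorem piF_cl {u : K.U} (hu : u ∉ K.F.support) : piF K.L K.Y K.F u = cl K.L K.τ u := by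
  ext w
  exact ⟨fun h => h.resolve_right fun h => hu ⟨w, h⟩, Or.inl⟩

/-- A cross edge at a node. -/
theorem node (hK : K.OK) {p : K.V₀} {a : K.U} {y : K.V₀ × K.Φ}
    (h : (baseT K).B.Adj (p, Sum.inr a) y) (hne : p ≠ y.1) : p.2 = cl K.L K.τ a := by
  obtain ⟨g, u, v, -, h1, -⟩ := cross hK h hne
  obtain ⟨h2, rfl⟩ := lab g (congrArg Prod.snd h1).symm
  exact (congrArg (fun z => z.1.2) h1).trans (piF_cl h2)

theorem node_adj (hK : K.OK) {p p' : K.V₀} {a w : K.U}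
    (h : (baseT K).B.Adj (p, Sum.inr a) (p', Sum.inr w)) (hne : p ≠ p') : K.τ.Adj a w := by
  obtain ⟨g, u, v, h0, h1, h2⟩ := cross hK h hne
  obtain ⟨-, rfl⟩ := lab g (congrArg Prod.snd h1).symm
  obtain ⟨-, rfl⟩ := lab g (congrArg Prod.snd h2).symm
  exact h0.1

/-- No edge between different members in one fibre. -/
theorem same (hK : K.OK) {s s' : K.V₀ × K.fib.Mem} (hne : s' ≠ s) (he : s.1 = s'.1) {a w : K.Φ}
    (ha : a ∈ K.fib.nd s.2) (hw : w ∈ K.fib.nd s'.2) :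
    ¬ (baseT K).B.Adj (s.1, a) (s'.1, w) := fun h => by
  rw [← he] at h
  exact hK.fib.sep s.2 s'.2 (fun e => hne (Prod.ext he e).symm) a ha w hw
    (((ctx hK).hG _ _ _).1 h)

/-- The partition of the ground. -/
def part (v : K.V₀) : K.Pτ ⊕ K.V₀ := Sum.elim Sum.inl (fun _ => Sum.inr v) v.1

theorem part_inl {v : K.V₀} {g : K.Pτ} (h : part v = Sum.inl g) : v.1 = Sum.inl g := by
  obtain ⟨g' | g', q⟩ := v
  · exact congrArg Sum.inl (Sum.inl.inj h)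
  · cases h

theorem part_inr {v v' : K.V₀} (h : part v = Sum.inr v') : v = v' := by
  obtain ⟨g' | g', q⟩ := v
  · cases h
  · exact Sum.inr.inj h

/-- A set of points over Pμ splits off. -/
theorem spl (hK : K.OK) (A C : Set K.V₀) (hC : ∀ v ∈ C, ∃ g, v.1 = Sum.inr g) :
    Spl (baseT K).B A C Cᶜ := by
  refine ⟨fun v _ => by rw [union_compl_self]; trivial, fun x y h _ _ hne => Or.inr ?_⟩
  obtain ⟨g, u, v, -, rfl, rfl⟩ := cross hK h hne
  constructor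
  · intro h
    obtain ⟨g', h⟩ := hC _ h
    cases h
  · intro h
    obtain ⟨g', h⟩ := hC _ h
    cases h

end TBase1Aux

open TBase1Aux

/-- Over A all cross edges are edges of the copy ιτ g. parts_num, Num.congr. -/
theorem base_gatom (hK : K.OK) (g : K.Pτ) (A : Set K.V₀) (hA : ∀ v ∈ A, v.1 = Sum.inl g) :
    GAtom K.L K.fib (baseT K).B A K.τ (K.ιτ g) := by
  refine ⟨ctx hK, ιτ_inj hK g, fun a b => ⟨fun h => ?_, fun h => ?_⟩, fun x y h hx _ hne => ?_,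
    fun a w h => ?_, ?_⟩
  · by_cases he : piF K.L K.Y K.F a = piF K.L K.Y K.F b
    · have h1 : K.ΨU.Adj a b := ⟨h, (cl_eq_iff hK.hL (w1 hK)).2
        (((piF_eq hK.hL hK.bd hK.hF a b).1 he).resolve_right h.2)⟩
      refine ⟨(ιτ_inj hK g).ne h.ne, Or.inl ⟨Prod.ext rfl he, ?_⟩⟩
      rw [ιτ_of_notMem g (notMem hK h1), ιτ_of_notMem g (notMem hK h1.symm)]
      exact psi_mk h1
    · exact new hK g ⟨h, he⟩
  · by_cases he : (K.ιτ g a).1 = (K.ιτ g b).1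
    · have h1 : (baseT K).B.Adj ((K.ιτ g a).1, (K.ιτ g a).2) ((K.ιτ g a).1, (K.ιτ g b).2) := by
        nth_rewrite 2 [he]
        exact h
      obtain ⟨u, v, h2, h3, h4⟩ := psi (((ctx hK).hG _ _ _).1 h1)
      obtain ⟨-, rfl⟩ := lab g h3.symm
      obtain ⟨-, rfl⟩ := lab g h4.symm
      exact h2.1
    · obtain ⟨g', u, v, h0, h1, h2⟩ := cross hK h he
      obtain rfl : g = g' := Sum.inl.inj (congrArg (fun z => z.1.1) h1)
      rw [ιτ_inj hK g h1, ιτ_inj hK g h2]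
      exact h0.1
  · obtain ⟨g', u, v, -, rfl, rfl⟩ := cross hK h hne
    obtain rfl : g' = g := Sum.inl.inj (hA _ hx)
    exact ⟨⟨u, rfl⟩, ⟨v, rfl⟩⟩
  · obtain ⟨u, v, h2, h3, rfl⟩ := psi h
    obtain ⟨ha, rfl⟩ := lab g h3.symm
    have hv := notMem hK h2.symm
    refine ⟨v, Prod.ext (Prod.ext rfl ?_) (ιτ_of_notMem g hv)⟩
    exact (piF_cl hv).trans (h2.2.symm.trans (piF_cl ha).symm)
  · exact (parts_num hK.hL hK.bd hK.hF).congr hK.hL fun a b =>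
      ⟨fun h => Prod.ext rfl h, fun h => congrArg Prod.snd h⟩

/-- A member ((inl g, q), N) with q ≠ N has no cross edges. If all members outside the root are
of the form ((inl g, N), N), use Kit.OK.er for these N, with R = v.2. -/
theorem base_e1 (hK : K.OK) (g : K.Pτ) (A : Set K.V₀) (hA : ∀ v ∈ A, v.1 = Sum.inl g) (v : K.V₀) :
    E1 K.fib (baseT K).B A {v} := by
  intro 𝒮 q h𝒮 hex
  by_cases hall : ∀ s ∈ 𝒮, s.1 ≠ v → s.1.2 = s.2.1
  · obtain ⟨R, hR⟩ : ∃ R : Set K.U, ∀ N : K.fib.Mem,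
        N.1 ≠ R ↔ ((Sum.inl g, N.1) : K.V₀) ≠ v := by
      by_cases hv : v.1 = Sum.inl g
      · exact ⟨v.2, fun N => not_congr
          ⟨fun h => Prod.ext hv.symm h, fun h => congrArg Prod.snd h⟩⟩
      · exact ⟨∅, fun N => ⟨fun _ h => hv (congrArg Prod.fst h).symm,
          fun _ => N.2.1.1.1.ne_empty⟩⟩
    obtain ⟨C, ⟨N, hN, rfl⟩, hC, a, ha, b, hb, he, hf⟩ :=
      hK.er {C | ∃ N : K.fib.Mem, (((Sum.inl g, N.1) : K.V₀), N) ∈ 𝒮 ∧ N.1 = C} R q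
        (by
          rintro _ ⟨N, hN, rfl⟩
          exact ⟨N.2, (h𝒮 _ hN).2⟩)
        (by
          obtain ⟨s, hs, hv⟩ := hex
          have h1 : s.1 = (Sum.inl g, s.2.1) := Prod.ext (hA _ (h𝒮 s hs).1) (hall s hs hv)
          exact ⟨s.2.1, ⟨s.2, h1 ▸ hs, rfl⟩, (hR _).2 (h1 ▸ hv)⟩)
    refine ⟨_, hN, (hR N).1 hC, Sum.inr a, Sum.inr b, ⟨a, ha, b, hb, he, rfl, rfl⟩, ?_⟩
    rintro s' hs' hne _ ⟨w, hw, rfl⟩
    have key : ∀ x ∈ N.1, (baseT K).B.Adj ((Sum.inl g, N.1), Sum.inr x) (s'.1, Sum.inr w) →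
        K.τ.Adj x w ∧ (((Sum.inl g, s'.2.1) : K.V₀), s'.2) ∈ 𝒮 ∧ s'.2.1 ≠ N.1 := by
      intro x hx h
      have h0 : ((Sum.inl g, N.1) : K.V₀) ≠ s'.1 := fun e =>
        same hK (s := ((Sum.inl g, N.1), N)) hne e ⟨x, hx, rfl⟩ ⟨w, hw, rfl⟩ h
      have h1 : s'.1 = (Sum.inl g, s'.2.1) := Prod.ext (hA _ (h𝒮 s' hs').1)
        ((node hK h.symm h0.symm).trans (s'.2.2.1.eq_cl hK.hL (w1 hK) hw).symm)
      exact ⟨node_adj hK h h0, h1 ▸ hs', fun e => h0 (by rw [h1, e])⟩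
    constructor
    · intro h
      obtain ⟨h1, h2, h3⟩ := key a ha h
      exact (hf _ ⟨_, h2, rfl⟩ h3 w hw).1 h1
    · intro h
      obtain ⟨h1, h2, h3⟩ := key b hb h
      exact (hf _ ⟨_, h2, rfl⟩ h3 w hw).2 h1
  · push Not at hall
    obtain ⟨s, hs, hv, hne⟩ := hall
    obtain ⟨a, b, ho, -⟩ := hK.fib.two s.2 hK.fib.ne.some
    have key : ∀ x ∈ K.fib.nd s.2, ∀ s' ∈ 𝒮, s' ≠ s → ∀ w ∈ K.fib.nd s'.2,
        ¬ (baseT K).B.Adj (s.1, x) (s'.1, w) := by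
      intro x hx s' _ h1 w hw h
      have h0 : s.1 ≠ s'.1 := fun e => same hK h1 e hx hw h
      obtain ⟨u, hu, rfl⟩ := hx
      exact hne ((node hK h h0).trans (s.2.2.1.eq_cl hK.hL (w1 hK) hu).symm)
    exact ⟨s, hs, hv, a, b, ho, fun s' h1 h2 w hw =>
      ⟨key a (hK.fib.sub _ _ _ ho).1 s' h1 h2 w hw, key b (hK.fib.sub _ _ _ ho).2 s' h1 h2 w hw⟩⟩

/-- good_parts for the partition with one part for each g : Pτ and one for each other point.
Blue positions: parts_pos, PosB.congr, GAtom.pos, PosB.raise. Red positions v ≠ v': these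
points have no cross edges; split_empty with A₁ = {v}, A₂ = {v}ᶜ, and glue_pt with
A₁ = {v, v'}, A₂ = {v, v'}ᶜ for E1. -/
theorem base_bok (hK : K.OK) : ∃ κ : ℝ, 1 ≤ κ ∧ κ < K.L.m ∧ (baseT K).w.BOK κ 0 := by
  obtain ⟨κ, k1, k2, hκ⟩ := parts_pos hK.hL hK.bd hK.hF
  have hc := ctx hK
  have main : ∀ A : Set K.V₀, Good K.L K.fib (baseT K).B A ∧
      ∀ i, Root K.L K.fib (baseT K).B A (part ⁻¹' {i}) := by
    intro A
    refine good_parts hc part (fun x y h _ _ => ?_) fun i => ?_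
    · by_cases he : x.1 = y.1
      · rw [he]
      · obtain ⟨g, u, v, -, rfl, rfl⟩ := cross hK h he
        rfl
    · rcases i with g | v
      · exact ⟨(base_gatom hK g _ fun v hv => part_inl hv.2).good,
          base_e1 hK g _ fun v hv => part_inl hv.2⟩
      · exact good_fibre hc fun x hx y hy => (part_inr hx.2).trans (part_inr hy.2).symm
  refine ⟨κ, k1, k2, hc.hG, fun A _ => (main A).1, ?_, ?_⟩
  · rintro _ ⟨g, u, v, h, hv, rfl⟩
    have hne : (K.ιτ g u).1 ≠ (K.ιτ g v).1 := fun e => h.2 (congrArg Prod.snd e)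
    refine ⟨new hK g h, hne, ⟨v, ιτ_of_notMem g hv⟩, fun A _ => ?_⟩
    refine PosB.raise ((main A).2 (Sum.inl g)) rfl rfl
      ((base_gatom hK g _ fun v hv => part_inl hv.2).pos hne ?_)
    exact PosB.congr (π' := fun a => (K.ιτ g a).1) (hκ u v h.2 hv) fun a b =>
      ⟨fun h => Prod.ext rfl h, fun h => congrArg Prod.snd h⟩
  · rintro _ ⟨g, u, v, h, rfl⟩
    have hne : (K.ιμ g u).1 ≠ (K.ιμ g v).1 := fun e =>
      (((ιμ_cell hK g).mu rfl u v).1 e).elim h.ne h.2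
    refine ⟨⟨Sum.inr g, u, v, h, rfl, rfl⟩, hne, (ιμ_cell hK g).np u ⟨v, h⟩,
      (ιμ_cell hK g).np v ⟨u, h.symm⟩, fun A _ => ⟨?_, ?_⟩⟩
    · refine split_empty hc (main A).1 (spl hK A {(K.ιμ g u).1} ?_) ?_ (fun e => e rfl) hne.symm
      · rintro _ rfl
        exact ⟨g, rfl⟩
      · rw [inter_assoc, inter_compl_self, inter_empty]
    · refine (glue_pt hc (spl hK A {(K.ιμ g u).1, (K.ιμ g v).1} ?_) ?_
        ((main A).1.mono inter_subset_left) ((main A).1.mono inter_subset_left)).2.1.e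
      · rintro _ (rfl | rfl) <;> exact ⟨g, rfl⟩
      · rw [inter_assoc, inter_compl_self, inter_empty]
        exact subsingleton_empty

theorem step_base (hK : K.OK) :
    ∃ (W : World K) (κ : ℝ), 1 ≤ κ ∧ κ < K.L.m ∧ W.BOK κ 0 ∧ W.ROK ∧ W.Forc PC := by
  obtain ⟨κ, h1, h2, h3⟩ := base_bok hK
  obtain ⟨W, a, b, c, -⟩ := rr_step hK (baseT K) (base_pre hK) base_ord (pt_bok hK) pt_rok h3
    (fun f A hA => (h3.good A hA).root (h3.ctx hK)
      ((subsingleton_range _).anti inter_subset_right)) (base_rt hK) (base_forc hK)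
  exact ⟨W, κ, h1, h2, a, b, c⟩

end Pool.Agent.Lib.MP_781e3b_co.CN
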