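import Pool.Agent.Lib.MP_781e3b_co.CN.TBip

/-!
The beta template: shape, red side, forcing.
-/

namespace Pool.Agent.Lib.MP_781e3b_co.CN

open Set Function SimpleGraph

variable {K : Kit} {W : World K} {E : SimpleGraph K.U} {side : K.U → Bool} {κb κr : ℝ}

theorem beta_pre (hW : W.BOK κb κr) (hs : ∀ u v, E.Adj u v → side u ≠ side v) :
    (betaT W E side).Pre := by
  have hP : ∀ p ∈ W.PR, p.1.1 ≠ p.2.1 := fun p hp => (hW.pr p hp).2.1
  refine ⟨bTup_inj, bTup_lin hs, fun x y h => ?_, fun x y h f hx hy => ?_⟩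
  · obtain ⟨p, u, v, huv, rfl, rfl⟩ := (placed_adj bι_inj).1 h
    intro e
    exact huv.ne (congrArg Prod.snd (Sum.inl_injective e))
  · obtain ⟨p, u, v, huv, rfl, rfl⟩ := (placed_adj bι_inj).1 h
    obtain ⟨-, hu⟩ := (inl_mem_bTup hP f p u).1 hx
    obtain ⟨-, hv⟩ := (inl_mem_bTup hP f p v).1 hy
    have hE := f.2.2.1
    rcases hu with hu | hu <;> rcases hv with hv | hv
    · exact huv.ne (hu.trans hv.symm)
    · exact huv.2 (by rw [hu, hv]; exact hE)
    · exact huv.2 (by rw [hu, hv]; exact hE.symm)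
    · exact huv.ne (hu.trans hv.symm)

theorem beta_ord (hW : W.BOK κb κr) (hs : ∀ u v, E.Adj u v → side u ≠ side v) :
    (betaT W E side).Ord := bTup_ord hs fun p hp => (hW.pr p hp).2.1

/-- Cells lie in hyperedges; bTup_sep, bTup_reach, IndF. -/
theorem beta_rt (hE : IndF K.Y E) (hs : ∀ u v, E.Adj u v → side u ≠ side v) :
    (betaT W E side).RT := by
  have sub : ∀ f c₀, (betaT W E side).w.g (Sum.inl (f, c₀)) ⊆ range (bTup W W.PR E side f) := by
    rintro f c₀ _ ⟨u, -, rfl⟩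
    exact ⟨(W.ce c₀ u).1, rfl⟩
  refine ⟨fun c => c.elim, fun f 𝒟 _ hd a ha b hb hj => ?_, fun _ _ c => c.elim,
    fun p hp => ?_⟩
  · refine bTup_sep hs ⟨le_rfl, fun u v h => hE.2 u v (hE.1 h)⟩ f (mem_univ _) a ha b hb ?_
    refine Relation.ReflTransGen.mono ?_ _ _ hj
    rintro x y ⟨c, hc, hx, hy⟩
    rcases c with ⟨f', c₀⟩ | c
    · refine ⟨f', mem_univ _, ?_, sub f' c₀ hx, sub f' c₀ hy⟩
      rintro rfl
      exact disjoint_left.1 hd hc ⟨c₀, rfl⟩
    · exact c.elim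
  · rcases hp with hp | ⟨q, u, v, huv, rfl⟩
    · exact Or.inl hp
    · refine Or.inr fun 𝒟 _ hj => hE.2 u v huv.1 ?_
      have hj' : Jn (fun f => range (bTup W W.PR E side f)) univ (Sum.inl (q, u))
          (Sum.inl (q, v)) := by
        refine Relation.ReflTransGen.mono ?_ _ _ hj
        rintro x y ⟨c, -, hx, hy⟩
        rcases c with ⟨f', c₀⟩ | c
        · exact ⟨f', mem_univ _, sub f' c₀ hx, sub f' c₀ hy⟩
        · exact c.elim
      refine (bTup_reach hj').2.mono fun a b hab => ⟨hab, fun he => huv.2 ?_⟩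
      rcases ((edge_adj u v a b).1 he).1 with ⟨h1, h2⟩ | ⟨h1, h2⟩
      · rw [← h1, ← h2]; exact hab
      · rw [← h1, ← h2]; exact hab.symm

/-- Let b be the constant. If for some position p all edges of E placed on it have the colour
b, then bι p is a copy of colour b (bTup_fst, bTup_snd, Pre.push). Else there is a
hyperedge f, and γ satisfies Cnd; Pre.mono. -/
theorem beta_forc (hW : W.BOK κb κr) (hs : ∀ u v, E.Adj u v → side u ≠ side v)
    (hf : W.Forc PC) (hne : W.PR.Nonempty) : (betaT W E side).HForc PC := by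
  have hP : ∀ p ∈ W.PR, p.1.1 ≠ p.2.1 := fun p hp => (hW.pr p hp).2.1
  have hp := beta_pre hW hs
  rintro χ hχ ⟨γ, hγ⟩ βb βr ⟨b, hb, hr⟩ hc
  have ori : ∀ u v, E.Adj u v → side u = false ∨ side v = false := by
    intro u v h
    have := hs u v h
    cases h1 : side u
    · exact Or.inl rfl
    · cases h2 : side v
      · exact Or.inr rfl
      · exact (this (h1.trans h2.symm)).elim
  by_cases hA : ∃ p : W.PR, ∀ u v, E.Adj u v →
      χ (bι W W.PR E side p u) (bι W W.PR E side p v) = b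
  · obtain ⟨p, hA⟩ := hA
    refine ⟨b, bι W W.PR E side p, bι_inj p, fun u v huv => ?_⟩
    by_cases he : E.Adj u v
    · refine ⟨?_, hA u v he⟩
      obtain ⟨c, s, t, hst, h1, h2⟩ := (hW.pr p.1 p.2).1
      rcases ori u v he with h | h
      · have := hp.push (p, ⟨(u, v), he, h⟩) (x := p.1.1) (y := p.1.2)
          (Or.inr (Or.inr ⟨c, s, t, hst, h1, h2⟩))
        have e1 := bTup_fst (W := W) (P := W.PR) (p, (⟨(u, v), he, h⟩ : PE E side))
        have e2 := bTup_snd (W := W) (P := W.PR) hs hP (p, (⟨(u, v), he, h⟩ : PE E side))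
        exact e1 ▸ e2 ▸ this
      · have := hp.push (p, ⟨(v, u), he.symm, h⟩) (x := p.1.2) (y := p.1.1)
          (Or.inr (Or.inr ⟨c, t, s, hst.symm, h2, h1⟩))
        have e1 := bTup_fst (W := W) (P := W.PR) (p, (⟨(v, u), he.symm, h⟩ : PE E side))
        have e2 := bTup_snd (W := W) (P := W.PR) hs hP (p, (⟨(v, u), he.symm, h⟩ : PE E side))
        exact e1 ▸ e2 ▸ this
    · have hd : (K.Y \ E).Adj u v := ⟨huv, he⟩
      refine ⟨Or.inl (Tm.adj_new ((placed_adj bι_inj).2 ⟨p, u, v, hd, rfl, rfl⟩)), ?_⟩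
      exact (hc.1 _ (Or.inr ⟨p, u, v, hd, rfl⟩)).trans (hb _)
  · push Not at hA
    obtain ⟨p₀, hp₀⟩ := hne
    obtain ⟨u, v, huv, -⟩ := hA ⟨p₀, hp₀⟩
    obtain ⟨f⟩ : Nonempty (W.PR × PE E side) := by
      rcases ori u v huv with h | h
      · exact ⟨(⟨p₀, hp₀⟩, ⟨(u, v), huv, h⟩)⟩
      · exact ⟨(⟨p₀, hp₀⟩, ⟨(v, u), huv.symm, h⟩)⟩
    refine hp.mono f (hf _ (fun x y => hχ _ _) βb βr ⟨b, hb, hr⟩ ⟨fun p hp' => ?_, fun p hp' => ?_⟩)
    · exact hc.1 _ (Or.inl ⟨f, p, hp', rfl⟩)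
    · obtain ⟨s, t, hst, hn⟩ := hA ⟨p, hp'⟩
      rw [bι_colour hs hP hχ hγ ⟨p, hp'⟩ hst] at hn
      rw [hr]
      exact fun e => hn ((hγ f p.1 p.2).symm.trans e)

end Pool.Agent.Lib.MP_781e3b_co.CN
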