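import Pool.Agent.Lib.MP_781e3b_co.CN.RRS
import Pool.Agent.Lib.MP_781e3b_co.CN.Tee

/-!
Bipartite patterns on positions: common facts.
-/

namespace Pool.Agent.Lib.MP_781e3b_co.CN

open Set Function SimpleGraph

variable {K : Kit} {W : World K} {P : Set ((W.V × K.Φ) × (W.V × K.Φ))} {E : SimpleGraph K.U}
  {side : K.U → Bool}

theorem bι_inj (p : P) : Injective (bι W P E side p) := by
  intro u v h
  exact (Prod.mk.inj (Sum.inl.inj (congrArg Prod.fst h))).2

theorem bTup_inj (f : P × PE E side) : Injective (bTup W P E side f) := by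
  exact tt_inj fun h => f.2.2.1.ne (Prod.mk.inj h).2

theorem bTup_simple (hs : ∀ u v, E.Adj u v → side u ≠ side v) (f f' : P × PE E side)
    (h : ({(f.1, f.2.1.1), (f.1, f.2.1.2)} : Set (P × K.U)) = {(f'.1, f'.2.1.1), (f'.1, f'.2.1.2)}) :
    f = f' := by
  obtain ⟨p, ⟨a, b⟩, hab, ha⟩ := f
  obtain ⟨p', ⟨a', b'⟩, hab', ha'⟩ := f'
  rcases Set.pair_eq_pair_iff.1 h with ⟨h1, h2⟩ | ⟨h1, h2⟩
  · obtain ⟨e1, e2⟩ := Prod.mk.inj h1
    obtain ⟨-, e3⟩ := Prod.mk.inj h2
    simp only at e1 e2 e3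
    subst e1 e2 e3
    rfl
  · obtain ⟨-, e2⟩ := Prod.mk.inj h1
    simp only at e2 ha ha' hab'
    subst e2
    exact (hs _ _ hab' (ha'.trans ha.symm)).elim

theorem bTup_lin (hs : ∀ u v, E.Adj u v → side u ≠ side v) (f f' : P × PE E side) (h : f ≠ f') :
    (range (bTup W P E side f) ∩ range (bTup W P E side f')).Subsingleton := by
  exact tt_lin (fun d e => d.2.2.1.ne (Prod.mk.inj e).2) (bTup_simple hs) h

/-- tt_ord with any injective o and o' (p, u) = 0 or 1. -/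
theorem bTup_ord (hs : ∀ u v, E.Adj u v → side u ≠ side v) (hP : ∀ p ∈ P, p.1.1 ≠ p.2.1) :
    ∃ (o : W.V → ℕ) (r : bV W P E side → ℕ), Injective o ∧
      ∀ f k k', o k < o k' → r (bTup W P E side f k) < r (bTup W P E side f k') := by
  obtain ⟨o, ho⟩ := exists_injective_nat W.V
  obtain ⟨r, hr⟩ := tt_ord (x := fun f : P × PE E side => (f.1, f.2.1.1))
    (y := fun f => (f.1, f.2.1.2)) (α := fun f => f.1.1.1.1) (β := fun f => f.1.1.2.1) o
    (fun z => if (o z.1.1.1.1 < o z.1.1.2.1 ↔ side z.2 = true) then 1 else 0) (fun d => by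
      have h1 := d.2.2.2
      have h2 : side d.2.1.2 = true := by
        have := hs _ _ d.2.2.1
        rw [h1] at this
        simpa using this.symm
      rcases lt_or_gt_of_ne (ho.ne (hP _ d.1.2)) with h | h
      · exact Or.inl ⟨h, by simp [h, h1, h2]⟩
      · exact Or.inr ⟨h, by simp [h.not_gt, h1, h2]⟩) ho
  exact ⟨o, r, ho, hr⟩

theorem bTup_fst (f : P × PE E side) :
    lift (bTup W P E side f) f.1.1.1 = bι W P E side f.1 f.2.1.1 := by
  refine Prod.ext (tt_α (x := fun f : P × PE E side => (f.1, f.2.1.1))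
    (y := fun f => (f.1, f.2.1.2)) (α := fun f => f.1.1.1.1) (β := fun f => f.1.1.2.1) (d := f)) ?_
  simp [lift, bι, f.2.2.2]

theorem bTup_snd (hs : ∀ u v, E.Adj u v → side u ≠ side v) (hP : ∀ p ∈ P, p.1.1 ≠ p.2.1)
    (f : P × PE E side) : lift (bTup W P E side f) f.1.1.2 = bι W P E side f.1 f.2.1.2 := by
  refine Prod.ext (tt_β (x := fun f : P × PE E side => (f.1, f.2.1.1))
    (y := fun f => (f.1, f.2.1.2)) (α := fun f => f.1.1.1.1) (β := fun f => f.1.1.2.1) (d := f)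
    (hP _ f.1.2)) ?_
  have h2 : side f.2.1.2 = true := by
    have := hs _ _ f.2.2.1
    rw [f.2.2.2] at this
    simpa using this.symm
  simp [lift, bι, h2]

theorem inl_mem_bTup (hP : ∀ p ∈ P, p.1.1 ≠ p.2.1) (f : P × PE E side) (p : P) (u : K.U) :
    Sum.inl (p, u) ∈ range (bTup W P E side f) ↔ p = f.1 ∧ (u = f.2.1.1 ∨ u = f.2.1.2) := by
  refine (inl_mem_tt (hP _ f.1.2)).trans ?_
  simp only [Prod.mk.injEq]
  tauto

/-- tt_reach with F = X = univ, Hs = univ. -/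
theorem bTup_reach {p p' : P} {u u' : K.U}
    (h : Jn (fun f => range (bTup W P E side f)) univ (Sum.inl (p, u)) (Sum.inl (p', u'))) :
    p = p' ∧ E.Reachable u u' := by
  have h1 := tt_reach (x := fun f : P × PE E side => (f.1, f.2.1.1))
    (y := fun f => (f.1, f.2.1.2)) (α := fun f => f.1.1.1.1) (β := fun f => f.1.1.2.1)
    (u := (p, u)) (u' := (p', u')) univ univ univ (fun d hd => (hd (mem_univ _)).elim)
    (by simp only [image_univ]; exact h)
  suffices H : ∀ z : P × K.U, Relation.ReflTransGen (fun a b => ∃ d ∈ (univ ∩ univ :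
      Set (P × PE E side)), ((d.1, d.2.1.1) = a ∧ (d.1, d.2.1.2) = b) ∨
        ((d.1, d.2.1.1) = b ∧ (d.1, d.2.1.2) = a)) (p, u) z → p = z.1 ∧ E.Reachable u z.2 from
    H _ h1
  intro z hz
  induction hz with
  | refl => exact ⟨rfl, Reachable.refl _⟩
  | tail _ h2 ih =>
    obtain ⟨d, -, ⟨rfl, rfl⟩ | ⟨rfl, rfl⟩⟩ := h2
    · exact ⟨ih.1, ih.2.trans d.2.2.1.reachable⟩
    · exact ⟨ih.1, ih.2.trans d.2.2.1.symm.reachable⟩

/-- tt_sep with F = univ, Hs = univ. -/
theorem bTup_sep (hs : ∀ u v, E.Adj u v → side u ≠ side v) (hE : IndF E E) :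
    RR.Sep (fun f => range (bTup W P E side f)) (fun f => range (bTup W P E side f)) univ := by
  have := tt_sep (x := fun f : P × PE E side => (f.1, f.2.1.1))
    (y := fun f => (f.1, f.2.1.2)) (α := fun f => f.1.1.1.1) (β := fun f => f.1.1.2.1)
    univ (fun d hd => hE.2 _ _ d.2.2.1 ?_) univ (fun d hd => (hd (mem_univ _)).elim)
  · simp only [image_univ] at this
    exact this
  suffices H : ∀ z : P × K.U, Relation.ReflTransGen (RR.Link (fun f : P × PE E side =>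
      (f.1, f.2.1.1)) (fun f => (f.1, f.2.1.2)) univ d) (d.1, d.2.1.1) z →
      d.1 = z.1 ∧ (E \ edge d.2.1.1 d.2.1.2).Reachable d.2.1.1 z.2 from (H _ hd).2
  have key : ∀ d' : P × PE E side, d' ≠ d → d.1 = d'.1 →
      (E \ edge d.2.1.1 d.2.1.2).Adj d'.2.1.1 d'.2.1.2 := fun d' h1 h2 => by
    refine ⟨d'.2.2.1, fun h3 => h1 (bTup_simple hs _ _ ?_)⟩
    rw [edge_adj] at h3
    rw [h2]
    rcases h3.1 with ⟨e1, e2⟩ | ⟨e1, e2⟩
    · rw [e1, e2]
    · rw [e1, e2, Set.pair_comm]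
  intro z hz
  induction hz with
  | refl => exact ⟨rfl, Reachable.refl _⟩
  | tail _ h2 ih =>
    obtain ⟨d', -, h1, ⟨rfl, rfl⟩ | ⟨rfl, rfl⟩⟩ := h2
    · exact ⟨ih.1, ih.2.trans (key d' h1 ih.1).reachable⟩
    · exact ⟨ih.1, ih.2.trans (key d' h1 ih.1).symm.reachable⟩

/-- The edges of E placed on the position p have the colour of p. -/
theorem bι_colour (hs : ∀ u v, E.Adj u v → side u ≠ side v) (hP : ∀ p ∈ P, p.1.1 ≠ p.2.1)
    {χ : bV W P E side × K.Φ → bV W P E side × K.Φ → Fin 2} (hχ : ∀ x y, χ x y = χ y x)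
    {γ : W.Col} (hγ : ∀ f x y, χ (lift (bTup W P E side f) x) (lift (bTup W P E side f) y) = γ x y)
    (p : P) {u v : K.U} (h : E.Adj u v) :
    χ (bι W P E side p u) (bι W P E side p v) = γ p.1.1 p.1.2 := by
  cases hu : side u with
  | false =>
    have := hγ (p, ⟨(u, v), h, hu⟩) p.1.1 p.1.2
    rwa [bTup_fst (p, ⟨(u, v), h, hu⟩), bTup_snd hs hP (p, ⟨(u, v), h, hu⟩)] at this
  | true =>
    have hv : side v = false := by
      have := hs _ _ h
      rw [hu] at this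
      simpa using this.symm
    have := hγ (p, ⟨(v, u), h.symm, hv⟩) p.1.1 p.1.2
    rw [bTup_fst (p, ⟨(v, u), h.symm, hv⟩), bTup_snd hs hP (p, ⟨(v, u), h.symm, hv⟩)] at this
    rw [hχ]
    exact this

end Pool.Agent.Lib.MP_781e3b_co.CN
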