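import Pool.Agent.Lib.MP_781e3b_co.CN.TPair

/-!
The last template: shape, red side, forcing.
-/

namespace Pool.Agent.Lib.MP_781e3b_co.CN

open Set Function SimpleGraph

variable {K : Kit} {W : World K} {o : W.V → ℕ} {κb κr : ℝ}

namespace TFin0Aux

theorem finP_pos {f : W.PR × K.UE} (h : K.F₀.Adj f.2.1.1 f.2.1.2)
    (h1 : o f.1.1.1.1 < o f.1.1.2.1) :
    finP W o false f = Sum.inl f.1.1.1.1 ∧ finP W o true f = Sum.inl f.1.1.2.1 := by
  simp [finP, h, h1]

theorem finP_neg {f : W.PR × K.UE} (h : K.F₀.Adj f.2.1.1 f.2.1.2)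
    (h1 : ¬ o f.1.1.1.1 < o f.1.1.2.1) :
    finP W o false f = Sum.inl f.1.1.2.1 ∧ finP W o true f = Sum.inl f.1.1.1.1 := by
  simp [finP, h, h1]

theorem finP_out {f : W.PR × K.UE} (h : ¬ K.F₀.Adj f.2.1.1 f.2.1.2) (s : Bool) :
    finP W o s f = Sum.inr ((K.un f.1.1.1.2, K.un f.1.1.1.2), s) := by
  simp [finP, h]

/-- The lower end of a hyperedge. -/
abbrev lo (f : W.PR × K.UE) : W.PR × K.U := (f.1, f.2.1.1)

/-- The upper end of a hyperedge. -/
abbrev hi (f : W.PR × K.UE) : W.PR × K.U := (f.1, f.2.1.2)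

theorem T_symm {x y : W.V × K.Φ} (h : W.T x y) : W.T y x := by
  rcases h with h | ⟨h1, h2, u, v, h3, h4, h5⟩ | ⟨c, u, v, h1, h2, h3⟩
  · exact Or.inl h.symm
  · exact Or.inr (Or.inl ⟨h1.symm, h2, v, u, h3.symm, h5, h4⟩)
  · exact Or.inr (Or.inr ⟨c, v, u, h1.symm, h3, h2⟩)

/-- The order on the ground of pairT W. -/
def o2 (o : W.V → ℕ) : W.V ⊕ (K.U × K.U) × Bool → ℕ
  | Sum.inl v => 2 * o v
  | Sum.inr (q, s) => 2 * (2 * Nat.pair q.1 q.2 + s.toNat) + 1

theorem o2_inj (ho : Injective o) : Injective (o2 (K := K) o) := by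
  rintro (v | ⟨⟨a, b⟩, s⟩) (v' | ⟨⟨a', b'⟩, s'⟩) h <;> simp only [o2] at h
  · exact congrArg _ (ho (by omega))
  · omega
  · omega
  · have h1 : s = s' := by
      cases s <;> cases s' <;> simp only [Bool.toNat_false, Bool.toNat_true] at h <;>
        first | rfl | omega
    subst h1
    have h2 : Nat.pair a b = Nat.pair a' b' := by omega
    obtain ⟨h3, h4⟩ := Nat.pair_eq_pair.1 h2
    rw [Fin.ext h3, Fin.ext h4]

theorem acy (hK : K.OK) : RR.Acy (fun f : W.PR × K.UE => (f.1, f.2.1.1)) (fun f => (f.1, f.2.1.2))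
    {f | K.F₀.Adj f.2.1.1 f.2.1.2} := by
  rintro ⟨p, ⟨u, v⟩, huv, hlt⟩ hw
  have key : ∀ z : W.PR × K.U, Relation.ReflTransGen
      (RR.Link (fun f : W.PR × K.UE => (f.1, f.2.1.1)) (fun f => (f.1, f.2.1.2))
        {f | K.F₀.Adj f.2.1.1 f.2.1.2} (p, ⟨(u, v), huv, hlt⟩)) (p, u) z →
      z.1 = p ∧ (K.F₀ \ edge u v).Reachable u z.2 := by
    intro z hz
    induction hz with
    | refl => exact ⟨rfl, .refl _⟩
    | tail _ hs ih =>
      obtain ⟨⟨p', ⟨u', v'⟩, huv', hlt'⟩, hF, hne, hs⟩ := hs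
      have hadj : p' = p → (K.F₀ \ edge u v).Adj u' v' := by
        rintro rfl
        refine ⟨hF, fun he => hne ?_⟩
        rw [edge_adj] at he
        rcases he.1 with ⟨rfl, rfl⟩ | ⟨rfl, rfl⟩
        · rfl
        · exact absurd hlt (lt_asymm hlt')
      rcases hs with ⟨rfl, rfl⟩ | ⟨rfl, rfl⟩
      · exact ⟨ih.1, ih.2.trans (hadj ih.1).reachable⟩
      · exact ⟨ih.1, ih.2.trans (hadj ih.1).symm.reachable⟩
  exact hK.hF₀.2 u v huv (key _ hw).2

end TFin0Aux

open TFin0Aux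

theorem finP_ne (hW : W.BOK κb κr) (f : W.PR × K.UE) : finP W o false f ≠ finP W o true f := by
  have hne := (hW.pr _ f.1.2).2.1
  by_cases h : K.F₀.Adj f.2.1.1 f.2.1.2
  · by_cases h1 : o f.1.1.1.1 < o f.1.1.2.1
    · rw [(finP_pos h h1).1, (finP_pos h h1).2]
      exact fun e => hne (Sum.inl_injective e)
    · rw [(finP_neg h h1).1, (finP_neg h h1).2]
      exact fun e => hne (Sum.inl_injective e).symm
  · rw [finP_out h, finP_out h]
    exact fun e => Bool.false_ne_true (congrArg Prod.snd (Sum.inr_injective e))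

theorem fin_pre : (finT W o).Pre := by
  have hxy : ∀ f : W.PR × K.UE, (f.1, f.2.1.1) ≠ (f.1, f.2.1.2) :=
    fun f e => f.2.2.2.ne (congrArg Prod.snd e)
  refine ⟨fun f => tt_inj (x := lo) (y := hi) (hxy f),
    fun f f' h => tt_lin (x := lo) (y := hi) hxy ?_ h, fun _ _ h => h.elim,
    fun _ _ h => h.elim⟩
  rintro ⟨p, ⟨u, v⟩, huv, hlt⟩ ⟨p', ⟨u', v'⟩, huv', hlt'⟩ h
  rcases Set.pair_eq_pair_iff.1 h with ⟨h1, h2⟩ | ⟨h1, h2⟩
  · obtain ⟨rfl, rfl⟩ := Prod.mk.inj h1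
    obtain ⟨-, rfl⟩ := Prod.mk.inj h2
    rfl
  · obtain ⟨-, rfl⟩ := Prod.mk.inj h1
    obtain ⟨-, rfl⟩ := Prod.mk.inj h2
    exact absurd hlt (lt_asymm hlt')

/-- tt_ord with o' (p, u) = u and an order of the ground of pairT W that extends o and puts
(q, false) before (q, true). -/
theorem fin_ord (hW : W.BOK κb κr) (ho : Injective o) : (finT W o).Ord := by
  suffices h : ∀ f, o2 o (finP W o false f) < o2 o (finP W o true f) by
    obtain ⟨r, hr⟩ := tt_ord (x := lo) (y := hi) (α := finP W o false) (β := finP W o true) (o2 o)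
      (fun z => z.2.1) (fun f => Or.inl ⟨h f, f.2.2.2⟩) (o2_inj ho)
    exact ⟨o2 o, r, o2_inj ho, hr⟩
  intro f
  have hne : o f.1.1.1.1 ≠ o f.1.1.2.1 := fun e => (hW.pr _ f.1.2).2.1 (ho e)
  by_cases h : K.F₀.Adj f.2.1.1 f.2.1.2
  · by_cases h1 : o f.1.1.1.1 < o f.1.1.2.1
    · rw [(finP_pos h h1).1, (finP_pos h h1).2]
      simp only [o2]
      omega
    · rw [(finP_neg h h1).1, (finP_neg h h1).2]
      simp only [o2]
      omega
  · rw [finP_out h, finP_out h]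
    simp [o2]

/-- Cells of pairT W lie over range inl; tt_sep with F the hyperedges of edges of F₀ and
Hs = range inl. -/
theorem fin_rt (hK : K.OK) : (finT W o).RT := by
  refine ⟨fun c => c.elim, fun f 𝒟 _ hd a ha b hb hj => ?_, fun _ _ c => c.elim,
    fun _ h => h.elim⟩
  refine tt_sep (α := finP W o false) (β := finP W o true) _ (acy hK) (range Sum.inl)
    (fun d hd => ?_) f (mem_univ _) a ha b hb (Relation.ReflTransGen.mono ?_ a b hj)
  · rw [finP_out hd, finP_out hd]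
    exact ⟨fun ⟨_, h⟩ => Sum.inl_ne_inr h, fun ⟨_, h⟩ => Sum.inl_ne_inr h⟩
  rintro a b ⟨⟨f', ⟨_, c⟩ | c⟩ | c, hc, h1, h2⟩
  · have hsub : (finT W o).w.g (Sum.inl (f', Sum.inl ((), c))) ⊆
        (finT W o).tup f' '' range Sum.inl := by
      rintro _ ⟨u, -, rfl⟩
      exact ⟨_, ⟨_, rfl⟩, rfl⟩
    refine ⟨f', mem_univ _, fun e => ?_, hsub h1, hsub h2⟩
    exact Set.disjoint_left.1 hd hc ⟨Sum.inl ((), c), by rw [e]⟩
  · exact c.elim
  · exact c.elim

/-- Put β x = γ of the pair (un x, un x). If γ p = β p.1.2 for some position p, then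
u ↦ (inl (p, u), p.1.2) is a copy in this colour. Else take any hyperedge; the colouring of W
that it shows satisfies Cnd with βr := β; Pre.mono twice. -/
theorem fin_forc (hK : K.OK) (hW : W.BOK κb κr) (hf : W.Forc PL) (he : W.PB = ∅) (hl : W.LabEq)
    (hne : W.PR.Nonempty) : (finT W o).HForc PL := by
  rintro χ hχ ⟨γ, hγ⟩ βb - - -
  let β : K.Φ → Fin 2 := fun x =>
    γ (pι W (K.un x, K.un x) false) (pι W (K.un x, K.un x) true)
  by_cases hA : ∃ p ∈ W.PR, γ (lift Sum.inl p.1) (lift Sum.inl p.2) = β p.1.2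
  · obtain ⟨p, hp, hc⟩ := hA
    have up : ∀ u v, K.Y.Adj u v → u < v →
        (finT W o).w.T (Sum.inl (⟨p, hp⟩, u), p.1.2) (Sum.inl (⟨p, hp⟩, v), p.1.2) ∧
          χ (Sum.inl (⟨p, hp⟩, u), p.1.2) (Sum.inl (⟨p, hp⟩, v), p.1.2) = β p.1.2 := by
      intro u v huv hlt
      let f : W.PR × K.UE := (⟨p, hp⟩, ⟨(u, v), huv, hlt⟩)
      have e1 : (Sum.inl (⟨p, hp⟩, u), p.1.2) =
          lift ((finT W o).tup f) (finP W o false f, p.1.2) := 
        Prod.ext (tt_α (x := lo) (y := hi) (α := finP W o false) (d := f)).symm rfl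
      have e2 : (Sum.inl (⟨p, hp⟩, v), p.1.2) =
          lift ((finT W o).tup f) (finP W o true f, p.1.2) :=
        Prod.ext (tt_β (x := lo) (y := hi) (finP_ne hW f)).symm rfl
      rw [e1, e2]
      have hs : ∀ x y, γ x y = γ y x := fun x y => by rw [← hγ f, ← hγ f, hχ]
      suffices h : (pairT W).w.T (finP W o false f, p.1.2) (finP W o true f, p.1.2) ∧
          γ (finP W o false f, p.1.2) (finP W o true f, p.1.2) = β p.1.2 from
        ⟨fin_pre.push f h.1, (hγ f _ _).trans h.2⟩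
      have hT : (pairT W).w.T (lift Sum.inl p.1) (lift Sum.inl p.2) :=
        pair_pre.push () (Or.inr (Or.inr (hW.pr p hp).1))
      have e3 : (lift Sum.inl p.1 : (pairT W).V × K.Φ) = (Sum.inl p.1.1, p.1.2) := rfl
      have e4 : (lift Sum.inl p.2 : (pairT W).V × K.Φ) = (Sum.inl p.2.1, p.1.2) :=
        Prod.ext rfl (hl p hp).symm
      rw [e3, e4] at hT hc
      by_cases h : K.F₀.Adj f.2.1.1 f.2.1.2
      · by_cases h1 : o f.1.1.1.1 < o f.1.1.2.1
        · rw [(finP_pos h h1).1, (finP_pos h h1).2]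
          exact ⟨hT, hc⟩
        · rw [(finP_neg h h1).1, (finP_neg h h1).2]
          exact ⟨T_symm hT, (hs _ _).trans hc⟩
      · rw [finP_out h, finP_out h]
        obtain ⟨w, hw⟩ := (hW.pr p hp).2.2.1
        have e5 : ∀ s, ((Sum.inr ((K.un f.1.1.1.2, K.un f.1.1.1.2), s), p.1.2) :
            (pairT W).V × K.Φ) = pι W (K.un p.1.2, K.un p.1.2) s := by
          intro s
          refine Prod.ext rfl ?_
          cases s <;> simp [pι, hw, Kit.un]
        rw [e5, e5]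
        refine ⟨Or.inl (Tm.adj_new ((placed_adj pι_inj).2 ⟨_, false, true, ?_, rfl, rfl⟩)), rfl⟩
        exact Bool.false_ne_true
    refine ⟨β p.1.2, fun u => (Sum.inl (⟨p, hp⟩, u), p.1.2), fun u v h => ?_, fun u v huv => ?_⟩
    · exact congrArg Prod.snd (Sum.inl_injective (congrArg Prod.fst h))
    · rcases lt_or_gt_of_ne huv.ne with h | h
      · exact up u v huv h
      · exact ⟨T_symm (up v u huv.symm h).1, (hχ _ _).trans (up v u huv.symm h).2⟩
  · obtain ⟨p, hp⟩ := hne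
    obtain ⟨d⟩ : Nonempty K.UE := by
      obtain ⟨u, v, huv⟩ := hK.edge
      rcases lt_or_gt_of_ne huv.ne with h | h
      · exact ⟨⟨(u, v), huv, h⟩⟩
      · exact ⟨⟨(v, u), huv.symm, h⟩⟩
    refine fin_pre.mono (⟨p, hp⟩, d) (pair_pre.mono () (hf _ (fun x y => hχ _ _) βb β trivial
      ⟨fun q hq => by rw [he] at hq; exact hq.elim, fun q hq e => hA ⟨q, hq, ?_⟩⟩))
    exact (hγ _ _ _).symm.trans e

end Pool.Agent.Lib.MP_781e3b_co.CN
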