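import Pool.Agent.Lib.MP_781e3b_co.CN.RRS
import Pool.Agent.Lib.MP_781e3b_co.CN.Tee
import Pool.Agent.Lib.MP_781e3b_co.CN.Beta

/-!
The reference pairs.
-/

namespace Pool.Agent.Lib.MP_781e3b_co.CN

open Set Function SimpleGraph

variable {K : Kit} {W : World K} {κb κr : ℝ}

theorem pι_inj (q : K.U × K.U) : Injective (pι W q) := by
  intro s s' h
  exact congrArg Prod.snd (Sum.inr.inj (congrArg Prod.fst h))

theorem pair_pre : (pairT W).Pre := by
  refine ⟨fun _ => Sum.inl_injective, fun f f' h => (h rfl).elim, fun x y h => ?_,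
    fun x y h f hx => ?_⟩
  · obtain ⟨q, u, v, huv, rfl, rfl⟩ := (placed_adj pι_inj).1 h
    exact fun e => huv.ne (congrArg Prod.snd (Sum.inr.inj e))
  · obtain ⟨q, u, v, huv, rfl, rfl⟩ := (placed_adj pι_inj).1 h
    obtain ⟨k, hk⟩ := hx
    cases hk

/-- A cross edge lies in the old ground or is the edge of a pair. -/
theorem pair_cross {x y : (pairT W).V × K.Φ} (h : (pairT W).B.Adj x y) (hne : x.1 ≠ y.1) :
    (∃ x' y', W.B.Adj x' y' ∧ x = lift Sum.inl x' ∧ y = lift Sum.inl y') ∨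
      ∃ q s, x = pι W q s ∧ y = pι W q (!s) := by
  rcases Tm.cross_cases h hne with ⟨_, x', y', h1, h2, h3⟩ | h
  · exact Or.inl ⟨x', y', h1, h2, h3⟩
  · obtain ⟨q, u, v, huv, rfl, rfl⟩ := (placed_adj pι_inj).1 h
    obtain rfl : v = !u := Bool.eq_not_iff.2 huv.ne'
    exact Or.inr ⟨q, u, rfl, rfl⟩

theorem pair_rt : (pairT W).RT := by
  refine ⟨fun c => c.elim, fun f 𝒟 _ hd a _ b _ hj => hj.eq_of_notMem ?_, fun _ _ c => c.elim, ?_⟩
  · rintro (⟨f', c⟩ | c) hc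
    · exact (disjoint_left.1 hd hc ⟨c, rfl⟩).elim
    · exact c.elim
  · rintro p (⟨p₀, h, rfl⟩ | ⟨q, s, rfl⟩)
    · exact Or.inl ⟨(), p₀, h, rfl⟩
    · refine Or.inr fun 𝒟 _ hj => ?_
      have h := hj.eq_of_notMem (by
        rintro (⟨f', c⟩ | c) _
        · rintro ⟨u, -, hu⟩
          cases hu
        · exact c.elim)
      exact absurd (congrArg Prod.snd (Sum.inr.inj h)) (by cases s <;> simp)

namespace TPairAux

/-- The old ground and the pairs. -/
def part (W : World K) : W.V ⊕ (K.U × K.U) × Bool → Option (K.U × K.U) :=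
  Sum.elim (fun _ => none) fun z => some z.1

theorem part_none : part W ⁻¹' {none} = range Sum.inl := by
  ext (v | v) <;> simp [part]

/-- A pair as a beta atom. -/
def atom (W : World K) (q : K.U × K.U) : BData (W.V ⊕ (K.U × K.U) × Bool) K.Φ Bool Empty where
  Γ := ⊤
  Ep := ⊥
  υ s := Sum.inr (q, s)
  lam s := Sum.inr (if s then q.2 else q.1)
  x := Empty.elim
  y := Empty.elim
  Wd := Empty.elim
  κ := 0
  κ' := 1

theorem atom_ok (hK : K.OK) (hW : W.BOK κb κr) (q : K.U × K.U)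
    (A : Set (W.V ⊕ (K.U × K.U) × Bool)) :
    (atom W q).OK K.L K.fib (pairT W).B (A ∩ part W ⁻¹' {some q}) := by
  have hL := hK.hL
  have h0 : ∀ C : Set Bool, ¬ 1 ≤ ec (⊥ : SimpleGraph Bool) C := fun C => by
    rw [Basic2Aux.ec_zero fun _ _ _ _ h => h]
    exact not_le.2 one_pos
  refine ⟨⟨hL, hK.fib, pair_pre.fib hW.fib⟩, fun s s' h => congrArg Prod.snd (Sum.inr.inj h), ?_,
    fun d => d.elim, fun d => d.elim, fun d => d.elim, fun d => d.elim, ?_, fun d => d.elim,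
    fun d => d.elim, w1_pair hL (by simp), ⟨fun C hC => ?_, fun C h => (h0 C h).elim,
      fun _ _ C h => (h0 C h).elim⟩, le_rfl, zero_le_one, hL.m1⟩
  · rintro (v | ⟨q', s⟩) ⟨-, h⟩
    · cases h
    · obtain rfl : q' = q := Option.some.inj h
      exact Or.inl ⟨s, rfl⟩
  · intro x y h hx _ hne
    rcases pair_cross h hne with ⟨x', y', -, rfl, rfl⟩ | ⟨q', s, rfl, rfl⟩
    · cases hx.2
    · obtain rfl : q' = q := Option.some.inj hx.2
      exact Or.inr ⟨s, !s, by cases s <;> simp [atom], rfl, rfl⟩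
  · obtain ⟨a, ha, b, hb, hab⟩ := hC
    have e : C = {a, b} := by
      refine Subset.antisymm (fun c _ => ?_) (pair_subset ha hb)
      revert hab
      cases a <;> cases b <;> cases c <;> simp
    rw [e, D_pair hL.n3 (show (atom W q).Γ.Adj a b from hab)]
    simp [atom]

theorem parts (hK : K.OK) (hW : W.BOK κb κr) (A : Set (W.V ⊕ (K.U × K.U) × Bool))
    (hA : A.ncard ≤ K.N) : Good K.L K.fib (pairT W).B A ∧
      ∀ i, Root K.L K.fib (pairT W).B A (part W ⁻¹' {i}) := by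
  refine good_parts ⟨hK.hL, hK.fib, pair_pre.fib hW.fib⟩ (part W) (fun x y h _ _ => ?_) ?_
  · by_cases hne : x.1 = y.1
    · rw [hne]
    · rcases pair_cross h hne with ⟨x', y', -, rfl, rfl⟩ | ⟨q', s, rfl, rfl⟩ <;> rfl
  · rintro (_ | q)
    · rw [part_none]
      exact Good.map (hW.ctx hK) Sum.inl_injective (pair_pre.ind hW.fib ())
        (hW.good _ ((ncard_preimage_le Sum.inl_injective).trans hA))
    · exact (atom_ok hK hW q A).good_all

end TPairAux

open TPairAux in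
/-- good_parts for the map to Option (U × U). A pair is a beta atom with U = Bool,
E = Empty, Γ = ⊤, Ep = ⊥, κ = 0, κ' = 1 (w1_pair, D_pair). -/
theorem pair_bok (hK : K.OK) (hW : W.BOK κb κr) (h1 : 1 ≤ κb) : (pairT W).w.BOK κb κr := by
  have hi := pair_pre.ind hW.fib (T := pairT W) ()
  have hr : ∀ A : Set (W.V ⊕ (K.U × K.U) × Bool), A.ncard ≤ K.N →
      Root K.L K.fib (pairT W).B A (range Sum.inl) := fun A hA =>
    part_none (W := W) ▸ (parts hK hW A hA).2 none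
  refine ⟨pair_pre.fib hW.fib, fun A hA => (parts hK hW A hA).1, ?_, ?_⟩
  · rintro p (⟨p₀, h, rfl⟩ | ⟨q, s, rfl⟩)
    · obtain ⟨a, b, c, d⟩ := hW.pb p₀ h
      exact ⟨(hi _ _).1 a, Sum.inl_injective.ne b, c, fun A hA =>
        PosB.raise (hr A hA) ⟨_, rfl⟩ ⟨_, rfl⟩ (PosB.map Sum.inl_injective hi
          (d _ ((ncard_preimage_le Sum.inl_injective).trans hA)))⟩
    · have hs : s ≠ !s := by cases s <;> decide
      exact ⟨Tm.adj_new ((placed_adj pι_inj).2 ⟨q, s, !s, hs, rfl, rfl⟩),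
        fun e => hs (congrArg Prod.snd (Sum.inr.inj e)), ⟨_, rfl⟩, fun A hA =>
        PosB.raise ((parts hK hW A hA).2 (some q)) rfl rfl (((atom_ok hK hW q A).posB hs).le h1)⟩
  · rintro p ⟨p₀, h, rfl⟩
    obtain ⟨⟨c, u, v, a1, a2, a3⟩, b, c1, c2, d⟩ := hW.pr p₀ h
    exact ⟨⟨Sum.inl ((), c), u, v, a1, congrArg (lift Sum.inl) a2, congrArg (lift Sum.inl) a3⟩,
      Sum.inl_injective.ne b, c1, c2, fun A hA =>
      PosR.raise hK.hL (hr A hA) ⟨_, rfl⟩ ⟨_, rfl⟩ (PosR.map Sum.inl_injective hi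
        (d _ ((ncard_preimage_le Sum.inl_injective).trans hA)))⟩

/-- The two orientations of a pair give βb (inr u) = βb (inr v). -/
theorem pair_forc (hK : K.OK) (hW : W.BOK κb κr) (hf : W.Forc PC) (he : W.PR = ∅) :
    (pairT W).w.Forc PL := by
  intro χ hχ βb βr _ hc
  obtain ⟨u₀, -⟩ := hK.edge
  have key : ∀ u, βb (Sum.inr u) = βb (Sum.inr u₀) := fun u => by
    have h1 := hc.1 _ (Or.inr ⟨(u, u₀), false, rfl⟩)
    have h2 := hc.1 _ (Or.inr ⟨(u, u₀), true, rfl⟩)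
    exact h2.symm.trans ((hχ _ _).trans h1)
  refine pair_pre.mono () (hf _ (fun x y => hχ _ _) (fun _ => βb (Sum.inr u₀))
    (fun _ => βb (Sum.inr u₀)) ⟨_, fun _ => rfl, fun _ => rfl⟩
    ⟨fun p hp => ?_, fun p hp => by rw [he] at hp; exact hp.elim⟩)
  obtain ⟨u, hu⟩ := (hW.pb p hp).2.2.1
  exact (hc.1 _ (Or.inl ⟨p, hp, rfl⟩)).trans (hu ▸ key u : βb p.2.2 = _)

end Pool.Agent.Lib.MP_781e3b_co.CN
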