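import Pool.Agent.Lib.MP_781e3b_co.CN.TBip

/-!
The star template: shape, red side.
-/

namespace Pool.Agent.Lib.MP_781e3b_co.CN

open Set Function SimpleGraph

variable {K : Kit} {W : World K} {κb κr : ℝ}

theorem star_side (hK : K.OK) (u v : K.U) (h : (St K.Y K.S).Adj u v) : K.sd u ≠ K.sd v := by
  obtain ⟨h1, h2⟩ := h
  have h3 : ¬ (u ∈ K.S ∧ v ∈ K.S) := fun h => hK.hS.ind u h.1 v h.2 h1
  unfold Kit.sd
  by_cases hu : u ∈ K.S <;> by_cases hv : v ∈ K.S <;> simp_all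

theorem star_pre (hK : K.OK) : (starT W).Pre where
  inj := bTup_inj
  lin := bTup_lin (star_side hK)
  cross := fun _ _ h => h.elim
  out := fun _ _ h => h.elim

theorem star_ord (hK : K.OK) (hW : W.BOK κb κr) : (starT W).Ord :=
  bTup_ord (star_side hK) fun p hp => (hW.pb p hp).2.1

namespace TStar0Aux

theorem jn_symm {C V : Type} {g : C → Set V} {𝒟 : Set C} {a b : V} (h : Jn g 𝒟 a b) :
    Jn g 𝒟 b a := by
  induction h with
  | refl => exact Relation.ReflTransGen.refl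
  | tail _ h2 ih =>
    obtain ⟨c, hc, h3, h4⟩ := h2
    exact Relation.ReflTransGen.head ⟨c, hc, h4, h3⟩ ih

theorem mem_old {f : (starT W).Hy} {c : W.Cell} {v : (starT W).V} :
    v ∈ (starT W).w.g (Sum.inl (f, c)) ↔ ∃ k ∈ W.g c, v = (starT W).tup f k :=
  ⟨fun ⟨u, hu, h⟩ => ⟨_, ⟨u, hu, rfl⟩, h.symm⟩, fun ⟨_, ⟨u, hu, h⟩, h'⟩ => ⟨u, hu, by
    rw [h', ← h]; rfl⟩⟩

theorem tup_inl {f : (starT W).Hy} {k : W.V} {w : W.PB × K.U}
    (h : (starT W).tup f k = Sum.inl w) :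
    (k = f.1.1.1.1 ∧ w = (f.1, f.2.1.1)) ∨ (k = f.1.1.2.1 ∧ w = (f.1, f.2.1.2)) :=
  tt_eq_inl (x := fun f : (starT W).Hy => (f.1, f.2.1.1)) (y := fun f => (f.1, f.2.1.2))
    (α := fun f => f.1.1.1.1) (β := fun f => f.1.1.2.1) (d := f) (k := k) h

theorem tup_inr {f f' : (starT W).Hy} {k k' : W.V}
    (h : (starT W).tup f k = Sum.inr (f', k')) : f = f' ∧ k = k' :=
  have := tt_eq_inr (x := fun f : (starT W).Hy => (f.1, f.2.1.1)) (y := fun f => (f.1, f.2.1.2))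
    (α := fun f => f.1.1.1.1) (β := fun f => f.1.1.2.1) (d := f) (k := k) h
  ⟨this.1, this.2.1⟩

theorem tup_meet {f f' : (starT W).Hy} (h : f ≠ f') {k k' : W.V}
    (hk : (starT W).tup f k = (starT W).tup f' k') : ∃ w, (starT W).tup f k = Sum.inl w := by
  obtain ⟨w, hw, -⟩ := tt_meet (x := fun f : (starT W).Hy => (f.1, f.2.1.1))
    (y := fun f => (f.1, f.2.1.2)) (α := fun f => f.1.1.1.1) (β := fun f => f.1.1.2.1) h
    (v := (starT W).tup f k) ⟨k, rfl⟩ ⟨k', hk.symm⟩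
  exact ⟨w, hw⟩

theorem supp_not_mem {u : K.U} (hu : u ∈ (K.cg true).support) : u ∉ K.S := by
  obtain ⟨v, h1, h2⟩ := hu
  exact fun h => h2 ⟨h1, Or.inl h⟩

theorem mem_new {q : W.PB} {v : (starT W).V} (h : v ∈ (starT W).w.g (Sum.inr q)) :
    ∃ u, u ∉ K.S ∧ v = Sum.inl (q, u) := by
  obtain ⟨u, hu, h⟩ := h
  exact ⟨u, supp_not_mem hu, h.symm⟩

theorem centre_mem (f : (starT W).Hy) : f.2.1.1 ∈ K.S := by
  have h := f.2.2.2
  unfold Kit.sd at h
  simpa using h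

theorem leaf_not_mem (hK : K.OK) (f : (starT W).Hy) : f.2.1.2 ∉ K.S :=
  fun h => hK.hS.ind _ (centre_mem f) _ h f.2.2.1.1

/-- The pull-back of a family of cells to the hyperedge f. -/
def pb (𝒟 : Set (starT W).w.Cell) (f : (starT W).Hy) : Set W.Cell := {c | Sum.inl (f, c) ∈ 𝒟}

theorem pb_card (𝒟 : Set (starT W).w.Cell) (f : (starT W).Hy) : (pb 𝒟 f).ncard ≤ 𝒟.ncard :=
  Set.ncard_le_ncard_of_injOn (fun c => Sum.inl (f, c)) (fun _ hc => hc)
    (fun _ _ _ _ h => (Prod.mk.inj (Sum.inl.inj h)).2) (Set.toFinite _)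

/-- v is near the leaf (p, u). -/
def Near (𝒟 : Set (starT W).w.Cell) (p : W.PB) (u : K.U) (v : (starT W).V) : Prop :=
  v = Sum.inl (p, u) ∨ ∃ f : (starT W).Hy, f.1 = p ∧ f.2.1.2 = u ∧
    ∃ k, v = (starT W).tup f k ∧ Jn W.g (pb 𝒟 f) f.1.1.2.1 k

variable {𝒟 : Set (starT W).w.Cell} {p : W.PB} {u : K.U}

theorem near_inl (hR : W.ROK) (hD : 𝒟.ncard ≤ K.N ^ 2) {w : W.PB × K.U}
    (h : Near 𝒟 p u (Sum.inl w)) : w = (p, u) := by
  rcases h with h | ⟨f, rfl, rfl, k, h1, h2⟩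
  · exact Sum.inl.inj h
  · rcases tup_inl h1.symm with ⟨rfl, -⟩ | ⟨-, h3⟩
    · exact (hR.r2 _ ((pb_card 𝒟 f).trans hD) f.1.1 f.1.2 (jn_symm h2)).elim
    · exact h3

theorem near_old (hR : W.ROK) (hD : 𝒟.ncard ≤ K.N ^ 2) (hu : u ∉ K.S) {f : (starT W).Hy}
    {c : W.Cell} (hc : Sum.inl (f, c) ∈ 𝒟) {v v' : (starT W).V} (h : Near 𝒟 p u v)
    (hv : v ∈ (starT W).w.g (Sum.inl (f, c))) (hv' : v' ∈ (starT W).w.g (Sum.inl (f, c))) :
    Near 𝒟 p u v' := by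
  obtain ⟨k, hk, rfl⟩ := mem_old.1 hv
  obtain ⟨k', hk', rfl⟩ := mem_old.1 hv'
  have key : (starT W).tup f k = Sum.inl (p, u) → Near 𝒟 p u ((starT W).tup f k') := fun h => by
    rcases tup_inl h with ⟨-, h3⟩ | ⟨h2, h3⟩
    · exact (hu ((Prod.mk.inj h3).2 ▸ centre_mem f)).elim
    · refine Or.inr ⟨f, (Prod.mk.inj h3).1.symm, (Prod.mk.inj h3).2.symm, k', rfl, ?_⟩
      exact Relation.ReflTransGen.single ⟨c, hc, h2 ▸ hk, hk'⟩
  by_cases h0 : ∃ w, (starT W).tup f k = Sum.inl w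
  · obtain ⟨w, hw⟩ := h0
    rw [hw] at h
    exact key (hw.trans (congrArg Sum.inl (near_inl hR hD h)))
  rcases h with h | ⟨f', h1, h2, k₀, h3, h4⟩
  · exact key h
  · by_cases hf : f = f'
    · subst hf
      obtain rfl : k = k₀ := bTup_inj f h3
      exact Or.inr ⟨f, h1, h2, k', rfl, h4.tail ⟨c, hc, hk, hk'⟩⟩
    · exact (h0 (tup_meet hf h3)).elim

theorem near_same (hR : W.ROK) (hD : 𝒟.ncard ≤ K.N ^ 2) (hu : u ∉ K.S) (hp : Sum.inr p ∉ 𝒟)
    {v : (starT W).V} (h : Jn (starT W).w.g 𝒟 (Sum.inl (p, u)) v) : Near 𝒟 p u v := by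
  induction h with
  | refl => exact Or.inl rfl
  | tail _ h2 ih =>
    obtain ⟨⟨f, c⟩ | q, hc, h3, h4⟩ := h2
    · exact near_old hR hD hu hc ih h3 h4
    · obtain ⟨u₁, -, rfl⟩ := mem_new h3
      obtain rfl : q = p := (Prod.mk.inj (near_inl hR hD ih)).1
      exact (hp hc).elim

theorem near_some (hR : W.ROK) (hD : 𝒟.ncard ≤ K.N ^ 2) (hu : u ∉ K.S)
    {v : (starT W).V} (h : Jn (starT W).w.g 𝒟 (Sum.inl (p, u)) v) :
    ∃ q u', u' ∉ K.S ∧ Near 𝒟 q u' v := by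
  induction h with
  | refl => exact ⟨p, u, hu, Or.inl rfl⟩
  | tail _ h2 ih =>
    obtain ⟨⟨f, c⟩ | q, hc, h3, h4⟩ := h2
    · obtain ⟨q, u', hu', ih⟩ := ih
      exact ⟨q, u', hu', near_old hR hD hu' hc ih h3 h4⟩
    · obtain ⟨u₁, h5, rfl⟩ := mem_new h4
      exact ⟨q, u₁, h5, Or.inl rfl⟩

theorem inner_eq {f : (starT W).Hy} (hd : Disjoint 𝒟 ((starT W).old f)) {k : W.V}
    {b : (starT W).V} (h : Jn (starT W).w.g 𝒟 (Sum.inr (f, k)) b) : Sum.inr (f, k) = b := by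
  rcases h.cases_head with h | ⟨_, ⟨⟨f', c⟩ | q, hc, h3, -⟩, -⟩
  · exact h
  · obtain ⟨k', -, h4⟩ := mem_old.1 h3
    obtain rfl : f' = f := (tup_inr h4.symm).1
    exact (Set.disjoint_left.1 hd hc ⟨c, rfl⟩).elim
  · obtain ⟨u₁, -, h4⟩ := mem_new h3
    exact (Sum.inr_ne_inl h4).elim

theorem tup_cases (f : (starT W).Hy) (k : W.V) :
    (starT W).tup f k = Sum.inl (f.1, f.2.1.1) ∨ (starT W).tup f k = Sum.inl (f.1, f.2.1.2) ∨
      (starT W).tup f k = Sum.inr (f, k) := by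
  rcases h : (starT W).tup f k with w | ⟨f', k'⟩
  · rcases tup_inl h with ⟨-, h3⟩ | ⟨-, h3⟩
    · exact Or.inl (congrArg Sum.inl h3)
    · exact Or.inr (Or.inl (congrArg Sum.inl h3))
  · obtain ⟨rfl, rfl⟩ := tup_inr h
    exact Or.inr (Or.inr rfl)

theorem leaf_centre (hK : K.OK) (hR : W.ROK) (hD : 𝒟.ncard ≤ K.N ^ 2) (f : (starT W).Hy) :
    ¬ Jn (starT W).w.g 𝒟 (Sum.inl (f.1, f.2.1.2)) (Sum.inl (f.1, f.2.1.1)) := fun h => by
  obtain ⟨q, u', hu', h⟩ := near_some hR hD (leaf_not_mem hK f) h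
  exact hu' ((Prod.mk.inj (near_inl hR hD h)).2 ▸ centre_mem f)

end TStar0Aux

open TStar0Aux

/-- For a family 𝒟 let 𝒟 f be its pull-back along c ↦ inl (f, c). Call v near the leaf
(p, u), u ∉ S, if v = inl (p, u) or v = bTup f k for a hyperedge f with this leaf and
Jn W.g (𝒟 f) (leaf of p) k. By ROK.r2 no inl (p, s), s ∈ S, and no other inl point is
near (p, u). A step through an old cell stays near the same leaf; a step through the new cell p
goes from a leaf of p to a leaf of p. This gives r1, and h1: a point strictly inside f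
lies in no cell outside old f, and a leaf is not joined to a centre. -/
theorem star_rt (hK : K.OK) (hW : W.BOK κb κr) (hR : W.ROK) : (starT W).RT := by
  refine ⟨fun c => ⟨bι_inj c, fun u hu => ?_, fun _ u v h => ?_, fun h => by simp at h⟩,
    fun f 𝒟 hD hd a ha b hb h => ?_, fun 𝒟 hD c hc a ha b hb h => ?_, fun p hp => hp.elim⟩
  · have h1 : K.sd u = true := by
      unfold Kit.sd
      simpa using supp_not_mem hu
    have h2 := (hW.pb c.1 c.2).2.2.1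
    simpa [bι, h1] using h2
  · exact (Prod.mk.inj (Sum.inl.inj h)).2
  · obtain ⟨k, rfl⟩ := ha
    obtain ⟨k', rfl⟩ := hb
    rcases tup_cases f k with h1 | h1 | h1
    · rcases tup_cases f k' with h2 | h2 | h2
      · rw [h1, h2]
      · rw [h1, h2] at h
        exact (leaf_centre hK hR hD f (jn_symm h)).elim
      · rw [h2] at h ⊢
        exact (inner_eq hd (jn_symm h)).symm
    · rcases tup_cases f k' with h2 | h2 | h2
      · rw [h1, h2] at h
        exact (leaf_centre hK hR hD f h).elim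
      · rw [h1, h2]
      · rw [h2] at h ⊢
        exact (inner_eq hd (jn_symm h)).symm
    · rw [h1] at h ⊢
      exact inner_eq hd h
  · obtain ⟨u, hu, rfl⟩ := mem_new ha
    obtain ⟨u', -, rfl⟩ := mem_new hb
    exact congrArg Sum.inl (near_inl hR hD (near_same hR hD hu hc h)).symm

end Pool.Agent.Lib.MP_781e3b_co.CN
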